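import Mathlib
import Pool.Agent.H.MP_e5d137_al.FillBar

/-!
# Superlinear lower bounds: basic definitions

Chains are the list chains `LC Γ` of `Bar.lean`; a simplex is a list, a `p`-simplex has length
`p + 1`; `gr k` are the chains on lists of length `k`.
-/

namespace Pool.Agent.H.MP_e5d137_al.SL

open Finsupp

set_option linter.unusedSectionVars false

variable {Γ : Type} [Group Γ]

/-- left translation of a chain -/
noncomputable def tr (h : Γ) : LC Γ →ₗ[ℤ] LC Γ := mapL (fun x => h * x)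

@[simp] lemma tr_single (h : Γ) (σ : List Γ) (k : ℤ) :
    tr h (single σ k) = single (σ.map (fun x => h * x)) k := mapL_single _ _ _

lemma tr_mul (g h : Γ) (c : LC Γ) : tr (g * h) c = tr g (tr h c) := by
  unfold tr
  rw [mapL_comp]
  congr 2
  funext x
  simp [mul_assoc]

lemma tr_one (c : LC Γ) : tr (1 : Γ) c = c := by
  unfold tr
  simp only [one_mul]
  exact mapL_id c

lemma tr_inv_tr (h : Γ) (c : LC Γ) : tr h⁻¹ (tr h c) = c := by
  rw [← tr_mul, inv_mul_cancel, tr_one]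

lemma tr_tr_inv (h : Γ) (c : LC Γ) : tr h (tr h⁻¹ c) = c := by
  rw [← tr_mul, mul_inv_cancel, tr_one]

lemma tr_mem_gr {k : ℕ} (h : Γ) {c : LC Γ} (hc : c ∈ gr (Γ := Γ) k) : tr h c ∈ gr (Γ := Γ) k := by
  refine gr_induction (p := fun c => tr h c ∈ gr (Γ := Γ) k) ?_ ?_ ?_ c hc
  · rw [map_zero]; exact Submodule.zero_mem _
  · intro a b ha hb; rw [map_add]; exact Submodule.add_mem _ ha hb
  · intro σ n hσ
    rw [tr_single]
    exact single_mem_gr (by simp [hσ]) n

/-- the non-augmented boundary: zero on vertices (and on the empty list) -/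
noncomputable def bd0 : LC Γ →ₗ[ℤ] LC Γ :=
  Finsupp.linearCombination ℤ (fun σ => if σ.length ≤ 1 then 0 else bdl σ)

lemma bd0_single (σ : List Γ) (k : ℤ) :
    bd0 (single σ k) = k • (if σ.length ≤ 1 then 0 else bdl σ) := by
  simp [bd0]

lemma bd0_of_gr {i : ℕ} {c : LC Γ} (hc : c ∈ gr (Γ := Γ) (i + 2)) : bd0 c = bdL c := by
  refine gr_induction (p := fun c => bd0 c = bdL c) ?_ ?_ ?_ c hc
  · simp
  · intro a b ha hb; rw [map_add, map_add, ha, hb]
  · intro σ n hσ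
    rw [bd0_single, bdL_single, if_neg (by omega)]

lemma bd0_gr_one {c : LC Γ} (hc : c ∈ gr (Γ := Γ) 1) : bd0 c = 0 := by
  refine gr_induction (p := fun c => bd0 c = 0) ?_ ?_ ?_ c hc
  · simp
  · intro a b ha hb; rw [map_add, ha, hb, add_zero]
  · intro σ n hσ
    rw [bd0_single, if_pos (by omega), smul_zero]

lemma bdL_mem_gr {i : ℕ} {c : LC Γ} (hc : c ∈ gr (Γ := Γ) (i + 1)) : bdL c ∈ gr (Γ := Γ) i := by
  refine gr_induction (p := fun c => bdL c ∈ gr (Γ := Γ) i) ?_ ?_ ?_ c hc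
  · rw [map_zero]; exact Submodule.zero_mem _
  · intro a b ha hb; rw [map_add]; exact Submodule.add_mem _ ha hb
  · intro σ n hσ
    rw [bdL_single]
    exact Submodule.smul_mem _ _ (bdl_mem_gr σ hσ)

lemma bd0_mem_gr {i : ℕ} {c : LC Γ} (hc : c ∈ gr (Γ := Γ) (i + 1)) : bd0 c ∈ gr (Γ := Γ) i := by
  rcases i with _ | i
  · rw [bd0_gr_one hc]; exact Submodule.zero_mem _
  · rw [bd0_of_gr hc]; exact bdL_mem_gr hc

lemma bd0_bd0 {i : ℕ} {c : LC Γ} (hc : c ∈ gr (Γ := Γ) (i + 2)) : bd0 (bd0 c) = 0 := by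
  rcases i with _ | i
  · exact bd0_gr_one (bd0_mem_gr hc)
  · rw [bd0_of_gr hc, bd0_of_gr (bdL_mem_gr hc), bdL_bdL]

lemma bdL_tr (h : Γ) (c : LC Γ) : bdL (tr h c) = tr h (bdL c) := bdL_mapL _ _

lemma bd0_tr (h : Γ) (c : LC Γ) : bd0 (tr h c) = tr h (bd0 c) := by
  induction c using Finsupp.induction_linear with
  | zero => simp
  | add a b ha hb => simp only [map_add, ha, hb]
  | single σ k =>
    rw [tr_single, bd0_single, bd0_single, map_smul, List.length_map]
    congr 1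
    split_ifs
    · rw [map_zero]
    · exact bdl_map _ _

/-- `I N k`: the chains of degree `k` which vanish in the coinvariants of `N` -/
noncomputable def I (N : Subgroup Γ) (k : ℕ) : Submodule ℤ (LC Γ) :=
  Submodule.span ℤ {x | ∃ h ∈ N, ∃ σ : List Γ, σ.length = k ∧
    x = single (σ.map (fun x => h * x)) 1 - single σ 1}

lemma I_le_gr (N : Subgroup Γ) (k : ℕ) : I N k ≤ gr (Γ := Γ) k := by
  rw [I, Submodule.span_le]
  rintro _ ⟨h, -, σ, hσ, rfl⟩
  exact Submodule.sub_mem _ (single_mem_gr (by simp [hσ]) 1) (single_mem_gr hσ 1)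

lemma tr_sub_mem_I {N : Subgroup Γ} {k : ℕ} {h : Γ} (hh : h ∈ N) {c : LC Γ}
    (hc : c ∈ gr (Γ := Γ) k) : tr h c - c ∈ I N k := by
  refine gr_induction (p := fun c => tr h c - c ∈ I N k) ?_ ?_ ?_ c hc
  · simp
  · intro a b ha hb
    have := Submodule.add_mem _ ha hb
    rw [map_add]
    convert this using 1
    abel
  · intro σ n hσ
    have : tr h (single σ n) - single σ n =
        n • (single (σ.map (fun x => h * x)) 1 - single σ 1 : LC Γ) := by
      rw [tr_single, smul_sub]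
      simp
    rw [this]
    exact Submodule.smul_mem _ _ (Submodule.subset_span ⟨h, hh, σ, hσ, rfl⟩)

lemma I_mono {N N' : Subgroup Γ} (h : N ≤ N') (k : ℕ) : I N k ≤ I N' k := by
  apply Submodule.span_mono
  rintro _ ⟨g, hg, σ, hσ, rfl⟩
  exact ⟨g, h hg, σ, hσ, rfl⟩

lemma I_induction {N : Subgroup Γ} {k : ℕ} {p : LC Γ → Prop} (h0 : p 0)
    (hadd : ∀ a b, p a → p b → p (a + b)) (hneg : ∀ a, p a → p (-a))
    (hs : ∀ h ∈ N, ∀ σ : List Γ, σ.length = k →
      p (single (σ.map (fun x => h * x)) 1 - single σ 1)) (c : LC Γ) (hc : c ∈ I N k) : p c := by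
  rw [I, ← Submodule.mem_toAddSubgroup, Submodule.span_int_eq_addSubgroupClosure] at hc
  refine AddSubgroup.closure_induction (p := fun c _ => p c) ?_ h0 ?_ ?_ hc
  · rintro _ ⟨h, hh, σ, hσ, rfl⟩
    exact hs h hh σ hσ
  · intro a b _ _ ha hb; exact hadd a b ha hb
  · intro a _ ha; exact hneg a ha

/-- `t` normalizes `N` -/
def Nrm (N : Subgroup Γ) (t : Γ) : Prop := ∀ h, h ∈ N ↔ t * h * t⁻¹ ∈ N

lemma Nrm.inv {N : Subgroup Γ} {t : Γ} (h : Nrm N t) : Nrm N t⁻¹ := by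
  intro x
  rw [h (t⁻¹ * x * t⁻¹⁻¹)]
  have : t * (t⁻¹ * x * t⁻¹⁻¹) * t⁻¹ = x := by group
  rw [this]

lemma tr_mem_I {N : Subgroup Γ} {t : Γ} (ht : Nrm N t) {k : ℕ} {x : LC Γ} (hx : x ∈ I N k) :
    tr t x ∈ I N k := by
  refine I_induction (p := fun x => tr t x ∈ I N k) ?_ ?_ ?_ ?_ x hx
  · rw [map_zero]; exact Submodule.zero_mem _
  · intro a b ha hb; rw [map_add]; exact Submodule.add_mem _ ha hb
  · intro a ha; rw [map_neg]; exact Submodule.neg_mem _ ha
  · intro h hh σ hσ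
    rw [map_sub, tr_single, tr_single]
    refine Submodule.subset_span ⟨t * h * t⁻¹, (ht h).1 hh, σ.map (fun x => t * x), by simp [hσ],
      ?_⟩
    rw [List.map_map, List.map_map]
    congr 3
    funext x
    simp [mul_assoc]

/-- A real valued cochain evaluated on a chain. -/
noncomputable def ev (f : List Γ → ℝ) : LC Γ →ₗ[ℤ] ℝ := Finsupp.linearCombination ℤ f

@[simp] lemma ev_single (f : List Γ → ℝ) (σ : List Γ) (k : ℤ) : ev f (single σ k) = k * f σ := by
  simp [ev]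

/-- the coboundary of a cochain -/
noncomputable def dc (f : List Γ → ℝ) (σ : List Γ) : ℝ := ev f (bdl σ)

lemma ev_bdL (f : List Γ → ℝ) (c : LC Γ) : ev f (bdL c) = ev (dc f) c := by
  induction c using Finsupp.induction_linear with
  | zero => simp
  | add a b ha hb => simp only [map_add, ha, hb]
  | single σ k => rw [bdL_single, map_smul, ev_single, dc]; simp

/-- Følner property of a subgroup, for right multiplications. -/
def Fol (N : Subgroup Γ) : Prop :=
  ∀ (S : Finset Γ), (∀ s ∈ S, s ∈ N) → ∀ R : ℕ, ∃ F : Finset Γ, F.Nonempty ∧ (∀ g ∈ F, g ∈ N) ∧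
    ∀ s ∈ S, R * Set.ncard {g : Γ | g ∈ F ∧ g * s ∉ F} ≤ F.card

/-- `PD N p ω`: the subgroup `N` is amenable and looks, homologically, like an oriented Poincaré
duality group of dimension `p` with fundamental cocycle `ω`; the homology of `N` is computed by
the chains of the big group `Γ` modulo `I N`. -/
structure PD (N : Subgroup Γ) (p : ℕ) (ω : List Γ → ℝ) : Prop where
  fol : Fol N
  inv : ∀ h ∈ N, ∀ σ : List Γ, σ.length = p + 1 → ω (σ.map (fun x => h * x)) = ω σ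
  high : ∀ k, p + 2 ≤ k → ∀ z ∈ gr (Γ := Γ) k, bd0 z ∈ I N (k - 1) →
    ∃ w ∈ gr (Γ := Γ) (k + 1), z - bd0 w ∈ I N k
  top : ∀ z ∈ gr (Γ := Γ) (p + 1), bd0 z ∈ I N p → ev ω z = 0 →
    ∃ w ∈ gr (Γ := Γ) (p + 2), z - bd0 w ∈ I N (p + 1)
  det : ∃ ζ ∈ gr (Γ := Γ) (p + 1), bd0 ζ ∈ I N p ∧ ev ω ζ ≠ 0

lemma ev_tr (ω : List Γ → ℝ) (h : Γ) (k : ℕ)
    (hω : ∀ σ : List Γ, σ.length = k → ω (σ.map (fun x => h * x)) = ω σ) (c : LC Γ)
    (hc : c ∈ gr (Γ := Γ) k) : ev ω (tr h c) = ev ω c := by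
  refine gr_induction (p := fun c => ev ω (tr h c) = ev ω c) ?_ ?_ ?_ c hc
  · simp
  · intro a b ha hb; simp only [map_add, ha, hb]
  · intro σ n hσ; rw [tr_single, ev_single, ev_single, hω σ hσ]

lemma ev_I (ω : List Γ → ℝ) (N : Subgroup Γ) (k : ℕ)
    (hω : ∀ h ∈ N, ∀ σ : List Γ, σ.length = k → ω (σ.map (fun x => h * x)) = ω σ) (c : LC Γ)
    (hc : c ∈ I N k) : ev ω c = 0 := by
  refine I_induction (p := fun c => ev ω c = 0) ?_ ?_ ?_ ?_ c hc
  · simp
  · intro a b ha hb; simp only [map_add, ha, hb, add_zero]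
  · intro a ha; simp only [map_neg, ha, neg_zero]
  · intro h hh σ hσ
    rw [map_sub, ev_single, ev_single, hω h hh σ hσ, sub_self]

lemma sum_consL (c : LC Γ) (hc : c ∈ gr (Γ := Γ) 1) :
    bdL c = single [] (c.sum fun _ k => k) := by
  refine gr_induction (p := fun c => bdL c = single [] (c.sum fun _ k => k)) ?_ ?_ ?_ c hc
  · simp
  · intro a b ha hb
    rw [map_add, ha, hb, Finsupp.sum_add_index' (fun _ => rfl) (fun _ _ _ => rfl),
      Finsupp.single_add]
  · intro σ n hσ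
    obtain ⟨g, rfl⟩ := List.length_eq_one_iff.1 hσ
    rw [bdL_single, Finsupp.sum_single_index rfl]
    simp [bdl]

end Pool.Agent.H.MP_e5d137_al.SL
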