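import Mathlib
import Pool.Agent.H.MP_e5d137_al.SL.Base

/-!
# Sums of translates of small chains over Følner sets
-/

namespace Pool.Agent.H.MP_e5d137_al.SL

open Finsupp

variable {Γ : Type} [Group Γ]

/-- the sum of the translates of a chain by the elements of a finite set -/
noncomputable def avg (F : Finset Γ) (c : LC Γ) : LC Γ := ∑ g ∈ F, tr g c

lemma Abs1_aux_card (F : Finset Γ) (h : Γ) [DecidableEq Γ] :
    (F.image (fun g => g * h) \ F).card = Set.ncard {g : Γ | g ∈ F ∧ g * h ∉ F} := by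
  have h1 : {g : Γ | g ∈ F ∧ g * h ∉ F} = ((F.filter fun g => g * h ∉ F : Finset Γ) : Set Γ) := by
    ext g
    simp
  rw [h1, Set.ncard_coe_finset]
  have h2 : F.image (fun g => g * h) \ F = (F.filter fun g => g * h ∉ F).image (fun g => g * h) := by
    ext g
    simp only [Finset.mem_sdiff, Finset.mem_image, Finset.mem_filter]
    constructor
    · rintro ⟨⟨a, ha, rfl⟩, h3⟩
      exact ⟨a, ⟨ha, h3⟩, rfl⟩
    · rintro ⟨a, ⟨ha, h3⟩, rfl⟩
      exact ⟨⟨a, ha, rfl⟩, h3⟩
  rw [h2, Finset.card_image_of_injective _ (mul_left_injective h)]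

lemma Abs1_aux_sum (F : Finset Γ) (f : Γ → LC Γ) (h : Γ) [DecidableEq Γ] :
    ∑ g ∈ F, (f (g * h) - f g) =
      ∑ g ∈ F.image (fun g => g * h) \ F, f g - ∑ g ∈ F \ F.image (fun g => g * h), f g := by
  have h1 : ∑ g ∈ F, f (g * h) = ∑ g ∈ F.image (fun g => g * h), f g := by
    rw [Finset.sum_image]
    exact fun a _ b _ hab => mul_left_injective h hab
  rw [Finset.sum_sub_distrib, h1, Finset.sum_sdiff_sub_sum_sdiff]

lemma Abs1_aux_mass (F : Finset Γ) (f : Γ → LC Γ) (hf : ∀ g, mass (f g) ≤ 1) :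
    mass (∑ g ∈ F, f g) ≤ F.card := by
  refine (mass_sum_le _ _).trans ?_
  refine (Finset.sum_le_sum fun g _ => hf g).trans ?_
  simp

/-- Proof.  `I_induction`.  For a generator `x = hσ - σ`:
`avg F x = Σ_{g ∈ F} (g h σ - g σ) = Σ_{g ∈ F, g h ∉ F} g h σ - Σ_{g ∈ F, g h⁻¹ ∉ F} g σ`
(the elements of `F h ∩ F` cancel), and the numbers `#{g ∈ F | g h ∉ F}` and
`#{g ∈ F | g h⁻¹ ∉ F}` are equal (both are `|F| - |F h ∩ F|`); take `S = {h}`, `C = 2`.  Sums: union
of the sets `S`, sum of the constants; negatives: same. -/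
theorem avg_small (H : Subgroup Γ) (k : ℕ) (x : LC Γ) (hx : x ∈ I H k) :
    ∃ S : Finset Γ, (∀ s ∈ S, s ∈ H) ∧ ∃ C : ℕ, ∀ F : Finset Γ,
      mass (avg F x) ≤ C * ∑ s ∈ S, Set.ncard {g : Γ | g ∈ F ∧ g * s ∉ F} := by
  classical
  refine I_induction (p := fun x => ∃ S : Finset Γ, (∀ s ∈ S, s ∈ H) ∧ ∃ C : ℕ,
    ∀ F : Finset Γ, mass (avg F x) ≤ C * ∑ s ∈ S, Set.ncard {g : Γ | g ∈ F ∧ g * s ∉ F})
    ?_ ?_ ?_ ?_ x hx
  · exact ⟨∅, by simp, 0, fun F => by simp [avg]⟩
  · rintro a b ⟨S, hS, C, h⟩ ⟨S', hS', C', h'⟩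
    refine ⟨S ∪ S', ?_, C + C', fun F => ?_⟩
    · intro s hs
      rcases Finset.mem_union.1 hs with h1 | h1
      · exact hS s h1
      · exact hS' s h1
    · have e : avg F (a + b) = avg F a + avg F b := by
        unfold avg
        rw [← Finset.sum_add_distrib]
        exact Finset.sum_congr rfl fun g _ => map_add _ _ _
      rw [e]
      refine (mass_add_le _ _).trans ?_
      rw [add_mul]
      exact add_le_add
        ((h F).trans (Nat.mul_le_mul_left _
          (Finset.sum_le_sum_of_subset Finset.subset_union_left)))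
        ((h' F).trans (Nat.mul_le_mul_left _
          (Finset.sum_le_sum_of_subset Finset.subset_union_right)))
  · rintro a ⟨S, hS, C, h⟩
    refine ⟨S, hS, C, fun F => ?_⟩
    have e : avg F (-a) = - avg F a := by
      unfold avg
      rw [← Finset.sum_neg_distrib]
      exact Finset.sum_congr rfl fun g _ => map_neg _ _
    rw [e, mass_neg]
    exact h F
  · intro h hh σ hσ
    refine ⟨{h}, by simpa using hh, 2, fun F => ?_⟩
    have e : avg F (single (σ.map (fun x => h * x)) 1 - single σ 1) =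
        ∑ g ∈ F, ((single (σ.map (fun x => g * h * x)) 1 : LC Γ) -
          single (σ.map (fun x => g * x)) 1) := by
      unfold avg
      refine Finset.sum_congr rfl fun g _ => ?_
      rw [map_sub, tr_single, tr_single, List.map_map]
      congr 3
      funext x
      simp [mul_assoc]
    rw [e, Abs1_aux_sum F (fun g => (single (σ.map (fun x => g * x)) 1 : LC Γ)) h]
    refine (mass_sub_le _ _).trans ?_
    have hc : (F \ F.image (fun g => g * h)).card = (F.image (fun g => g * h) \ F).card :=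
      (Finset.card_sdiff_comm (Finset.card_image_of_injective _ (mul_left_injective h))).symm
    have h1 := Abs1_aux_mass (F.image (fun g => g * h) \ F)
      (fun g => (single (σ.map (fun x => g * x)) 1 : LC Γ)) (fun g => by simp)
    have h2 := Abs1_aux_mass (F \ F.image (fun g => g * h))
      (fun g => (single (σ.map (fun x => g * x)) 1 : LC Γ)) (fun g => by simp)
    rw [hc] at h2
    rw [Abs1_aux_card] at h1 h2
    rw [Finset.sum_singleton]
    omega

end Pool.Agent.H.MP_e5d137_al.SL
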