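import Mathlib
import Pool.Agent.H.MP_e5d137_al.SL.Base

/-!
# Følner sets of polycyclic groups
-/

namespace Pool.Agent.H.MP_e5d137_al.SL

variable {Γ : Type} [Group Γ]

/-- `F = {1}`. -/
theorem fol_bot : Fol (⊥ : Subgroup Γ) := by
  intro S hS R
  refine ⟨{1}, Finset.singleton_nonempty _, ?_, ?_⟩
  · intro g hg
    rw [Finset.mem_singleton] at hg
    rw [hg]
    exact Subgroup.one_mem _
  · intro s hs
    have h1 : s = 1 := Subgroup.mem_bot.1 (hS s hs)
    have h2 : {g : Γ | g ∈ ({1} : Finset Γ) ∧ g * s ∉ ({1} : Finset Γ)} = ∅ := by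
      ext g
      simp only [Finset.mem_singleton, Set.mem_ofPred_eq, Set.mem_empty_iff_false, iff_false,
        not_and, not_not]
      intro hg
      rw [hg, h1, mul_one]
    rw [h2, Set.ncard_empty, mul_zero]
    exact Nat.zero_le _

lemma Folner_conj (N : Subgroup Γ) (t : Γ) (hn : Nrm N t) (a : ℤ) (n : Γ) (h : n ∈ N) :
    t ^ a * n * t ^ (-a) ∈ N := by
  induction a using Int.induction_on with
  | zero => simpa using h
  | succ i ih =>
    have h1 : t ^ ((i : ℤ) + 1) * n * t ^ (-((i : ℤ) + 1)) =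
        t * (t ^ (i : ℤ) * n * t ^ (-(i : ℤ))) * t⁻¹ := by
      rw [show ((i : ℤ) + 1) = 1 + i by ring, zpow_add, zpow_one, neg_add, add_comm (-1 : ℤ) (-(i : ℤ)),
        zpow_add, zpow_neg_one]
      simp only [mul_assoc]
    rw [h1]
    exact (hn _).1 ih
  | pred i ih =>
    have h1 : t ^ (-(i : ℤ) - 1) * n * t ^ (-(-(i : ℤ) - 1)) =
        t⁻¹ * (t ^ (-(i : ℤ)) * n * t ^ (- -(i : ℤ))) * t⁻¹⁻¹ := by
      rw [show (-(i : ℤ) - 1) = -1 + -i by ring, zpow_add, zpow_neg_one,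
        show (-(-1 + -(i : ℤ))) = (- -(i : ℤ)) + 1 by ring, zpow_add, zpow_one, inv_inv]
      simp only [mul_assoc]
    rw [h1]
    exact (hn.inv _).1 ih

/-- the products `n t^a` -/
def Folner_sub (N : Subgroup Γ) (t : Γ) (hn : Nrm N t) : Subgroup Γ where
  carrier := {x | ∃ n ∈ N, ∃ a : ℤ, x = n * t ^ a}
  one_mem' := ⟨1, N.one_mem, 0, by simp⟩
  mul_mem' := by
    rintro _ _ ⟨n, h, a, rfl⟩ ⟨m, h', b, rfl⟩
    refine ⟨n * (t ^ a * m * t ^ (-a)), N.mul_mem h (Folner_conj N t hn a m h'), a + b, ?_⟩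
    rw [zpow_add, zpow_neg]
    group
  inv_mem' := by
    rintro _ ⟨n, h, a, rfl⟩
    refine ⟨t ^ (-a) * n⁻¹ * t ^ (- -a), Folner_conj N t hn (-a) n⁻¹ (N.inv_mem h), -a, ?_⟩
    rw [mul_inv_rev, neg_neg, zpow_neg]
    group

/-- elements of `N ⊔ ⟨t⟩` have the form `n t^a`.

Proof: `N ⊔ zpowers t = closure`, induction (`Subgroup.closure_induction` or
`Subgroup.mem_sup_of_normal...`): for products `n t^a n' t^b = n (t^a n' t^(-a)) t^(a+b)`, and
`t^a N t^(-a) = N` for all integers `a` (from `Nrm N t` and `Nrm.inv`). -/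
theorem mem_sup_form (N : Subgroup Γ) (t : Γ) (hn : Nrm N t) (s : Γ)
    (hs : s ∈ N ⊔ Subgroup.zpowers t) : ∃ n ∈ N, ∃ a : ℤ, s = n * t ^ a := by
  have h1 : N ⊔ Subgroup.zpowers t ≤ Folner_sub N t hn := by
    refine sup_le ?_ ?_
    · intro n h
      exact ⟨n, h, 0, by simp⟩
    · rw [Subgroup.zpowers_le]
      exact ⟨1, N.one_mem, 1, by simp⟩
  exact h1 hs

lemma Folner_count (J A : ℕ) (a : ℤ) (h1 : -(A : ℤ) ≤ a) (h2 : a ≤ A) :
    ((Finset.range J).filter (fun j : ℕ => ¬ (0 ≤ (j : ℤ) + a ∧ (j : ℤ) + a < J))).card ≤ A := by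
  rcases le_or_gt 0 a with h | h
  · have h3 : (Finset.range J).filter (fun j : ℕ => ¬ (0 ≤ (j : ℤ) + a ∧ (j : ℤ) + a < J)) ⊆
        Finset.Ico (J - A) J := by
      intro j hj
      rw [Finset.mem_filter, Finset.mem_range] at hj
      rw [Finset.mem_Ico]
      omega
    refine (Finset.card_le_card h3).trans ?_
    rw [Nat.card_Ico]
    omega
  · have h3 : (Finset.range J).filter (fun j : ℕ => ¬ (0 ≤ (j : ℤ) + a ∧ (j : ℤ) + a < J)) ⊆
        Finset.range A := by
      intro j hj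
      rw [Finset.mem_filter, Finset.mem_range] at hj
      rw [Finset.mem_range]
      omega
    refine (Finset.card_le_card h3).trans ?_
    rw [Finset.card_range]

lemma Folner_inj (N : Subgroup Γ) (t : Γ) (hfree : ∀ j : ℕ, 0 < j → t ^ j ∉ N) (f f' : Γ)
    (hf : f ∈ N) (hf' : f' ∈ N) (i j : ℕ) (h : f * t ^ i = f' * t ^ j) : f = f' ∧ i = j := by
  have key : ∀ (f f' : Γ), f ∈ N → f' ∈ N → ∀ i j : ℕ, i ≤ j → f * t ^ i = f' * t ^ j → i = j := by
    intro f f' hf hf' i j hij h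
    by_contra hne
    obtain ⟨k, rfl⟩ := Nat.exists_eq_add_of_le hij
    have hk : 0 < k := by omega
    apply hfree k hk
    have h1 : t ^ k = f'⁻¹ * f := by
      rw [add_comm i k, pow_add, ← mul_assoc] at h
      have h2 := mul_right_cancel h
      rw [h2, inv_mul_cancel_left]
    rw [h1]
    exact N.mul_mem (N.inv_mem hf') hf
  have hij : i = j := by
    rcases le_total i j with h1 | h1
    · exact key f f' hf hf' i j h1 h
    · exact (key f' f hf' hf j i h1 h.symm).symm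
  subst hij
  exact ⟨mul_right_cancel h, rfl⟩

/-- Step: from `N` to `N ⊔ ⟨t⟩`.

Proof.  Let `S`, `R` be given; write `s = n_s t^(a_s)` for `s ∈ S` (`mem_sup_form`) and let
`A ≥ |a_s|` for all `s ∈ S`, `J := 2 * R * A + 1`.  Let `S'` be the finite set of the elements
`t^j n_s t^(-j)`, `0 ≤ j < J`, `s ∈ S`; they are in `N`.  Take `F₀` for `N`, `S'` and `2 * R`.  Put
`F = ⋃_{0 ≤ j < J} F₀ t^j` (`Finset.image` of `F₀ ×ˢ range J`).  The elements `f t^j` are distinct
(`f t^j = f' t^i` with `i < j` gives `t^(j-i) ∈ N`), so `|F| = J |F₀|`.  If `g = f t^j ∈ F` and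
`g s = f (t^j n_s t^(-j)) t^(j + a_s) ∉ F` then `f (t^j n_s t^(-j)) ∉ F₀` or `j + a_s ∉ [0, J)`.
For each `j` there are at most `|F₀| / (2R)` elements `f` of the first kind, and there are at most
`A` values of `j` of the second kind.  So the number of such `g` is at most
`J |F₀| / (2R) + A |F₀|`, and `R` times this is at most `J |F₀| / 2 + R A |F₀| ≤ J |F₀| = |F|`.
(For `R = 0` everything is trivial.) -/
theorem Fol.step (N : Subgroup Γ) (t : Γ) (h : Fol N) (hn : Nrm N t)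
    (hfree : ∀ j : ℕ, 0 < j → t ^ j ∉ N) : Fol (N ⊔ Subgroup.zpowers t) := by
  classical
  intro S hS R
  have hform : ∀ s : Γ, ∃ n : Γ, ∃ a : ℤ, s ∈ S → n ∈ N ∧ s = n * t ^ a := by
    intro s
    by_cases hs : s ∈ S
    · obtain ⟨n, h1, a, h2⟩ := mem_sup_form N t hn s (hS s hs)
      exact ⟨n, a, fun _ => ⟨h1, h2⟩⟩
    · exact ⟨1, 0, fun h => absurd h hs⟩
  choose n a hna using hform
  obtain ⟨A, hA⟩ : ∃ A : ℕ, ∀ s ∈ S, (a s).natAbs ≤ A :=
    ⟨S.sup fun s => (a s).natAbs, fun s hs => Finset.le_sup (f := fun s => (a s).natAbs) hs⟩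
  obtain ⟨J, hJ⟩ : ∃ J : ℕ, J = 2 * R * A + 1 := ⟨_, rfl⟩
  obtain ⟨F₀, hne, hF₀, hF⟩ := h
    ((S ×ˢ Finset.range J).image fun p => t ^ (p.2 : ℤ) * n p.1 * t ^ (-(p.2 : ℤ))) (by
      intro x hx
      rw [Finset.mem_image] at hx
      obtain ⟨⟨s, j⟩, hp, rfl⟩ := hx
      rw [Finset.mem_product] at hp
      exact Folner_conj N t hn j (n s) (hna s hp.1).1) (2 * R)
  have hinj : Set.InjOn (fun p : Γ × ℕ => p.1 * t ^ p.2) (F₀ ×ˢ Finset.range J : Finset (Γ × ℕ)) := by
    rintro ⟨f, i⟩ hp ⟨f', j⟩ hq hpq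
    rw [Finset.mem_coe, Finset.mem_product] at hp hq
    obtain ⟨h1, h2⟩ := Folner_inj N t hfree f f' (hF₀ f hp.1) (hF₀ f' hq.1) i j hpq
    rw [h1, h2]
  have hcard : ((F₀ ×ˢ Finset.range J).image fun p : Γ × ℕ => p.1 * t ^ p.2).card =
      F₀.card * J := by
    rw [Finset.card_image_of_injOn hinj, Finset.card_product, Finset.card_range]
  refine ⟨(F₀ ×ˢ Finset.range J).image fun p : Γ × ℕ => p.1 * t ^ p.2, ?_, ?_, ?_⟩
  · obtain ⟨f, hf⟩ := hne
    exact ⟨f * t ^ 0, Finset.mem_image.2 ⟨(f, 0), Finset.mem_product.2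
      ⟨hf, Finset.mem_range.2 (by omega)⟩, rfl⟩⟩
  · intro g hg
    rw [Finset.mem_image] at hg
    obtain ⟨⟨f, i⟩, hp, rfl⟩ := hg
    rw [Finset.mem_product] at hp
    exact Subgroup.mul_mem _ (Subgroup.mem_sup_left (hF₀ f hp.1))
      (Subgroup.mem_sup_right (Subgroup.pow_mem _ (Subgroup.mem_zpowers t) i))
  · intro s hs
    rw [hcard]
    obtain ⟨hn1, hn2⟩ := hna s hs
    have ha := hA s hs
    -- the bad pairs
    have hsub : {g : Γ | g ∈ (F₀ ×ˢ Finset.range J).image (fun p : Γ × ℕ => p.1 * t ^ p.2) ∧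
        g * s ∉ (F₀ ×ˢ Finset.range J).image (fun p : Γ × ℕ => p.1 * t ^ p.2)} ⊆
        ((((F₀ ×ˢ Finset.range J).filter fun p : Γ × ℕ =>
            p.1 * (t ^ (p.2 : ℤ) * n s * t ^ (-(p.2 : ℤ))) ∉ F₀) ∪
          (F₀ ×ˢ ((Finset.range J).filter fun j : ℕ =>
            ¬ (0 ≤ (j : ℤ) + a s ∧ (j : ℤ) + a s < J)))).image
          (fun p : Γ × ℕ => p.1 * t ^ p.2) : Finset Γ) := by
      rintro g ⟨hg1, hg2⟩
      rw [Finset.mem_image] at hg1
      obtain ⟨⟨f, i⟩, hp, rfl⟩ := hg1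
      have hp' := Finset.mem_product.1 hp
      rw [Finset.mem_coe, Finset.mem_image]
      refine ⟨(f, i), ?_, rfl⟩
      rw [Finset.mem_union, Finset.mem_filter, Finset.mem_product (s := F₀)
        (t := (Finset.range J).filter fun j : ℕ => ¬ (0 ≤ (j : ℤ) + a s ∧ (j : ℤ) + a s < J)),
        Finset.mem_filter]
      by_contra hcon
      rw [not_or] at hcon
      obtain ⟨hc1, hc2⟩ := hcon
      have hc3 : f * (t ^ (i : ℤ) * n s * t ^ (-(i : ℤ))) ∈ F₀ := by
        by_contra h5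
        exact hc1 ⟨hp, h5⟩
      have hc4 : 0 ≤ (i : ℤ) + a s ∧ (i : ℤ) + a s < J := by
        by_contra h5
        exact hc2 ⟨hp'.1, hp'.2, h5⟩
      obtain ⟨k, hk⟩ := Int.eq_ofNat_of_zero_le hc4.1
      apply hg2
      rw [Finset.mem_image]
      refine ⟨(f * (t ^ (i : ℤ) * n s * t ^ (-(i : ℤ))), k), ?_, ?_⟩
      · rw [Finset.mem_product, Finset.mem_range]
        refine ⟨hc3, ?_⟩
        show k < J
        omega
      · show f * (t ^ (i : ℤ) * n s * t ^ (-(i : ℤ))) * t ^ k = f * t ^ i * s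
        rw [show f * t ^ i * s = f * t ^ i * (n s * t ^ a s) from
            congrArg (fun z => f * t ^ i * z) hn2, ← zpow_natCast t k, ← hk,
          ← zpow_natCast t i, zpow_add, zpow_neg]
        group
    have hle := Set.ncard_le_ncard hsub (Finset.finite_toSet _)
    rw [Set.ncard_coe_finset] at hle
    have hle2 := hle.trans (Finset.card_image_le.trans (Finset.card_union_le _ _))
    -- first kind
    have hB1 : 2 * R * ((F₀ ×ˢ Finset.range J).filter fun p : Γ × ℕ =>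
            p.1 * (t ^ (p.2 : ℤ) * n s * t ^ (-(p.2 : ℤ))) ∉ F₀).card ≤ J * F₀.card := by
      have h1 : ((F₀ ×ˢ Finset.range J).filter fun p : Γ × ℕ =>
            p.1 * (t ^ (p.2 : ℤ) * n s * t ^ (-(p.2 : ℤ))) ∉ F₀).card =
          ∑ j ∈ Finset.range J, (F₀.filter fun f =>
            f * (t ^ (j : ℤ) * n s * t ^ (-(j : ℤ))) ∉ F₀).card := by
        simp only [Finset.card_filter]
        rw [Finset.sum_product_right]
      rw [h1, Finset.mul_sum]
      calc ∑ j ∈ Finset.range J, 2 * R * (F₀.filter fun f =>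
            f * (t ^ (j : ℤ) * n s * t ^ (-(j : ℤ))) ∉ F₀).card
          ≤ ∑ _j ∈ Finset.range J, F₀.card := by
            refine Finset.sum_le_sum fun j hj => ?_
            have h2 := hF (t ^ (j : ℤ) * n s * t ^ (-(j : ℤ)))
              (Finset.mem_image.2 ⟨(s, j), Finset.mem_product.2 ⟨hs, hj⟩, rfl⟩)
            have h3 : {g : Γ | g ∈ F₀ ∧ g * (t ^ (j : ℤ) * n s * t ^ (-(j : ℤ))) ∉ F₀} =
                ((F₀.filter fun f =>
                  f * (t ^ (j : ℤ) * n s * t ^ (-(j : ℤ))) ∉ F₀ : Finset Γ) : Set Γ) := by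
              ext g
              simp
            rw [h3, Set.ncard_coe_finset] at h2
            exact h2
        _ = J * F₀.card := by rw [Finset.sum_const, Finset.card_range, smul_eq_mul]
    have hB2 : (F₀ ×ˢ ((Finset.range J).filter fun j : ℕ =>
            ¬ (0 ≤ (j : ℤ) + a s ∧ (j : ℤ) + a s < J))).card ≤ F₀.card * A := by
      rw [Finset.card_product]
      exact Nat.mul_le_mul_left _ (Folner_count J A (a s) (by omega) (by omega))
    have hfin : 2 * (R * Set.ncard {g : Γ | g ∈ (F₀ ×ˢ Finset.range J).image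
        (fun p : Γ × ℕ => p.1 * t ^ p.2) ∧
        g * s ∉ (F₀ ×ˢ Finset.range J).image (fun p : Γ × ℕ => p.1 * t ^ p.2)}) ≤
        2 * (F₀.card * J) := by
      calc _ = 2 * R * Set.ncard {g : Γ | g ∈ (F₀ ×ˢ Finset.range J).image
            (fun p : Γ × ℕ => p.1 * t ^ p.2) ∧
            g * s ∉ (F₀ ×ˢ Finset.range J).image (fun p : Γ × ℕ => p.1 * t ^ p.2)} := by ring
        _ ≤ 2 * R * (((F₀ ×ˢ Finset.range J).filter fun p : Γ × ℕ =>
            p.1 * (t ^ (p.2 : ℤ) * n s * t ^ (-(p.2 : ℤ))) ∉ F₀).card +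
            (F₀ ×ˢ ((Finset.range J).filter fun j : ℕ =>
            ¬ (0 ≤ (j : ℤ) + a s ∧ (j : ℤ) + a s < J))).card) := Nat.mul_le_mul_left _ hle2
        _ ≤ J * F₀.card + 2 * R * (F₀.card * A) := by
            rw [Nat.mul_add]
            exact Nat.add_le_add hB1 (Nat.mul_le_mul_left _ hB2)
        _ = (J + 2 * R * A) * F₀.card := by ring
        _ ≤ (J + J) * F₀.card := Nat.mul_le_mul_right _ (by omega)
        _ = 2 * (F₀.card * J) := by ring
    exact Nat.le_of_mul_le_mul_left hfin (by norm_num)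

/-- If `H` contains an element `s` of infinite order, Følner sets are large.

Proof.  Apply `Fol` to `insert s S` and `R`.  If `|F| < R` then the number `b` of the elements
`g ∈ F` with `g s ∉ F` satisfies `R b ≤ |F| < R`, so `b = 0` and `g s ∈ F` for all `g ∈ F`; then
`g s^j ∈ F` for all `j`, for some `g ∈ F`, and these are infinitely many elements:
contradiction.  So `R ≤ |F|`. -/
theorem Fol.large (H : Subgroup Γ) (h : Fol H) (s : Γ) (hs : s ∈ H)
    (hinf : ∀ j : ℕ, 0 < j → s ^ j ≠ 1) (S : Finset Γ) (hS : ∀ s ∈ S, s ∈ H) (R : ℕ) :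
    ∃ F : Finset Γ, R ≤ F.card ∧ (∀ g ∈ F, g ∈ H) ∧
      ∀ s ∈ S, R * Set.ncard {g : Γ | g ∈ F ∧ g * s ∉ F} ≤ F.card := by
  classical
  obtain ⟨F, hne, hF1, hF2⟩ := h (insert s S) (by
    intro x hx
    rcases Finset.mem_insert.1 hx with rfl | hx
    · exact hs
    · exact hS x hx) R
  refine ⟨F, ?_, hF1, fun x hx => hF2 x (Finset.mem_insert_of_mem hx)⟩
  by_contra hlt
  rw [not_le] at hlt
  have h1 := hF2 s (Finset.mem_insert_self _ _)
  have hfin : {g : Γ | g ∈ F ∧ g * s ∉ F}.Finite :=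
    F.finite_toSet.subset fun g hg => hg.1
  have h2 : Set.ncard {g : Γ | g ∈ F ∧ g * s ∉ F} = 0 := by
    by_contra h3
    have h4 : R * 1 ≤ R * Set.ncard {g : Γ | g ∈ F ∧ g * s ∉ F} :=
      Nat.mul_le_mul_left _ (Nat.one_le_iff_ne_zero.2 h3)
    omega
  rw [Set.ncard_eq_zero hfin] at h2
  have h3 : ∀ g ∈ F, g * s ∈ F := by
    intro g hg
    by_contra h5
    have h6 : g ∈ {g : Γ | g ∈ F ∧ g * s ∉ F} := ⟨hg, h5⟩
    rw [h2] at h6
    exact h6
  obtain ⟨g, hg⟩ := hne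
  have h4 : ∀ j : ℕ, g * s ^ j ∈ F := by
    intro j
    induction j with
    | zero => simpa using hg
    | succ j ih =>
      rw [pow_succ, ← mul_assoc]
      exact h3 _ ih
  have key : ∀ i j : ℕ, i < j → s ^ i ≠ s ^ j := by
    intro i j hij heq
    obtain ⟨k, rfl⟩ := Nat.exists_eq_add_of_lt hij
    refine hinf (k + 1) (Nat.succ_pos _) ?_
    rw [add_assoc, pow_add] at heq
    exact (left_eq_mul.1 heq)
  have h5 : Function.Injective fun j : ℕ => g * s ^ j := by
    intro i j hij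
    have hij' : s ^ i = s ^ j := mul_left_cancel hij
    rcases lt_trichotomy i j with h6 | h6 | h6
    · exact absurd hij' (key i j h6)
    · exact h6
    · exact absurd hij'.symm (key j i h6)
  exact (Set.infinite_of_injective_forall_mem h5 (s := (F : Set Γ)) h4) F.finite_toSet

end Pool.Agent.H.MP_e5d137_al.SL
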