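import Mathlib
import Pool.Agent.H.MP_e5d137_al.SL.Folner
import Pool.Agent.H.MP_e5d137_al.SL.Abs1

/-!
# The abstract superlinear lower bound
-/

namespace Pool.Agent.H.MP_e5d137_al.SL

open Finsupp
open scoped ENNReal

variable {Γ : Type} [Group Γ]

lemma Abs_ofType_add {𝒯 : Set (List Γ)} {c d : LC Γ} (hc : OfType 𝒯 c) (hd : OfType 𝒯 d) :
    OfType 𝒯 (c + d) := fun σ hσ => by
  classical
  rcases Finset.mem_union.1 (Finsupp.support_add hσ) with h | h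
  · exact hc σ h
  · exact hd σ h

lemma Abs_ofType_sum {𝒯 : Set (List Γ)} (F : Finset Γ) (f : Γ → LC Γ)
    (h : ∀ g ∈ F, OfType 𝒯 (f g)) : OfType 𝒯 (∑ g ∈ F, f g) := by
  classical
  induction F using Finset.induction_on with
  | empty => intro σ hσ; simp at hσ
  | insert a s ha ih =>
    rw [Finset.sum_insert ha]
    exact Abs_ofType_add (h a (Finset.mem_insert_self _ _))
      (ih fun g hg => h g (Finset.mem_insert_of_mem hg))

lemma Abs_ev_le (f : List Γ → ℝ) (B : ℝ) (c : LC Γ) (h : ∀ σ ∈ c.support, |f σ| ≤ B) :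
    |ev f c| ≤ B * mass c := by
  unfold ev mass
  rw [Finsupp.linearCombination_apply, Finsupp.sum, Finsupp.sum]
  refine (Finset.abs_sum_le_sum_abs _ _).trans ?_
  rw [Nat.cast_sum, Finset.mul_sum]
  refine Finset.sum_le_sum fun σ hσ => ?_
  rw [zsmul_eq_mul, abs_mul, mul_comm]
  have e : |((c σ : ℤ) : ℝ)| = ((c σ).natAbs : ℝ) := by
    rw [Nat.cast_natAbs, Int.cast_abs]
  rw [e]
  exact mul_le_mul_of_nonneg_right (h σ hσ) (Nat.cast_nonneg _)

lemma Abs_avg_bdL (F : Finset Γ) (c : LC Γ) : bdL (avg F c) = avg F (bdL c) := by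
  unfold avg
  rw [map_sum]
  exact Finset.sum_congr rfl fun g _ => bdL_tr g c

lemma Abs_avg_gr (F : Finset Γ) {k : ℕ} {c : LC Γ} (hc : c ∈ gr (Γ := Γ) k) :
    avg F c ∈ gr (Γ := Γ) k :=
  Submodule.sum_mem _ fun g _ => tr_mem_gr g hc

lemma Abs_avg_ev (F : Finset Γ) (H : Subgroup Γ) (hF : ∀ g ∈ F, g ∈ H) (ω : List Γ → ℝ) (k : ℕ)
    (hω : ∀ h ∈ H, ∀ σ : List Γ, σ.length = k → ω (σ.map (fun x => h * x)) = ω σ) (c : LC Γ)
    (hc : c ∈ gr (Γ := Γ) k) : ev ω (avg F c) = F.card * ev ω c := by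
  unfold avg
  rw [map_sum, Finset.sum_congr rfl fun g hg => ev_tr ω g k (hω g (hF g hg)) c hc,
    Finset.sum_const, nsmul_eq_mul]

open Classical in
/-- the restriction of a cochain to lists of length `k` -/
noncomputable def Abs_cut (k : ℕ) (ω : List Γ → ℝ) : List Γ → ℝ :=
  fun σ => if σ.length = k then ω σ else 0

lemma Abs_ev_cut {k : ℕ} (ω : List Γ → ℝ) (c : LC Γ) (hc : c ∈ gr (Γ := Γ) k) :
    ev (Abs_cut k ω) c = ev ω c := by
  refine gr_induction (p := fun c => ev (Abs_cut k ω) c = ev ω c) ?_ ?_ ?_ c hc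
  · simp
  · intro a b ha hb; simp only [map_add, ha, hb]
  · intro σ n hσ
    rw [ev_single, ev_single, Abs_cut, if_pos hσ]

lemma Abs_ev_cut_ne {k l : ℕ} (hkl : l ≠ k) (ω : List Γ → ℝ) (c : LC Γ)
    (hc : c ∈ gr (Γ := Γ) l) : ev (Abs_cut k ω) c = 0 := by
  refine gr_induction (p := fun c => ev (Abs_cut k ω) c = 0) ?_ ?_ ?_ c hc
  · simp
  · intro a b ha hb; simp only [map_add, ha, hb, add_zero]
  · intro σ n hσ
    rw [ev_single, Abs_cut, if_neg (by omega), mul_zero]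

lemma Abs_dc_cut (k : ℕ) (ω : List Γ → ℝ)
    (hcoc : ∀ σ : List Γ, σ.length = k + 1 → dc ω σ = 0) (σ : List Γ) :
    dc (Abs_cut k ω) σ = 0 := by
  unfold dc
  by_cases h : σ.length = k + 1
  · rw [Abs_ev_cut ω _ (bdl_mem_gr σ h)]
    exact hcoc σ h
  · rcases σ with _ | ⟨g, τ⟩
    · simp [bdl]
    · exact Abs_ev_cut_ne (l := τ.length) (by intro e; apply h; simp [e]) ω _
        (bdl_mem_gr (g :: τ) (by simp))

lemma Abs_ev_eq (k : ℕ) (ω : List Γ → ℝ)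
    (hcoc : ∀ σ : List Γ, σ.length = k + 1 → dc ω σ = 0) (c c' : LC Γ)
    (h : bdL c = bdL c') : ev (Abs_cut k ω) c = ev (Abs_cut k ω) c' := by
  have h1 : bdL (c - c') = 0 := by rw [map_sub, h, sub_self]
  have h2 : c - c' = bdL (consL 1 (c - c')) := by rw [bdL_consL, h1, map_zero, sub_zero]
  have h3 : ev (Abs_cut k ω) (c - c') = 0 := by
    rw [h2, ev_bdL]
    have : dc (Abs_cut k ω) = fun _ => 0 := funext fun σ => Abs_dc_cut k ω hcoc σ
    rw [this]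
    unfold ev
    rw [Finsupp.linearCombination_apply, Finsupp.sum]
    exact Finset.sum_eq_zero fun σ _ => by simp
  rw [map_sub] at h3
  exact sub_eq_zero.1 h3

lemma Abs_fill (m : ℕ) (K : GComplex Γ) (C : ℕ)
    (hC : ∀ L : ℕ, (K.iso m L : ℝ≥0∞) ≤ C * ((C * L + C : ℕ) : ℝ≥0∞) + C * L + C)
    (z : K.cell m →₀ ℤ) (hz : ∃ b, K.bd m b = z) (L : ℕ) (hL : mass z ≤ L) :
    ∃ c, K.bd m c = z ∧ mass c ≤ C * (C * L + C) + C * L + C := by
  have h1 : K.fillVol m z ≤ K.iso m L := by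
    unfold GComplex.iso
    exact le_iSup_of_le z (le_iSup_of_le hz (le_iSup_of_le hL le_rfl))
  have h2 : K.iso m L ≤ ((C * (C * L + C) + C * L + C : ℕ) : ℕ∞) := by
    rw [← ENat.toENNReal_le]
    refine (hC L).trans (le_of_eq ?_)
    rw [ENat.toENNReal_coe]
    push_cast
    ring
  have h3 : K.fillVol m z < ((C * (C * L + C) + C * L + C + 1 : ℕ) : ℕ∞) :=
    lt_of_le_of_lt (h1.trans h2) (by exact_mod_cast Nat.lt_succ_self _)
  unfold GComplex.fillVol at h3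
  simp only [iInf_lt_iff] at h3
  obtain ⟨c, hc, h4⟩ := h3
  refine ⟨c, hc, ?_⟩
  have h5 : mass c < C * (C * L + C) + C * L + C + 1 := by exact_mod_cast h4
  omega

/-- A bounded invariant cocycle detecting the fundamental class of an amenable subgroup gives a
superlinear lower bound.

Proof.  `k = m + 1`.  Take `z := ζ ∈ gr (m+2)` from `hPD.det`: `bd0 z = bdL z ∈ I H (m+1)`
(`bd0_of_gr`), `e := |ev ω z| > 0`.  Take `S`, `C₁` from `avg_small` for `x = bdL z`.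
Suppose `Dominated (iso) (id)` with constant `C`.
For a finite `F ⊆ H` put `c_F = avg F z`, `E = bdL c_F = avg F (bdL z)`.  Then `E ∈ gr (m+1)`,
`bdL E = 0`, `E` is `OfType 𝒯` with `𝒯 = {σ | σ ∈ (bdL z).support}` (a finite set; `ofType_self`,
`OfType.mapL`, and sums: prove `OfType.add`/`OfType.sum` as `OfType.sub`), and
`ev ω c_F = |F| ev ω z` (`ev_tr`, `hPD.inv`).
Apply `fill_bar` (with `hK (m+1)`) to `𝒯`: it gives `𝒯'`, `M`, and for `E` a cycle `w₀` of `K` with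
`mass w₀ ≤ M mass E`.  Since `iso m L ≤ C (C L + C) + C L + C` for `L = M mass E`, there is a chain
`c` of `K` with `K.bd m c = w₀` and `mass c ≤ C (C L + C) + C L + C` (`fillVol` is an infimum of
natural numbers in `ℕ∞`, bounded by a finite number, so some `c` attains a value below the bound:
e.g. `iInf_lt_iff` with bound `+ 1`).  So there is `c'` with `bdL c' = E`, `OfType 𝒯' c'` and
`mass c' ≤ M (mass c + mass E) ≤ C₂ (mass E + 1)`, `C₂` independent of `F`.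
Value of `ω`: let `ω'` be `ω` on lists of length `m+2` and `0` on all other lists.  Then
`ev ω' (bdL u) = 0` for all `u` (`ev_bdL`, `dc ω' σ = dc ω σ` if `σ.length = m + 3` since
`bdl σ ∈ gr (m+2)`, and `dc ω' σ = 0` otherwise), and a chain `d` with `bdL d = 0` is
`bdL (consL 1 d)` (`bdL_consL`).  So `ev ω' c' = ev ω' c_F = ev ω c_F = |F| ev ω z`.
Boundedness: with `B` from `hbd 𝒯'` (increase it to be `≥ 0`) `|ev ω' c'| ≤ B mass c'`.
Hence `|F| e ≤ B C₂ (mass E + 1)` and `mass E ≤ C₁ Σ_{s ∈ S} #{g ∈ F | g s ∉ F}`.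
By `Fol.large` with `R` we get `F` with `R ≤ |F|` and `R mass E ≤ C₁ |S| |F|`, so
`|F| e ≤ B C₂ (C₁ |S| |F| / R + 1) ≤ B C₂ (C₁ |S| + 1) |F| / R`, a contradiction for large `R`
(`|F| > 0`). -/
theorem not_linear (m : ℕ) (hm : 1 ≤ m) (H : Subgroup Γ) (ω : List Γ → ℝ)
    (hPD : PD H (m + 1) ω) (hcoc : ∀ σ : List Γ, σ.length = m + 3 → dc ω σ = 0)
    (hbd : ∀ 𝒯 : Set (List Γ), 𝒯.Finite → ∃ B : ℝ, ∀ g : Γ, ∀ τ ∈ 𝒯, τ.length = m + 2 →
      |ω (τ.map (fun x => g * x))| ≤ B)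
    (s : Γ) (hs : s ∈ H) (hinf : ∀ j : ℕ, 0 < j → s ^ j ≠ 1)
    (K : GComplex Γ) (hK : K.FiniteTo (m + 1)) :
    ¬ Dominated (fun L => (K.iso m L : ℝ≥0∞)) (fun L => (L : ℝ≥0∞)) := by
  classical
  rintro ⟨C, -, hC⟩
  obtain ⟨z, hz, hzI, hze⟩ := hPD.det
  rw [bd0_of_gr hz] at hzI
  obtain ⟨S, hS, C₁, hC₁⟩ := avg_small H (m + 1) (bdL z) hzI
  obtain ⟨sK, hsK⟩ := hK (m + 1) le_rfl
  have h𝒯 : ({σ | σ ∈ (bdL z).support} : Set (List Γ)).Finite := (bdL z).support.finite_toSet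
  obtain ⟨𝒯', hfin', M, hM⟩ := fill_bar K m hm sK hsK {σ | σ ∈ (bdL z).support} h𝒯
  obtain ⟨B₀, hB₀⟩ := hbd 𝒯' hfin'
  set B : ℝ := max B₀ 0 with hB
  have hB0 : 0 ≤ B := le_max_right _ _
  set C₂ : ℕ := M * (C * (C * M) + C * C + C * M + C + 1) with hC₂
  have he : 0 < |ev ω z| := abs_pos.2 hze
  obtain ⟨R, hR⟩ := exists_nat_gt (B * C₂ * (C₁ * S.card + 1) / |ev ω z|)
  obtain ⟨F, hRF, hF, hFS⟩ := Fol.large H hPD.fol s hs hinf S hS (R + 1)
  have hE1 : bdL (avg F z) ∈ gr (Γ := Γ) (m + 1) := bdL_mem_gr (Abs_avg_gr F hz)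
  have hE2 : bdL (bdL (avg F z)) = 0 := bdL_bdL _
  have hE3 : OfType {σ | σ ∈ (bdL z).support} (bdL (avg F z)) := by
    rw [Abs_avg_bdL]
    exact Abs_ofType_sum F _ fun g _ => (ofType_self (bdL z)).mapL g
  obtain ⟨w₀, hw₀, hw₁, hw₂⟩ := hM _ hE1 hE2 hE3
  obtain ⟨c, hc, hcm⟩ := Abs_fill m K C hC w₀ hw₀ _ hw₁
  obtain ⟨c', hc1, hc2, hc3⟩ := hw₂ c hc
  -- the value of the cocycle
  have hval : ev (Abs_cut (m + 2) ω) c' = F.card * ev ω z := by
    rw [Abs_ev_eq (m + 2) ω hcoc c' (avg F z) hc1, Abs_ev_cut ω _ (Abs_avg_gr F hz)]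
    exact Abs_avg_ev F H hF ω (m + 2) hPD.inv z hz
  have hbound : |ev (Abs_cut (m + 2) ω) c'| ≤ B * mass c' := by
    apply Abs_ev_le
    intro σ hσ
    obtain ⟨g, τ, hτ, rfl⟩ := hc2 σ hσ
    unfold Abs_cut
    split_ifs with hl
    · exact (hB₀ g τ hτ (by simpa using hl)).trans (le_max_left _ _)
    · simpa using hB0
  rw [hval, abs_mul, Nat.abs_cast] at hbound
  -- the mass
  set μ : ℕ := mass (bdL (avg F z)) with hμ
  have hm1 : mass c' ≤ C₂ * (μ + 1) := by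
    refine hc3.trans ?_
    rw [hC₂, mul_assoc]
    refine Nat.mul_le_mul_left _ ?_
    have : mass c + μ ≤ C * (C * (M * μ) + C) + C * (M * μ) + C + μ := by omega
    refine this.trans ?_
    nlinarith [Nat.zero_le (C * C * M), Nat.zero_le (C * M), Nat.zero_le (C * C * μ),
      Nat.zero_le (C * μ), Nat.zero_le (C * C), Nat.zero_le C]
  have hm2 : (R + 1) * μ ≤ C₁ * S.card * F.card := by
    have h1 : μ ≤ C₁ * ∑ s ∈ S, Set.ncard {g : Γ | g ∈ F ∧ g * s ∉ F} := by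
      rw [hμ, Abs_avg_bdL]
      exact hC₁ F
    have h2 : (R + 1) * ∑ s ∈ S, Set.ncard {g : Γ | g ∈ F ∧ g * s ∉ F} ≤ S.card * F.card := by
      rw [Finset.mul_sum]
      refine (Finset.sum_le_sum hFS).trans ?_
      simp
    calc (R + 1) * μ ≤ (R + 1) * (C₁ * ∑ s ∈ S, Set.ncard {g : Γ | g ∈ F ∧ g * s ∉ F}) :=
          Nat.mul_le_mul_left _ h1
      _ = C₁ * ((R + 1) * ∑ s ∈ S, Set.ncard {g : Γ | g ∈ F ∧ g * s ∉ F}) := by ring
      _ ≤ C₁ * (S.card * F.card) := Nat.mul_le_mul_left _ h2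
      _ = C₁ * S.card * F.card := by ring
  have hF0 : (0 : ℝ) < F.card := by
    have : 0 < F.card := by omega
    exact_mod_cast this
  have hm1' : (mass c' : ℝ) ≤ C₂ * (μ + 1) := by exact_mod_cast hm1
  have hm2' : ((R : ℝ) + 1) * μ ≤ C₁ * S.card * F.card := by exact_mod_cast hm2
  have hRF' : (R : ℝ) + 1 ≤ F.card := by exact_mod_cast hRF
  have h1 : (F.card : ℝ) * |ev ω z| ≤ B * (C₂ * (μ + 1)) :=
    hbound.trans (mul_le_mul_of_nonneg_left hm1' hB0)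
  have h2 : ((R : ℝ) + 1) * (F.card * |ev ω z|) ≤ B * C₂ * (C₁ * S.card + 1) * F.card := by
    calc ((R : ℝ) + 1) * (F.card * |ev ω z|) ≤ ((R : ℝ) + 1) * (B * (C₂ * (μ + 1))) :=
          mul_le_mul_of_nonneg_left h1 (by positivity)
      _ = B * C₂ * (((R : ℝ) + 1) * μ + (R + 1)) := by ring
      _ ≤ B * C₂ * (C₁ * S.card * F.card + F.card) :=
          mul_le_mul_of_nonneg_left (add_le_add hm2' hRF') (by positivity)
      _ = B * C₂ * (C₁ * S.card + 1) * F.card := by ring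
  have h3 : ((R : ℝ) + 1) * |ev ω z| ≤ B * C₂ * (C₁ * S.card + 1) := by
    refine le_of_mul_le_mul_right ?_ hF0
    calc ((R : ℝ) + 1) * |ev ω z| * F.card = ((R : ℝ) + 1) * (F.card * |ev ω z|) := by ring
      _ ≤ _ := h2
  rw [div_lt_iff₀ he] at hR
  nlinarith

end Pool.Agent.H.MP_e5d137_al.SL
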