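import Mathlib
import Pool.Agent.H.MP_e5d137_al.SL.Abs

/-!
# The abstract lower bound `L log L`
-/

namespace Pool.Agent.H.MP_e5d137_al.SL

open Finsupp
open scoped ENNReal

variable {Γ : Type} [Group Γ]

/-- the function `L log L` -/
noncomputable def LlogL (L : ℕ) : ℝ≥0∞ := ENNReal.ofReal ((L : ℝ) * Real.log L)

lemma AbsLog_ofType_smul {𝒯 : Set (List Γ)} {c : LC Γ} (k : ℤ) (hc : OfType 𝒯 c) :
    OfType 𝒯 (k • c) := fun σ hσ => hc σ (Finsupp.support_smul hσ)

/-- a finite value of the isoperimetric function is attained -/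
lemma AbsLog_fill (m : ℕ) (K : GComplex Γ) {L J : ℕ} (hJ : K.iso m L = (J : ℕ∞))
    (z : K.cell m →₀ ℤ) (hz : ∃ b, K.bd m b = z) (hL : mass z ≤ L) :
    ∃ c, K.bd m c = z ∧ mass c ≤ J := by
  have h1 : K.fillVol m z ≤ K.iso m L := by
    unfold GComplex.iso
    exact le_iSup_of_le z (le_iSup_of_le hz (le_iSup_of_le hL le_rfl))
  rw [hJ] at h1
  have h3 : K.fillVol m z < ((J + 1 : ℕ) : ℕ∞) :=
    lt_of_le_of_lt h1 (by exact_mod_cast Nat.lt_succ_self _)
  unfold GComplex.fillVol at h3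
  simp only [iInf_lt_iff] at h3
  obtain ⟨c, hc, h4⟩ := h3
  refine ⟨c, hc, ?_⟩
  have h5 : mass c < J + 1 := by exact_mod_cast h4
  omega

/-- the numerical part -/
lemma AbsLog_num {D L R J μ q f C₁ S₀ : ℕ} {B M e : ℝ} (hD : 2 ≤ D) (he : 0 < e) (hB : 0 ≤ B)
    (hM : 0 ≤ M) (hR : L < (D ^ 2) ^ (R + 1))
    (hq : L * R ≤ q * f + L) (hμ : μ ≤ C₁ * S₀ * L)
    (hval : (q : ℝ) * f * e ≤ B * (M * (J + μ))) :
    (L : ℝ) * Real.log L ≤ 2 * Real.log D * (B * M / e) * J +
      2 * Real.log D * (B * M * (C₁ * S₀) / e + 2) * L := by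
  have hD0 : (0 : ℝ) < Real.log D := Real.log_pos (by exact_mod_cast hD)
  have h1 : (L : ℝ) * Real.log L ≤ 2 * Real.log D * ((L : ℝ) * R + L) := by
    rcases Nat.eq_zero_or_pos L with h | h
    · subst h
      simp
    · have h2 : Real.log L ≤ (R + 1) * (2 * Real.log D) := by
        have h3 : (L : ℝ) ≤ ((D : ℝ) ^ 2) ^ (R + 1) := by exact_mod_cast hR.le
        have h4 := Real.log_le_log (by exact_mod_cast h) h3
        rw [Real.log_pow, Real.log_pow] at h4
        push_cast at h4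
        exact h4
      have h5 : (0 : ℝ) ≤ L := Nat.cast_nonneg _
      nlinarith
  have h2 : (L : ℝ) * R ≤ q * f + L := by exact_mod_cast hq
  have h3 : (μ : ℝ) ≤ C₁ * S₀ * L := by exact_mod_cast hμ
  have h4 : (q : ℝ) * f ≤ B * M / e * J + B * M * (C₁ * S₀) / e * L := by
    have h5 : (q : ℝ) * f ≤ B * (M * (J + μ)) / e := by
      rw [le_div_iff₀ he]
      exact hval
    refine h5.trans ?_
    have h6 : B * (M * (J + μ)) ≤ B * (M * (J + C₁ * S₀ * L)) := by
      refine mul_le_mul_of_nonneg_left (mul_le_mul_of_nonneg_left ?_ hM) hB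
      linarith
    calc B * (M * (J + μ)) / e ≤ B * (M * (J + C₁ * S₀ * L)) / e :=
          div_le_div_of_nonneg_right h6 he.le
      _ = B * M / e * J + B * M * (C₁ * S₀) / e * L := by ring
  calc (L : ℝ) * Real.log L ≤ 2 * Real.log D * ((L : ℝ) * R + L) := h1
    _ ≤ 2 * Real.log D * ((B * M / e * J + B * M * (C₁ * S₀) / e * L + L) + L) := by
        refine mul_le_mul_of_nonneg_left ?_ (by positivity)
        linarith
    _ = _ := by ring

/-- Quantitative form of `not_linear` (reuse its proof and its auxiliary lemmas).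

Proof.  As in `not_linear`: `z ∈ gr (m+2)`, `bdL z ∈ I H (m+1)`, `e = |ev ω z| > 0`, `S`, `C₁` from
`avg_small` for `bdL z`; `C` from `hF S`.  For a finite `F ⊆ H` and `q : ℕ` put `E = q • bdL (avg F z)`.
It is a cycle of type `𝒯 = support of bdL z`, of mass at most `q C₁ Σ_{s ∈ S} #{g ∈ F : g s ∉ F}`, and by
`fill_bar` there are a cycle `w₀` of `K`, `mass w₀ ≤ M mass E`, such that every `c` with `K.bd m c = w₀`
satisfies `q |F| e ≤ B M (mass c + mass E)` (value of `ω` on the chain `c'` with `bdL c' = E`, as in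
`not_linear`; compare with `q • avg F z`).
Let `L` be large, `R = ⌊log L / (2 log (C+2))⌋ ≥ 1`, `F` from `hF`, `|F| ≤ C ^ R ≤ √L`,
`q = ⌊L R / |F|⌋ ≥ 1`.  Then `mass E ≤ q C₁ |S| |F| / R ≤ C₁ |S| L` and `q |F| ≥ L R / 2`.  So with a
constant `C₂`: `L R ≤ C₂ (fillVol w₀ + L)` and `mass w₀ ≤ C₂ L`, i.e. `L R ≤ C₂ (iso m (C₂ L) + L)`
(if `iso m (C₂ L) = ⊤` nothing is to be proved), and `L log L ≤ 2 log (C+2) L (R + 1)`. -/
theorem log_bound (m : ℕ) (hm : 1 ≤ m) (H : Subgroup Γ) (ω : List Γ → ℝ)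
    (hPD : PD H (m + 1) ω) (hcoc : ∀ σ : List Γ, σ.length = m + 3 → dc ω σ = 0)
    (hbd : ∀ 𝒯 : Set (List Γ), 𝒯.Finite → ∃ B : ℝ, ∀ g : Γ, ∀ τ ∈ 𝒯, τ.length = m + 2 →
      |ω (τ.map (fun x => g * x))| ≤ B)
    (hF : ∀ S : Finset Γ, (∀ s ∈ S, s ∈ H) → ∃ C : ℕ, ∀ R : ℕ, 1 ≤ R → ∃ F : Finset Γ,
      F.Nonempty ∧ (∀ g ∈ F, g ∈ H) ∧ F.card ≤ C ^ R ∧
      ∀ s ∈ S, R * Set.ncard {g : Γ | g ∈ F ∧ g * s ∉ F} ≤ F.card)
    (K : GComplex Γ) (hK : K.FiniteTo (m + 1)) :
    Dominated LlogL (fun L => (K.iso m L : ℝ≥0∞)) := by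
  classical
  obtain ⟨z, hz, hzI, hze⟩ := hPD.det
  rw [bd0_of_gr hz] at hzI
  obtain ⟨S, hS, C₁, hC₁⟩ := avg_small H (m + 1) (bdL z) hzI
  obtain ⟨C₀, hC₀⟩ := hF S hS
  obtain ⟨sK, hsK⟩ := hK (m + 1) le_rfl
  have h𝒯 : ({σ | σ ∈ (bdL z).support} : Set (List Γ)).Finite := (bdL z).support.finite_toSet
  obtain ⟨𝒯', hfin', M, hM⟩ := fill_bar K m hm sK hsK {σ | σ ∈ (bdL z).support} h𝒯
  obtain ⟨B₀, hB₀⟩ := hbd 𝒯' hfin'
  set B : ℝ := max B₀ 0 with hB
  have hB0 : 0 ≤ B := le_max_right _ _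
  have he : 0 < |ev ω z| := abs_pos.2 hze
  set D : ℕ := C₀ + 2 with hD
  set a : ℝ := 2 * Real.log D * (B * M / |ev ω z|) with ha
  set b : ℝ := 2 * Real.log D * (B * M * (C₁ * S.card) / |ev ω z| + 2) with hb
  obtain ⟨C₃, hC₃⟩ := exists_nat_gt (max a b)
  have hCa : a ≤ C₃ := (le_max_left _ _).trans hC₃.le
  have hCb : b ≤ C₃ := (le_max_right _ _).trans hC₃.le
  refine ⟨C₃ + M * (C₁ * S.card) + 1, Nat.succ_pos _, fun L => ?_⟩
  set C : ℕ := C₃ + M * (C₁ * S.card) + 1 with hC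
  beta_reduce
  by_cases htop : K.iso m (C * L + C) = ⊤
  · rw [htop, ENat.toENNReal_top, ENNReal.mul_top (by rw [Ne, Nat.cast_eq_zero]; omega)]
    simp
  obtain ⟨J, hJ⟩ := ENat.ne_top_iff_exists.1 htop
  rw [← hJ, ENat.toENNReal_coe]
  have hgoal : (L : ℝ) * Real.log L ≤ a * J + b * L := by
    set R : ℕ := Nat.log (D ^ 2) L with hRdef
    have hD2 : 1 < D ^ 2 := by
      have : 2 ≤ D := by omega
      nlinarith
    have hR : L < (D ^ 2) ^ (R + 1) := Nat.lt_pow_succ_log_self hD2 L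
    rcases Nat.eq_zero_or_pos R with hR0 | hR0
    · refine AbsLog_num (μ := 0) (q := 0) (f := 0) (C₁ := C₁) (S₀ := S.card) (by omega) he hB0
        (Nat.cast_nonneg M) hR ?_ (Nat.zero_le _) ?_
      · rw [hR0]
        omega
      · simp only [Nat.cast_zero, zero_mul]
        positivity
    · have hL0 : L ≠ 0 := by
        rintro rfl
        simp [hRdef] at hR0
      have hRL : (D ^ 2) ^ R ≤ L := Nat.pow_log_le_self _ hL0
      obtain ⟨F, hFne, hFH, hFcard, hFS⟩ := hC₀ R hR0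
      have hFL : F.card ≤ L := by
        refine hFcard.trans (le_trans ?_ hRL)
        refine Nat.pow_le_pow_left ?_ _
        nlinarith [Nat.zero_le C₀]
      have hF0 : 0 < F.card := Finset.card_pos.2 hFne
      set q : ℕ := L * R / F.card with hqdef
      have hq1 : q * F.card ≤ L * R := Nat.div_mul_le_self _ _
      have hq2 : L * R ≤ q * F.card + L := by
        have h1 := Nat.lt_div_mul_add (a := L * R) hF0
        rw [← hqdef] at h1
        omega
      -- the cycle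
      set E : LC Γ := bdL ((q : ℤ) • avg F z) with hE
      have hEz : E = (q : ℤ) • avg F (bdL z) := by rw [hE, map_smul, Abs_avg_bdL]
      have hgr : (q : ℤ) • avg F z ∈ gr (Γ := Γ) (m + 2) :=
        Submodule.smul_mem _ _ (Abs_avg_gr F hz)
      have hE1 : E ∈ gr (Γ := Γ) (m + 1) := bdL_mem_gr hgr
      have hE2 : bdL E = 0 := bdL_bdL _
      have hE3 : OfType {σ | σ ∈ (bdL z).support} E := by
        rw [hEz]
        exact AbsLog_ofType_smul _ (Abs_ofType_sum F _ fun g _ => (ofType_self (bdL z)).mapL g)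
      -- its mass
      have hmass : mass E ≤ C₁ * S.card * L := by
        have h1 : mass E ≤ q * (C₁ * ∑ s ∈ S, Set.ncard {g : Γ | g ∈ F ∧ g * s ∉ F}) := by
          rw [hEz, mass_smul, Int.natAbs_natCast]
          exact Nat.mul_le_mul_left _ (hC₁ F)
        have h2 : R * ∑ s ∈ S, Set.ncard {g : Γ | g ∈ F ∧ g * s ∉ F} ≤ S.card * F.card := by
          rw [Finset.mul_sum]
          refine (Finset.sum_le_sum hFS).trans ?_
          simp
        have h3 : R * mass E ≤ R * (C₁ * S.card * L) := by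
          calc R * mass E ≤ R * (q * (C₁ * ∑ s ∈ S, Set.ncard {g : Γ | g ∈ F ∧ g * s ∉ F})) :=
                Nat.mul_le_mul_left _ h1
            _ = q * C₁ * (R * ∑ s ∈ S, Set.ncard {g : Γ | g ∈ F ∧ g * s ∉ F}) := by ring
            _ ≤ q * C₁ * (S.card * F.card) := Nat.mul_le_mul_left _ h2
            _ = C₁ * S.card * (q * F.card) := by ring
            _ ≤ C₁ * S.card * (L * R) := Nat.mul_le_mul_left _ hq1
            _ = R * (C₁ * S.card * L) := by ring
        exact Nat.le_of_mul_le_mul_left h3 hR0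
      obtain ⟨w₀, hw₀, hw₁, hw₂⟩ := hM E hE1 hE2 hE3
      have hw3 : mass w₀ ≤ C * L + C := by
        refine hw₁.trans ((Nat.mul_le_mul_left M hmass).trans ?_)
        have h1 : M * (C₁ * S.card * L) = M * (C₁ * S.card) * L := by ring
        rw [h1]
        refine le_trans (Nat.mul_le_mul_right L ?_) (Nat.le_add_right _ _)
        omega
      obtain ⟨c, hc, hcm⟩ := AbsLog_fill m K hJ.symm w₀ hw₀ hw3
      obtain ⟨c', hc1, hc2, hc3⟩ := hw₂ c hc
      -- the value of the cocycle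
      have hval : ev (Abs_cut (m + 2) ω) c' = q * (F.card * ev ω z) := by
        rw [Abs_ev_eq (m + 2) ω hcoc c' ((q : ℤ) • avg F z) hc1, Abs_ev_cut ω _ hgr, map_smul,
          Abs_avg_ev F H hFH ω (m + 2) hPD.inv z hz, zsmul_eq_mul, Int.cast_natCast]
      have hbound : |ev (Abs_cut (m + 2) ω) c'| ≤ B * mass c' := by
        apply Abs_ev_le
        intro σ hσ
        obtain ⟨g, τ, hτ, rfl⟩ := hc2 σ hσ
        unfold Abs_cut
        split_ifs with hl
        · exact (hB₀ g τ hτ (by simpa using hl)).trans (le_max_left _ _)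
        · simpa using hB0
      rw [hval, abs_mul, abs_mul, Nat.abs_cast, Nat.abs_cast] at hbound
      refine AbsLog_num (μ := mass E) (q := q) (f := F.card) (C₁ := C₁) (S₀ := S.card) (by omega)
        he hB0 (Nat.cast_nonneg M) hR hq2 hmass ?_
      rw [mul_assoc]
      refine hbound.trans (mul_le_mul_of_nonneg_left ?_ hB0)
      have h4 : (mass c' : ℝ) ≤ M * (mass c + mass E) := by exact_mod_cast hc3
      have h5 : (mass c : ℝ) ≤ J := by exact_mod_cast hcm
      refine h4.trans (mul_le_mul_of_nonneg_left ?_ (Nat.cast_nonneg M))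
      linarith
  have hfin : (L : ℝ) * Real.log L ≤ ((C * J + C * L + C : ℕ) : ℝ) := by
    refine hgoal.trans ?_
    push_cast
    have hJ0 : (0 : ℝ) ≤ J := Nat.cast_nonneg _
    have hL0 : (0 : ℝ) ≤ L := Nat.cast_nonneg _
    have hCC : (C₃ : ℝ) ≤ C := by
      have : C₃ ≤ C := by omega
      exact_mod_cast this
    have hC0 : (0 : ℝ) ≤ C := Nat.cast_nonneg _
    have e1 : a * J ≤ C * J := mul_le_mul_of_nonneg_right (hCa.trans hCC) hJ0
    have e2 : b * L ≤ C * L := mul_le_mul_of_nonneg_right (hCb.trans hCC) hL0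
    linarith
  have h9 : LlogL L ≤ ((C * J + C * L + C : ℕ) : ℝ≥0∞) := by
    unfold LlogL
    exact ENNReal.ofReal_le_natCast.2 hfin
  refine h9.trans (le_of_eq ?_)
  push_cast
  ring

end Pool.Agent.H.MP_e5d137_al.SL
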