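import Mathlib
import Pool.Agent.H.MP_e5d137_al.SL.Base

/-!
# Signed volumes of affine simplices

A point is a function `ℕ → ℝ` of which only the coordinates `l < q` are used.
-/

namespace Pool.Agent.H.MP_e5d137_al.SL

open Finset

/-- the row `(1, p 0, p 1, ...)` -/
def row (p : ℕ → ℝ) (b : ℕ) : ℝ := if b = 0 then 1 else p (b - 1)

/-- `q!` times the signed volume of the simplex with the vertices `L` (a list of `q + 1` points),
in the first `q` coordinates -/
noncomputable def vol (q : ℕ) (L : List (ℕ → ℝ)) : ℝ :=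
  Matrix.det (Matrix.of fun a b : Fin (q + 1) => row (L.getD a.1 0) b.1)

lemma vol_zero (L : List (ℕ → ℝ)) : vol 0 L = 1 := by
  simp [vol, row]

/-- `vol q L` depends only on the first `q` coordinates of the points of `L`. -/
theorem vol_congr (q : ℕ) (L L' : List (ℕ → ℝ))
    (h : ∀ a < q + 1, ∀ l < q, (L.getD a 0) l = (L'.getD a 0) l) : vol q L = vol q L' := by
  unfold vol
  congr 1
  ext a b
  simp only [Matrix.of_apply, row]
  split_ifs with hb
  · rfl
  · exact h a.1 a.2 (b.1 - 1) (by have := b.2; omega)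

/-- Change of coordinates.  `Matrix.det_mul`. -/
theorem vol_mul (q : ℕ) (L L' : List (ℕ → ℝ)) (N : Matrix (Fin (q + 1)) (Fin (q + 1)) ℝ)
    (h : ∀ a b : Fin (q + 1), row (L'.getD a.1 0) b.1 = ∑ c, row (L.getD a.1 0) c.1 * N c b) :
    vol q L' = vol q L * N.det := by
  unfold vol
  rw [← Matrix.det_mul]
  congr 1
  ext a b
  rw [Matrix.mul_apply, Matrix.of_apply, h a b]
  rfl

/-- Translation.  `vol_mul` with `N` the identity matrix with the first row changed to `(1, c)`
(upper triangular, determinant `1`). -/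
theorem vol_trans (q : ℕ) (L L' : List (ℕ → ℝ)) (c : ℕ → ℝ)
    (h : ∀ a < q + 1, ∀ l < q, (L'.getD a 0) l = (L.getD a 0) l + c l) : vol q L' = vol q L := by
  obtain ⟨N, hN⟩ : ∃ N : Matrix (Fin (q + 1)) (Fin (q + 1)) ℝ, N = Matrix.of fun i j =>
    if i = j then 1 else if i = 0 then c (j.1 - 1) else 0 := ⟨_, rfl⟩
  have hdet : N.det = 1 := by
    rw [Matrix.det_of_isUpperTriangular]
    · refine Finset.prod_eq_one fun i _ => ?_
      rw [hN, Matrix.of_apply, if_pos rfl]
    · intro i j hij
      have hij' : j < i := hij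
      rw [hN, Matrix.of_apply, if_neg hij'.ne', if_neg]
      intro h0
      rw [h0] at hij'
      exact absurd hij' (Fin.not_lt_zero _)
  have hkey := vol_mul q L L' N ?_
  · rw [hkey, hdet, mul_one]
  intro a b
  by_cases hb : b = 0
  · subst hb
    rw [Finset.sum_eq_single 0]
    · simp [row, hN]
    · intro d _ hd
      rw [hN, Matrix.of_apply, if_neg hd, if_neg hd, mul_zero]
    · intro h0
      exact absurd (Finset.mem_univ _) h0
  · have hb1 : b.1 ≠ 0 := fun h0 => hb (Fin.ext h0)
    have hsub : ∑ d, row (L.getD a.1 0) d.1 * N d b =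
        ∑ d ∈ ({0, b} : Finset (Fin (q + 1))), row (L.getD a.1 0) d.1 * N d b := by
      symm
      refine Finset.sum_subset (Finset.subset_univ _) ?_
      intro d _ hd
      rw [Finset.mem_insert, Finset.mem_singleton, not_or] at hd
      rw [hN, Matrix.of_apply, if_neg hd.2, if_neg hd.1, mul_zero]
    rw [hsub, Finset.sum_pair (Ne.symm hb), hN, Matrix.of_apply, Matrix.of_apply,
      if_neg (Ne.symm hb), if_pos rfl, if_pos rfl, mul_one]
    have hr : ∀ p : ℕ → ℝ, row p b.1 = p (b.1 - 1) := fun p => by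
      rw [row, if_neg hb1]
    rw [hr, hr, h a.1 a.2 (b.1 - 1) (by have := b.2; omega)]
    have h1 : row (L.getD a.1 0) (0 : Fin (q + 1)).1 = 1 := if_pos rfl
    rw [h1, one_mul, add_comm]

/-- Simplices of bounded diameter have bounded volume.

Proof.  By `vol_trans` (translation by minus the first point) one can assume that the first point
has coordinates zero; then all entries of the matrix have absolute value at most `max 1 B`, and
`|det| ≤ (q+1)! (max 1 B)^(q+1)` (`Matrix.det_apply` and triangle inequality, or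
`Matrix.det_le`). -/
theorem vol_bound (q : ℕ) (B : ℝ) : ∃ C : ℝ, ∀ L : List (ℕ → ℝ), L.length = q + 1 →
    (∀ p ∈ L, ∀ p' ∈ L, ∀ l < q, |p l - p' l| ≤ B) → |vol q L| ≤ C := by
  refine ⟨(Fintype.card (Fin (q + 1))).factorial • (max 1 B) ^ Fintype.card (Fin (q + 1)), ?_⟩
  intro L hL hB
  obtain ⟨p0, hp0⟩ : ∃ p0, p0 = L.getD 0 0 := ⟨_, rfl⟩
  have hmem : ∀ a < q + 1, L.getD a 0 ∈ L := by
    intro a ha
    rw [List.getD_eq_getElem L 0 (by omega)]
    exact List.getElem_mem _
  obtain ⟨L', hL'⟩ : ∃ L' : List (ℕ → ℝ), L' = L.map fun p l => p l - p0 l := ⟨_, rfl⟩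
  have hget : ∀ a < q + 1, ∀ l, (L'.getD a 0) l = (L.getD a 0) l - p0 l := by
    intro a ha l
    subst hL'
    rw [List.getD_eq_getElem _ 0 (by rw [List.length_map]; omega),
      List.getD_eq_getElem L 0 (by omega), List.getElem_map]
  have e1 : vol q L' = vol q L := by
    refine vol_trans q L L' (fun l => - p0 l) fun a ha l _ => ?_
    rw [hget a ha l, sub_eq_add_neg]
  rw [← e1]
  unfold vol
  refine Matrix.det_le (abv := AbsoluteValue.abs) ?_
  intro i j
  rw [Matrix.of_apply]
  show |row (L'.getD i.1 0) j.1| ≤ max 1 B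
  unfold row
  split_ifs with hj
  · rw [abs_one]
    exact le_max_left _ _
  · rw [hget i.1 i.2]
    refine le_trans ?_ (le_max_right _ _)
    refine hB _ (hmem i.1 i.2) _ ?_ _ (by have := j.2; omega)
    rw [hp0]
    exact hmem 0 (by omega)

end Pool.Agent.H.MP_e5d137_al.SL
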