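import Mathlib
import Pool.Agent.H.MP_e5d137_al.SL.Vol

/-!
# Signed volumes: cocycle property and Stokes formula
-/

namespace Pool.Agent.H.MP_e5d137_al.SL

open Finset

private lemma vol2_getD (q : ℕ) (L : List (ℕ → ℝ)) (i : Fin (q + 2)) (a : Fin (q + 1)) :
    (L.eraseIdx i.1).getD a.1 0 = L.getD (i.succAbove a).1 0 := by
  rw [List.getD_eq_getElem?_getD, List.getD_eq_getElem?_getD, List.getElem?_eraseIdx]
  by_cases h : a.1 < i.1
  · rw [if_pos h, Fin.succAbove_of_castSucc_lt _ _ (by rw [Fin.lt_def]; exact h)]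
    rfl
  · rw [if_neg h, Fin.succAbove_of_le_castSucc _ _ (by rw [Fin.le_def]; exact not_lt.1 h)]
    rfl

private lemma vol2_minor (q : ℕ) (L : List (ℕ → ℝ)) (i : Fin (q + 2)) :
    vol q (L.eraseIdx i.1) = Matrix.det (Matrix.of fun a b : Fin (q + 1) =>
      row (L.getD (i.succAbove a).1 0) b.1) := by
  unfold vol
  congr 1
  ext a b
  rw [Matrix.of_apply, Matrix.of_apply, vol2_getD]

/-- The alternating sum of the volumes of the faces is zero.

Proof.  Expand along the first column (`Matrix.det_succ_column_zero` or `Matrix.det_succ_column`)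
the determinant of the `(q+2) × (q+2)` matrix with the rows `(1, row (L a))`, `a = 0, ..., q+1`,
which is zero because its first two columns are equal (`Matrix.det_zero_of_column_eq`).  The minor
for the row `i` is the matrix of `vol q (L.eraseIdx i)`: `(L.eraseIdx i).getD a 0` is
`L.getD (i.succAbove a) 0`. -/
theorem vol_coc (q : ℕ) (L : List (ℕ → ℝ)) (hL : L.length = q + 2) :
    ∑ i ∈ range (q + 2), (-1 : ℝ) ^ i * vol q (L.eraseIdx i) = 0 := by
  obtain ⟨M, hM⟩ : ∃ M : Matrix (Fin (q + 2)) (Fin (q + 2)) ℝ, M = Matrix.of fun a b =>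
    row (L.getD a.1 0) (b.1 - 1) := ⟨_, rfl⟩
  have h0 : M.det = 0 := by
    have h01 : (0 : Fin (q + 2)) ≠ 1 := by
      intro h
      have := congrArg Fin.val h
      simp at this
    refine Matrix.det_zero_of_column_eq h01 fun a => ?_
    rw [hM, Matrix.of_apply, Matrix.of_apply]
    rfl
  rw [Matrix.det_succ_column_zero] at h0
  rw [Finset.sum_range, ← h0]
  refine Finset.sum_congr rfl fun i _ => ?_
  have h1 : M i 0 = 1 := by
    rw [hM, Matrix.of_apply]
    exact if_pos rfl
  have h2 : M.submatrix i.succAbove Fin.succ = Matrix.of fun a b : Fin (q + 1) =>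
      row (L.getD (i.succAbove a).1 0) b.1 := by
    ext a b
    rw [Matrix.submatrix_apply, hM, Matrix.of_apply, Matrix.of_apply]
    rfl
  rw [h1, h2, mul_one, vol2_minor]

private lemma vol2_sum (q n : ℕ) (L : List (ℕ → ℝ)) (i : ℕ) (hi : i < L.length) :
    ((L.eraseIdx i).map (fun p => p q)).sum =
      (L.map (fun p => p q)).sum - (L.getD i 0) q := by
  have h := ((List.getElem_cons_eraseIdx_perm hi).map (fun p : ℕ → ℝ => p q)).sum_eq
  rw [List.map_cons, List.sum_cons] at h
  rw [← h, List.getD_eq_getElem L 0 hi]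
  ring

private lemma vol2_last (q : ℕ) (L : List (ℕ → ℝ)) :
    (-1 : ℝ) ^ q * vol (q + 1) L =
      - ∑ i ∈ range (q + 2), (-1 : ℝ) ^ i * ((L.getD i 0) q * vol q (L.eraseIdx i)) := by
  have h1 : vol (q + 1) L = ∑ i : Fin (q + 2), (-1 : ℝ) ^ (i.1 + (q + 1)) *
      ((L.getD i.1 0) q * vol q (L.eraseIdx i.1)) := by
    unfold vol
    rw [Matrix.det_succ_column _ (Fin.last (q + 1))]
    refine Finset.sum_congr rfl fun i _ => ?_
    have h2 := vol2_minor q L i
    unfold vol at h2
    rw [h2, Matrix.of_apply]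
    have h3 : row (L.getD i.1 0) (Fin.last (q + 1)).1 = (L.getD i.1 0) q := by
      rw [Fin.val_last, row, if_neg (by omega)]
      rfl
    rw [h3, mul_assoc]
    have h4 : (Matrix.of fun a b : Fin (q + 1 + 1) => row (L.getD a.1 0) b.1).submatrix
        i.succAbove (Fin.last (q + 1)).succAbove = Matrix.of fun a b : Fin (q + 1) =>
          row (L.getD (i.succAbove a).1 0) b.1 := by
      ext a b
      rw [Matrix.submatrix_apply, Matrix.of_apply, Matrix.of_apply, Fin.succAbove_last]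
      rfl
    rw [h4, Fin.val_last]
  rw [h1, Finset.sum_range, ← Finset.sum_neg_distrib, Finset.mul_sum]
  refine Finset.sum_congr rfl fun i _ => ?_
  have h5 : (-1 : ℝ) ^ q * (-1 : ℝ) ^ (i.1 + (q + 1)) = - (-1 : ℝ) ^ i.1 := by
    have h6 : (-1 : ℝ) ^ q * (-1 : ℝ) ^ q = 1 := by
      rw [← mul_pow]
      norm_num
    calc (-1 : ℝ) ^ q * (-1 : ℝ) ^ (i.1 + (q + 1)) =
        - ((-1 : ℝ) ^ q * (-1 : ℝ) ^ q) * (-1 : ℝ) ^ i.1 := by
          rw [pow_add, pow_succ]
          ring
      _ = - (-1 : ℝ) ^ i.1 := by rw [h6]; ring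
  rw [← mul_assoc, h5]
  ring

/-- Stokes formula.

Proof.  Let `X` be the sum of `p q` over all points `p` of `L` and `x_i = (L.getD i 0) q`.  The sum
over `L.eraseIdx i` is `X - x_i`, so the left hand side is `X * 0 - Σ_i (-1)^i x_i vol q (..)` by
`vol_coc`.  Expanding the matrix of `vol (q+1) L` along its last column
(`Matrix.det_succ_column _ (Fin.last _)`): `vol (q+1) L = Σ_i (-1)^(i+q+1) x_i vol q (L.eraseIdx i)`. -/
theorem vol_stokes (q : ℕ) (L : List (ℕ → ℝ)) (hL : L.length = q + 2) :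
    ∑ i ∈ range (q + 2), (-1 : ℝ) ^ i *
      ((((L.eraseIdx i).map (fun p => p q)).sum) * vol q (L.eraseIdx i)) =
      (-1 : ℝ) ^ q * vol (q + 1) L := by
  rw [vol2_last]
  have h1 : ∑ i ∈ range (q + 2), (-1 : ℝ) ^ i *
      ((((L.eraseIdx i).map (fun p => p q)).sum) * vol q (L.eraseIdx i)) =
      ∑ i ∈ range (q + 2), ((L.map (fun p => p q)).sum * ((-1 : ℝ) ^ i * vol q (L.eraseIdx i)) -
        (-1 : ℝ) ^ i * ((L.getD i 0) q * vol q (L.eraseIdx i))) := by
    refine Finset.sum_congr rfl fun i hi => ?_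
    rw [vol2_sum q q L i (by rw [hL]; exact Finset.mem_range.1 hi)]
    ring
  rw [h1, Finset.sum_sub_distrib, ← Finset.mul_sum, vol_coc q L hL, mul_zero, zero_sub]

end Pool.Agent.H.MP_e5d137_al.SL
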