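import Mathlib
import Pool.Agent.H.MP_e5d137_al.SL.Vol2

/-!
# Cup products of real cochains on lists
-/

namespace Pool.Agent.H.MP_e5d137_al.SL

open Finset

variable {Γ : Type} [Group Γ]

lemma Cupp_ev_consL (f : List Γ → ℝ) (g : Γ) (c : LC Γ) :
    ev f (consL g c) = ev (fun τ => f (g :: τ)) c := by
  induction c using Finsupp.induction_linear with
  | zero => simp
  | add a b ha hb => simp only [map_add, ha, hb]
  | single σ k => rw [consL_single, ev_single, ev_single]

lemma Cupp_erase_map {α β : Type} (F : α → β) (σ : List α) (i : ℕ) :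
    (σ.eraseIdx i).map F = (σ.map F).eraseIdx i := by
  apply List.ext_getElem?
  intro j
  rw [List.getElem?_map, List.getElem?_eraseIdx, List.getElem?_eraseIdx]
  split_ifs <;> rw [List.getElem?_map]

lemma Cupp_take_low {α : Type} (σ : List α) {P i : ℕ} (hi : i ≤ P) :
    (σ.eraseIdx i).take (P + 1) = (σ.take (P + 2)).eraseIdx i := by
  apply List.ext_getElem?
  intro j
  rw [List.getElem?_take, List.getElem?_eraseIdx, List.getElem?_eraseIdx, List.getElem?_take,
    List.getElem?_take]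
  split_ifs <;> first | rfl | omega

lemma Cupp_drop_low {α : Type} (σ : List α) {P i : ℕ} (hi : i ≤ P) :
    (σ.eraseIdx i).drop P = σ.drop (P + 1) := by
  apply List.ext_getElem?
  intro j
  rw [List.getElem?_drop, List.getElem?_eraseIdx, List.getElem?_drop, if_neg (by omega)]
  congr 1
  omega

lemma Cupp_take_high {α : Type} (σ : List α) {P i : ℕ} (hi : P + 1 ≤ i) :
    (σ.eraseIdx i).take (P + 1) = σ.take (P + 1) := by
  apply List.ext_getElem?
  intro j
  rw [List.getElem?_take, List.getElem?_eraseIdx, List.getElem?_take]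
  split_ifs <;> first | rfl | omega

lemma Cupp_drop_high {α : Type} (σ : List α) (P j : ℕ) :
    (σ.eraseIdx (P + 1 + j)).drop P = (σ.drop P).eraseIdx (j + 1) := by
  apply List.ext_getElem?
  intro t
  rw [List.getElem?_drop, List.getElem?_eraseIdx, List.getElem?_eraseIdx, List.getElem?_drop,
    List.getElem?_drop]
  by_cases h : t < j + 1
  · rw [if_pos h, if_pos (by omega)]
  · rw [if_neg h, if_neg (by omega)]
    rfl

lemma Cupp_take_last {α : Type} (σ : List α) (P : ℕ) :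
    (σ.take (P + 2)).eraseIdx (P + 1) = σ.take (P + 1) := by
  apply List.ext_getElem?
  intro j
  rw [List.getElem?_eraseIdx, List.getElem?_take, List.getElem?_take, List.getElem?_take]
  split_ifs <;> first | rfl | omega

lemma Cupp_drop_zero {α : Type} (σ : List α) (P : ℕ) :
    (σ.drop P).eraseIdx 0 = σ.drop (P + 1) := by
  apply List.ext_getElem?
  intro j
  rw [List.getElem?_eraseIdx, if_neg (by omega), List.getElem?_drop, List.getElem?_drop]
  congr 1
  omega

/-- Proof.  First prove `bdl σ = ∑ i ∈ range σ.length, (-1)^i • single (σ.eraseIdx i) 1` by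
induction on `σ` (`Finset.sum_range_succ'`, `consL_single`). -/
theorem dc_eq (f : List Γ → ℝ) (σ : List Γ) :
    dc f σ = ∑ i ∈ range σ.length, (-1 : ℝ) ^ i * f (σ.eraseIdx i) := by
  induction σ generalizing f with
  | nil => simp [dc, bdl]
  | cons g σ ih =>
    have h1 : dc f (g :: σ) = f σ - dc (fun τ => f (g :: τ)) σ := by
      unfold dc
      rw [bdl, map_sub, ev_single, Cupp_ev_consL]
      simp
    rw [h1, ih, List.length_cons, Finset.sum_range_succ', pow_zero, one_mul,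
      List.eraseIdx_cons_zero, sub_eq_add_neg, add_comm, ← Finset.sum_neg_distrib]
    congr 1
    refine Finset.sum_congr rfl fun i _ => ?_
    rw [List.eraseIdx_cons_succ, pow_succ]
    ring

/-- cup product of `A` (degree `P`) and `f` -/
noncomputable def cupr (P : ℕ) (A f : List Γ → ℝ) (σ : List Γ) : ℝ :=
  A (σ.take (P + 1)) * f (σ.drop P)

/-- Leibniz rule, `A` a cocycle.

Proof.  `dc_eq`; split the sum over `i < P + q + 2` into `i ≤ P` and `i > P`.  For `i ≤ P`:
`(σ.eraseIdx i).take (P+1) = (σ.take (P+2)).eraseIdx i` and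
`(σ.eraseIdx i).drop P = σ.drop (P+1)`.  For `i = P + 1 + j`:
`(σ.eraseIdx i).take (P+1) = σ.take (P+1)`, `(σ.eraseIdx i).drop P = (σ.drop P).eraseIdx (j+1)`.
Put `a = A (σ.take (P+1))`, `g = f (σ.drop (P+1))`.  Since `dc A (σ.take (P+2)) = 0`, the first
part is `(0 - (-1)^(P+1) a) g` (`(σ.take (P+2)).eraseIdx (P+1) = σ.take (P+1)`).  The second part is
`(-1)^P a (dc f (σ.drop P) - g)` (`(σ.drop P).eraseIdx 0 = σ.drop (P+1)`).  The sum is
`(-1)^P a dc f (σ.drop P)`. -/
theorem dc_cupr (P q : ℕ) (A f : List Γ → ℝ) (hA : ∀ σ : List Γ, σ.length = P + 2 → dc A σ = 0)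
    (σ : List Γ) (hσ : σ.length = P + q + 2) :
    dc (cupr P A f) σ = (-1 : ℝ) ^ P * (A (σ.take (P + 1)) * dc f (σ.drop P)) := by
  have hlen1 : (σ.take (P + 2)).length = P + 2 := by
    rw [List.length_take, hσ]
    omega
  have hlen2 : (σ.drop P).length = q + 2 := by
    rw [List.length_drop, hσ]
    omega
  have h1 := hA (σ.take (P + 2)) hlen1
  rw [dc_eq, hlen1, Finset.sum_range_succ, Cupp_take_last] at h1
  have h2 := dc_eq f (σ.drop P)
  rw [hlen2, Finset.sum_range_succ', pow_zero, one_mul, Cupp_drop_zero] at h2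
  have e1 : ∑ i ∈ range (P + 1), (-1 : ℝ) ^ i * cupr P A f (σ.eraseIdx i) =
      (∑ i ∈ range (P + 1), (-1 : ℝ) ^ i * A ((σ.take (P + 2)).eraseIdx i)) *
        f (σ.drop (P + 1)) := by
    rw [Finset.sum_mul]
    refine Finset.sum_congr rfl fun i hi => ?_
    have hi' : i ≤ P := Nat.lt_succ_iff.1 (Finset.mem_range.1 hi)
    unfold cupr
    rw [Cupp_take_low σ hi', Cupp_drop_low σ hi', mul_assoc]
  have e2 : ∑ j ∈ range (q + 1), (-1 : ℝ) ^ (P + 1 + j) * cupr P A f (σ.eraseIdx (P + 1 + j)) =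
      (-1 : ℝ) ^ P * A (σ.take (P + 1)) *
        ∑ j ∈ range (q + 1), (-1 : ℝ) ^ (j + 1) * f ((σ.drop P).eraseIdx (j + 1)) := by
    rw [Finset.mul_sum]
    refine Finset.sum_congr rfl fun j _ => ?_
    unfold cupr
    rw [Cupp_take_high σ (by omega), Cupp_drop_high σ P j,
      show P + 1 + j = P + (j + 1) by omega, pow_add]
    ring
  rw [dc_eq, hσ, show P + q + 2 = (P + 1) + (q + 1) by omega, Finset.sum_range_add, e1, e2]
  rw [h2]
  have h3 : ∑ i ∈ range (P + 1), (-1 : ℝ) ^ i * A ((σ.take (P + 2)).eraseIdx i) =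
      (-1 : ℝ) ^ P * A (σ.take (P + 1)) := by
    have h4 : (-1 : ℝ) ^ (P + 1) = - (-1 : ℝ) ^ P := by rw [pow_succ]; ring
    rw [h4] at h1
    linarith
  rw [h3]
  ring

/-- the volume cochain of a map to `ℝ^q` -/
noncomputable def vc (Ψ : Γ → ℕ → ℝ) (q : ℕ) (σ : List Γ) : ℝ := vol q (σ.map Ψ)

/-- `dc_eq`, `vol_coc` (`List.map` commutes with `eraseIdx`). -/
theorem dc_vc (Ψ : Γ → ℕ → ℝ) (q : ℕ) (σ : List Γ) (hσ : σ.length = q + 2) :
    dc (vc Ψ q) σ = 0 := by
  rw [dc_eq, hσ, ← vol_coc q (σ.map Ψ) (by rw [List.length_map, hσ])]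
  refine Finset.sum_congr rfl fun i _ => ?_
  unfold vc
  rw [Cupp_erase_map]

/-- `dc_eq`, `vol_stokes`. -/
theorem dc_svc (Ψ : Γ → ℕ → ℝ) (q : ℕ) (σ : List Γ) (hσ : σ.length = q + 2) :
    dc (fun τ => ((τ.map (fun x => Ψ x q)).sum) * vc Ψ q τ) σ =
      (-1 : ℝ) ^ q * vc Ψ (q + 1) σ := by
  rw [dc_eq, hσ]
  have h := vol_stokes q (σ.map Ψ) (by rw [List.length_map, hσ])
  unfold vc
  rw [← h]
  refine Finset.sum_congr rfl fun i _ => ?_
  rw [← Cupp_erase_map, List.map_map]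
  rfl

/-- the cochain `A ∪ vol_i` -/
noncomputable def blk (P : ℕ) (A : List Γ → ℝ) (Ψ : Γ → ℕ → ℝ) (i : ℕ) : List Γ → ℝ :=
  cupr P A (vc Ψ i)

/-- `dc_cupr` and `dc_vc` (`σ.drop P` has length `q + 2`). -/
theorem dc_blk (P q : ℕ) (A : List Γ → ℝ) (Ψ : Γ → ℕ → ℝ)
    (hA : ∀ σ : List Γ, σ.length = P + 2 → dc A σ = 0)
    (σ : List Γ) (hσ : σ.length = P + q + 2) : dc (blk P A Ψ q) σ = 0 := by
  unfold blk
  rw [dc_cupr P q A (vc Ψ q) hA σ hσ, dc_vc Ψ q (σ.drop P) (by rw [List.length_drop, hσ]; omega),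
    mul_zero, mul_zero]

end Pool.Agent.H.MP_e5d137_al.SL
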