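import Mathlib
import Pool.Agent.H.MP_e5d137_al.SL.Base

/-!
# Coinvariants: the two facts used in the Wang sequence
-/

namespace Pool.Agent.H.MP_e5d137_al.SL

open Finsupp

variable {Γ : Type} [Group Γ]

private lemma Coin_map_mul (g h : Γ) (σ : List Γ) :
    σ.map (fun x => g * h * x) = (σ.map (fun x => h * x)).map (fun x => g * x) := by
  rw [List.map_map]
  apply List.map_congr_left
  intro x _
  simp [mul_assoc]

private lemma Coin_map_one (σ : List Γ) : σ.map (fun x => 1 * x) = σ := by
  simp

private lemma Coin_map_inv (g : Γ) (σ : List Γ) :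
    (σ.map (fun x => g⁻¹ * x)).map (fun x => g * x) = σ := by
  rw [← Coin_map_mul, mul_inv_cancel]
  exact Coin_map_one σ

/-- `I (N ⊔ ⟨t⟩) = I N + (t - 1)`.

Proof.  It suffices to treat a generator `hσ - σ`, `h ∈ N ⊔ ⟨t⟩ = closure (N ∪ {t})`.  Prove by
`Subgroup.closure_induction` that for every `σ` of length `k` the chain `hσ - σ` is of the form
`x + (tr t y - y)`: for `h ∈ N` take `y = 0`; for `h = t` take `y = σ`; for a product
`(h h') σ - σ = (h (h' σ) - h' σ) + (h' σ - σ)`; for an inverse, with `τ = h⁻¹ σ`,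
`h⁻¹ σ - σ = - (h τ - τ)`.  Sums and negatives are clear (`I_induction`). -/
theorem I_sup (N : Subgroup Γ) (t : Γ) (k : ℕ) (z : LC Γ) (hz : z ∈ I (N ⊔ Subgroup.zpowers t) k) :
    ∃ x ∈ I N k, ∃ y ∈ gr (Γ := Γ) k, z = x + (tr t y - y) := by
  have key : ∀ h ∈ N ⊔ Subgroup.zpowers t, ∀ σ : List Γ, σ.length = k →
      ∃ x ∈ I N k, ∃ y ∈ gr (Γ := Γ) k,
        (single (σ.map (fun x => h * x)) 1 - single σ 1 : LC Γ) = x + (tr t y - y) := by
    intro h hh
    rw [Subgroup.zpowers_eq_closure, ← Subgroup.closure_eq N, ← Subgroup.closure_union] at hh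
    refine Subgroup.closure_induction (p := fun h _ => ∀ σ : List Γ, σ.length = k →
      ∃ x ∈ I N k, ∃ y ∈ gr (Γ := Γ) k,
        (single (σ.map (fun x => h * x)) 1 - single σ 1 : LC Γ) = x + (tr t y - y))
      ?_ ?_ ?_ ?_ hh
    · rintro h (hN | ht) σ hσ
      · refine ⟨_, Submodule.subset_span ⟨h, hN, σ, hσ, rfl⟩, 0, Submodule.zero_mem _, ?_⟩
        rw [map_zero, sub_zero, add_zero]
      · rw [Set.mem_singleton_iff] at ht
        subst ht
        refine ⟨0, Submodule.zero_mem _, single σ 1, single_mem_gr hσ 1, ?_⟩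
        rw [tr_single, zero_add]
    · intro σ _
      refine ⟨0, Submodule.zero_mem _, 0, Submodule.zero_mem _, ?_⟩
      rw [Coin_map_one, sub_self, map_zero, sub_zero, add_zero]
    · intro g h _ _ hg hh σ hσ
      obtain ⟨x, hx, y, hy, e⟩ := hh σ hσ
      obtain ⟨x', hx', y', hy', e'⟩ := hg (σ.map (fun x => h * x)) (by rw [List.length_map, hσ])
      refine ⟨x' + x, Submodule.add_mem _ hx' hx, y' + y, Submodule.add_mem _ hy' hy, ?_⟩
      have e3 : (single (σ.map (fun x => g * h * x)) 1 - single σ 1 : LC Γ) =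
          (single ((σ.map (fun x => h * x)).map (fun x => g * x)) 1 -
            single (σ.map (fun x => h * x)) 1) +
          (single (σ.map (fun x => h * x)) 1 - single σ 1) := by
        rw [Coin_map_mul]
        abel
      rw [e3, e, e', map_add]
      abel
    · intro h _ hh σ hσ
      obtain ⟨x, hx, y, hy, e⟩ := hh (σ.map (fun x => h⁻¹ * x)) (by rw [List.length_map, hσ])
      refine ⟨-x, Submodule.neg_mem _ hx, -y, Submodule.neg_mem _ hy, ?_⟩
      rw [Coin_map_inv] at e
      have e3 : (single (σ.map (fun x => h⁻¹ * x)) 1 - single σ 1 : LC Γ) =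
          -(single σ 1 - single (σ.map (fun x => h⁻¹ * x)) 1) := by abel
      rw [e3, e, map_neg]
      abel
  refine I_induction (p := fun z => ∃ x ∈ I N k, ∃ y ∈ gr (Γ := Γ) k, z = x + (tr t y - y))
    ?_ ?_ ?_ key z hz
  · refine ⟨0, Submodule.zero_mem _, 0, Submodule.zero_mem _, ?_⟩
    rw [map_zero, sub_zero, add_zero]
  · rintro a b ⟨x, hx, y, hy, e⟩ ⟨x', hx', y', hy', e'⟩
    refine ⟨x + x', Submodule.add_mem _ hx hx', y + y', Submodule.add_mem _ hy hy', ?_⟩
    rw [e, e', map_add]
    abel
  · rintro a ⟨x, hx, y, hy, e⟩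
    refine ⟨-x, Submodule.neg_mem _ hx, -y, Submodule.neg_mem _ hy, ?_⟩
    rw [e, map_neg]
    abel

/-- The lists modulo `N`. -/
private def CoinS (N : Subgroup Γ) : Setoid (List Γ) where
  r σ σ' := ∃ h ∈ N, σ' = σ.map (fun x => h * x)
  iseqv :=
    { refl := fun σ => ⟨1, N.one_mem, (Coin_map_one σ).symm⟩
      symm := by
        rintro σ σ' ⟨h, hh, rfl⟩
        refine ⟨h⁻¹, N.inv_mem hh, ?_⟩
        rw [← Coin_map_mul, inv_mul_cancel, Coin_map_one]
      trans := by
        rintro σ σ' σ'' ⟨h, hh, rfl⟩ ⟨h', hh', rfl⟩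
        exact ⟨h' * h, N.mul_mem hh' hh, (Coin_map_mul h' h σ).symm⟩ }

/-- The action of `t` on the lists modulo `N`. -/
private def CoinT (N : Subgroup Γ) (t : Γ) (hn : Nrm N t) :
    Quotient (CoinS N) → Quotient (CoinS N) :=
  Quotient.map (List.map (fun x => t * x)) (by
    rintro σ σ' ⟨h, hh, rfl⟩
    refine ⟨t * h * t⁻¹, (hn h).1 hh, ?_⟩
    rw [← Coin_map_mul, ← Coin_map_mul, inv_mul_cancel_right])

private lemma CoinT_mk (N : Subgroup Γ) (t : Γ) (hn : Nrm N t) (σ : List Γ) :
    CoinT N t hn (Quotient.mk (CoinS N) σ) =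
      Quotient.mk (CoinS N) (σ.map (fun x => t * x)) := rfl

private lemma CoinT_inj (N : Subgroup Γ) (t : Γ) (hn : Nrm N t) :
    Function.Injective (CoinT N t hn) := by
  intro q q'
  refine Quotient.inductionOn₂ q q' fun σ σ' h => ?_
  rw [CoinT_mk, CoinT_mk] at h
  obtain ⟨h, hh, e⟩ := Quotient.exact h
  refine Quotient.sound ⟨t⁻¹ * h * t, ?_, ?_⟩
  · rw [hn (t⁻¹ * h * t)]
    have : t * (t⁻¹ * h * t) * t⁻¹ = h := by group
    rw [this]
    exact hh
  · have e2 : (σ'.map (fun x => t * x)).map (fun x => t⁻¹ * x) = σ' := by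
      rw [← Coin_map_mul, inv_mul_cancel, Coin_map_one]
    rw [← e2, e, ← Coin_map_mul, ← Coin_map_mul, mul_assoc]

private lemma CoinT_iter (N : Subgroup Γ) (t : Γ) (hn : Nrm N t) (σ : List Γ) (j : ℕ) :
    (CoinT N t hn)^[j] (Quotient.mk (CoinS N) σ) =
      Quotient.mk (CoinS N) (σ.map (fun x => t ^ j * x)) := by
  induction j with
  | zero =>
    rw [Function.iterate_zero_apply, pow_zero, Coin_map_one]
  | succ j ih =>
    rw [Function.iterate_succ_apply', ih, CoinT_mk, ← Coin_map_mul, ← pow_succ']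

/-- `t - 1` is injective on the coinvariants of `N`.

Proof.  Let `Q` be the quotient of the lists of length `k` (or of all lists) by the relation
`σ ~ σ'` iff `σ' = h σ` for some `h ∈ N` (`Setoid`), `π : LC Γ → (Q →₀ ℤ)` the map
`Finsupp.mapDomain (Quotient.mk _)`.
(1) `π` vanishes on `I N k` (`I_induction`).
(2) If `y ∈ gr k` and `π y = 0` then `y ∈ I N k`: with `r := Quotient.out`,
`y - mapDomain (r ∘ mk) y` is in `I N k` (linearity, `gr_induction`: `σ` and `r [σ]` are in the
same orbit, so `σ - r [σ]` is a generator), and `mapDomain (r ∘ mk) y = mapDomain r (π y) = 0`.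
(3) `t` induces a permutation `T` of `Q` since `t` normalizes `N` (`T [σ] = [t σ]`), and
`π (tr t y) = mapDomain T (π y)`.  So `f = π y` is a finitely supported function with
`mapDomain T f = f`, i.e. `f (T q) = f q` (`T` is injective: `Finsupp.mapDomain_apply`).
(4) `T^j [σ] = [t^j σ] ≠ [σ]` for `j > 0` if `σ` is not empty: otherwise `t^j σ = h σ` with
`h ∈ N`, compare the heads: `t^j = h`.  So if `f q ≠ 0` for some `q = [σ]` then (if `σ ≠ []`) the
elements `T^j q`, `j : ℕ`, are distinct elements of the support of `f`: contradiction.  (If one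
takes `Q` as a quotient of all lists one also has to see `f [[]] = 0`, this holds as `y ∈ gr k`,
`1 ≤ k`.)
(5) Hence `π y = 0` and `y ∈ I N k` by (2). -/
theorem mem_I_of_sub (N : Subgroup Γ) (t : Γ) (hn : Nrm N t) (hfree : ∀ j : ℕ, 0 < j → t ^ j ∉ N)
    (k : ℕ) (hk : 1 ≤ k) (y : LC Γ) (hy : y ∈ gr (Γ := Γ) k) (h : tr t y - y ∈ I N k) :
    y ∈ I N k := by
  classical
  set m : List Γ → Quotient (CoinS N) := Quotient.mk (CoinS N) with hm
  set T := CoinT N t hn with hT
  -- the projection to the coinvariants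
  have h1 : ∀ x ∈ I N k, Finsupp.lmapDomain ℤ ℤ m x = 0 := by
    intro x hx
    refine I_induction (p := fun x => Finsupp.lmapDomain ℤ ℤ m x = 0) ?_ ?_ ?_ ?_ x hx
    · rw [map_zero]
    · intro a b ha hb
      rw [map_add, ha, hb, add_zero]
    · intro a ha
      rw [map_neg, ha, neg_zero]
    · intro h hh σ _
      rw [map_sub, Finsupp.lmapDomain_apply, Finsupp.lmapDomain_apply, Finsupp.mapDomain_single,
        Finsupp.mapDomain_single]
      have : m (σ.map (fun x => h * x)) = m σ :=
        (Quotient.sound (s := CoinS N) ⟨h, hh, rfl⟩).symm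
      rw [this, sub_self]
  -- representatives
  have h2 : ∀ y ∈ gr (Γ := Γ) k,
      y - Finsupp.lmapDomain ℤ ℤ Quotient.out (Finsupp.lmapDomain ℤ ℤ m y) ∈ I N k := by
    intro y hy
    refine gr_induction (p := fun y =>
      y - Finsupp.lmapDomain ℤ ℤ Quotient.out (Finsupp.lmapDomain ℤ ℤ m y) ∈ I N k) ?_ ?_ ?_ y hy
    · rw [map_zero, map_zero, sub_zero]
      exact Submodule.zero_mem _
    · intro a b ha hb
      rw [map_add, map_add, add_sub_add_comm]
      exact Submodule.add_mem _ ha hb
    · intro σ n hσ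
      rw [Finsupp.lmapDomain_apply, Finsupp.lmapDomain_apply, Finsupp.mapDomain_single,
        Finsupp.mapDomain_single]
      obtain ⟨h, hh, e⟩ : ∃ h ∈ N, σ = (Quotient.out (m σ)).map (fun x => h * x) :=
        Quotient.exact (s := CoinS N) (Quotient.out_eq (m σ))
      have hl : (Quotient.out (m σ)).length = k := by
        rw [← hσ]
        conv_rhs => rw [e]
        rw [List.length_map]
      have e2 : (single σ n - single (Quotient.out (m σ)) n : LC Γ) =
          n • (single ((Quotient.out (m σ)).map (fun x => h * x)) 1 -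
            single (Quotient.out (m σ)) 1) := by
        rw [← e, smul_sub, Finsupp.smul_single, Finsupp.smul_single, smul_eq_mul, mul_one]
      rw [e2]
      exact Submodule.smul_mem _ _ (Submodule.subset_span ⟨h, hh, _, hl, rfl⟩)
  -- compatibility with `t`
  have h3 : ∀ y : LC Γ, Finsupp.lmapDomain ℤ ℤ m (tr t y) =
      Finsupp.mapDomain T (Finsupp.lmapDomain ℤ ℤ m y) := by
    intro y
    rw [Finsupp.lmapDomain_apply, Finsupp.lmapDomain_apply]
    change Finsupp.mapDomain m (Finsupp.mapDomain (List.map (fun x => t * x)) y) = _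
    rw [← Finsupp.mapDomain_comp, ← Finsupp.mapDomain_comp]
    rfl
  set f := Finsupp.lmapDomain ℤ ℤ m y with hf
  have h4 : Finsupp.mapDomain T f = f := by
    rw [hf, ← h3, ← sub_eq_zero, ← map_sub]
    exact h1 _ h
  have h5 : ∀ q, f (T q) = f q := by
    intro q
    conv_lhs => rw [← h4]
    exact Finsupp.mapDomain_apply (CoinT_inj N t hn) f q
  have h6 : f = 0 := by
    by_contra hne
    obtain ⟨q, hq⟩ := Finsupp.support_nonempty_iff.2 hne
    have hq' := hq
    rw [hf, Finsupp.lmapDomain_apply] at hq'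
    have hq2 := Finsupp.mapDomain_support hq'
    rw [Finset.mem_image] at hq2
    obtain ⟨σ, hσ, hσq⟩ := hq2
    have hlen : σ.length = k := (Finsupp.mem_supported ℤ y).1 hy hσ
    have hmem : ∀ j : ℕ, T^[j] q ∈ (f.support : Set (Quotient (CoinS N))) := by
      intro j
      induction j with
      | zero => exact hq
      | succ j ih =>
        rw [Function.iterate_succ_apply', Finset.mem_coe, Finsupp.mem_support_iff, h5]
        exact Finsupp.mem_support_iff.1 ih
    have hne' : ∀ d : ℕ, 0 < d → T^[d] q ≠ q := by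
      intro d hd e
      rw [← hσq, hT, hm, CoinT_iter] at e
      obtain ⟨h, hh, e2⟩ := Quotient.exact (s := CoinS N) e
      rw [← Coin_map_mul] at e2
      obtain _ | ⟨g, τ⟩ := σ
      · simp only [List.length_nil] at hlen
        omega
      · rw [List.map_cons, List.cons.injEq] at e2
        have e3 : h * t ^ d = 1 := by
          have := e2.1
          exact (mul_eq_right.1 this.symm)
        refine hfree d hd ?_
        rw [← inv_eq_of_mul_eq_one_right e3]
        exact N.inv_mem hh
    have hinj : Function.Injective fun j : ℕ => T^[j] q := by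
      have aux : ∀ i j : ℕ, i < j → T^[i] q ≠ T^[j] q := by
        intro i j hij e
        have e2 : T^[i] q = T^[i] (T^[j - i] q) := by
          rw [← Function.iterate_add_apply, Nat.add_sub_cancel' hij.le]
          exact e
        have e3 := (CoinT_inj N t hn).iterate i e2
        exact hne' (j - i) (by omega) e3.symm
      intro i j e
      rcases lt_trichotomy i j with hij | hij | hij
      · exact absurd e (aux i j hij)
      · exact hij
      · exact absurd e.symm (aux j i hij)
    exact (Set.infinite_of_injective_forall_mem hinj hmem) f.support.finite_toSet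
  have h7 := h2 y hy
  rw [← hf, h6, map_zero, sub_zero] at h7
  exact h7

end Pool.Agent.H.MP_e5d137_al.SL
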