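import Mathlib
import Pool.Agent.H.MP_e5d137_al.SL.Coin
import Pool.Agent.H.MP_e5d137_al.SL.Folner

/-!
# The tower step (Wang sequence)
-/

namespace Pool.Agent.H.MP_e5d137_al.SL

open Finsupp

variable {Γ : Type} [Group Γ]

lemma Step_I_bot {k : ℕ} {x : LC Γ} (hx : x ∈ I (⊥ : Subgroup Γ) k) : x = 0 := by
  refine I_induction (p := fun x => x = 0) rfl ?_ ?_ ?_ x hx
  · intro a b ha hb; rw [ha, hb, add_zero]
  · intro a ha; rw [ha, neg_zero]
  · intro h hh σ hσ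
    rw [Subgroup.mem_bot.1 hh]
    simp

lemma Step_consL {k : ℕ} (g : Γ) {c : LC Γ} (hc : c ∈ gr (Γ := Γ) k) :
    consL g c ∈ gr (Γ := Γ) (k + 1) := by
  refine gr_induction (p := fun c => consL g c ∈ gr (Γ := Γ) (k + 1)) ?_ ?_ ?_ c hc
  · rw [map_zero]; exact Submodule.zero_mem _
  · intro a b ha hb; rw [map_add]; exact Submodule.add_mem _ ha hb
  · intro σ n hσ
    rw [consL_single]
    exact single_mem_gr (by simp [hσ]) n

lemma Step_bd0_I {N : Subgroup Γ} {i : ℕ} {x : LC Γ} (hx : x ∈ I N (i + 1)) :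
    bd0 x ∈ I N i := by
  refine I_induction (p := fun x => bd0 x ∈ I N i) ?_ ?_ ?_ ?_ x hx
  · rw [map_zero]; exact Submodule.zero_mem _
  · intro a b ha hb; rw [map_add]; exact Submodule.add_mem _ ha hb
  · intro a ha; rw [map_neg]; exact Submodule.neg_mem _ ha
  · intro h hh σ hσ
    rw [← tr_single, map_sub, bd0_tr]
    exact tr_sub_mem_I hh (bd0_mem_gr (single_mem_gr hσ 1))

/-- The trivial group: dimension `0` and the cocycle `1`.

Proof.  `I ⊥ k = 0` (its generators are `1 σ - σ = 0`).  `high`: for `z ∈ gr k`, `2 ≤ k`, we have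
`bdL z = bd0 z = 0`, and `w = consL 1 z` satisfies `bd0 w = bdL w = z - consL 1 (bdL z) = z`
(`bdL_consL`).  `top`: for `z ∈ gr 1` with `ev 1 z = 0`, i.e. sum of the coefficients zero,
`bdL z = 0` by `sum_consL`, again `w = consL 1 z`.  `det`: `ζ = single [1] 1`, `bd0 ζ = 0`. -/
theorem PD.bot : PD (⊥ : Subgroup Γ) 0 (fun _ => 1) where
  fol := fol_bot
  inv := fun _ _ _ _ => rfl
  high := by
    intro k hk z hz hb
    have h0 : bd0 z = 0 := Step_I_bot hb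
    obtain ⟨i, rfl⟩ : ∃ i, k = i + 2 := ⟨k - 2, by omega⟩
    rw [bd0_of_gr hz] at h0
    refine ⟨consL 1 z, Step_consL 1 hz, ?_⟩
    rw [bd0_of_gr (i := i + 1) (Step_consL 1 hz), bdL_consL, h0, map_zero, sub_zero, sub_self]
    exact Submodule.zero_mem _
  top := by
    intro z hz _ hev
    have h1 : ev (fun _ => (1 : ℝ)) z = ((z.sum fun _ k => k : ℤ) : ℝ) := by
      refine gr_induction
        (p := fun z => ev (fun _ => (1 : ℝ)) z = ((z.sum fun _ k => k : ℤ) : ℝ)) ?_ ?_ ?_ z hz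
      · simp
      · intro a b ha hb
        rw [map_add, ha, hb, Finsupp.sum_add_index' (fun _ => rfl) (fun _ _ _ => rfl)]
        push_cast
        rfl
      · intro σ n _
        rw [ev_single, Finsupp.sum_single_index rfl, mul_one]
    rw [h1] at hev
    have h2 : (z.sum fun _ k => k : ℤ) = 0 := by exact_mod_cast hev
    have h3 : bdL z = 0 := by
      rw [sum_consL z hz, h2, Finsupp.single_zero]
    refine ⟨consL 1 z, Step_consL 1 hz, ?_⟩
    rw [bd0_of_gr (i := 0) (Step_consL 1 hz), bdL_consL, h3, map_zero, sub_zero, sub_self]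
    exact Submodule.zero_mem _
  det := by
    refine ⟨single [1] 1, single_mem_gr (by simp) 1, ?_, ?_⟩
    · rw [bd0_gr_one (single_mem_gr (by simp) 1)]
      exact Submodule.zero_mem _
    · rw [ev_single]
      norm_num

/-- `ev η z = ev κ (bd0 z) = a * ev ω y` if `bd0 z = x + (tr t y - y)`. -/
lemma Step_ev (κ η ω : List Γ → ℝ) (N : Subgroup Γ) (t : Γ) (p : ℕ) (a : ℝ)
    (hκN : ∀ h ∈ N, ∀ σ : List Γ, σ.length = p + 1 → κ (σ.map (fun x => h * x)) = κ σ)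
    (hη : ∀ σ : List Γ, σ.length = p + 2 → η σ = dc κ σ)
    (hκt : ∀ σ : List Γ, σ.length = p + 1 → κ (σ.map (fun x => t * x)) - κ σ = a * ω σ)
    (z : LC Γ) (hz : z ∈ gr (Γ := Γ) (p + 2)) (x : LC Γ) (hx : x ∈ I N (p + 1))
    (y : LC Γ) (hy : y ∈ gr (Γ := Γ) (p + 1)) (hxy : bd0 z = x + (tr t y - y)) :
    ev η z = a * ev ω y := by
  have h1 : ev η z = ev (dc κ) z := by
    refine gr_induction (p := fun z => ev η z = ev (dc κ) z) ?_ ?_ ?_ z hz
    · simp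
    · intro a b ha hb; rw [map_add, map_add, ha, hb]
    · intro σ n hσ; rw [ev_single, ev_single, hη σ hσ]
  have h2 : ev κ (tr t y) - ev κ y = a * ev ω y := by
    refine gr_induction (p := fun y => ev κ (tr t y) - ev κ y = a * ev ω y) ?_ ?_ ?_ y hy
    · simp
    · intro b c hb hc
      rw [map_add, map_add, map_add, map_add, mul_add, ← hb, ← hc]
      ring
    · intro σ n hσ
      rw [tr_single, ev_single, ev_single, ev_single, ← mul_sub, hκt σ hσ]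
      ring
  rw [h1, ← ev_bdL, ← bd0_of_gr hz, hxy, map_add, map_sub, h2, ev_I κ N (p + 1) hκN x hx, zero_add]

/-- The step from `N` to `N ⊔ ⟨t⟩`.

Proof.  Write `N' = N ⊔ ⟨t⟩`.  `fol` is `Fol.step`, `inv` is `hηinv`.
`high`: let `p + 3 ≤ k`, `z ∈ gr k`, `bd0 z ∈ I N' (k-1)`.  By `I_sup`,
`bd0 z = x + (tr t y - y)` with `x ∈ I N (k-1)`, `y ∈ gr (k-1)`.  Applying `bd0` and `bd0_bd0`,
`tr t (bd0 y) - bd0 y = - bd0 x ∈ I N (k-2)` (lemma: `bd0` maps `I N (i+1)` to `I N i`, from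
`bd0_tr`), so `bd0 y ∈ I N (k-2)` by `mem_I_of_sub` (`1 ≤ k - 2`).  By `h.high` (`p + 2 ≤ k - 1`)
`y - bd0 w ∈ I N (k-1)`, `w ∈ gr k`.  Put `z' = z - (tr t w - w)`.  Then
`bd0 z' = x + tr t (y - bd0 w) - (y - bd0 w) ∈ I N (k-1)` (`tr_mem_I`), so by `h.high`
`z' - bd0 v ∈ I N k`, and `z - bd0 v = (z' - bd0 v) + (tr t w - w) ∈ I N' k`.
`top`: `z ∈ gr (p+2)`, `bd0 z ∈ I N' (p+1)`, `ev η z = 0`.  As before `bd0 z = x + (tr t y - y)`,
`y ∈ gr (p+1)`, `bd0 y ∈ I N p` (if `p = 0` then `bd0 y = 0` by `bd0_gr_one`).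
`ev η z = ev κ (bd0 z) = ev κ x + (ev κ (tr t y) - ev κ y) = 0 + a * ev ω y`, so `ev ω y = 0`;
by `h.top` `y - bd0 w ∈ I N (p+1)`, `w ∈ gr (p+2)`; `z' = z - (tr t w - w)` satisfies
`bd0 z' ∈ I N (p+1)`, by `h.high` (with `k = p + 2`) `z' - bd0 v ∈ I N (p+2)`, and
`z - bd0 v ∈ I N' (p+2)`.
`det`: take `ζ` from `h.det`; `tr t ζ - ζ ∈ gr (p+1)` has `bd0 ∈ I N p` and
`ev ω (tr t ζ - ζ) = 0` by `hωt`, so by `h.top` `tr t ζ - ζ - bd0 ζ' ∈ I N (p+1)`.  Then
`bd0 ζ' ∈ I N' (p+1)` (`tr_sub_mem_I`) and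
`ev η ζ' = ev κ (bd0 ζ') = ev κ (tr t ζ) - ev κ ζ - 0 = a * ev ω ζ ≠ 0`. -/
theorem PD.step (N : Subgroup Γ) (t : Γ) (p : ℕ) (ω κ η : List Γ → ℝ) (h : PD N p ω)
    (hn : Nrm N t) (hfree : ∀ j : ℕ, 0 < j → t ^ j ∉ N)
    (hωt : ∀ σ : List Γ, σ.length = p + 1 → ω (σ.map (fun x => t * x)) = ω σ)
    (hκN : ∀ h ∈ N, ∀ σ : List Γ, σ.length = p + 1 → κ (σ.map (fun x => h * x)) = κ σ)
    (hη : ∀ σ : List Γ, σ.length = p + 2 → η σ = dc κ σ)
    (a : ℝ) (ha : a ≠ 0)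
    (hκt : ∀ σ : List Γ, σ.length = p + 1 → κ (σ.map (fun x => t * x)) - κ σ = a * ω σ)
    (hηinv : ∀ h ∈ N ⊔ Subgroup.zpowers t, ∀ σ : List Γ, σ.length = p + 2 →
      η (σ.map (fun x => h * x)) = η σ) :
    PD (N ⊔ Subgroup.zpowers t) (p + 1) η := by
  have hle : N ≤ N ⊔ Subgroup.zpowers t := le_sup_left
  have htm : t ∈ N ⊔ Subgroup.zpowers t :=
    (le_sup_right : Subgroup.zpowers t ≤ N ⊔ Subgroup.zpowers t) (Subgroup.mem_zpowers t)
  refine ⟨h.fol.step N t hn hfree, hηinv, ?_, ?_, ?_⟩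
  · intro k hk z hz hb
    obtain ⟨i, rfl⟩ : ∃ i, k = i + 3 := ⟨k - 3, by omega⟩
    obtain ⟨x, hx, y, hy, hxy⟩ := I_sup N t (i + 2) (bd0 z) hb
    have hby : bd0 y ∈ I N (i + 1) := by
      refine mem_I_of_sub N t hn hfree (i + 1) (by omega) (bd0 y) (bd0_mem_gr hy) ?_
      have e1 := congrArg bd0 hxy
      rw [bd0_bd0 (i := i + 1) hz, map_add, map_sub, bd0_tr] at e1
      have e2 : tr t (bd0 y) - bd0 y = -bd0 x := by
        rw [eq_neg_iff_add_eq_zero, add_comm]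
        exact e1.symm
      rw [e2]
      exact Submodule.neg_mem _ (Step_bd0_I hx)
    obtain ⟨w, hw, hyw⟩ := h.high (i + 2) (by omega) y hy hby
    have hz' : z - (tr t w - w) ∈ gr (Γ := Γ) (i + 3) :=
      Submodule.sub_mem _ hz (Submodule.sub_mem _ (tr_mem_gr t hw) hw)
    have hbz' : bd0 (z - (tr t w - w)) ∈ I N (i + 2) := by
      have e : bd0 (z - (tr t w - w)) = x + (tr t (y - bd0 w) - (y - bd0 w)) := by
        rw [map_sub, map_sub, bd0_tr, hxy, map_sub]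
        abel
      rw [e]
      exact Submodule.add_mem _ hx (Submodule.sub_mem _ (tr_mem_I hn hyw) hyw)
    obtain ⟨v, hv, hzv⟩ := h.high (i + 3) (by omega) _ hz' hbz'
    refine ⟨v, hv, ?_⟩
    have e : z - bd0 v = (z - (tr t w - w) - bd0 v) + (tr t w - w) := by abel
    rw [e]
    exact Submodule.add_mem _ (I_mono hle _ hzv) (tr_sub_mem_I htm hw)
  · intro z hz hb hev
    obtain ⟨x, hx, y, hy, hxy⟩ := I_sup N t (p + 1) (bd0 z) hb
    have hby : bd0 y ∈ I N p := by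
      rcases p with _ | p
      · rw [bd0_gr_one hy]
        exact Submodule.zero_mem _
      · refine mem_I_of_sub N t hn hfree (p + 1) (by omega) (bd0 y) (bd0_mem_gr hy) ?_
        have e1 := congrArg bd0 hxy
        rw [bd0_bd0 (i := p + 1) hz, map_add, map_sub, bd0_tr] at e1
        have e2 : tr t (bd0 y) - bd0 y = -bd0 x := by
          rw [eq_neg_iff_add_eq_zero, add_comm]
          exact e1.symm
        rw [e2]
        exact Submodule.neg_mem _ (Step_bd0_I hx)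
    have hevy : ev ω y = 0 := by
      have e1 := Step_ev κ η ω N t p a hκN hη hκt z hz x hx y hy hxy
      rw [hev] at e1
      rcases mul_eq_zero.1 e1.symm with h0 | h0
      · exact absurd h0 ha
      · exact h0
    obtain ⟨w, hw, hyw⟩ := h.top y hy hby hevy
    have hz' : z - (tr t w - w) ∈ gr (Γ := Γ) (p + 2) :=
      Submodule.sub_mem _ hz (Submodule.sub_mem _ (tr_mem_gr t hw) hw)
    have hbz' : bd0 (z - (tr t w - w)) ∈ I N (p + 1) := by
      have e : bd0 (z - (tr t w - w)) = x + (tr t (y - bd0 w) - (y - bd0 w)) := by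
        rw [map_sub, map_sub, bd0_tr, hxy, map_sub]
        abel
      rw [e]
      exact Submodule.add_mem _ hx (Submodule.sub_mem _ (tr_mem_I hn hyw) hyw)
    obtain ⟨v, hv, hzv⟩ := h.high (p + 2) le_rfl _ hz' hbz'
    refine ⟨v, hv, ?_⟩
    have e : z - bd0 v = (z - (tr t w - w) - bd0 v) + (tr t w - w) := by abel
    rw [e]
    exact Submodule.add_mem _ (I_mono hle _ hzv) (tr_sub_mem_I htm hw)
  · obtain ⟨ζ, hζ, hbζ, hevζ⟩ := h.det
    have h1 : tr t ζ - ζ ∈ gr (Γ := Γ) (p + 1) := Submodule.sub_mem _ (tr_mem_gr t hζ) hζ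
    have h2 : bd0 (tr t ζ - ζ) ∈ I N p := by
      rw [map_sub, bd0_tr]
      exact Submodule.sub_mem _ (tr_mem_I hn hbζ) hbζ
    have h3 : ev ω (tr t ζ - ζ) = 0 := by
      rw [map_sub, ev_tr ω t (p + 1) hωt ζ hζ, sub_self]
    obtain ⟨ζ', hζ', hd⟩ := h.top _ h1 h2 h3
    have h4 : bd0 ζ' = -(tr t ζ - ζ - bd0 ζ') + (tr t ζ - ζ) := by abel
    refine ⟨ζ', hζ', ?_, ?_⟩
    · rw [h4]
      exact Submodule.add_mem _ (Submodule.neg_mem _ (I_mono hle _ hd)) (tr_sub_mem_I htm hζ)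
    · have e1 := Step_ev κ η ω N t p a hκN hη hκt ζ' hζ' _ (Submodule.neg_mem _ hd) ζ hζ h4
      rw [e1]
      exact mul_ne_zero ha hevζ

end Pool.Agent.H.MP_e5d137_al.SL
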