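import Mathlib
import Pool.Agent.H.MP_e5d137_al.SL.Cupp
import Pool.Agent.H.MP_e5d137_al.SL.Step

/-!
# Adding a free abelian block
-/

namespace Pool.Agent.H.MP_e5d137_al.SL

open Finset

variable {Γ : Type} [Group Γ]

/-- `PD` depends only on the values of `ω` on lists of length `p + 1`. -/
theorem PD.congr {N : Subgroup Γ} {p : ℕ} {ω ω' : List Γ → ℝ} (h : PD N p ω)
    (he : ∀ σ : List Γ, σ.length = p + 1 → ω σ = ω' σ) : PD N p ω' := by
  have hev : ∀ z ∈ gr (Γ := Γ) (p + 1), ev ω' z = ev ω z := by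
    intro z hz
    refine gr_induction (p := fun z => ev ω' z = ev ω z) ?_ ?_ ?_ z hz
    · rw [map_zero, map_zero]
    · intro a b ha hb
      rw [map_add, map_add, ha, hb]
    · intro σ n hσ
      rw [ev_single, ev_single, he σ hσ]
  refine ⟨h.fol, ?_, h.high, ?_, ?_⟩
  · intro g hg σ hσ
    rw [← he σ hσ, ← he _ (by rw [List.length_map, hσ]), h.inv g hg σ hσ]
  · intro z hz h1 h2
    rw [hev z hz] at h2
    exact h.top z hz h1 h2
  · obtain ⟨ζ, hζ, h1, h2⟩ := h.det
    refine ⟨ζ, hζ, h1, ?_⟩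
    rw [hev ζ hζ]
    exact h2

/-- The coordinate functions of a translate. -/
theorem Block_vc (Ψ : Γ → ℕ → ℝ) (i : ℕ) (h : Γ) (c : ℕ → ℝ)
    (hh : ∀ x, ∀ l < i, Ψ (h * x) l = Ψ x l + c l) (τ : List Γ) (hτ : τ.length = i + 1) :
    vc Ψ i (τ.map (fun x => h * x)) = vc Ψ i τ := by
  unfold vc
  refine vol_trans i (τ.map Ψ) ((τ.map (fun x => h * x)).map Ψ) c fun a ha l hl => ?_
  rw [List.getD_eq_getElem _ _ (by rw [List.length_map, List.length_map, hτ]; exact ha),
    List.getD_eq_getElem _ _ (by rw [List.length_map, hτ]; exact ha), List.getElem_map,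
    List.getElem_map, List.getElem_map]
  exact hh _ l hl

/-- Invariance of the cochain of the block. -/
theorem Block_blk (P : ℕ) (A : List Γ → ℝ) (Ψ : Γ → ℕ → ℝ) (i : ℕ) (h : Γ) (c : ℕ → ℝ)
    (hA : ∀ σ : List Γ, σ.length = P + 1 → A (σ.map (fun x => h * x)) = A σ)
    (hh : ∀ x, ∀ l < i, Ψ (h * x) l = Ψ x l + c l) (σ : List Γ) (hσ : σ.length = P + i + 1) :
    blk P A Ψ i (σ.map (fun x => h * x)) = blk P A Ψ i σ := by
  unfold blk cupr
  rw [← List.map_take, ← List.map_drop, hA _ (by rw [List.length_take, hσ]; omega),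
    Block_vc Ψ i h c hh _ (by rw [List.length_drop, hσ]; omega)]

/-- The elements which preserve `A` and translate `Ψ` in the coordinates `< i`. -/
def Block_B (P : ℕ) (A : List Γ → ℝ) (Ψ : Γ → ℕ → ℝ) (i : ℕ) : Subgroup Γ where
  carrier := {h | (∀ σ : List Γ, σ.length = P + 1 → A (σ.map (fun x => h * x)) = A σ) ∧
    ∃ c : ℕ → ℝ, (∀ m, i ≤ m → c m = 0) ∧ ∀ x m, Ψ (h * x) m = Ψ x m + c m}
  mul_mem' := by
    rintro g h ⟨hg, c, hc0, hc⟩ ⟨hh, d, hd0, hd⟩
    refine ⟨fun σ hσ => ?_, c + d, fun m hm => ?_, fun x m => ?_⟩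
    · have e : σ.map (fun x => g * h * x) = (σ.map (fun x => h * x)).map (fun x => g * x) := by
        rw [List.map_map]
        refine List.map_congr_left fun x _ => ?_
        exact mul_assoc g h x
      rw [e, hg _ (by rw [List.length_map, hσ]), hh σ hσ]
    · rw [Pi.add_apply, hc0 m hm, hd0 m hm, add_zero]
    · rw [mul_assoc, hc, hd, Pi.add_apply]
      ring
  one_mem' := by
    refine ⟨fun σ _ => ?_, 0, fun _ _ => rfl, fun x m => ?_⟩
    · have e : σ.map (fun x => (1 : Γ) * x) = σ := by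
        simp
      rw [e]
    · rw [one_mul, Pi.zero_apply, add_zero]
  inv_mem' := by
    rintro h ⟨hh, d, hd0, hd⟩
    refine ⟨fun σ hσ => ?_, -d, fun m hm => ?_, fun x m => ?_⟩
    · have e : (σ.map (fun x => h⁻¹ * x)).map (fun x => h * x) = σ := by
        rw [List.map_map]
        refine (List.map_congr_left fun x _ => ?_).trans (List.map_id σ)
        exact mul_inv_cancel_left h x
      have h1 := hh (σ.map (fun x => h⁻¹ * x)) (by rw [List.length_map, hσ])
      rw [e] at h1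
      exact h1.symm
    · rw [Pi.neg_apply, hd0 m hm, neg_zero]
    · have h1 := hd (h⁻¹ * x) m
      rw [mul_inv_cancel_left] at h1
      rw [h1, Pi.neg_apply]
      ring

theorem Block_le (N : Subgroup Γ) (P : ℕ) (A : List Γ → ℝ) (q : ℕ) (t : ℕ → Γ) (Ψ : Γ → ℕ → ℝ)
    (h : PD N P A)
    (hAt : ∀ l < q, ∀ σ : List Γ, σ.length = P + 1 → A (σ.map (fun x => t l * x)) = A σ)
    (hΨN : ∀ h ∈ N, ∀ x, Ψ (h * x) = Ψ x)
    (hΨt : ∀ l < q, ∀ x m, Ψ (t l * x) m = Ψ x m + if m = l then 1 else 0)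
    (i : ℕ) (hi : i ≤ q) :
    N ⊔ Subgroup.closure (t '' {l | l < i}) ≤ Block_B P A Ψ i := by
  refine sup_le ?_ ?_
  · intro g hg
    refine ⟨h.inv g hg, 0, fun _ _ => rfl, fun x m => ?_⟩
    rw [hΨN g hg, Pi.zero_apply, add_zero]
  · rw [Subgroup.closure_le]
    rintro _ ⟨l, hl, rfl⟩
    have hl' : l < i := hl
    refine ⟨hAt l (lt_of_lt_of_le hl' hi), fun m => if m = l then 1 else 0, fun m hm => ?_,
      hΨt l (lt_of_lt_of_le hl' hi)⟩
    exact if_neg (by omega)

theorem Block_nrm (N : Subgroup Γ) (q : ℕ) (t : ℕ → Γ) (hnorm : ∀ l < q, Nrm N (t l))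
    (hcomm : ∀ l < q, ∀ m < q, t l * t m * (t l)⁻¹ * (t m)⁻¹ ∈ N) (i : ℕ) (hi : i < q) :
    Nrm (N ⊔ Subgroup.closure (t '' {l | l < i})) (t i) := by
  have hN : N ≤ N ⊔ Subgroup.closure (t '' {l | l < i}) := le_sup_left
  have ht : ∀ l, l < i → t l ∈ N ⊔ Subgroup.closure (t '' {l | l < i}) := fun l hl =>
    (le_sup_right : Subgroup.closure (t '' {l | l < i}) ≤ _)
      (Subgroup.subset_closure ⟨l, hl, rfl⟩)
  have h1 : N ⊔ Subgroup.closure (t '' {l | l < i}) ≤
      (N ⊔ Subgroup.closure (t '' {l | l < i})).comap (MulAut.conj (t i)).toMonoidHom := by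
    refine sup_le ?_ ?_
    · intro g hg
      exact hN ((hnorm i hi g).1 hg)
    · rw [Subgroup.closure_le]
      rintro _ ⟨l, hl, rfl⟩
      have hl' : l < i := hl
      have e : t i * t l * (t i)⁻¹ = t i * t l * (t i)⁻¹ * (t l)⁻¹ * t l := by group
      change t i * t l * (t i)⁻¹ ∈ N ⊔ Subgroup.closure (t '' {l | l < i})
      rw [e]
      exact Subgroup.mul_mem _ (hN (hcomm i hi l (hl'.trans hi))) (ht l hl')
  have h2 : N ⊔ Subgroup.closure (t '' {l | l < i}) ≤
      (N ⊔ Subgroup.closure (t '' {l | l < i})).comap (MulAut.conj (t i)⁻¹).toMonoidHom := by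
    refine sup_le ?_ ?_
    · intro g hg
      exact hN (((hnorm i hi).inv g).1 hg)
    · rw [Subgroup.closure_le]
      rintro _ ⟨l, hl, rfl⟩
      have hl' : l < i := hl
      have e : (t i)⁻¹ * t l * (t i)⁻¹⁻¹ =
          (t i)⁻¹ * (t l * t i * (t l)⁻¹ * (t i)⁻¹) * (t i)⁻¹⁻¹ * t l := by group
      change (t i)⁻¹ * t l * (t i)⁻¹⁻¹ ∈ N ⊔ Subgroup.closure (t '' {l | l < i})
      rw [e]
      exact Subgroup.mul_mem _ (hN (((hnorm i hi).inv _).1 (hcomm l (hl'.trans hi) i hi)))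
        (ht l hl')
  intro g
  refine ⟨fun hg => h1 hg, fun hg => ?_⟩
  have h3 : (t i)⁻¹ * (t i * g * (t i)⁻¹) * (t i)⁻¹⁻¹ ∈ N ⊔ Subgroup.closure (t '' {l | l < i}) :=
    h2 hg
  have e : (t i)⁻¹ * (t i * g * (t i)⁻¹) * (t i)⁻¹⁻¹ = g := by group
  rwa [e] at h3

theorem Block_succ (N : Subgroup Γ) (t : ℕ → Γ) (i : ℕ) :
    N ⊔ Subgroup.closure (t '' {l | l < i + 1}) =
      (N ⊔ Subgroup.closure (t '' {l | l < i})) ⊔ Subgroup.zpowers (t i) := by
  have e : t '' {l | l < i + 1} = t '' {l | l < i} ∪ {t i} := by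
    ext x
    simp only [Set.mem_image, Set.mem_ofPred_eq, Set.mem_union, Set.mem_singleton_iff]
    constructor
    · rintro ⟨l, hl, rfl⟩
      rcases Nat.lt_succ_iff_lt_or_eq.1 hl with h | h
      · exact Or.inl ⟨l, h, rfl⟩
      · exact Or.inr (by rw [h])
    · rintro (⟨l, hl, rfl⟩ | h)
      · exact ⟨l, by omega, rfl⟩
      · exact ⟨i, by omega, h.symm⟩
  rw [e, Subgroup.closure_union, Subgroup.zpowers_eq_closure, sup_assoc]

theorem Block_dc (c : ℝ) (f : List Γ → ℝ) (σ : List Γ) :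
    dc (fun τ => c * f τ) σ = c * dc f σ := by
  rw [dc_eq, dc_eq, Finset.mul_sum]
  refine Finset.sum_congr rfl fun i _ => ?_
  ring

theorem Block_sum (f : Γ → ℝ) (b : ℝ) (g : Γ) (hf : ∀ x, f (g * x) = f x + b) (τ : List Γ) :
    ((τ.map (fun x => g * x)).map f).sum = (τ.map f).sum + τ.length * b := by
  induction τ with
  | nil => simp
  | cons x τ ih =>
    rw [List.map_cons, List.map_cons, List.sum_cons, ih, hf, List.map_cons, List.sum_cons,
      List.length_cons]
    push_cast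
    ring

/-- Adding a block `ℤ^q` generated by `t 0, ..., t (q-1)` on top of `N`.

Proof.  Let `N_i = N ⊔ closure (t '' {l | l < i})`.  Prove `PD N_i (P + i) (blk P A Ψ i)` by
induction on `i ≤ q`.
Facts about `h ∈ N_i` (`Subgroup.closure_induction` / sup): (F1) `A (h σ) = A σ` for
`σ.length = P + 1`; (F2) there is `c : ℕ → ℝ` with `c m = 0` for `m ≥ i` and
`Ψ (h x) m = Ψ x m + c m` for all `x`, `m` (closed under products and inverses).
`i = 0`: `N_0 = N`, `blk P A Ψ 0 σ = A (σ.take (P+1)) = A σ` for `σ.length = P + 1`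
(`vol_zero`), `PD.congr`.
`i → i + 1` (`i < q`): `N_(i+1) = N_i ⊔ zpowers (t i)`.  Apply `PD.step` with `t = t i`,
`ω = blk P A Ψ i`, `η = blk P A Ψ (i+1)` and
`κ σ = (-1)^(P+i) * cupr P A (fun τ => (τ.map (Ψ · i)).sum * vc Ψ i τ) σ`,
`a = (-1)^(P+i) * (i + 1)`.
`hn`: `t i` normalizes `N`, and `t i * t l * (t i)⁻¹ = (t i * t l * (t i)⁻¹ * (t l)⁻¹) * t l ∈ N_i`;
the other direction similarly, or: `x ↦ (t i) x (t i)⁻¹` maps `N_i` into itself and so does
`x ↦ (t i)⁻¹ x (t i)` (`(t i)⁻¹ t l (t i) = (t i)⁻¹ (t l t i (t l)⁻¹ (t i)⁻¹) (t i) t l`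
and the bracket is in `N`).
`hfree`: `Ψ ((t i)^j x) i = Ψ x i + j`, but (F2) has `c i = 0`.
`hωt`: `hAt` and `vol_congr` (the coordinates `< i` do not change).
`hκN`: (F1), (F2), `vol_trans`.
`hη`: `dc κ = (-1)^(P+i) (-1)^P A(..) (-1)^i vc Ψ (i+1) (..)` by `dc_cupr`, `dc_svc`.
`hκt`: the sum of the `i`-th coordinates over the `i + 1` points of `σ.drop P` increases by
`i + 1`; the other factors do not change.
`hηinv`: (F1) and (F2) for `N_(i+1)`, `vol_trans`. -/
theorem PD.block (N : Subgroup Γ) (P : ℕ) (A : List Γ → ℝ) (q : ℕ) (t : ℕ → Γ) (Ψ : Γ → ℕ → ℝ)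
    (h : PD N P A) (hcoc : ∀ σ : List Γ, σ.length = P + 2 → dc A σ = 0)
    (hAt : ∀ l < q, ∀ σ : List Γ, σ.length = P + 1 → A (σ.map (fun x => t l * x)) = A σ)
    (hΨN : ∀ h ∈ N, ∀ x, Ψ (h * x) = Ψ x)
    (hΨt : ∀ l < q, ∀ x m, Ψ (t l * x) m = Ψ x m + if m = l then 1 else 0)
    (hnorm : ∀ l < q, Nrm N (t l))
    (hcomm : ∀ l < q, ∀ m < q, t l * t m * (t l)⁻¹ * (t m)⁻¹ ∈ N) :
    PD (N ⊔ Subgroup.closure (t '' {l | l < q})) (P + q) (blk P A Ψ q) := by
  have key : ∀ i ≤ q, PD (N ⊔ Subgroup.closure (t '' {l | l < i})) (P + i) (blk P A Ψ i) := by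
    intro i
    induction i with
    | zero =>
      intro _
      have e : N ⊔ Subgroup.closure (t '' {l | l < 0}) = N := by
        have e1 : t '' {l | l < 0} = ∅ := by
          simp
        rw [e1, Subgroup.closure_empty, sup_bot_eq]
      rw [e]
      refine PD.congr h fun σ hσ => ?_
      unfold blk cupr vc
      rw [vol_zero, mul_one, List.take_of_length_le (by omega)]
    | succ i ih =>
      intro hi
      have hi' : i < q := hi
      have hPD := ih (by omega)
      have hB := Block_le N P A q t Ψ h hAt hΨN hΨt i (by omega)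
      have hB' := Block_le N P A q t Ψ h hAt hΨN hΨt (i + 1) hi
      rw [Block_succ] at hB' ⊢
      refine PD.step (N ⊔ Subgroup.closure (t '' {l | l < i})) (t i) (P + i) (blk P A Ψ i)
        (fun σ => (-1 : ℝ) ^ (P + i) *
          cupr P A (fun τ => (τ.map (fun x => Ψ x i)).sum * vc Ψ i τ) σ)
        (blk P A Ψ (i + 1)) hPD (Block_nrm N q t hnorm hcomm i hi') ?_ ?_ ?_ ?_
        ((-1 : ℝ) ^ (P + i) * ((i : ℝ) + 1)) ?_ ?_ ?_
      · -- hfree
        intro j hj hmem
        obtain ⟨-, c, hc0, hc⟩ := hB hmem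
        have h1 : ∀ j : ℕ, ∀ x, Ψ (t i ^ j * x) i = Ψ x i + j := by
          intro j
          induction j with
          | zero => intro x; simp
          | succ j ihj =>
            intro x
            rw [pow_succ, mul_assoc, ihj, hΨt i hi', if_pos rfl]
            push_cast
            ring
        have h2 := hc 1 i
        rw [h1, hc0 i le_rfl, add_zero] at h2
        have h3 : (j : ℝ) = 0 := by linarith
        have h4 : j = 0 := by exact_mod_cast h3
        omega
      · -- hωt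
        intro σ hσ
        refine Block_blk P A Ψ i (t i) 0 (hAt i hi') (fun x l hl => ?_) σ hσ
        rw [hΨt i hi', if_neg (by omega), Pi.zero_apply]
      · -- hκN
        intro g hg σ hσ
        obtain ⟨hgA, c, hc0, hc⟩ := hB hg
        unfold cupr
        beta_reduce
        rw [← List.map_take, ← List.map_drop, hgA _ (by rw [List.length_take, hσ]; omega),
          Block_vc Ψ i g c (fun x l _ => hc x l) _ (by rw [List.length_drop, hσ]; omega),
          Block_sum (fun x => Ψ x i) 0 g (fun x => by rw [hc, hc0 i le_rfl]), mul_zero, add_zero]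
      · -- hη
        intro σ hσ
        have hd : (σ.drop P).length = i + 2 := by
          rw [List.length_drop, hσ]
          omega
        rw [Block_dc, dc_cupr P i A _ hcoc σ hσ, dc_svc Ψ i _ hd]
        unfold blk cupr
        have e : (-1 : ℝ) ^ (P + i) * ((-1 : ℝ) ^ P * (-1 : ℝ) ^ i) = 1 := by
          rw [← pow_add, ← pow_add, ← two_mul, pow_mul]
          norm_num
        calc A (σ.take (P + 1)) * vc Ψ (i + 1) (σ.drop P)
            = ((-1 : ℝ) ^ (P + i) * ((-1 : ℝ) ^ P * (-1 : ℝ) ^ i)) *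
              (A (σ.take (P + 1)) * vc Ψ (i + 1) (σ.drop P)) := by rw [e, one_mul]
          _ = _ := by ring
      · -- ha
        have h1 : ((i : ℝ) + 1) ≠ 0 := by positivity
        exact mul_ne_zero (pow_ne_zero _ (by norm_num)) h1
      · -- hκt
        intro σ hσ
        unfold blk cupr
        have hd : (σ.drop P).length = i + 1 := by
          rw [List.length_drop, hσ]
          omega
        beta_reduce
        rw [← List.map_take, ← List.map_drop, hAt i hi' _ (by rw [List.length_take, hσ]; omega),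
          Block_vc Ψ i (t i) 0 (fun x l hl => by
            rw [hΨt i hi', if_neg (by omega), Pi.zero_apply]) _ hd,
          Block_sum (fun x => Ψ x i) 1 (t i) (fun x => by rw [hΨt i hi', if_pos rfl]), hd]
        push_cast
        ring
      · -- hηinv
        intro g hg σ hσ
        obtain ⟨hgA, c, hc0, hc⟩ := hB' hg
        exact Block_blk P A Ψ (i + 1) g c hgA (fun x l _ => hc x l) σ hσ
  exact key q le_rfl

end Pool.Agent.H.MP_e5d137_al.SL
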