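import Mathlib

/-!
# Orthogonal vectors (Gram-Schmidt) of a lattice basis, equivariantly
-/

namespace Pool.Agent.H.MP_e5d137_al.SL

open Matrix

variable {n : ℕ}

/-- the real matrix of an integral matrix -/
noncomputable def Mr (h : Matrix.GeneralLinearGroup (Fin n) ℤ) : Matrix (Fin n) (Fin n) ℝ :=
  (h : Matrix (Fin n) (Fin n) ℤ).map (Int.cast : ℤ → ℝ)

/-- the real matrix of the inverse -/
noncomputable def Xr (x : Matrix.GeneralLinearGroup (Fin n) ℤ) : Matrix (Fin n) (Fin n) ℝ :=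
  Mr x⁻¹

/-- the square of the euclidean length of `X w` -/
noncomputable def nq (X : Matrix (Fin n) (Fin n) ℝ) (w : Fin n → ℝ) : ℝ :=
  X.mulVec w ⬝ᵥ X.mulVec w

theorem Mr_mul (g h : Matrix.GeneralLinearGroup (Fin n) ℤ) : Mr (g * h) = Mr g * Mr h := by
  unfold Mr
  rw [Units.val_mul]
  exact Matrix.map_mul (f := Int.castRingHom ℝ)

theorem Mr_one : Mr (1 : Matrix.GeneralLinearGroup (Fin n) ℤ) = 1 := by
  unfold Mr
  rw [Units.val_one]
  exact Matrix.map_one _ Int.cast_zero Int.cast_one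

theorem Xr_mul (h x : Matrix.GeneralLinearGroup (Fin n) ℤ) : Xr (h * x) = Xr x * Xr h := by
  unfold Xr
  rw [_root_.mul_inv_rev, Mr_mul]

private theorem Orth_inv (x : Matrix.GeneralLinearGroup (Fin n) ℤ) : Mr x * Xr x = 1 := by
  unfold Xr
  rw [← Mr_mul, mul_inv_cancel, Mr_one]

private theorem Orth_inv' (x : Matrix.GeneralLinearGroup (Fin n) ℤ) : Xr x * Mr x = 1 := by
  unfold Xr
  rw [← Mr_mul, inv_mul_cancel, Mr_one]

private theorem Orth_sq_nonneg (u : Fin n → ℝ) : 0 ≤ u ⬝ᵥ u :=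
  Finset.sum_nonneg fun i _ => mul_self_nonneg (u i)

private theorem Orth_sq_zero {u : Fin n → ℝ} (h : u ⬝ᵥ u = 0) : u = 0 := by
  funext i
  have h1 := (Finset.sum_eq_zero_iff_of_nonneg fun i _ => mul_self_nonneg (u i)).1 h i
    (Finset.mem_univ i)
  exact mul_self_eq_zero.1 h1

private theorem Orth_cs (A : Matrix (Fin n) (Fin n) ℝ) (u : Fin n → ℝ) :
    A.mulVec u ⬝ᵥ A.mulVec u ≤ (1 + ∑ i, ∑ j, A i j ^ 2) * (u ⬝ᵥ u) := by
  have h1 : A.mulVec u ⬝ᵥ A.mulVec u ≤ (∑ i, ∑ j, A i j ^ 2) * (u ⬝ᵥ u) := by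
    rw [Finset.sum_mul]
    refine Finset.sum_le_sum fun i _ => ?_
    have h2 := Finset.sum_mul_sq_le_sq_mul_sq Finset.univ (fun j => A i j) u
    have h3 : u ⬝ᵥ u = ∑ j, u j ^ 2 := Finset.sum_congr rfl fun j _ => (pow_two (u j)).symm
    rw [h3]
    calc A.mulVec u i * A.mulVec u i = (∑ j, A i j * u j) ^ 2 := (pow_two _).symm
      _ ≤ _ := h2
  have h2 := Orth_sq_nonneg u
  nlinarith

/-- `Xr x` is injective. -/
theorem Xr_inj (x : Matrix.GeneralLinearGroup (Fin n) ℤ) (w : Fin n → ℝ)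
    (h : (Xr x).mulVec w = 0) : w = 0 := by
  have h1 : (Mr x * Xr x).mulVec w = 0 := by
    rw [← Matrix.mulVec_mulVec, h, Matrix.mulVec_zero]
  rwa [Orth_inv, Matrix.one_mulVec] at h1

theorem nq_pos (x : Matrix.GeneralLinearGroup (Fin n) ℤ) (w : Fin n → ℝ) (h : w ≠ 0) :
    0 < nq (Xr x) w := by
  refine lt_of_le_of_ne (Orth_sq_nonneg _) fun h0 => h ?_
  exact Xr_inj x w (Orth_sq_zero h0.symm)

/-- `Xr (x * s) = Xr s * Xr x`, and a fixed matrix multiplies the square of the length by at most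
a constant. -/
theorem nq_mul (s : Matrix.GeneralLinearGroup (Fin n) ℤ) : ∃ C : ℝ, 0 < C ∧
    ∀ (x : Matrix.GeneralLinearGroup (Fin n) ℤ) (w : Fin n → ℝ),
      nq (Xr (x * s)) w ≤ C * nq (Xr x) w := by
  refine ⟨1 + ∑ i, ∑ j, Xr s i j ^ 2, ?_, ?_⟩
  · have h1 : 0 ≤ ∑ i, ∑ j, Xr s i j ^ 2 :=
      Finset.sum_nonneg fun i _ => Finset.sum_nonneg fun j _ => sq_nonneg _
    linarith
  · intro x w
    unfold nq
    rw [Xr_mul, ← Matrix.mulVec_mulVec]
    exact Orth_cs (Xr s) _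

/-- `v ∈ e_j + V_j`, `V_j = {w | w l = 0 for l ≥ j}`, and `X v` is orthogonal to `X V_j` -/
structure IsOv (X : Matrix (Fin n) (Fin n) ℝ) (j : Fin n) (v : Fin n → ℝ) : Prop where
  one : v j = 1
  zero : ∀ l, j < l → v l = 0
  orth : ∀ w : Fin n → ℝ, (∀ l, j ≤ l → w l = 0) → X.mulVec v ⬝ᵥ X.mulVec w = 0

/-- Existence.

Proof.  Let `K` be the subspace `X V_j` of `EuclideanSpace ℝ (Fin n)`, let `p ∈ K` be the orthogonal
projection of `X e_j` to `K`, `p = X w₀` with `w₀ ∈ V_j`, and `v = e_j - w₀`.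
(Alternatively: Gram-Schmidt by strong induction on `j`.) -/
theorem exists_ov (X : Matrix (Fin n) (Fin n) ℝ) (j : Fin n) : ∃ v, IsOv X j v := by
  obtain ⟨V, hV⟩ : ∃ V : Submodule ℝ (Fin n → ℝ), ∀ w, w ∈ V ↔ ∀ l, j ≤ l → w l = 0 :=
    ⟨{ carrier := {w | ∀ l, j ≤ l → w l = 0}
       add_mem' := fun {a b} ha hb l hl => by rw [Pi.add_apply, ha l hl, hb l hl, add_zero]
       zero_mem' := fun _ _ => rfl
       smul_mem' := fun c a ha l hl => by rw [Pi.smul_apply, ha l hl, smul_zero] },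
      fun _ => Iff.rfl⟩
  obtain ⟨T, hT⟩ : ∃ T : (Fin n → ℝ) →ₗ[ℝ] EuclideanSpace ℝ (Fin n),
      ∀ w, T w = WithLp.toLp 2 (X.mulVec w) :=
    ⟨(WithLp.linearEquiv 2 ℝ (Fin n → ℝ)).symm.toLinearMap ∘ₗ X.mulVecLin, fun _ => rfl⟩
  have hin : ∀ v w, inner ℝ (T v) (T w) = X.mulVec v ⬝ᵥ X.mulVec w := by
    intro v w
    rw [hT, hT, PiLp.inner_apply]
    refine Finset.sum_congr rfl fun i _ => ?_
    rw [RCLike.inner_apply', conj_trivial]
  obtain ⟨y, hy, z, hz, he⟩ := (V.map T).exists_add_mem_mem_orthogonal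
    (T (Pi.single j (1 : ℝ) : Fin n → ℝ))
  obtain ⟨w₀, hw₀, rfl⟩ := (Submodule.mem_map).1 hy
  rw [hV] at hw₀
  refine ⟨(Pi.single j (1 : ℝ) : Fin n → ℝ) - w₀, ?_, ?_, ?_⟩
  · rw [Pi.sub_apply, Pi.single_eq_same, hw₀ j le_rfl, sub_zero]
  · intro l hl
    rw [Pi.sub_apply, Pi.single_eq_of_ne hl.ne', hw₀ l hl.le, sub_zero]
  · intro w hw
    rw [← hin, map_sub, he, add_sub_cancel_left]
    exact (Submodule.mem_orthogonal' _ _).1 hz _
      (Submodule.mem_map_of_mem ((hV w).2 hw))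

/-- Uniqueness: `w = v - v'` is in `V_j`, so `X w` is orthogonal to itself. -/
theorem IsOv.unique {x : Matrix.GeneralLinearGroup (Fin n) ℤ} {j : Fin n} {v v' : Fin n → ℝ}
    (h : IsOv (Xr x) j v) (h' : IsOv (Xr x) j v') : v = v' := by
  have hw : ∀ l, j ≤ l → (v - v') l = 0 := by
    intro l hl
    rcases hl.eq_or_lt with rfl | hl
    · rw [Pi.sub_apply, h.one, h'.one, sub_self]
    · rw [Pi.sub_apply, h.zero l hl, h'.zero l hl, sub_self]
  have h1 : (Xr x).mulVec (v - v') ⬝ᵥ (Xr x).mulVec (v - v') = 0 := by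
    have h2 : (Xr x).mulVec (v - v') ⬝ᵥ (Xr x).mulVec (v - v') =
        (Xr x).mulVec v ⬝ᵥ (Xr x).mulVec (v - v') -
          (Xr x).mulVec v' ⬝ᵥ (Xr x).mulVec (v - v') := by
      rw [← sub_dotProduct, ← Matrix.mulVec_sub]
    rw [h2, h.orth _ hw, h'.orth _ hw, sub_self]
  exact sub_eq_zero.1 (Xr_inj x _ (Orth_sq_zero h1))

/-- the orthogonal vector -/
noncomputable def ov (x : Matrix.GeneralLinearGroup (Fin n) ℤ) (j : Fin n) : Fin n → ℝ :=
  (exists_ov (Xr x) j).choose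

theorem ov_spec (x : Matrix.GeneralLinearGroup (Fin n) ℤ) (j : Fin n) : IsOv (Xr x) j (ov x j) :=
  (exists_ov (Xr x) j).choose_spec

/-- the square of the Gram-Schmidt length -/
noncomputable def rho (x : Matrix.GeneralLinearGroup (Fin n) ℤ) (j : Fin n) : ℝ :=
  nq (Xr x) (ov x j)

theorem rho_pos (x : Matrix.GeneralLinearGroup (Fin n) ℤ) (j : Fin n) : 0 < rho x j := by
  refine nq_pos x _ fun h => ?_
  have h1 := (ov_spec x j).one
  rw [h] at h1
  exact zero_ne_one h1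

/-- Minimality: `w - ov x j ∈ V_j`, Pythagoras. -/
theorem rho_min (x : Matrix.GeneralLinearGroup (Fin n) ℤ) (j : Fin n) (w : Fin n → ℝ)
    (h1 : w j = 1) (h2 : ∀ l, j < l → w l = 0) : rho x j ≤ nq (Xr x) w := by
  have hu : ∀ l, j ≤ l → (w - ov x j) l = 0 := by
    intro l hl
    rcases hl.eq_or_lt with rfl | hl
    · rw [Pi.sub_apply, h1, (ov_spec x _).one, sub_self]
    · rw [Pi.sub_apply, h2 l hl, (ov_spec x j).zero l hl, sub_self]
  have h3 := (ov_spec x j).orth _ hu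
  have h4 : w = ov x j + (w - ov x j) := by abel
  have h5 : nq (Xr x) w = nq (Xr x) (ov x j) +
      2 * ((Xr x).mulVec (ov x j) ⬝ᵥ (Xr x).mulVec (w - ov x j)) + nq (Xr x) (w - ov x j) := by
    conv_lhs => rw [h4]
    unfold nq
    rw [Matrix.mulVec_add, add_dotProduct, dotProduct_add, dotProduct_add,
      dotProduct_comm ((Xr x).mulVec (w - ov x j)) ((Xr x).mulVec (ov x j))]
    ring
  have h6 : 0 ≤ nq (Xr x) (w - ov x j) := Orth_sq_nonneg _
  rw [h5, h3]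
  unfold rho
  linarith

/-- `rho_min` for `x * s` and the vector `ov x j`, and `nq_mul`. -/
theorem rho_mul (s : Matrix.GeneralLinearGroup (Fin n) ℤ) : ∃ C : ℝ, 0 < C ∧
    ∀ (x : Matrix.GeneralLinearGroup (Fin n) ℤ) (j : Fin n), rho (x * s) j ≤ C * rho x j := by
  obtain ⟨C, hC, h⟩ := nq_mul s
  refine ⟨C, hC, fun x j => ?_⟩
  exact (rho_min (x * s) j (ov x j) (ov_spec x j).one (ov_spec x j).zero).trans (h x _)

/-- `h` maps `V_j` to `V_j` and `e_j` to `e_j + V_j` -/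
structure Up (j : Fin n) (h : Matrix.GeneralLinearGroup (Fin n) ℤ) : Prop where
  low : ∀ i l : Fin n, l < j → j ≤ i → (h : Matrix (Fin n) (Fin n) ℤ) i l = 0
  col : ∀ i : Fin n, j < i → (h : Matrix (Fin n) (Fin n) ℤ) i j = 0
  one : (h : Matrix (Fin n) (Fin n) ℤ) j j = 1

/-- Equivariance.

Proof.  `v' = h (ov x j)` satisfies `IsOv (Xr (h * x)) j v'`: `v' ∈ e_j + V_j` by `Up j h`; and
`Xr (h * x) = Xr x * Xr h` with `Xr h = Mr h⁻¹` the inverse of `Mr h`, so `Xr (h * x) v' = Xr x (ov x j)`,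
and for `w ∈ V_j` `Xr (h * x) w = Xr x (Mr h⁻¹ w)` with `Mr h⁻¹ w ∈ V_j` by `Up j h⁻¹`. -/
theorem ov_left (x h : Matrix.GeneralLinearGroup (Fin n) ℤ) (j : Fin n) (h1 : Up j h)
    (h2 : Up j h⁻¹) : ov (h * x) j = (Mr h).mulVec (ov x j) := by
  have key : ∀ (g : Matrix.GeneralLinearGroup (Fin n) ℤ) (v : Fin n → ℝ) (i : Fin n),
      (Mr g).mulVec v i = ∑ l, ((g : Matrix (Fin n) (Fin n) ℤ) i l : ℝ) * v l := fun _ _ _ => rfl
  have hs := ov_spec x j
  refine IsOv.unique (ov_spec (h * x) j) ⟨?_, ?_, ?_⟩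
  · rw [key, Finset.sum_eq_single j]
    · rw [h1.one, hs.one, Int.cast_one, mul_one]
    · intro l _ hl
      rcases lt_or_gt_of_ne hl with h3 | h3
      · rw [h1.low j l h3 le_rfl, Int.cast_zero, zero_mul]
      · rw [hs.zero l h3, mul_zero]
    · intro h3
      exact absurd (Finset.mem_univ j) h3
  · intro i hi
    rw [key]
    refine Finset.sum_eq_zero fun l _ => ?_
    rcases lt_trichotomy l j with h3 | h3 | h3
    · rw [h1.low i l h3 hi.le, Int.cast_zero, zero_mul]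
    · rw [h3, h1.col i hi, Int.cast_zero, zero_mul]
    · rw [hs.zero l h3, mul_zero]
  · intro w hw
    have e1 : (Xr (h * x)).mulVec ((Mr h).mulVec (ov x j)) = (Xr x).mulVec (ov x j) := by
      rw [Xr_mul, Matrix.mulVec_mulVec, Matrix.mul_assoc, Orth_inv', Matrix.mul_one]
    have e2 : (Xr (h * x)).mulVec w = (Xr x).mulVec ((Mr h⁻¹).mulVec w) := by
      rw [Xr_mul, ← Matrix.mulVec_mulVec]
      rfl
    rw [e1, e2]
    refine hs.orth _ fun i hi => ?_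
    rw [key]
    refine Finset.sum_eq_zero fun l _ => ?_
    rcases lt_or_ge l j with h3 | h3
    · rw [h2.low i l h3 hi, Int.cast_zero, zero_mul]
    · rw [hw l h3, mul_zero]

/-- the coordinates `l < j` of `ov x j` -/
noncomputable def Psi (j : Fin n) (x : Matrix.GeneralLinearGroup (Fin n) ℤ) (l : ℕ) : ℝ :=
  if h : l < j.val then ov x j ⟨l, h.trans j.2⟩ else 0

end Pool.Agent.H.MP_e5d137_al.SL
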