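import Mathlib
import Pool.Agent.H.MP_e5d137_al.SL.Orth
import Pool.Agent.H.MP_e5d137_al.SL.Base

/-!
# Unipotent matrices with one column, and the groups generated by them
-/

namespace Pool.Agent.H.MP_e5d137_al.SL

open Matrix

variable {n : ℕ}

/-- identity matrix plus the vector `c` in the column `j` (the entry `c j` is ignored) -/
def colM (j : Fin n) (c : Fin n → ℤ) : Matrix (Fin n) (Fin n) ℤ :=
  1 + Matrix.of fun i l => if l = j ∧ i ≠ j then c i else 0

theorem colM_mul (j : Fin n) (c c' : Fin n → ℤ) : colM j c * colM j c' = colM j (c + c') := by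
  have h : (Matrix.of fun i l => if l = j ∧ i ≠ j then c i else 0 : Matrix (Fin n) (Fin n) ℤ) *
      (Matrix.of fun i l => if l = j ∧ i ≠ j then c' i else 0) = 0 := by
    ext i l
    rw [Matrix.mul_apply, Matrix.zero_apply]
    refine Finset.sum_eq_zero (fun m _ => ?_)
    by_cases hm : m = j
    · simp [hm]
    · simp [hm]
  unfold colM
  rw [add_mul, mul_add, mul_add, h, one_mul, mul_one, one_mul, add_zero, add_assoc]
  congr 1
  ext i l
  rw [Matrix.add_apply]
  simp only [Matrix.of_apply, Pi.add_apply]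
  split_ifs
  · rw [add_comm]
  · simp

theorem colM_zero (j : Fin n) : colM j 0 = 1 := by
  unfold colM
  ext i l
  simp

/-- the same as an element of `GL` -/
def col (j : Fin n) (c : Fin n → ℤ) : Matrix.GeneralLinearGroup (Fin n) ℤ :=
  ⟨colM j c, colM j (-c), by rw [colM_mul, add_neg_cancel, colM_zero],
    by rw [colM_mul, neg_add_cancel, colM_zero]⟩

theorem col_val (j : Fin n) (c : Fin n → ℤ) :
    ((col j c : Matrix.GeneralLinearGroup (Fin n) ℤ) : Matrix (Fin n) (Fin n) ℤ) = colM j c := rfl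

theorem col_mul (j : Fin n) (c c' : Fin n → ℤ) : col j c * col j c' = col j (c + c') :=
  Units.ext (colM_mul j c c')

theorem col_zero (j : Fin n) : col j (0 : Fin n → ℤ) = 1 := Units.ext (colM_zero j)

theorem col_inv (j : Fin n) (c : Fin n → ℤ) : (col j c)⁻¹ = col j (-c) := by
  rw [inv_eq_iff_mul_eq_one, col_mul, add_neg_cancel, col_zero]

/-- the elementary matrix with the entry `(l, j)`, `l < j` -/
def tE (j : Fin n) (l : ℕ) : Matrix.GeneralLinearGroup (Fin n) ℤ :=
  if h : l < j.val then col j (Pi.single ⟨l, h.trans j.2⟩ 1) else 1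

/-- the group generated by the elementary matrices `(l, j)` with `l < j`, `b ≤ j` -/
def UN (b : ℕ) : Subgroup (Matrix.GeneralLinearGroup (Fin n) ℤ) :=
  Subgroup.closure {g | ∃ j : Fin n, ∃ l : ℕ, b ≤ j.val ∧ l < j.val ∧ g = tE j l}

theorem UN_top : UN n = (⊥ : Subgroup (Matrix.GeneralLinearGroup (Fin n) ℤ)) := by
  unfold UN
  rw [Subgroup.closure_eq_bot_iff]
  rintro g ⟨j, l, h1, -, -⟩
  exact absurd j.2 (not_lt.2 h1)

/-- `Subgroup.closure_union`; the generators of `UN j` are those of `UN (j+1)` and the `tE j l`,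
`l < j`. -/
theorem UN_succ (j : Fin n) : UN j.val = (UN (j.val + 1) ⊔
    Subgroup.closure (tE j '' {l | l < j.val}) : Subgroup (Matrix.GeneralLinearGroup (Fin n) ℤ)) := by
  unfold UN
  rw [← Subgroup.closure_union]
  congr 1
  ext g
  constructor
  · rintro ⟨j', l, h1, h2, h3⟩
    rcases eq_or_lt_of_le h1 with h4 | h4
    · right
      have h5 : j = j' := Fin.ext h4
      subst h5
      exact ⟨l, h2, h3.symm⟩
    · left
      exact ⟨j', l, h4, h2, h3⟩
  · rintro (⟨j', l, h1, h2, h3⟩ | ⟨l, h1, h2⟩)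
    · exact ⟨j', l, (Nat.le_succ _).trans h1, h2, h3⟩
    · exact ⟨j, l, le_refl _, h1, h2.symm⟩

/-- the vectors `c` with `col j c` in `UN b` -/
private def ColM_S (b : ℕ) (j : Fin n) : AddSubgroup (Fin n → ℤ) where
  carrier := {c | col j c ∈ UN (n := n) b}
  zero_mem' := by
    show col j 0 ∈ UN (n := n) b
    rw [col_zero]
    exact one_mem _
  add_mem' := by
    intro c c' hc hc'
    show col j (c + c') ∈ UN (n := n) b
    rw [← col_mul]
    exact mul_mem hc hc'
  neg_mem' := by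
    intro c hc
    show col j (-c) ∈ UN (n := n) b
    rw [← col_inv]
    exact inv_mem hc

private theorem ColM_tE (j : Fin n) (l : ℕ) (h : l < j.val) :
    tE j l = col j (Pi.single ⟨l, h.trans j.2⟩ 1) := dif_pos h

private theorem ColM_supp (j : Fin n) (l : ℕ) (h : l < j.val) (i : Fin n) (hi : j ≤ i) :
    (Pi.single ⟨l, h.trans j.2⟩ 1 : Fin n → ℤ) i = 0 := by
  rw [Pi.single_apply, if_neg]
  intro h1
  rw [h1, Fin.le_def] at hi
  exact absurd h (not_lt.2 hi)

private theorem ColM_app (j : Fin n) (c : Fin n → ℤ) (i l : Fin n) :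
    ((col j c : Matrix.GeneralLinearGroup (Fin n) ℤ) : Matrix (Fin n) (Fin n) ℤ) i l =
      (if i = l then 1 else 0) + if l = j ∧ i ≠ j then c i else 0 := by
  rw [col_val, colM, Matrix.add_apply, Matrix.one_apply, Matrix.of_apply]

/-- The map `c ↦ col j c` is additive, and `c = Σ_(i<j) c i e_i`; integer multiples of `e_i` give
powers of `tE j i`. -/
theorem col_mem_UN (b : ℕ) (j : Fin n) (hb : b ≤ j.val) (c : Fin n → ℤ)
    (hc : ∀ i, j ≤ i → c i = 0) : col j c ∈ UN (n := n) b := by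
  show c ∈ ColM_S b j
  rw [← Finset.univ_sum_single c]
  refine sum_mem fun i _ => ?_
  rcases le_or_gt j i with h | h
  · rw [hc i h, Pi.single_zero]
    exact zero_mem _
  · have h1 : (Pi.single i (c i) : Fin n → ℤ) = c i • (Pi.single i 1 : Fin n → ℤ) := by
      rw [← Pi.single_smul, smul_eq_mul, mul_one]
    rw [h1]
    refine zsmul_mem ?_ _
    show col j (Pi.single i 1) ∈ UN (n := n) b
    have h2 : i.val < j.val := h
    have h3 := ColM_tE j i.val h2
    rw [← show (⟨i.val, h2.trans j.2⟩ : Fin n) = i from rfl, ← h3]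
    exact Subgroup.subset_closure ⟨j, i.val, hb, h2, rfl⟩

/-- the rows `i ≥ b` of `h` are those of the identity matrix -/
def Rid (b : ℕ) (h : Matrix.GeneralLinearGroup (Fin n) ℤ) : Prop :=
  ∀ i l : Fin n, b ≤ i.val → (h : Matrix (Fin n) (Fin n) ℤ) i l = if i = l then 1 else 0

/-- `e_i h = e_i` implies `e_i = e_i h⁻¹`. -/
theorem Rid.inv {b : ℕ} {h : Matrix.GeneralLinearGroup (Fin n) ℤ} (hr : Rid b h) :
    Rid b h⁻¹ := by
  intro i l hi
  have h1 : ((h * h⁻¹ : Matrix.GeneralLinearGroup (Fin n) ℤ) : Matrix (Fin n) (Fin n) ℤ) i l =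
      ((h⁻¹ : Matrix.GeneralLinearGroup (Fin n) ℤ) : Matrix (Fin n) (Fin n) ℤ) i l := by
    rw [Units.val_mul, Matrix.mul_apply, Finset.sum_eq_single i]
    · rw [hr i i hi, if_pos rfl, one_mul]
    · intro m _ hm
      rw [hr i m hi, if_neg hm.symm, zero_mul]
    · intro h2
      exact absurd (Finset.mem_univ _) h2
  rw [← h1, mul_inv_cancel, Units.val_one, Matrix.one_apply]

private theorem ColM_vec (j : Fin n) (c : Fin n → ℤ) (hc : c j = 0) :
    ((col j c : Matrix.GeneralLinearGroup (Fin n) ℤ) : Matrix (Fin n) (Fin n) ℤ) =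
      1 + Matrix.vecMulVec c (Pi.single j 1) := by
  ext i l
  rw [ColM_app, Matrix.add_apply, Matrix.one_apply, Matrix.vecMulVec_apply, Pi.single_apply]
  congr 1
  by_cases h1 : l = j
  · by_cases h2 : i = j
    · rw [if_neg (fun h => h.2 h2), h2, hc, zero_mul]
    · rw [if_pos ⟨h1, h2⟩, if_pos h1, mul_one]
  · rw [if_neg (fun h => h1 h.1), if_neg h1, mul_zero]

private theorem ColM_conj (b : ℕ) (j : Fin n) (hb : b ≤ j.val)
    (h : Matrix.GeneralLinearGroup (Fin n) ℤ) (hr : Rid b h) (c : Fin n → ℤ)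
    (hc : ∀ i, j ≤ i → c i = 0) : h * col j c * h⁻¹ ∈ UN (n := n) b := by
  have h0 : ∀ i, j ≤ i → ((h : Matrix (Fin n) (Fin n) ℤ).mulVec c) i = 0 := by
    intro i hi
    have hbi : b ≤ i.val := hb.trans hi
    show ∑ l, (h : Matrix (Fin n) (Fin n) ℤ) i l * c l = 0
    refine Finset.sum_eq_zero fun l _ => ?_
    rw [hr i l hbi]
    split_ifs with h1
    · rw [← h1, hc i hi, mul_zero]
    · rw [zero_mul]
  have h1 : h * col j c * h⁻¹ = col j ((h : Matrix (Fin n) (Fin n) ℤ).mulVec c) := by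
    refine Units.ext ?_
    rw [Units.val_mul, Units.val_mul, ColM_vec j c (hc j le_rfl), ColM_vec j _ (h0 j le_rfl),
      mul_add, mul_one, add_mul, Matrix.mul_vecMulVec, Matrix.vecMulVec_mul]
    congr 1
    · rw [← Units.val_mul, mul_inv_cancel, Units.val_one]
    · congr 1
      rw [Matrix.single_one_vecMul]
      ext l
      show ((h⁻¹ : Matrix.GeneralLinearGroup (Fin n) ℤ) : Matrix (Fin n) (Fin n) ℤ) j l = _
      rw [hr.inv j l hb, Pi.single_apply]
      by_cases h2 : j = l
      · rw [if_pos h2, if_pos h2.symm]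
      · rw [if_neg h2, if_neg (fun h => h2 h.symm)]
  rw [h1]
  exact col_mem_UN b j hb _ h0

private theorem ColM_conj_mem (b : ℕ) (h : Matrix.GeneralLinearGroup (Fin n) ℤ) (hr : Rid b h)
    (g : Matrix.GeneralLinearGroup (Fin n) ℤ) (hg : g ∈ UN (n := n) b) :
    h * g * h⁻¹ ∈ UN (n := n) b := by
  unfold UN at hg
  induction hg using Subgroup.closure_induction with
  | mem g hg =>
    obtain ⟨j, l, h1, h2, rfl⟩ := hg
    rw [ColM_tE j l h2]
    exact ColM_conj b j h1 h hr _ (ColM_supp j l h2)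
  | one =>
    rw [mul_one, mul_inv_cancel]
    exact one_mem _
  | mul x y _ _ hx hy =>
    have h1 : h * (x * y) * h⁻¹ = h * x * h⁻¹ * (h * y * h⁻¹) := by group
    rw [h1]
    exact mul_mem hx hy
  | inv x _ hx =>
    have h1 : h * x⁻¹ * h⁻¹ = (h * x * h⁻¹)⁻¹ := by group
    rw [h1]
    exact inv_mem hx

/-- Proof.  For `j ≥ b` and `c` supported on `i < j` we have
`h * col j c * h⁻¹ = col j (h c)` (as `col j c = 1 + c e_jᵀ` and `e_jᵀ h⁻¹ = e_jᵀ` by `Rid.inv`), and
`h c` is supported on `i < j`: `(h c) i = c i` for `i ≥ b` by `Rid`.  So `h UN h⁻¹ ⊆ UN` by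
`col_mem_UN` (`Subgroup.closure_induction`), and the same for `h⁻¹`. -/
theorem nrm_UN (b : ℕ) (h : Matrix.GeneralLinearGroup (Fin n) ℤ) (hr : Rid b h) :
    Nrm (UN b) h := by
  intro g
  constructor
  · exact ColM_conj_mem b h hr g
  · intro hg
    have h1 := ColM_conj_mem b h⁻¹ hr.inv _ hg
    have h2 : h⁻¹ * (h * g * h⁻¹) * h⁻¹⁻¹ = g := by group
    rw [h2] at h1
    exact h1

/-- the columns `l < b` of `h` are those of the identity matrix -/
def Fb (b : ℕ) (h : Matrix.GeneralLinearGroup (Fin n) ℤ) : Prop :=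
  ∀ i l : Fin n, l.val < b → (h : Matrix (Fin n) (Fin n) ℤ) i l = if i = l then 1 else 0

/-- The property `h e_l = e_l` for `l < b` holds for the generators, and is preserved by products
and inverses. -/
theorem Fb_of_mem (b : ℕ) (h : Matrix.GeneralLinearGroup (Fin n) ℤ) (hh : h ∈ UN b) : Fb b h := by
  unfold UN at hh
  induction hh using Subgroup.closure_induction with
  | mem g hg =>
    obtain ⟨j, l, h1, h2, rfl⟩ := hg
    intro i m hm
    have h3 : ¬ (m = j ∧ i ≠ j) := by
      rintro ⟨h4, -⟩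
      rw [h4] at hm
      exact absurd hm (not_lt.2 h1)
    rw [ColM_tE j l h2, ColM_app, if_neg h3, add_zero]
  | one =>
    intro i m _
    rw [Units.val_one, Matrix.one_apply]
  | mul x y _ _ hx hy =>
    intro i m hm
    rw [Units.val_mul, Matrix.mul_apply, Finset.sum_eq_single m]
    · rw [hy m m hm, if_pos rfl, mul_one, hx i m hm]
    · intro k _ hk
      rw [hy k m hm, if_neg hk, mul_zero]
    · intro h2
      exact absurd (Finset.mem_univ _) h2
  | inv x _ hx =>
    intro i m hm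
    have h1 : ((x⁻¹ * x : Matrix.GeneralLinearGroup (Fin n) ℤ) : Matrix (Fin n) (Fin n) ℤ) i m =
        ((x⁻¹ : Matrix.GeneralLinearGroup (Fin n) ℤ) : Matrix (Fin n) (Fin n) ℤ) i m := by
      rw [Units.val_mul, Matrix.mul_apply, Finset.sum_eq_single m]
      · rw [hx m m hm, if_pos rfl, mul_one]
      · intro k _ hk
        rw [hx k m hm, if_neg hk, mul_zero]
      · intro h2
        exact absurd (Finset.mem_univ _) h2
    rw [← h1, inv_mul_cancel, Units.val_one, Matrix.one_apply]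

private theorem ColM_up (j : Fin n) (h : Matrix.GeneralLinearGroup (Fin n) ℤ)
    (hh : Fb (j.val + 1) h) : Up j h := by
  refine ⟨?_, ?_, ?_⟩
  · intro i l hl hi
    rw [hh i l (Nat.lt_succ_of_lt hl), if_neg (hl.trans_le hi).ne']
  · intro i hi
    rw [hh i j (Nat.lt_succ_self _), if_neg hi.ne']
  · rw [hh j j (Nat.lt_succ_self _), if_pos rfl]

private theorem ColM_up' (j : Fin n) (c : Fin n → ℤ) (hc : ∀ i, j ≤ i → c i = 0) :
    Up j (col j c) := by
  refine ⟨?_, ?_, ?_⟩
  · intro i l hl hi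
    rw [ColM_app, if_neg (hl.trans_le hi).ne', if_neg (fun h => hl.ne h.1), add_zero]
  · intro i hi
    rw [ColM_app, if_neg hi.ne', hc i hi.le, ite_self, add_zero]
  · rw [ColM_app, if_pos rfl, if_neg (fun h => h.2 rfl), add_zero]

private theorem ColM_up2 (j k : Fin n) (hjk : j < k) (c : Fin n → ℤ)
    (hc : ∀ i, j ≤ i → c i = 0) : Up k (col j c) := by
  refine ⟨?_, ?_, ?_⟩
  · intro i l hl hi
    rw [ColM_app, if_neg (hl.trans_le hi).ne', hc i (hjk.le.trans hi), ite_self, add_zero]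
  · intro i hi
    rw [ColM_app, if_neg hi.ne', hc i (hjk.le.trans hi.le), ite_self, add_zero]
  · rw [ColM_app, if_pos rfl, hc k hjk.le, ite_self, add_zero]

private theorem ColM_neg (j : Fin n) (c : Fin n → ℤ) (hc : ∀ i, j ≤ i → c i = 0) :
    ∀ i, j ≤ i → (-c) i = 0 := by
  intro i hi
  rw [Pi.neg_apply, hc i hi, neg_zero]

/-- `Fb (j+1) h` implies `Up j h` and `Mr h` fixes `ov x j` (supported on `l ≤ j`); `ov_left`. -/
theorem Psi_UN (j : Fin n) (h x : Matrix.GeneralLinearGroup (Fin n) ℤ)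
    (hh : h ∈ UN (n := n) (j.val + 1)) : Psi j (h * x) = Psi j x := by
  have h1 : Fb (j.val + 1) h := Fb_of_mem _ _ hh
  have h2 : Fb (j.val + 1) h⁻¹ := Fb_of_mem _ _ (inv_mem hh)
  have h3 : (Mr h).mulVec (ov x j) = ov x j := by
    ext i
    show ∑ l, Mr h i l * ov x j l = ov x j i
    rw [Finset.sum_eq_single i]
    · rcases le_or_gt i j with h4 | h4
      · have h5 : Mr h i i = 1 := by
          show (((h : Matrix (Fin n) (Fin n) ℤ) i i : ℤ) : ℝ) = 1
          rw [h1 i i (Nat.lt_succ_of_le h4), if_pos rfl, Int.cast_one]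
        rw [h5, one_mul]
      · rw [(ov_spec x j).zero i h4, mul_zero]
    · intro l _ hl
      rcases le_or_gt l j with h4 | h4
      · have h5 : Mr h i l = 0 := by
          show (((h : Matrix (Fin n) (Fin n) ℤ) i l : ℤ) : ℝ) = 0
          rw [h1 i l (Nat.lt_succ_of_le h4), if_neg hl.symm, Int.cast_zero]
        rw [h5, zero_mul]
      · rw [(ov_spec x j).zero l h4, mul_zero]
    · intro h4
      exact absurd (Finset.mem_univ _) h4
  funext l
  unfold Psi
  rw [ov_left x h j (ColM_up j h h1) (ColM_up j h⁻¹ h2), h3]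

/-- `Up j (tE j l)` and the inverse; `Mr (tE j l)` maps `v = ov x j` to `v + v j e_l = v + e_l`;
`ov_left`. -/
theorem Psi_tE (j : Fin n) (l : ℕ) (hl : l < j.val) (x : Matrix.GeneralLinearGroup (Fin n) ℤ)
    (m : ℕ) : Psi j (tE j l * x) m = Psi j x m + if m = l then 1 else 0 := by
  have hs := ColM_supp j l hl
  have h1 : Up j (tE j l) := by
    rw [ColM_tE j l hl]
    exact ColM_up' j _ hs
  have h2 : Up j (tE j l)⁻¹ := by
    rw [ColM_tE j l hl, col_inv]
    exact ColM_up' j _ (ColM_neg j _ hs)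
  unfold Psi
  rw [ov_left x (tE j l) j h1 h2]
  by_cases hm : m < j.val
  · rw [dif_pos hm, dif_pos hm]
    have hmj : (⟨m, hm.trans j.2⟩ : Fin n) ≠ j := fun h => by
      have h3 := congrArg Fin.val h
      exact absurd h3 hm.ne
    have h3 : ∀ k : Fin n, Mr (tE j l) ⟨m, hm.trans j.2⟩ k =
        (if (⟨m, hm.trans j.2⟩ : Fin n) = k then 1 else 0) +
          if k = j then (if m = l then 1 else 0) else 0 := by
      intro k
      show (((tE j l : Matrix (Fin n) (Fin n) ℤ) ⟨m, hm.trans j.2⟩ k : ℤ) : ℝ) = _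
      have h4 : (if k = j ∧ (⟨m, hm.trans j.2⟩ : Fin n) ≠ j then
          (Pi.single ⟨l, hl.trans j.2⟩ 1 : Fin n → ℤ) ⟨m, hm.trans j.2⟩ else 0) =
          if k = j then (if m = l then 1 else 0) else 0 := by
        rw [Pi.single_apply]
        by_cases hk : k = j
        · have h5 : k = j ∧ (⟨m, hm.trans j.2⟩ : Fin n) ≠ j := ⟨hk, hmj⟩
          rw [if_pos h5, if_pos hk]
          by_cases hml : m = l
          · have h6 : (⟨m, hm.trans j.2⟩ : Fin n) = ⟨l, hl.trans j.2⟩ := Fin.ext hml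
            rw [if_pos h6, if_pos hml]
          · have h6 : ¬ (⟨m, hm.trans j.2⟩ : Fin n) = ⟨l, hl.trans j.2⟩ :=
              fun h => hml (congrArg Fin.val h)
            rw [if_neg h6, if_neg hml]
        · have h5 : ¬ (k = j ∧ (⟨m, hm.trans j.2⟩ : Fin n) ≠ j) := fun h => hk h.1
          rw [if_neg h5, if_neg hk]
      rw [ColM_tE j l hl, ColM_app, h4]
      simp only [Int.cast_add, Int.cast_ite, Int.cast_one, Int.cast_zero]
    show ∑ k, Mr (tE j l) ⟨m, hm.trans j.2⟩ k * ov x j k = _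
    simp only [h3, add_mul, Finset.sum_add_distrib, ite_mul, one_mul, zero_mul,
      Finset.sum_ite_eq, Finset.sum_ite_eq', Finset.mem_univ, if_true]
    rw [(ov_spec x j).one]
    try simp
  · have h3 : ¬ m = l := fun h => hm (by rw [h]; exact hl)
    rw [dif_neg hm, dif_neg hm, if_neg h3, add_zero]

/-- the assumptions of `vc_inv` for all blocks `j ≥ b` -/
def Hv (b : ℕ) (h : Matrix.GeneralLinearGroup (Fin n) ℤ) : Prop :=
  ∀ j : Fin n, b ≤ j.val → Up j h ∧ Up j h⁻¹ ∧
    ((h : Matrix (Fin n) (Fin n) ℤ).submatrix (Fin.castLE j.2.le) (Fin.castLE j.2.le) :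
      Matrix (Fin j.val) (Fin j.val) ℤ).det = 1

/-- The leading blocks are upper triangular with diagonal `1`. -/
theorem Hv_tE (j : Fin n) (l : ℕ) (hl : l < j.val) : Hv (j.val + 1) (tE j l) := by
  intro k hk
  have hs := ColM_supp j l hl
  have hjk : j < k := hk
  refine ⟨?_, ?_, ?_⟩
  · rw [ColM_tE j l hl]
    exact ColM_up2 j k hjk _ hs
  · rw [ColM_tE j l hl, col_inv]
    exact ColM_up2 j k hjk _ (ColM_neg j _ hs)
  · rw [Matrix.det_of_isUpperTriangular]
    · refine Finset.prod_eq_one fun i _ => ?_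
      rw [Matrix.submatrix_apply, ColM_tE j l hl, ColM_app, if_pos rfl,
        if_neg (fun h => h.2 h.1), add_zero]
    · intro i m him
      have him' : m < i := him
      have h1 : Fin.castLE k.2.le m < Fin.castLE k.2.le i := him'
      rw [Matrix.submatrix_apply, ColM_tE j l hl, ColM_app, if_neg h1.ne', zero_add]
      split_ifs with h2
      · refine hs _ ?_
        rw [← h2.1]
        exact h1.le
      · rfl

theorem Rid_tE (j : Fin n) (l : ℕ) (hl : l < j.val) : Rid (j.val + 1) (tE j l) := by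
  intro i m hi
  have h1 : j ≤ i := (Nat.le_succ _).trans hi
  rw [ColM_tE j l hl, ColM_app, ColM_supp j l hl i h1, ite_self, add_zero]

theorem comm_tE (j : Fin n) (l m : ℕ) : tE j l * tE j m * (tE j l)⁻¹ * (tE j m)⁻¹ = 1 := by
  have key : ∀ k : ℕ, ∃ c : Fin n → ℤ, tE j k = col j c := by
    intro k
    by_cases h : k < j.val
    · exact ⟨_, ColM_tE j k h⟩
    · exact ⟨0, by rw [col_zero]; exact dif_neg h⟩
  obtain ⟨c, hc⟩ := key l
  obtain ⟨d, hd⟩ := key m
  rw [hc, hd, col_inv, col_inv, col_mul, col_mul, col_mul]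
  have h1 : c + d + -c + -d = 0 := by abel
  rw [h1, col_zero]

end Pool.Agent.H.MP_e5d137_al.SL
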