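import Mathlib
import Pool.Agent.H.MP_e5d137_al.SL.Orth
import Pool.Agent.H.MP_e5d137_al.SL.Cupp

/-!
# Invariance of the volume cochains of the orthogonal vectors
-/

namespace Pool.Agent.H.MP_e5d137_al.SL

open Matrix

variable {n : ℕ}

/-- the sum over all coordinates, when the second factor is `1` at `j` and `0` above -/
theorem VolI_split (j : Fin n) (f g : Fin n → ℝ) (h1 : g j = 1) (h0 : ∀ l, j < l → g l = 0) :
    ∑ m, f m * g m =
      f j + ∑ m : Fin j.val, f (Fin.castLE j.2.le m) * g (Fin.castLE j.2.le m) := by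
  classical
  have hj : j ∉ Finset.univ.image (Fin.castLE j.2.le) := by
    intro hmem
    obtain ⟨m, -, hm⟩ := Finset.mem_image.1 hmem
    have h2 := congrArg Fin.val hm
    have h3 : (Fin.castLE j.2.le m).val = m.val := rfl
    have := m.2
    omega
  have hsub : ∑ m, f m * g m =
      ∑ m ∈ insert j (Finset.univ.image (Fin.castLE j.2.le)), f m * g m := by
    symm
    refine Finset.sum_subset (Finset.subset_univ _) fun m _ hm => ?_
    rw [Finset.mem_insert, not_or] at hm
    have hlt : j < m := by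
      by_contra hc
      have h4 : m < j := lt_of_le_of_ne (not_lt.1 hc) hm.1
      exact hm.2 (Finset.mem_image.2 ⟨⟨m.val, h4⟩, Finset.mem_univ _, Fin.ext rfl⟩)
    rw [h0 m hlt, mul_zero]
  rw [hsub, Finset.sum_insert hj, h1, mul_one, Finset.sum_image]
  intro a _ b _ hab
  exact Fin.castLE_injective j.2.le hab

/-- the coordinates of the transformed orthogonal vector -/
theorem VolI_psi (h x : Matrix.GeneralLinearGroup (Fin n) ℤ) (j : Fin n) (h1 : Up j h)
    (h2 : Up j h⁻¹) (l : Fin j.val) :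
    Psi j (h * x) l.val = Mr h (Fin.castLE j.2.le l) j +
      ∑ m : Fin j.val, Mr h (Fin.castLE j.2.le l) (Fin.castLE j.2.le m) * Psi j x m.val := by
  have hov := ov_spec x j
  have e1 : Psi j (h * x) l.val = ov (h * x) j (Fin.castLE j.2.le l) := by
    unfold Psi
    rw [dif_pos l.2]
    rfl
  have e2 : ∀ m : Fin j.val, Psi j x m.val = ov x j (Fin.castLE j.2.le m) := by
    intro m
    unfold Psi
    rw [dif_pos m.2]
    rfl
  rw [e1, ov_left x h j h1 h2]
  have e3 : (Mr h).mulVec (ov x j) (Fin.castLE j.2.le l) =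
      ∑ m, Mr h (Fin.castLE j.2.le l) m * ov x j m := rfl
  rw [e3, VolI_split j (fun m => Mr h (Fin.castLE j.2.le l) m) (ov x j) hov.one hov.zero]
  congr 1
  exact Finset.sum_congr rfl fun m _ => by rw [e2 m]

/-- the matrix of the change of coordinates -/
noncomputable def VolI_N (h : Matrix.GeneralLinearGroup (Fin n) ℤ) (j : Fin n) :
    Matrix (Fin (j.val + 1)) (Fin (j.val + 1)) ℝ :=
  Matrix.of fun a b => Fin.cases (Fin.cases (1 : ℝ) (fun l => Mr h (Fin.castLE j.2.le l) j) b)
    (fun m => Fin.cases (0 : ℝ)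
      (fun l => Mr h (Fin.castLE j.2.le l) (Fin.castLE j.2.le m)) b) a

theorem VolI_det (h : Matrix.GeneralLinearGroup (Fin n) ℤ) (j : Fin n)
    (h3 : ((h : Matrix (Fin n) (Fin n) ℤ).submatrix (Fin.castLE j.2.le) (Fin.castLE j.2.le) :
      Matrix (Fin j.val) (Fin j.val) ℤ).det = 1) : (VolI_N h j).det = 1 := by
  rw [Matrix.det_succ_column_zero, Fin.sum_univ_succ]
  have e0 : VolI_N h j 0 0 = 1 := rfl
  have e1 : ∀ i : Fin j.val, VolI_N h j i.succ 0 = 0 := fun i => rfl
  have e2 : (VolI_N h j).submatrix (Fin.succAbove 0) Fin.succ =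
      (((h : Matrix (Fin n) (Fin n) ℤ).submatrix (Fin.castLE j.2.le) (Fin.castLE j.2.le)).map
        (Int.castRingHom ℝ))ᵀ := by
    ext a b
    rfl
  rw [e0, e2, Matrix.det_transpose]
  have e3 : (((h : Matrix (Fin n) (Fin n) ℤ).submatrix (Fin.castLE j.2.le)
      (Fin.castLE j.2.le)).map (Int.castRingHom ℝ)).det = 1 := by
    have := (Int.castRingHom ℝ).map_det
      ((h : Matrix (Fin n) (Fin n) ℤ).submatrix (Fin.castLE j.2.le) (Fin.castLE j.2.le))
    rw [h3, map_one] at this
    exact this.symm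
  rw [e3]
  have e4 : ∑ i : Fin j.val, (-1) ^ (i.succ : ℕ) * VolI_N h j i.succ 0 *
      ((VolI_N h j).submatrix i.succ.succAbove Fin.succ).det = 0 :=
    Finset.sum_eq_zero fun i _ => by rw [e1, mul_zero, zero_mul]
  rw [e4]
  simp

/-- Invariance of the volume cochain.

Proof.  By `ov_left`, `Psi j (h x) l = Σ_{m < j} h_(l m) Psi j x m + h_(l j)` for `l < j`
(`ov x j` has coordinate `1` at `j` and `0` above).  So `vol_mul` applies with the matrix
`N` with first column `(1, 0, ..., 0)`, `N 0 (l+1) = h_(l j)`, `N (m+1) (l+1) = h_(l m)`.  Its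
determinant is the determinant of the transpose of the leading block of size `j` of `h`
(expansion along the first column, `Matrix.det_succ_column_zero`). -/
theorem vc_inv (h : Matrix.GeneralLinearGroup (Fin n) ℤ) (j : Fin n) (h1 : Up j h)
    (h2 : Up j h⁻¹)
    (h3 : ((h : Matrix (Fin n) (Fin n) ℤ).submatrix (Fin.castLE j.2.le) (Fin.castLE j.2.le) :
      Matrix (Fin j.val) (Fin j.val) ℤ).det = 1)
    (σ : List (Matrix.GeneralLinearGroup (Fin n) ℤ)) (hσ : σ.length = j.val + 1) :
    vc (Psi j) j.val (σ.map (fun x => h * x)) = vc (Psi j) j.val σ := by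
  unfold vc
  rw [vol_mul j.val (σ.map (Psi j)) ((σ.map (fun x => h * x)).map (Psi j)) (VolI_N h j),
    VolI_det h j h3, mul_one]
  intro a b
  have ha : a.1 < σ.length := by rw [hσ]; exact a.2
  have g1 : ((σ.map (fun x => h * x)).map (Psi j)).getD a.1 0 = Psi j (h * σ[a.1]) := by
    rw [List.getD_eq_getElem _ 0 (by rw [List.length_map, List.length_map]; exact ha),
      List.getElem_map, List.getElem_map]
  have g2 : (σ.map (Psi j)).getD a.1 0 = Psi j σ[a.1] := by
    rw [List.getD_eq_getElem _ 0 (by rw [List.length_map]; exact ha), List.getElem_map]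
  rw [g1, g2, Fin.sum_univ_succ]
  refine Fin.cases ?_ (fun l => ?_) b
  · have e1 : ∀ i : Fin j.val, VolI_N h j i.succ 0 = 0 := fun i => rfl
    have e0 : VolI_N h j 0 0 = 1 := rfl
    rw [Finset.sum_eq_zero fun i _ => by rw [e1, mul_zero], e0, add_zero, mul_one]
    rfl
  · have r0 : row (Psi j σ[a.1]) (0 : Fin (j.val + 1)).1 = 1 := rfl
    have r1 : row (Psi j (h * σ[a.1])) l.succ.1 = Psi j (h * σ[a.1]) l.val := by
      unfold row
      rw [if_neg (by rw [Fin.val_succ]; omega), Fin.val_succ, Nat.add_sub_cancel]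
    have r2 : ∀ m : Fin j.val, row (Psi j σ[a.1]) m.succ.1 = Psi j σ[a.1] m.val := by
      intro m
      unfold row
      rw [if_neg (by rw [Fin.val_succ]; omega), Fin.val_succ, Nat.add_sub_cancel]
    rw [r1, r0, VolI_psi h _ j h1 h2 l, one_mul]
    have e5 : VolI_N h j 0 l.succ = Mr h (Fin.castLE j.2.le l) j := rfl
    rw [e5]
    congr 1
    refine Finset.sum_congr rfl fun m _ => ?_
    rw [r2 m]
    have e6 : VolI_N h j m.succ l.succ =
      Mr h (Fin.castLE j.2.le l) (Fin.castLE j.2.le m) := rfl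
    rw [e6, mul_comm]

end Pool.Agent.H.MP_e5d137_al.SL
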