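import Mathlib
import Pool.Agent.H.MP_e5d137_al.SL.ColM
import Pool.Agent.H.MP_e5d137_al.SL.VolI
import Pool.Agent.H.MP_e5d137_al.SL.Block

/-!
# The tower of column blocks
-/

namespace Pool.Agent.H.MP_e5d137_al.SL

/-- the degree after `k` column blocks: `(n-1) + (n-2) + ... + (n-k)` -/
def dg (n : ℕ) : ℕ → ℕ
  | 0 => 0
  | k + 1 => dg n k + (n - 1 - k)

/-- the cochain after `k` column blocks -/
noncomputable def Ac (n : ℕ) : ℕ → List (Matrix.GeneralLinearGroup (Fin n) ℤ) → ℝ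
  | 0 => fun _ => 1
  | k + 1 => if h : k < n then
      blk (dg n k) (Ac n k) (Psi ⟨n - 1 - k, by omega⟩) (n - 1 - k) else fun _ => 0

/-- Proof.  Induction on `k`.  `k = 0`: `UN n = ⊥` (`UN_top`), `PD.bot`; `dc 1 σ = 0` for `σ` of
length `2` (`dc_eq`).  Step from `k` to `k + 1 ≤ n`: `j = n - 1 - k`, `j + 1 = n - k`,
`UN j = UN (j+1) ⊔ ...` (`UN_succ`).  `PD.block` with `N = UN (n - k)`, `P = dg n k`, `A = Ac n k`,
`q = j`, `t = tE j`, `Ψ = Psi j`: `hAt` is the third statement for `k` and `Hv_tE`; `hΨN` is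
`Psi_UN`, `hΨt` is `Psi_tE`, `hnorm` is `nrm_UN` with `Rid_tE`, `hcomm` is `comm_tE`.  The second
statement is `dc_blk`.  Third statement: `Ac n (k+1) (h σ) = Ac n k (h (σ.take _)) * vc .. (h (σ.drop _))`
and the induction hypothesis (`Hv (n-k-1) h` implies `Hv (n-k) h`), `vc_inv`. -/
theorem tower (n k : ℕ) (hk : k ≤ n) :
    PD (UN (n := n) (n - k)) (dg n k) (Ac n k) ∧
    (∀ σ : List (Matrix.GeneralLinearGroup (Fin n) ℤ), σ.length = dg n k + 2 →
      dc (Ac n k) σ = 0) ∧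
    (∀ h : Matrix.GeneralLinearGroup (Fin n) ℤ, Hv (n - k) h →
      ∀ σ : List (Matrix.GeneralLinearGroup (Fin n) ℤ), σ.length = dg n k + 1 →
      Ac n k (σ.map (fun x => h * x)) = Ac n k σ) := by
  induction k with
  | zero =>
    refine ⟨?_, ?_, fun _ _ _ _ => rfl⟩
    · show PD (UN (n := n) n) 0 (fun _ => 1)
      rw [UN_top]
      exact PD.bot
    · intro σ hσ
      rw [dc_eq, hσ]
      show ∑ i ∈ Finset.range 2, (-1 : ℝ) ^ i * 1 = 0
      rw [Finset.sum_range_succ, Finset.sum_range_one]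
      norm_num
  | succ k ih =>
    obtain ⟨ih1, ih2, ih3⟩ := ih (by omega)
    have hlt : n - 1 - k < n := by omega
    obtain ⟨j, hj⟩ : ∃ j : Fin n, j = ⟨n - 1 - k, hlt⟩ := ⟨_, rfl⟩
    have hjv : j.val = n - 1 - k := by rw [hj]
    have hj1 : j.val + 1 = n - k := by omega
    have hj2 : n - (k + 1) = j.val := by omega
    have hAc : Ac n (k + 1) = blk (dg n k) (Ac n k) (Psi j) j.val := by
      have h1 : Ac n (k + 1) = blk (dg n k) (Ac n k) (Psi ⟨n - 1 - k, hlt⟩) (n - 1 - k) :=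
        dif_pos hk
      rw [h1, hjv, hj]
    have hdg : dg n (k + 1) = dg n k + j.val := by
      rw [hjv]
      rfl
    rw [hj2, hAc, hdg, UN_succ j]
    refine ⟨PD.block (UN (j.val + 1)) (dg n k) (Ac n k) j.val (tE j) (Psi j)
      (by rw [hj1]; exact ih1) ih2 ?_ ?_ ?_ ?_ ?_, ?_, ?_⟩
    · intro l hl σ hσ
      exact ih3 (tE j l) (by rw [← hj1]; exact Hv_tE j l hl) σ hσ
    · intro h hh x
      exact Psi_UN j h x hh
    · intro l hl x m
      exact Psi_tE j l hl x m
    · intro l hl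
      exact nrm_UN (j.val + 1) (tE j l) (Rid_tE j l hl)
    · intro l _ m _
      rw [comm_tE]
      exact one_mem _
    · intro σ hσ
      exact dc_blk (dg n k) j.val (Ac n k) (Psi j) ih2 σ hσ
    · intro h hh σ hσ
      have hh' : Hv (n - k) h := fun i hi => hh i (by omega)
      obtain ⟨u1, u2, u3⟩ := hh j le_rfl
      unfold blk cupr
      rw [← List.map_take, ← List.map_drop, ih3 h hh' _ (by rw [List.length_take, hσ]; omega),
        vc_inv h j u1 u2 u3 _ (by rw [List.length_drop, hσ]; omega)]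

end Pool.Agent.H.MP_e5d137_al.SL
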