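import Mathlib
import Pool.Agent.H.MP_e5d137_al.SL.Orth

/-!
# Gram determinants
-/

namespace Pool.Agent.H.MP_e5d137_al.SL

open Matrix

variable {n : ℕ}

/-- the product of the `rho x l`, `l < j` -/
noncomputable def Dn (j : ℕ) (x : Matrix.GeneralLinearGroup (Fin n) ℤ) : ℝ :=
  ∏ l ∈ (Finset.univ : Finset (Fin n)).filter (fun l => l.val < j), rho x l

/-- the leading block of size `j` of `Xᵀ X`, `X = Xr x` -/
noncomputable def Gm (j : ℕ) (hj : j ≤ n) (x : Matrix.GeneralLinearGroup (Fin n) ℤ) :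
    Matrix (Fin j) (Fin j) ℝ :=
  ((Xr x)ᵀ * Xr x).submatrix (Fin.castLE hj) (Fin.castLE hj)

theorem Gram_sum (j : ℕ) (hj : j ≤ n) (f : Fin n → ℝ) (hf : ∀ a : Fin n, j ≤ a.val → f a = 0) :
    ∑ b : Fin j, f (Fin.castLE hj b) = ∑ a, f a := by
  refine Finset.sum_of_injOn (Fin.castLE hj) ?_ ?_ ?_ ?_
  · exact (Fin.castLE_injective hj).injOn
  · intro b _
    exact Finset.mem_coe.2 (Finset.mem_univ _)
  · intro a _ ha
    refine hf a ?_
    by_contra h
    push Not at h
    exact ha ⟨⟨a.val, h⟩, Finset.mem_coe.2 (Finset.mem_univ _), Fin.ext rfl⟩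
  · intro b _
    rfl

theorem Gram_prod (j : ℕ) (hj : j ≤ n) (f : Fin n → ℝ) :
    ∏ l ∈ (Finset.univ : Finset (Fin n)).filter (fun l => l.val < j), f l =
      ∏ b : Fin j, f (Fin.castLE hj b) := by
  symm
  refine Finset.prod_of_injOn (Fin.castLE hj) ?_ ?_ ?_ ?_
  · exact (Fin.castLE_injective hj).injOn
  · intro b _
    rw [Finset.mem_coe, Finset.mem_filter]
    exact ⟨Finset.mem_univ _, b.2⟩
  · intro a ha hna
    rw [Finset.mem_filter] at ha
    exact absurd ⟨⟨a.val, ha.2⟩, Finset.mem_coe.2 (Finset.mem_univ _), Fin.ext rfl⟩ hna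
  · intro b _
    rfl

/-- the matrix of the coordinates of the first orthogonal vectors -/
noncomputable def Gram_V (j : ℕ) (hj : j ≤ n) (x : Matrix.GeneralLinearGroup (Fin n) ℤ) :
    Matrix (Fin j) (Fin j) ℝ :=
  Matrix.of fun a l => ov x (Fin.castLE hj l) (Fin.castLE hj a)

theorem Gram_detV (j : ℕ) (hj : j ≤ n) (x : Matrix.GeneralLinearGroup (Fin n) ℤ) :
    (Gram_V j hj x).det = 1 := by
  have h : (Gram_V j hj x).BlockTriangular id := by
    intro a l hal
    exact (ov_spec x (Fin.castLE hj l)).zero _ hal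
  rw [Matrix.det_of_upperTriangular h]
  exact Finset.prod_eq_one fun l _ => (ov_spec x (Fin.castLE hj l)).one

theorem Gram_dot (x : Matrix.GeneralLinearGroup (Fin n) ℤ) (l m : Fin n) :
    (Xr x).mulVec (ov x l) ⬝ᵥ (Xr x).mulVec (ov x m) = if l = m then rho x l else 0 := by
  have key : ∀ a b : Fin n, a < b → (Xr x).mulVec (ov x b) ⬝ᵥ (Xr x).mulVec (ov x a) = 0 := by
    intro a b hab
    exact (ov_spec x b).orth _ fun i hi => (ov_spec x a).zero i (hab.trans_le hi)
  split_ifs with h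
  · subst h
    rfl
  · rcases lt_or_gt_of_ne h with h1 | h1
    · rw [dotProduct_comm]
      exact key _ _ h1
    · exact key _ _ h1

theorem Gram_mul (j : ℕ) (hj : j ≤ n) (x : Matrix.GeneralLinearGroup (Fin n) ℤ) :
    (Gram_V j hj x)ᵀ * Gm j hj x * Gram_V j hj x =
      Matrix.diagonal fun l => rho x (Fin.castLE hj l) := by
  have h1 : Gm j hj x = ((Xr x).submatrix id (Fin.castLE hj))ᵀ *
      (Xr x).submatrix id (Fin.castLE hj) := by
    unfold Gm
    ext a b
    simp only [Matrix.submatrix_apply, Matrix.mul_apply, Matrix.transpose_apply, id]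
  have h2 : ∀ k l, ((Xr x).submatrix id (Fin.castLE hj) * Gram_V j hj x) k l =
      (Xr x).mulVec (ov x (Fin.castLE hj l)) k := by
    intro k l
    rw [Matrix.mul_apply]
    unfold Matrix.mulVec dotProduct
    refine Gram_sum j hj (fun a => Xr x k a * ov x (Fin.castLE hj l) a) ?_
    intro a ha
    have h3 : ov x (Fin.castLE hj l) a = 0 := by
      refine (ov_spec x (Fin.castLE hj l)).zero a ?_
      rw [Fin.lt_def]
      exact lt_of_lt_of_le l.2 ha
    show Xr x k a * ov x (Fin.castLE hj l) a = 0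
    rw [h3, mul_zero]
  have h4 : (Gram_V j hj x)ᵀ * Gm j hj x * Gram_V j hj x =
      ((Xr x).submatrix id (Fin.castLE hj) * Gram_V j hj x)ᵀ *
        ((Xr x).submatrix id (Fin.castLE hj) * Gram_V j hj x) := by
    rw [h1, Matrix.transpose_mul, Matrix.mul_assoc, Matrix.mul_assoc, Matrix.mul_assoc]
  rw [h4]
  ext l m
  rw [Matrix.mul_apply]
  have h5 : ∑ k, ((Xr x).submatrix id (Fin.castLE hj) * Gram_V j hj x)ᵀ l k *
      ((Xr x).submatrix id (Fin.castLE hj) * Gram_V j hj x) k m =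
      (Xr x).mulVec (ov x (Fin.castLE hj l)) ⬝ᵥ (Xr x).mulVec (ov x (Fin.castLE hj m)) := by
    refine Finset.sum_congr rfl fun k _ => ?_
    rw [Matrix.transpose_apply, h2, h2]
  rw [h5, Gram_dot]
  by_cases hlm : l = m
  · subst hlm
    rw [if_pos rfl, Matrix.diagonal_apply_eq]
  · rw [if_neg (fun h => hlm (Fin.castLE_injective hj h)), Matrix.diagonal_apply_ne _ hlm]

theorem Gram_pos (j : ℕ) (x : Matrix.GeneralLinearGroup (Fin n) ℤ) : 0 < Dn j x :=
  Finset.prod_pos fun l _ => rho_pos x l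

/-- the integral matrix of the inverse -/
def Gram_A (x : Matrix.GeneralLinearGroup (Fin n) ℤ) : Matrix (Fin n) (Fin n) ℤ :=
  ((x⁻¹ : Matrix.GeneralLinearGroup (Fin n) ℤ) : Matrix (Fin n) (Fin n) ℤ)

theorem Gram_Xr (x : Matrix.GeneralLinearGroup (Fin n) ℤ) :
    Xr x = (Gram_A x).map (Int.cast : ℤ → ℝ) := rfl

theorem Gram_int (j : ℕ) (hj : j ≤ n) (x : Matrix.GeneralLinearGroup (Fin n) ℤ) :
    (Gm j hj x).det = (((((Gram_A x)ᵀ * Gram_A x).submatrix (Fin.castLE hj)
      (Fin.castLE hj)).det : ℤ) : ℝ) := by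
  rw [Int.cast_det]
  congr 1
  unfold Gm
  rw [Gram_Xr]
  ext a b
  simp only [Matrix.submatrix_apply, Matrix.mul_apply, Matrix.transpose_apply, Matrix.map_apply,
    Int.cast_sum, Int.cast_mul]

/-- `Dn j x` is the determinant of the leading block of size `j` of the Gram matrix.

Proof.  Let `V` be the `j × j` matrix with columns `ov x l`, `l < j`, restricted to the coordinates
`< j` (the other coordinates are zero).  `V` is upper triangular with diagonal `1`, so `det V = 1`
(`Matrix.det_of_upperTriangular`).  `Vᵀ (Gm j x) V` has the entries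
`(X ov_l) · (X ov_m)`, which is `rho x l` for `l = m` and `0` otherwise (`ov_spec`, `orth`, for
`l < m` the vector `ov x l` is in `V_m`).  Take determinants. -/
theorem Dn_eq_det (j : ℕ) (hj : j ≤ n) (x : Matrix.GeneralLinearGroup (Fin n) ℤ) :
    Dn j x = (Gm j hj x).det := by
  have h := congrArg Matrix.det (Gram_mul j hj x)
  rw [Matrix.det_mul, Matrix.det_mul, Matrix.det_transpose, Gram_detV, one_mul, mul_one,
    Matrix.det_diagonal] at h
  rw [h]
  exact Gram_prod j hj (rho x)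

/-- The Gram matrix is integral, its minors are integers, and `Dn j x > 0`. -/
theorem one_le_Dn (j : ℕ) (hj : j ≤ n) (x : Matrix.GeneralLinearGroup (Fin n) ℤ) :
    1 ≤ Dn j x := by
  have h := Gram_pos j x
  rw [Dn_eq_det j hj x, Gram_int j hj x] at h ⊢
  have h2 := Int.cast_pos.1 h
  exact_mod_cast h2

/-- `det (Xᵀ X) = (det X)^2 = 1`. -/
theorem Dn_full (x : Matrix.GeneralLinearGroup (Fin n) ℤ) : Dn n x = 1 := by
  rw [Dn_eq_det n le_rfl x, Gram_int n le_rfl x]
  have h1 : ((Gram_A x)ᵀ * Gram_A x).submatrix (Fin.castLE (le_refl n)) (Fin.castLE (le_refl n)) =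
      (Gram_A x)ᵀ * Gram_A x := by
    ext a b
    rfl
  have h2 : IsUnit (Gram_A x).det := by
    have h3 : (Gram_A x).det = ((Matrix.GeneralLinearGroup.det x⁻¹ : ℤˣ) : ℤ) := rfl
    rw [h3]
    exact Units.isUnit _
  rw [h1, Matrix.det_mul, Matrix.det_transpose]
  rcases Int.isUnit_iff.1 h2 with h4 | h4
  · rw [h4]
    norm_num
  · rw [h4]
    norm_num

/-- `Dn (j+1) x = Dn j x * rho x j`. -/
theorem Dn_succ (j : Fin n) (x : Matrix.GeneralLinearGroup (Fin n) ℤ) :
    Dn (j.val + 1) x = Dn j.val x * rho x j := by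
  unfold Dn
  have h : (Finset.univ : Finset (Fin n)).filter (fun l => l.val < j.val + 1) =
      insert j ((Finset.univ : Finset (Fin n)).filter (fun l => l.val < j.val)) := by
    ext l
    rw [Finset.mem_insert, Finset.mem_filter, Finset.mem_filter, Fin.ext_iff]
    constructor
    · rintro ⟨h1, h2⟩
      rcases Nat.lt_succ_iff_lt_or_eq.1 h2 with h3 | h3
      · exact Or.inr ⟨h1, h3⟩
      · exact Or.inl h3
    · rintro (h1 | ⟨h1, h2⟩)
      · exact ⟨Finset.mem_univ _, by omega⟩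
      · exact ⟨h1, by omega⟩
  have hn : j ∉ (Finset.univ : Finset (Fin n)).filter (fun l => l.val < j.val) := by
    rw [Finset.mem_filter]
    exact fun h => lt_irrefl _ h.2
  rw [h, Finset.prod_insert hn, mul_comm]

/-- the weight of the block `j` -/
noncomputable def Wt (j : ℕ) (x : Matrix.GeneralLinearGroup (Fin n) ℤ) : ℝ :=
  Dn (j + 1) x ^ j / Dn j x ^ (j + 1)

/-- The product of the weights is at most one.

Proof.  For `b ≤ n` prove `∏ j ∈ Ico b n, Wt j x ≤ (Dn b x ^ (b + 1))⁻¹` by downward induction on `b`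
(`Nat.decreasingInduction` or induction on `n - b`).  `b = n`: both sides are `1` (`Dn_full`).
Step: `∏_{j ≥ b} = Wt b * ∏_{j ≥ b+1} ≤ D_(b+1)^b / D_b^(b+1) / D_(b+1)^(b+2) ≤ 1 / D_b^(b+1)` since
`1 ≤ D_(b+1)`. -/
theorem prod_Wt_le (b : ℕ) (hb : b ≤ n) (x : Matrix.GeneralLinearGroup (Fin n) ℤ) :
    ∏ j ∈ Finset.Ico b n, Wt j x ≤ 1 := by
  have key : ∀ d b : ℕ, b + d = n →
      ∏ j ∈ Finset.Ico b n, Wt j x ≤ (Dn b x ^ (b + 1))⁻¹ := by
    intro d
    induction d with
    | zero =>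
      intro b hb
      rw [add_zero] at hb
      subst hb
      rw [Finset.Ico_self, Finset.prod_empty, Dn_full, one_pow, inv_one]
    | succ d ih =>
      intro b hb
      have hbn : b < n := by omega
      rw [Finset.prod_eq_prod_Ico_succ_bot hbn]
      have h1 := ih (b + 1) (by omega)
      have p0 := Gram_pos b x
      have p1 := Gram_pos (b + 1) x
      have hw : 0 < Wt b x := div_pos (pow_pos p1 _) (pow_pos p0 _)
      have h2 := mul_le_mul_of_nonneg_left h1 hw.le
      refine h2.trans ?_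
      have h3 : Wt b x * (Dn (b + 1) x ^ (b + 1 + 1))⁻¹ =
          (Dn b x ^ (b + 1))⁻¹ * (Dn (b + 1) x ^ 2)⁻¹ := by
        unfold Wt
        have q0 := p0.ne'
        have q1 := p1.ne'
        have e : Dn (b + 1) x ^ (b + 1 + 1) = Dn (b + 1) x ^ b * Dn (b + 1) x ^ 2 := by
          rw [← pow_add]
        rw [e]
        field_simp
      rw [h3]
      have h4 : (Dn (b + 1) x ^ 2)⁻¹ ≤ 1 := by
        refine inv_le_one_of_one_le₀ ?_
        exact one_le_pow₀ (one_le_Dn (b + 1) (by omega) x)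
      exact mul_le_of_le_one_right (inv_nonneg.2 (pow_pos p0 _).le) h4
  refine (key (n - b) b (by omega)).trans ?_
  exact inv_le_one_of_one_le₀ (one_le_pow₀ (one_le_Dn b hb x))

theorem Wt_pos (j : ℕ) (hj : j < n) (x : Matrix.GeneralLinearGroup (Fin n) ℤ) : 0 < Wt j x :=
  div_pos (pow_pos (Gram_pos _ x) _) (pow_pos (Gram_pos _ x) _)

end Pool.Agent.H.MP_e5d137_al.SL
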