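import Mathlib
import Pool.Agent.H.MP_e5d137_al.SL.Gram
import Pool.Agent.H.MP_e5d137_al.SL.Cupp

/-!
# The volume cochains of the orthogonal vectors
-/

namespace Pool.Agent.H.MP_e5d137_al.SL

open Matrix

variable {n : ℕ}

private theorem VolB_sum (j : Fin n) (g : Fin n → ℝ) (hg : ∀ l, j < l → g l = 0) :
    ∑ c : Fin (j.val + 1), g (Fin.castLE j.2 c) = ∑ l, g l := by
  refine Fintype.sum_of_injective (Fin.castLE (Nat.succ_le_of_lt j.2))
    (Fin.castLE_injective _) _ _ ?_ (fun _ => rfl)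
  intro l hl
  refine hg l ?_
  by_contra h
  refine hl ⟨⟨l.val, Nat.lt_succ_of_le (not_lt.1 h)⟩, ?_⟩
  exact Fin.ext rfl

private theorem VolB_cs (u w : Fin n → ℝ) (M : ℝ) (hu : u ⬝ᵥ u ≤ M) (hw : w ⬝ᵥ w ≤ M) :
    |u ⬝ᵥ w| ≤ M := by
  have h1 : 2 * |u ⬝ᵥ w| ≤ u ⬝ᵥ u + w ⬝ᵥ w := by
    unfold dotProduct
    calc 2 * |∑ i, u i * w i| ≤ 2 * ∑ i, |u i * w i| := by
          have := Finset.abs_sum_le_sum_abs (fun i => u i * w i) Finset.univ
          linarith
      _ = ∑ i, 2 * |u i * w i| := by rw [Finset.mul_sum]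
      _ ≤ ∑ i, (u i * u i + w i * w i) := by
          refine Finset.sum_le_sum fun i _ => ?_
          rw [abs_mul]
          have h2 := mul_self_nonneg (|u i| - |w i|)
          have h3 := abs_mul_abs_self (u i)
          have h4 := abs_mul_abs_self (w i)
          nlinarith
      _ = _ := Finset.sum_add_distrib
  linarith

private theorem VolB_gram (x : Matrix.GeneralLinearGroup (Fin n) ℤ) (j : Fin n)
    (u w : Fin n → ℝ) (hu : ∀ l, j < l → u l = 0) (hw : ∀ l, j < l → w l = 0) :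
    ∑ c : Fin (j.val + 1), ∑ d : Fin (j.val + 1), u (Fin.castLE j.2 c) *
      Gm (j.val + 1) j.2 x c d * w (Fin.castLE j.2 d) =
      (Xr x).mulVec u ⬝ᵥ (Xr x).mulVec w := by
  have h1 : ∀ c : Fin (j.val + 1), ∑ d : Fin (j.val + 1), u (Fin.castLE j.2 c) *
      Gm (j.val + 1) j.2 x c d * w (Fin.castLE j.2 d) =
      ∑ m, u (Fin.castLE j.2 c) * ((Xr x)ᵀ * Xr x) (Fin.castLE j.2 c) m * w m := by
    intro c
    refine VolB_sum j (fun m => u (Fin.castLE j.2 c) *
      ((Xr x)ᵀ * Xr x) (Fin.castLE j.2 c) m * w m) ?_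
    intro l hl
    show u (Fin.castLE j.2 c) * ((Xr x)ᵀ * Xr x) (Fin.castLE j.2 c) l * w l = 0
    rw [hw l hl, mul_zero]
  rw [Finset.sum_congr rfl fun c _ => h1 c]
  rw [VolB_sum j (fun l => ∑ m, u l * ((Xr x)ᵀ * Xr x) l m * w m)]
  · have h2 : (Xr x).mulVec u ⬝ᵥ (Xr x).mulVec w = u ⬝ᵥ ((Xr x)ᵀ * Xr x).mulVec w := by
      rw [← Matrix.mulVec_mulVec, Matrix.dotProduct_mulVec u, Matrix.vecMul_transpose]
    rw [h2]
    unfold dotProduct Matrix.mulVec dotProduct
    refine Finset.sum_congr rfl fun l _ => ?_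
    rw [Finset.mul_sum]
    refine Finset.sum_congr rfl fun m _ => ?_
    rw [mul_assoc]
  · intro l hl
    refine Finset.sum_eq_zero fun m _ => ?_
    rw [hu l hl, zero_mul, zero_mul]

/-- The volume of small simplices is bounded by the weight.

Proof.  Let `σ = [x_0, ..., x_j]`, `x_a = x s_a`, `s_a ∈ T`, `y_a = ov x_a j`, `X = Xr x`,
`J = j + 1`.  Let `Y` be the `J × J` matrix with rows `y_a` (coordinates `≤ j`, the coordinate `j` is
`1`).  It is obtained from the matrix in the definition of `vol j` by a permutation of the columns,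
so `det Y ^ 2 = vol ^ 2` (`Matrix.det_permute'` / `Matrix.det_reindex`... or `vol_mul`-like:
multiplication by a permutation matrix).  Let `E = Y (Gm J x) Yᵀ`; `E a b = (X y_a) · (X y_b)` (the
`y_a` vanish in the coordinates `> j`), and `det E = vol ^ 2 * Dn J x` (`Dn_eq_det`).
`nq X y_a ≤ C nq (Xr x_a) y_a = C rho x_a j ≤ C C' rho x j` (`nq_mul` for `s_a⁻¹`: `x = x_a s_a⁻¹`;
`rho_mul` for `s_a`), so `|E a b| ≤ M := C C' rho x j` by Cauchy-Schwarz, and
`det E ≤ J! M^J` (`Matrix.det_le` or triangle inequality).  With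
`rho x j = Dn J x / Dn j x` (`Dn_succ`) this gives
`vol ^ 2 ≤ J! (C C')^J (Dn J / Dn j)^J / Dn J = J! (C C')^J Dn J ^ j / Dn j ^ J`. -/
theorem vol_le (T : Finset (Matrix.GeneralLinearGroup (Fin n) ℤ)) (j : Fin n) :
    ∃ C : ℝ, 0 ≤ C ∧ ∀ (x : Matrix.GeneralLinearGroup (Fin n) ℤ)
      (σ : List (Matrix.GeneralLinearGroup (Fin n) ℤ)), σ.length = j.val + 1 →
      (∀ y ∈ σ, ∃ s ∈ T, y = x * s) → vc (Psi j) j.val σ ^ 2 ≤ C * Wt j.val x := by
  classical
  choose C1 hC1 hC1' using fun s : Matrix.GeneralLinearGroup (Fin n) ℤ => nq_mul s⁻¹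
  choose C2 hC2 hC2' using fun s : Matrix.GeneralLinearGroup (Fin n) ℤ => rho_mul s
  obtain ⟨K, hK⟩ : ∃ K : ℝ, K = ∑ s ∈ T, C1 s * C2 s := ⟨_, rfl⟩
  have hK0 : 0 ≤ K := by
    rw [hK]
    exact Finset.sum_nonneg fun s _ => (mul_pos (hC1 s) (hC2 s)).le
  have hKle : ∀ s ∈ T, C1 s * C2 s ≤ K := by
    intro s hs
    rw [hK]
    exact Finset.single_le_sum (f := fun s => C1 s * C2 s)
      (fun s _ => (mul_pos (hC1 s) (hC2 s)).le) hs
  refine ⟨(j.val + 1).factorial * K ^ (j.val + 1), by positivity, ?_⟩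
  intro x σ hσ hT
  have hlt : ∀ a : Fin (j.val + 1), a.val < σ.length := fun a => by
    rw [hσ]
    exact a.2
  obtain ⟨y, hy⟩ : ∃ y : Fin (j.val + 1) → Matrix.GeneralLinearGroup (Fin n) ℤ,
      ∀ a, y a = σ[a.val]'(hlt a) := ⟨fun a => σ[a.val]'(hlt a), fun _ => rfl⟩
  have hyT : ∀ a, ∃ s ∈ T, y a = x * s := by
    intro a
    rw [hy]
    exact hT _ (List.getElem_mem _)
  have hzero : ∀ a l, j < l → ov (y a) j l = 0 := fun a => (ov_spec (y a) j).zero
  obtain ⟨Y, hY⟩ : ∃ Y : Matrix (Fin (j.val + 1)) (Fin (j.val + 1)) ℝ,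
      Y = Matrix.of fun a c => ov (y a) j (Fin.castLE j.2 c) := ⟨_, rfl⟩
  have hYd : Y.det ^ 2 = vc (Psi j) j.val σ ^ 2 := by
    obtain ⟨M, hM⟩ : ∃ M : Matrix (Fin (j.val + 1)) (Fin (j.val + 1)) ℝ,
        M = Matrix.of fun a b : Fin (j.val + 1) =>
          row ((σ.map (Psi j)).getD a.1 0) b.1 := ⟨_, rfl⟩
    have h1 : vc (Psi j) j.val σ = M.det := by
      rw [hM]
      rfl
    have h2 : M.submatrix id (finRotate (j.val + 1)) = Y := by
      ext a c
      rw [Matrix.submatrix_apply, hM, hY, Matrix.of_apply, Matrix.of_apply, id,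
        List.getD_eq_getElem _ 0 (by rw [List.length_map, hσ]; exact a.2), List.getElem_map,
        ← hy a]
      rcases lt_or_eq_of_le (Nat.lt_succ_iff.1 c.2) with h4 | h4
      · have h5 : ((finRotate (j.val + 1) c : Fin (j.val + 1)) : ℕ) = c.val + 1 := by
          rw [show c = ⟨c.val, Nat.lt_succ_of_lt h4⟩ from rfl, finRotate_of_lt h4]
        rw [h5, row, if_neg (Nat.succ_ne_zero _), Nat.add_sub_cancel, Psi, dif_pos h4]
        rfl
      · have h5 : c = Fin.last j.val := Fin.ext h4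
        rw [h5, finRotate_last, row, if_pos (Fin.val_zero _)]
        have h6 : Fin.castLE j.2 (Fin.last j.val) = j := Fin.ext rfl
        rw [h6, (ov_spec (y a) j).one]
    rw [h1, ← h2, Matrix.det_permute', mul_pow]
    have h7 : ((Equiv.Perm.sign (finRotate (j.val + 1)) : ℤ) : ℝ) ^ 2 = 1 := by
      have h8 : (Equiv.Perm.sign (finRotate (j.val + 1))) ^ 2 = 1 := Int.units_sq _
      rw [← Int.cast_pow, ← Units.val_pow_eq_pow_val, h8, Units.val_one, Int.cast_one]
    rw [h7, one_mul]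
  have hnq : ∀ a, nq (Xr x) (ov (y a) j) ≤ K * rho x j := by
    intro a
    obtain ⟨s, hs, hya⟩ := hyT a
    have h1 := hC1' s (x * s) (ov (y a) j)
    rw [mul_inv_cancel_right] at h1
    have h2 : nq (Xr (x * s)) (ov (y a) j) = rho (x * s) j := by
      rw [hya]
      rfl
    rw [h2] at h1
    calc nq (Xr x) (ov (y a) j) ≤ C1 s * rho (x * s) j := h1
      _ ≤ C1 s * (C2 s * rho x j) := mul_le_mul_of_nonneg_left (hC2' s x j) (hC1 s).le
      _ = (C1 s * C2 s) * rho x j := by ring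
      _ ≤ K * rho x j := mul_le_mul_of_nonneg_right (hKle s hs) (rho_pos x j).le
  have hE : |(Y * Gm (j.val + 1) j.2 x * Yᵀ).det| ≤
      (j.val + 1).factorial * (K * rho x j) ^ (j.val + 1) := by
    have h1 := Matrix.det_le (abv := (AbsoluteValue.abs : AbsoluteValue ℝ ℝ))
      (A := Y * Gm (j.val + 1) j.2 x * Yᵀ) (x := K * rho x j) (fun a b => by
        show |(Y * Gm (j.val + 1) j.2 x * Yᵀ) a b| ≤ K * rho x j
        have h2 : (Y * Gm (j.val + 1) j.2 x * Yᵀ) a b =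
            (Xr x).mulVec (ov (y a) j) ⬝ᵥ (Xr x).mulVec (ov (y b) j) := by
          rw [← VolB_gram x j _ _ (hzero a) (hzero b), Matrix.mul_assoc, Matrix.mul_apply]
          refine Finset.sum_congr rfl fun c _ => ?_
          rw [Matrix.mul_apply, Finset.mul_sum]
          refine Finset.sum_congr rfl fun d _ => ?_
          rw [hY, Matrix.transpose_apply, Matrix.of_apply, Matrix.of_apply, mul_assoc]
        rw [h2]
        exact VolB_cs _ _ _ (hnq a) (hnq b))
    rw [Fintype.card_fin, nsmul_eq_mul] at h1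
    exact h1
  rw [Matrix.det_mul, Matrix.det_mul, Matrix.det_transpose, ← Dn_eq_det] at hE
  have hD : 0 < Dn (j.val + 1) x := lt_of_lt_of_le one_pos (one_le_Dn _ j.2 x)
  have hd : 0 < Dn j.val x := lt_of_lt_of_le one_pos (one_le_Dn _ j.2.le x)
  have h1 : vc (Psi j) j.val σ ^ 2 * Dn (j.val + 1) x ≤
      (j.val + 1).factorial * (K * rho x j) ^ (j.val + 1) := by
    rw [← hYd]
    refine le_trans (le_of_eq ?_) (le_trans (le_abs_self _) hE)
    ring
  have h2 : (j.val + 1).factorial * K ^ (j.val + 1) * Wt j.val x * Dn (j.val + 1) x =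
      (j.val + 1).factorial * (K * rho x j) ^ (j.val + 1) := by
    have h3 : Wt j.val x * Dn (j.val + 1) x = rho x j ^ (j.val + 1) := by
      rw [Wt, div_mul_eq_mul_div, ← pow_succ, Dn_succ, mul_pow,
        mul_div_cancel_left₀ _ (pow_ne_zero _ hd.ne')]
    rw [mul_assoc, h3, mul_pow, mul_assoc]
  rw [← h2] at h1
  exact le_of_mul_le_mul_right h1 hD

end Pool.Agent.H.MP_e5d137_al.SL
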