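import Mathlib
import Pool.Agent.H.MP_e5d137_al.SL.Tower
import Pool.Agent.H.MP_e5d137_al.SL.VolB

/-!
# The column cochains are bounded
-/

namespace Pool.Agent.H.MP_e5d137_al.SL

/-- Proof.  Induction on `k ≤ n`.  `k = 0`: `C = 1`, empty product.  Step: `j = n - 1 - k`,
`Ac n (k+1) σ = Ac n k (σ.take (dg n k + 1)) * vc (Psi j) j (σ.drop (dg n k))`; the elements of the
two sublists are elements of `σ`; `σ.drop (dg n k)` has length `j + 1`, `vol_le`;
`Ico (n - (k+1)) n = insert j (Ico (n - k) n)`. -/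
theorem Ac_le (n k : ℕ) (hk : k ≤ n) (T : Finset (Matrix.GeneralLinearGroup (Fin n) ℤ)) :
    ∃ C : ℝ, 0 ≤ C ∧ ∀ (x : Matrix.GeneralLinearGroup (Fin n) ℤ)
      (σ : List (Matrix.GeneralLinearGroup (Fin n) ℤ)), σ.length = dg n k + 1 →
      (∀ y ∈ σ, ∃ s ∈ T, y = x * s) → Ac n k σ ^ 2 ≤ C * ∏ j ∈ Finset.Ico (n - k) n, Wt j x := by
  induction k with
  | zero =>
    refine ⟨1, zero_le_one, ?_⟩
    intro x σ _ _
    rw [Nat.sub_zero, Finset.Ico_self, Finset.prod_empty]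
    show (1 : ℝ) ^ 2 ≤ 1 * 1
    norm_num
  | succ k ih =>
    obtain ⟨C, hC, h⟩ := ih (by omega)
    have hkn : k < n := hk
    obtain ⟨D, hD, hv⟩ := vol_le T (⟨n - 1 - k, by omega⟩ : Fin n)
    refine ⟨C * D, mul_nonneg hC hD, ?_⟩
    intro x σ hσ hT
    have hdg : dg n (k + 1) = dg n k + (n - 1 - k) := rfl
    have e1 : Ac n (k + 1) σ = Ac n k (σ.take (dg n k + 1)) *
        vc (Psi (⟨n - 1 - k, by omega⟩ : Fin n)) (n - 1 - k) (σ.drop (dg n k)) := by
      have e2 : Ac n (k + 1) =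
          blk (dg n k) (Ac n k) (Psi (⟨n - 1 - k, by omega⟩ : Fin n)) (n - 1 - k) := by
        show (if h : k < n then _ else _) = _
        rw [dif_pos hkn]
      rw [e2]
      rfl
    have h1 := h x (σ.take (dg n k + 1)) (by rw [List.length_take, hσ, hdg]; omega)
      (fun y hy => hT y (List.mem_of_mem_take hy))
    have h2 := hv x (σ.drop (dg n k))
      (by rw [List.length_drop, hσ, hdg]; show _ = n - 1 - k + 1; omega)
      (fun y hy => hT y (List.mem_of_mem_drop hy))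
    have e3 : ∏ j ∈ Finset.Ico (n - (k + 1)) n, Wt j x =
        Wt (n - 1 - k) x * ∏ j ∈ Finset.Ico (n - k) n, Wt j x := by
      rw [Finset.prod_eq_prod_Ico_succ_bot (by omega)]
      have e4 : n - (k + 1) = n - 1 - k := by omega
      have e5 : n - (k + 1) + 1 = n - k := by omega
      rw [e5, e4]
    rw [e1, e3, mul_pow]
    refine le_trans (mul_le_mul h1 h2 (sq_nonneg _) (mul_nonneg hC ?_)) (le_of_eq ?_)
    · refine Finset.prod_nonneg fun j hj => (Wt_pos j (Finset.mem_Ico.1 hj).2 x).le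
    · show C * _ * (D * Wt (n - 1 - k) x) = _
      ring

/-- `Ac_le` and `prod_Wt_le`. -/
theorem Ac_bdd (n k : ℕ) (hk : k ≤ n) (T : Finset (Matrix.GeneralLinearGroup (Fin n) ℤ)) :
    ∃ C : ℝ, ∀ (x : Matrix.GeneralLinearGroup (Fin n) ℤ)
      (σ : List (Matrix.GeneralLinearGroup (Fin n) ℤ)), σ.length = dg n k + 1 →
      (∀ y ∈ σ, ∃ s ∈ T, y = x * s) → |Ac n k σ| ≤ C := by
  obtain ⟨C, hC, h⟩ := Ac_le n k hk T
  refine ⟨Real.sqrt C, ?_⟩
  intro x σ hσ hT
  apply Real.abs_le_sqrt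
  have h1 := h x σ hσ hT
  have h2 := prod_Wt_le (n - k) (Nat.sub_le n k) x
  have h3 := mul_le_mul_of_nonneg_left h2 hC
  linarith

end Pool.Agent.H.MP_e5d137_al.SL
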