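import Mathlib

/-!
# Real roots of `∏ (x - 3 i) = 1`
-/

namespace Pool.Agent.H.MP_e5d137_al.SL

/-- One root, near `3 l`. -/
theorem Roots_one (b : ℕ) (hb : 2 ≤ b) (l : Fin b) : ∃ α : ℝ,
    ∏ i : Fin b, (α - 3 * (i.val : ℝ)) = 1 ∧ |α - 3 * (l.val : ℝ)| < 1 := by
  classical
  set P : ℝ → ℝ := fun x => ∏ i : Fin b, (x - 3 * (i.val : ℝ)) with hP
  have hcont : Continuous P := by
    rw [hP]
    fun_prop
  set c : Fin b → ℝ := fun i => if i < l then 1 else -1 with hc
  set s : ℝ := ∏ i ∈ Finset.univ.erase l, c i with hs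
  have hc1 : ∀ i, c i = 1 ∨ c i = -1 := by
    intro i
    simp only [hc]
    split_ifs
    · exact Or.inl rfl
    · exact Or.inr rfl
  have hs1 : s = 1 ∨ s = -1 := by
    rw [hs]
    refine Finset.prod_induction _ (fun x : ℝ => x = 1 ∨ x = -1) ?_ (Or.inl rfl)
      fun i _ => hc1 i
    rintro x y (rfl | rfl) (rfl | rfl) <;> norm_num
  -- the value at the centre
  have h0 : P (3 * (l.val : ℝ)) = 0 := by
    rw [hP]
    exact Finset.prod_eq_zero (Finset.mem_univ l) (sub_self _)
  -- the value at the end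
  have h2 : 2 ≤ P (3 * (l.val : ℝ) + s) := by
    have e1 : P (3 * (l.val : ℝ) + s) =
        ∏ i ∈ Finset.univ.erase l, (c i * (3 * (l.val : ℝ) + s - 3 * (i.val : ℝ))) := by
      rw [hP]
      simp only
      rw [← Finset.mul_prod_erase Finset.univ _ (Finset.mem_univ l), Finset.prod_mul_distrib, ← hs]
      congr 1
      ring
    have h3 : ∀ i ∈ Finset.univ.erase l,
        (2 : ℝ) ≤ c i * (3 * (l.val : ℝ) + s - 3 * (i.val : ℝ)) := by
      intro i hi
      have hne : i ≠ l := Finset.ne_of_mem_erase hi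
      have hsl : -1 ≤ s ∧ s ≤ 1 := by
        rcases hs1 with h | h <;> rw [h] <;> norm_num
      simp only [hc]
      split_ifs with h
      · have h4 : (i.val : ℝ) + 1 ≤ l.val := by exact_mod_cast (Fin.lt_def.1 h)
        linarith [hsl.1]
      · have h5 : l < i := lt_of_le_of_ne (not_lt.1 h) (Ne.symm hne)
        have h4 : (l.val : ℝ) + 1 ≤ i.val := by exact_mod_cast (Fin.lt_def.1 h5)
        linarith [hsl.2]
    rw [e1]
    calc (2 : ℝ) = 2 ^ 1 := (pow_one 2).symm
      _ ≤ 2 ^ (Finset.univ.erase l).card := by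
          refine pow_le_pow_right₀ one_le_two ?_
          rw [Finset.card_erase_of_mem (Finset.mem_univ l), Finset.card_univ, Fintype.card_fin]
          omega
      _ = ∏ i ∈ Finset.univ.erase l, (2 : ℝ) := by rw [Finset.prod_const]
      _ ≤ _ := Finset.prod_le_prod (fun i _ => by norm_num) h3
  have h6 := intermediate_value_uIcc (a := 3 * (l.val : ℝ)) (b := 3 * (l.val : ℝ) + s)
    hcont.continuousOn
  have h7 : (1 : ℝ) ∈ Set.uIcc (P (3 * (l.val : ℝ))) (P (3 * (l.val : ℝ) + s)) := by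
    rw [h0, Set.uIcc_of_le (by linarith)]
    exact ⟨zero_le_one, by linarith⟩
  obtain ⟨α, hα, hα1⟩ := h6 h7
  refine ⟨α, hα1, ?_⟩
  have hne : α ≠ 3 * (l.val : ℝ) + s := by
    rintro rfl
    rw [hα1] at h2
    norm_num at h2
  rcases hs1 with h | h
  · rw [h] at hα hne
    rw [Set.uIcc_of_le (by linarith)] at hα
    have h8 := lt_of_le_of_ne hα.2 hne
    rw [abs_lt]
    constructor <;> linarith [hα.1]
  · rw [h] at hα hne
    rw [Set.uIcc_of_ge (by linarith)] at hα
    have h8 := lt_of_le_of_ne hα.1 (Ne.symm hne)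
    rw [abs_lt]
    constructor <;> linarith [hα.2]

/-- Proof.  Let `P x = ∏ i : Fin b, (x - 3 i)` (continuous).  Fix `l`.  On the open intervals
`(3l, 3l + 1)` and `(3l - 1, 3l)` `P` has no zero, and it has opposite signs on them (only the factor
`x - 3 l` changes its sign).  More precisely `P (3l + 1) = Q₊` and `P (3l - 1) = - Q₋` with
`Q± = ∏_{i ≠ l} (3l ± 1 - 3i)`, of absolute value at least `2^(b-1) ≥ 2`, and `Q₊`, `Q₋` have the same
sign (each factor has the sign of `l - i`).  So one of `P (3l+1)`, `P (3l-1)` is at least `2 > 1`,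
and `P (3l) = 0 < 1`; intermediate value theorem.  (The root is not an end point as `P` is `0` and
`≥ 2` there.) -/
theorem exists_roots (b : ℕ) (hb : 2 ≤ b) : ∃ α : Fin b → ℝ,
    (∀ l, ∏ i : Fin b, (α l - 3 * (i.val : ℝ)) = 1) ∧
    (∀ l, |α l - 3 * (l.val : ℝ)| < 1) := by
  choose α h1 h2 using Roots_one b hb
  exact ⟨α, h1, h2⟩

end Pool.Agent.H.MP_e5d137_al.SL
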