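import Mathlib
import Pool.Agent.H.MP_e5d137_al.SL.Roots
import Pool.Agent.H.MP_e5d137_al.SL.Orth

/-!
# Commuting integral matrices of determinant one with independent logarithms
-/

namespace Pool.Agent.H.MP_e5d137_al.SL

open Matrix

/-- the matrix with the rows `3 k e_k + e_(k+1 mod b)` -/
def Am (b : ℕ) : Matrix (Fin b) (Fin b) ℤ :=
  Matrix.of fun k l => (if l = k then 3 * (k.val : ℤ) else 0) +
    if l.val = (k.val + 1) % b then 1 else 0

open Polynomial in
/-- the product of the first `k` factors -/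
private noncomputable def Units_W (k : ℕ) : Polynomial ℤ :=
  ∏ i ∈ Finset.range k, (X - C (3 * (i : ℤ)))

private theorem Units_aeval (b : ℕ) (c : ℤ) :
    Polynomial.aeval (Am b) (Polynomial.X - Polynomial.C c) = Am b - c • (1 : Matrix _ _ ℤ) := by
  rw [map_sub, Polynomial.aeval_X, Polynomial.aeval_C, Algebra.algebraMap_eq_smul_one]

/-- the action of a factor on a row vector -/
private theorem Units_row (b : ℕ) (k l : Fin b) :
    (Pi.single k (1 : ℤ) ᵥ* (Am b - (3 * (k.val : ℤ)) • (1 : Matrix (Fin b) (Fin b) ℤ))) l =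
      if l.val = (k.val + 1) % b then 1 else 0 := by
  rw [Matrix.single_one_vecMul]
  show (Am b - (3 * (k.val : ℤ)) • (1 : Matrix (Fin b) (Fin b) ℤ)) k l = _
  rw [Matrix.sub_apply, Matrix.smul_apply, Am, Matrix.of_apply, smul_eq_mul]
  by_cases h : l = k
  · rw [if_pos h, h, Matrix.one_apply_eq]
    ring
  · rw [if_neg h, Matrix.one_apply_ne (Ne.symm h)]
    ring

private theorem Units_row_W (b : ℕ) (hb : 2 ≤ b) (k : ℕ) (hk : k ≤ b) (l : Fin b) :
    (Pi.single (⟨0, by omega⟩ : Fin b) (1 : ℤ) ᵥ* Polynomial.aeval (Am b) (Units_W k)) l =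
      if l.val = k % b then 1 else 0 := by
  induction k generalizing l with
  | zero =>
    rw [Units_W, Finset.prod_range_zero, map_one, Matrix.vecMul_one, Nat.zero_mod]
    by_cases h : l.val = 0
    · rw [if_pos h]
      have h1 : l = ⟨0, by omega⟩ := Fin.ext h
      rw [h1, Pi.single_eq_same]
    · rw [if_neg h]
      exact Pi.single_eq_of_ne (fun h1 => h (by rw [h1])) 1
  | succ k ih =>
    have hk' : k < b := by omega
    have h1 : Pi.single (⟨0, by omega⟩ : Fin b) (1 : ℤ) ᵥ* Polynomial.aeval (Am b) (Units_W k) =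
        Pi.single (⟨k, hk'⟩ : Fin b) (1 : ℤ) := by
      funext l
      rw [ih hk'.le l, Nat.mod_eq_of_lt hk']
      by_cases h : l.val = k
      · rw [if_pos h]
        have h2 : l = ⟨k, hk'⟩ := Fin.ext h
        rw [h2, Pi.single_eq_same]
      · have hne : l ≠ ⟨k, hk'⟩ := fun h2 => h (congrArg Fin.val h2)
        rw [if_neg h, Pi.single_eq_of_ne hne]
    have h2 : Units_W (k + 1) = Units_W k * (Polynomial.X - Polynomial.C (3 * (k : ℤ))) := by
      rw [Units_W, Finset.prod_range_succ]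
      rfl
    rw [h2, map_mul, ← Matrix.vecMul_vecMul, h1, Units_aeval]
    exact Units_row b ⟨k, hk'⟩ l

/-- Proof.  With `e_k` the row vectors, `e_k (A - 3k) = e_(k+1)` (indices mod `b`).  The matrices
`A - 3 i = Polynomial.aeval A (X - C (3 i))` commute.  So `e_0 ∏_{i<k} (A - 3i) = e_k`, and with
`W = ∏_{i<b} (A - 3i)`: `e_0 W = e_0`, `e_k W = e_0 ∏_{i<k} (A - 3i) W = e_0 W ∏_{i<k} (A - 3i) = e_k`.
So `W = 1`.  Work in `Polynomial ℤ`: `W = aeval A (∏ i, (X - C (3 i)))`. -/
theorem aeval_Am (b : ℕ) (hb : 2 ≤ b) :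
    Polynomial.aeval (Am b) (∏ i : Fin b, (Polynomial.X - Polynomial.C (3 * (i.val : ℤ)))) = 1 := by
  have h0 : (∏ i : Fin b, (Polynomial.X - Polynomial.C (3 * (i.val : ℤ)))) = Units_W b := by
    rw [Units_W, ← Fin.prod_univ_eq_prod_range
      (fun i : ℕ => (Polynomial.X - Polynomial.C (3 * (i : ℤ)) : Polynomial ℤ)) b]
  have hrow : ∀ k : Fin b, Pi.single (⟨0, by omega⟩ : Fin b) (1 : ℤ) ᵥ*
      Polynomial.aeval (Am b) (Units_W k.val) = Pi.single k (1 : ℤ) := by
    intro k
    funext l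
    rw [Units_row_W b hb k.val k.2.le l, Nat.mod_eq_of_lt k.2]
    by_cases h : l = k
    · rw [if_pos (by rw [h]), h, Pi.single_eq_same]
    · rw [if_neg fun h1 => h (Fin.ext h1), Pi.single_eq_of_ne h]
  have hW : Pi.single (⟨0, by omega⟩ : Fin b) (1 : ℤ) ᵥ* Polynomial.aeval (Am b) (Units_W b) =
      Pi.single (⟨0, by omega⟩ : Fin b) (1 : ℤ) := by
    funext l
    rw [Units_row_W b hb b le_rfl l, Nat.mod_self]
    by_cases h : l = ⟨0, by omega⟩
    · rw [if_pos (by rw [h]), h, Pi.single_eq_same]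
    · rw [if_neg fun h1 => h (Fin.ext h1), Pi.single_eq_of_ne h]
  rw [h0]
  ext k l
  have h1 : Pi.single k (1 : ℤ) ᵥ* Polynomial.aeval (Am b) (Units_W b) = Pi.single k (1 : ℤ) := by
    rw [← hrow k, Matrix.vecMul_vecMul, ← map_mul, mul_comm, map_mul, ← Matrix.vecMul_vecMul, hW]
  have h2 := congrFun h1 l
  rw [Matrix.single_one_vecMul] at h2
  rw [Matrix.one_apply]
  have h3 : Polynomial.aeval (Am b) (Units_W b) k l = (Pi.single k (1 : ℤ) : Fin b → ℤ) l := h2
  rw [h3]
  by_cases h : l = k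
  · rw [h, Pi.single_eq_same, if_pos rfl]
  · rw [Pi.single_eq_of_ne h, if_neg (Ne.symm h)]

/-- Eigenvector: `v k = ∏_{i<k} (α - 3i)`; `(A v) k = 3 k v k + v (k+1) = α v k` for `k + 1 < b`, and
for `k = b - 1` use `(α - 3(b-1)) v (b-1) = 1 = v 0`. -/
theorem Am_eigen (b : ℕ) (hb : 2 ≤ b) (α : ℝ) (hα : ∏ i : Fin b, (α - 3 * (i.val : ℝ)) = 1) :
    ∃ v : Fin b → ℝ, v ≠ 0 ∧ ((Am b).map (Int.cast : ℤ → ℝ)).mulVec v = α • v := by
  have hprod : ∏ i ∈ Finset.range b, (α - 3 * (i : ℝ)) = 1 := by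
    rw [← Fin.prod_univ_eq_prod_range (fun i : ℕ => α - 3 * (i : ℝ)) b]
    exact hα
  have hstep : ∀ k, k < b → ∏ i ∈ Finset.range ((k + 1) % b), (α - 3 * (i : ℝ)) =
      (∏ i ∈ Finset.range k, (α - 3 * (i : ℝ))) * (α - 3 * (k : ℝ)) := by
    intro k hk
    rw [← Finset.prod_range_succ]
    rcases Nat.lt_or_ge (k + 1) b with h | h
    · rw [Nat.mod_eq_of_lt h]
    · have h1 : k + 1 = b := by omega
      rw [h1, Nat.mod_self, Finset.prod_range_zero, hprod]
  refine ⟨fun k => ∏ i ∈ Finset.range k.val, (α - 3 * (i : ℝ)), ?_, ?_⟩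
  · intro h
    have h1 := congrFun h ⟨0, by omega⟩
    simp at h1
  · funext k
    have hlt : (k.val + 1) % b < b := Nat.mod_lt _ (by omega)
    have h1 : ∀ l : Fin b, ((Am b).map (Int.cast : ℤ → ℝ)) k l *
        (∏ i ∈ Finset.range l.val, (α - 3 * (i : ℝ))) =
        (if l = k then 3 * (k.val : ℝ) * ∏ i ∈ Finset.range k.val, (α - 3 * (i : ℝ)) else 0) +
        (if l = ⟨(k.val + 1) % b, hlt⟩ then
          ∏ i ∈ Finset.range ((k.val + 1) % b), (α - 3 * (i : ℝ)) else 0) := by
      intro l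
      rw [Matrix.map_apply, Am, Matrix.of_apply]
      by_cases h2 : l = k
      · by_cases h3 : l.val = (k.val + 1) % b
        · rw [if_pos h2, if_pos h3, if_pos h2, if_pos (Fin.ext h3), ← h3, h2]
          push_cast
          ring
        · rw [if_pos h2, if_neg h3, if_pos h2, if_neg fun h4 => h3 (by rw [h4]), h2]
          push_cast
          ring
      · by_cases h3 : l.val = (k.val + 1) % b
        · rw [if_neg h2, if_pos h3, if_neg h2, if_pos (Fin.ext h3), ← h3]
          push_cast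
          ring
        · rw [if_neg h2, if_neg h3, if_neg h2, if_neg fun h4 => h3 (by rw [h4])]
          push_cast
          ring
    show ∑ l, ((Am b).map (Int.cast : ℤ → ℝ)) k l *
        (∏ i ∈ Finset.range l.val, (α - 3 * (i : ℝ))) =
      α * ∏ i ∈ Finset.range k.val, (α - 3 * (i : ℝ))
    rw [Finset.sum_congr rfl fun l _ => h1 l, Finset.sum_add_distrib, Finset.sum_ite_eq',
      if_pos (Finset.mem_univ _), Finset.sum_ite_eq', if_pos (Finset.mem_univ _), hstep k.val k.2]
    ring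

/-- the real matrix of a factor acts on the eigenvector -/
private theorem Units_act {b : ℕ} {α : ℝ} {v : Fin b → ℝ} (c : ℤ)
    (hv : ((Am b).map (Int.cast : ℤ → ℝ)).mulVec v = α • v) :
    ((Am b - c • (1 : Matrix (Fin b) (Fin b) ℤ)).map (Int.cast : ℤ → ℝ)).mulVec v =
      (α - (c : ℝ)) • v := by
  have h1 : (Am b - c • (1 : Matrix (Fin b) (Fin b) ℤ)).map (Int.cast : ℤ → ℝ) =
      (Am b).map (Int.cast : ℤ → ℝ) - (c : ℝ) • (1 : Matrix (Fin b) (Fin b) ℝ) := by
    ext i j
    rw [Matrix.map_apply, Matrix.sub_apply, Matrix.smul_apply, Matrix.sub_apply,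
      Matrix.smul_apply, Matrix.map_apply, smul_eq_mul, smul_eq_mul, Int.cast_sub, Int.cast_mul,
      Matrix.one_apply, Matrix.one_apply]
    split_ifs <;> simp
  rw [h1, Matrix.sub_mulVec, hv, Matrix.smul_mulVec, Matrix.one_mulVec, sub_smul]

/-- Proof.  `U i` is the square of the unit `A - 3 i` (its inverse is the product of the other
factors, `aeval_Am`), its determinant is the square of a unit of `ℤ`, so `1`.  `v l` is the
eigenvector of `Am_eigen` for the root `α l` of `exists_roots`, and `lam i l = (α l - 3 i)^2`.  For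
`i ≠ l`: `|α l - 3 i| ≥ 3 |l - i| - 1 ≥ 2`.  The product over `i` is `1`. -/
theorem units (b : ℕ) (hb : 2 ≤ b) : ∃ (U : Fin b → Matrix.GeneralLinearGroup (Fin b) ℤ)
    (v : Fin b → Fin b → ℝ) (lam : Fin b → Fin b → ℝ),
    (∀ i j, U i * U j = U j * U i) ∧
    (∀ i, ((U i : Matrix.GeneralLinearGroup (Fin b) ℤ) : Matrix (Fin b) (Fin b) ℤ).det = 1) ∧
    (∀ l, v l ≠ 0) ∧ (∀ i l, (Mr (U i)).mulVec (v l) = lam i l • v l) ∧
    (∀ i l, 0 < lam i l) ∧ (∀ i l, i ≠ l → 1 < lam i l) ∧ (∀ l, ∏ i, lam i l = 1) := by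
  classical
  obtain ⟨α, hα1, hα2⟩ := exists_roots b hb
  choose v hv0 hv using fun l => Am_eigen b hb (α l) (hα1 l)
  have hW := aeval_Am b hb
  have hinv : ∀ i : Fin b,
      Polynomial.aeval (Am b) (Polynomial.X - Polynomial.C (3 * (i.val : ℤ))) *
        Polynomial.aeval (Am b) (∏ j ∈ Finset.univ.erase i,
          (Polynomial.X - Polynomial.C (3 * (j.val : ℤ)))) = 1 := by
    intro i
    rw [← map_mul, Finset.mul_prod_erase Finset.univ
      (fun j : Fin b => (Polynomial.X - Polynomial.C (3 * (j.val : ℤ)) : Polynomial ℤ))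
      (Finset.mem_univ i)]
    exact hW
  have hinv' : ∀ i : Fin b,
      Polynomial.aeval (Am b) (∏ j ∈ Finset.univ.erase i,
          (Polynomial.X - Polynomial.C (3 * (j.val : ℤ)))) *
        Polynomial.aeval (Am b) (Polynomial.X - Polynomial.C (3 * (i.val : ℤ))) = 1 := by
    intro i
    rw [← map_mul, mul_comm, map_mul]
    exact hinv i
  let G : Fin b → Matrix.GeneralLinearGroup (Fin b) ℤ := fun i => ⟨_, _, hinv i, hinv' i⟩
  have hG : ∀ i, ((G i : Matrix.GeneralLinearGroup (Fin b) ℤ) : Matrix (Fin b) (Fin b) ℤ) =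
      Polynomial.aeval (Am b) (Polynomial.X - Polynomial.C (3 * (i.val : ℤ))) := fun i => rfl
  have hcomm : ∀ i j, G i * G j = G j * G i := by
    intro i j
    apply Units.ext
    rw [Units.val_mul, Units.val_mul, hG, hG, ← map_mul, mul_comm, map_mul]
  have hne : ∀ i l : Fin b, α l - 3 * (i.val : ℝ) ≠ 0 := by
    intro i l h
    have h1 := hα1 l
    rw [Finset.prod_eq_zero (Finset.mem_univ i) h] at h1
    exact zero_ne_one h1
  refine ⟨fun i => G i * G i, v, fun i l => (α l - 3 * (i.val : ℝ)) ^ 2, ?_, ?_, hv0, ?_, ?_, ?_,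
    ?_⟩
  · intro i j
    have h1 : Commute (G i) (G j) := hcomm i j
    exact ((h1.mul_left h1).mul_right (h1.mul_left h1)).eq
  · intro i
    rw [Units.val_mul, Matrix.det_mul]
    have h1 : IsUnit ((G i : Matrix.GeneralLinearGroup (Fin b) ℤ) :
        Matrix (Fin b) (Fin b) ℤ).det := (Matrix.isUnit_iff_isUnit_det _).1 (G i).isUnit
    rcases Int.isUnit_iff.1 h1 with h2 | h2
    · rw [h2]; norm_num
    · rw [h2]; norm_num
  · intro i l
    have h1 : (Mr (G i)).mulVec (v l) = (α l - 3 * (i.val : ℝ)) • v l := by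
      have h2 := Units_act (3 * (i.val : ℤ)) (hv l)
      rw [← Units_aeval, ← hG] at h2
      rw [Mr, h2]
      push_cast
      rfl
    rw [Mr_mul, ← Matrix.mulVec_mulVec, h1, Matrix.mulVec_smul, h1, smul_smul, ← pow_two]
  · intro i l
    have h := hne i l
    positivity
  · intro i l hil
    have h1 := hα2 l
    rw [abs_lt] at h1
    have h2 : i.val ≠ l.val := fun h => hil (Fin.ext h)
    show 1 < (α l - 3 * (i.val : ℝ)) ^ 2
    rcases Nat.lt_or_gt_of_ne h2 with h3 | h3
    · have h4 : (i.val : ℝ) + 1 ≤ l.val := by exact_mod_cast h3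
      nlinarith
    · have h4 : (l.val : ℝ) + 1 ≤ i.val := by exact_mod_cast h3
      nlinarith
  · intro l
    rw [Finset.prod_pow, hα1 l, one_pow]

/-- Proof.  Fix a column `l < r`.  `Σ_i log (lam i l) = 0` over all `i : Fin b`, and the terms with
`i ≠ l` are positive; at least one of them has `i ≥ r`.  So
`|log (lam l l)| = Σ_{i ≠ l} log (lam i l) > Σ_{i ≠ l, i < r} |log (lam i l)|`:
`det_ne_zero_of_sum_col_lt_diag` (Gershgorin). -/
theorem log_det (b r : ℕ) (hr : r < b) (lam : Fin b → Fin b → ℝ) (h1 : ∀ i l, 0 < lam i l)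
    (h2 : ∀ i l, i ≠ l → 1 < lam i l) (h3 : ∀ l, ∏ i, lam i l = 1) :
    (Matrix.of fun i l : Fin r =>
      Real.log (lam (Fin.castLE hr.le i) (Fin.castLE hr.le l))).det ≠ 0 := by
  classical
  refine det_ne_zero_of_sum_col_lt_diag fun l => ?_
  simp only [Matrix.of_apply, Real.norm_eq_abs]
  obtain ⟨l', hl'⟩ : ∃ l', l' = Fin.castLE hr.le l := ⟨_, rfl⟩
  rw [← hl']
  have hpos : ∀ i, i ≠ l' → 0 < Real.log (lam i l') := fun i hi => Real.log_pos (h2 i l' hi)
  have hsum : ∑ i, Real.log (lam i l') = 0 := by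
    rw [← Real.log_prod fun i _ => (h1 i l').ne', h3 l', Real.log_one]
  have hdiag : |Real.log (lam l' l')| = ∑ i ∈ Finset.univ.erase l', Real.log (lam i l') := by
    have h4 := Finset.add_sum_erase Finset.univ (fun i => Real.log (lam i l')) (Finset.mem_univ l')
    rw [hsum] at h4
    have h5 : 0 ≤ ∑ i ∈ Finset.univ.erase l', Real.log (lam i l') :=
      Finset.sum_nonneg fun i hi => (hpos i (Finset.ne_of_mem_erase hi)).le
    have h6 : Real.log (lam l' l') = -∑ i ∈ Finset.univ.erase l', Real.log (lam i l') := by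
      have h7 : Real.log (lam l' l') + ∑ i ∈ Finset.univ.erase l', Real.log (lam i l') = 0 := h4
      linarith
    rw [h6, abs_neg, abs_of_nonneg h5]
  rw [hdiag]
  have hinj : Function.Injective (Fin.castLE hr.le) := Fin.castLE_injective hr.le
  have himg : ∑ i ∈ Finset.univ.erase l, |Real.log (lam (Fin.castLE hr.le i) l')| =
      ∑ i ∈ (Finset.univ.erase l).image (Fin.castLE hr.le), Real.log (lam i l') := by
    rw [Finset.sum_image fun a _ b _ h => hinj h]
    refine Finset.sum_congr rfl fun i hi => ?_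
    have h4 : Fin.castLE hr.le i ≠ l' := by
      rw [hl']
      exact fun h => Finset.ne_of_mem_erase hi (hinj h)
    exact abs_of_pos (hpos _ h4)
  rw [himg]
  refine Finset.sum_lt_sum_of_subset (i := (⟨r, hr⟩ : Fin b)) ?_ ?_ ?_ ?_ ?_
  · intro i hi
    obtain ⟨j, hj, rfl⟩ := Finset.mem_image.1 hi
    refine Finset.mem_erase.2 ⟨?_, Finset.mem_univ _⟩
    rw [hl']
    exact fun h => Finset.ne_of_mem_erase hj (hinj h)
  · refine Finset.mem_erase.2 ⟨?_, Finset.mem_univ _⟩
    rw [hl']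
    intro h
    have h4 : r = l.val := congrArg Fin.val h
    have h5 := l.2
    omega
  · intro hmem
    obtain ⟨j, -, hj⟩ := Finset.mem_image.1 hmem
    have h4 : j.val = r := congrArg Fin.val hj
    have h5 := j.2
    omega
  · refine hpos _ ?_
    rw [hl']
    intro h
    have h4 : r = l.val := congrArg Fin.val h
    have h5 := l.2
    omega
  · intro i hi _
    exact (hpos i (Finset.ne_of_mem_erase hi)).le

end Pool.Agent.H.MP_e5d137_al.SL
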