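import Mathlib
import Pool.Agent.H.MP_e5d137_al.SL.Units
import Pool.Agent.H.MP_e5d137_al.SL.ColM

/-!
# The torus block
-/

namespace Pool.Agent.H.MP_e5d137_al.SL

open Matrix

/-- the block matrix `[[A, 0], [0, 1]]` -/
def Torus_E (n b : ℕ) (A : Matrix (Fin b) (Fin b) ℤ) : Matrix (Fin n) (Fin n) ℤ :=
  Matrix.of fun i l => if h : i.val < b ∧ l.val < b then A ⟨i.val, h.1⟩ ⟨l.val, h.2⟩ else
    if i = l then 1 else 0

theorem Torus_E_row (n b : ℕ) (A : Matrix (Fin b) (Fin b) ℤ) (i l : Fin n) (hi : b ≤ i.val) :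
    Torus_E n b A i l = if i = l then 1 else 0 := by
  unfold Torus_E
  rw [Matrix.of_apply, dif_neg (by omega)]

theorem Torus_E_col (n b : ℕ) (A : Matrix (Fin b) (Fin b) ℤ) (i l : Fin n) (hl : b ≤ l.val) :
    Torus_E n b A i l = if i = l then 1 else 0 := by
  unfold Torus_E
  rw [Matrix.of_apply, dif_neg (by omega)]

theorem Torus_E_low (n b : ℕ) (hb : b ≤ n) (A : Matrix (Fin b) (Fin b) ℤ) (i l : Fin b) :
    Torus_E n b A (Fin.castLE hb i) (Fin.castLE hb l) = A i l := by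
  unfold Torus_E
  rw [Matrix.of_apply, dif_pos ⟨i.2, l.2⟩]
  rfl

theorem Torus_E_blocks (b c : ℕ) (A : Matrix (Fin b) (Fin b) ℤ) :
    (Torus_E (b + c) b A).submatrix finSumFinEquiv finSumFinEquiv =
      Matrix.fromBlocks A 0 0 (1 : Matrix (Fin c) (Fin c) ℤ) := by
  ext i l
  rcases i with i | i
  · rcases l with l | l
    · rw [Matrix.submatrix_apply, Matrix.fromBlocks_apply₁₁]
      exact Torus_E_low (b + c) b (Nat.le_add_right b c) A i l
    · rw [Matrix.submatrix_apply, Matrix.fromBlocks_apply₁₂, Torus_E_col _ _ _ _ _ (by simp),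
        if_neg, Matrix.zero_apply]
      intro h
      have h1 := congrArg Fin.val h
      simp at h1
      have := i.2
      omega
  · rcases l with l | l
    · rw [Matrix.submatrix_apply, Matrix.fromBlocks_apply₂₁, Torus_E_row _ _ _ _ _ (by simp),
        if_neg, Matrix.zero_apply]
      intro h
      have h1 := congrArg Fin.val h
      simp at h1
      have := l.2
      omega
    · rw [Matrix.submatrix_apply, Matrix.fromBlocks_apply₂₂, Torus_E_row _ _ _ _ _ (by simp),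
        Matrix.one_apply]
      simp

theorem Torus_E_det (n b : ℕ) (hb : b ≤ n) (A : Matrix (Fin b) (Fin b) ℤ) :
    (Torus_E n b A).det = A.det := by
  obtain ⟨c, rfl⟩ := Nat.exists_eq_add_of_le hb
  rw [← Matrix.det_submatrix_equiv_self finSumFinEquiv, Torus_E_blocks,
    Matrix.det_fromBlocks_zero₂₁, Matrix.det_one, mul_one]

theorem Torus_E_one (n b : ℕ) : Torus_E n b 1 = 1 := by
  ext i l
  unfold Torus_E
  rw [Matrix.of_apply, Matrix.one_apply]
  split_ifs with h1 h2 h2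
  · subst h2
    rw [Matrix.one_apply, if_pos rfl]
  · rw [Matrix.one_apply, if_neg]
    intro h
    rw [Fin.mk.injEq] at h
    exact h2 (Fin.ext h)
  · rfl
  · rfl

theorem Torus_E_mul (n b : ℕ) (hb : b ≤ n) (A B : Matrix (Fin b) (Fin b) ℤ) :
    Torus_E n b (A * B) = Torus_E n b A * Torus_E n b B := by
  obtain ⟨c, rfl⟩ := Nat.exists_eq_add_of_le hb
  have h : (Torus_E (b + c) b (A * B)).submatrix finSumFinEquiv finSumFinEquiv =
      (Torus_E (b + c) b A * Torus_E (b + c) b B).submatrix finSumFinEquiv finSumFinEquiv := by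
    rw [← Matrix.submatrix_mul_equiv _ _ finSumFinEquiv finSumFinEquiv finSumFinEquiv,
      Torus_E_blocks, Torus_E_blocks, Torus_E_blocks, Matrix.fromBlocks_multiply]
    simp
  have h2 := congrArg (fun M => M.submatrix finSumFinEquiv.symm finSumFinEquiv.symm) h
  simpa only [Matrix.submatrix_submatrix, Equiv.self_comp_symm, Matrix.submatrix_id_id] using h2

/-- the block embedding -/
def Torus_phi (n b : ℕ) (hb : b ≤ n) :
    Matrix.GeneralLinearGroup (Fin b) ℤ →* Matrix.GeneralLinearGroup (Fin n) ℤ :=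
  Units.map
    { toFun := Torus_E n b
      map_one' := Torus_E_one n b
      map_mul' := Torus_E_mul n b hb }

theorem Torus_phi_val (n b : ℕ) (hb : b ≤ n) (g : Matrix.GeneralLinearGroup (Fin b) ℤ) :
    ((Torus_phi n b hb g : Matrix.GeneralLinearGroup (Fin n) ℤ) : Matrix (Fin n) (Fin n) ℤ) =
      Torus_E n b (g : Matrix (Fin b) (Fin b) ℤ) := rfl

theorem Torus_Up (n b : ℕ) (h : Matrix.GeneralLinearGroup (Fin n) ℤ) (hr : Rid b h) (j : Fin n)
    (hj : b ≤ j.val) : Up j h := by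
  refine ⟨?_, ?_, ?_⟩
  · intro i l hl hi
    rw [hr i l (hj.trans hi), if_neg]
    rintro rfl
    exact absurd hl (not_lt.2 hi)
  · intro i hi
    rw [hr i j (hj.trans hi.le), if_neg hi.ne']
  · rw [hr j j hj, if_pos rfl]

/-- Block embedding.  `emb g = [[g, 0], [0, 1]]` (e.g. defined by entries, or `Matrix.fromBlocks` and
`Matrix.reindex`). -/
theorem exists_emb (n b : ℕ) (hb : b ≤ n) :
    ∃ φ : Matrix.GeneralLinearGroup (Fin b) ℤ →* Matrix.GeneralLinearGroup (Fin n) ℤ,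
      (∀ g, Rid b (φ g)) ∧
      (∀ g : Matrix.GeneralLinearGroup (Fin b) ℤ, ∀ i l : Fin n, b ≤ l.val →
        ((φ g : Matrix.GeneralLinearGroup (Fin n) ℤ) : Matrix (Fin n) (Fin n) ℤ) i l =
          if i = l then 1 else 0) ∧
      (∀ g : Matrix.GeneralLinearGroup (Fin b) ℤ, ∀ i l : Fin b, ((φ g : Matrix.GeneralLinearGroup (Fin n) ℤ) :
        Matrix (Fin n) (Fin n) ℤ) (Fin.castLE hb i) (Fin.castLE hb l) =
          (g : Matrix (Fin b) (Fin b) ℤ) i l) ∧
      (∀ g : Matrix.GeneralLinearGroup (Fin b) ℤ, (g : Matrix (Fin b) (Fin b) ℤ).det = 1 →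
        Hv b (φ g)) := by
  refine ⟨Torus_phi n b hb, ?_, ?_, ?_, ?_⟩
  · intro g i l hi
    exact Torus_E_row n b _ i l hi
  · intro g i l hl
    exact Torus_E_col n b _ i l hl
  · intro g i l
    exact Torus_E_low n b hb _ i l
  · intro g hg j hj
    refine ⟨?_, ?_, ?_⟩
    · exact Torus_Up n b _ (fun i l hi => Torus_E_row n b _ i l hi) j hj
    · rw [← map_inv]
      exact Torus_Up n b _ (fun i l hi => Torus_E_row n b _ i l hi) j hj
    · have h1 : ((Torus_phi n b hb g : Matrix.GeneralLinearGroup (Fin n) ℤ) :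
          Matrix (Fin n) (Fin n) ℤ).submatrix (Fin.castLE j.2.le) (Fin.castLE j.2.le) =
          Torus_E j.val b (g : Matrix (Fin b) (Fin b) ℤ) := by
        rw [Torus_phi_val]
        ext i l
        rw [Matrix.submatrix_apply]
        unfold Torus_E
        rw [Matrix.of_apply, Matrix.of_apply]
        by_cases h : i.val < b ∧ l.val < b
        · rw [dif_pos h, dif_pos (by exact h)]
          rfl
        · rw [dif_neg h, dif_neg (by exact h)]
          by_cases h2 : i = l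
          · rw [if_pos h2, if_pos (by rw [h2])]
          · rw [if_neg h2, if_neg fun h3 => h2 (Fin.castLE_injective _ h3)]
      rw [h1, Torus_E_det j.val b hj, hg]

/-- extension of a vector by zero -/
noncomputable def Torus_ext (n b : ℕ) (u : Fin b → ℝ) : Fin n → ℝ :=
  fun i => if h : i.val < b then u ⟨i.val, h⟩ else 0

theorem Torus_ext_low (n b : ℕ) (hb : b ≤ n) (u : Fin b → ℝ) (i : Fin b) :
    Torus_ext n b u (Fin.castLE hb i) = u i := by
  unfold Torus_ext
  rw [dif_pos (show (Fin.castLE hb i).val < b from i.2)]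
  rfl

theorem Torus_ext_high (n b : ℕ) (u : Fin b → ℝ) (i : Fin n) (hi : b ≤ i.val) :
    Torus_ext n b u i = 0 := by
  unfold Torus_ext
  rw [dif_neg (not_lt.2 hi)]

theorem Torus_sum (n b : ℕ) (hb : b ≤ n) (f : Fin n → ℝ) (hf : ∀ i : Fin n, b ≤ i.val → f i = 0) :
    ∑ i, f i = ∑ i : Fin b, f (Fin.castLE hb i) := by
  obtain ⟨c, rfl⟩ := Nat.exists_eq_add_of_le hb
  rw [Fin.sum_univ_add, Finset.sum_eq_zero (s := Finset.univ)
    (f := fun i : Fin c => f (Fin.natAdd b i)), add_zero]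
  · rfl
  · intro i _
    exact hf _ (by simp)

theorem Torus_cases (n b : ℕ) (hb : b ≤ n) (i : Fin n) :
    b ≤ i.val ∨ ∃ i' : Fin b, i = Fin.castLE hb i' := by
  by_cases h : i.val < b
  · right
    exact ⟨⟨i.val, h⟩, rfl⟩
  · left
    exact not_lt.1 h

theorem Torus_mulVec (n b : ℕ) (hb : b ≤ n) (M : Matrix.GeneralLinearGroup (Fin n) ℤ)
    (u : Fin b → ℝ) (i : Fin n) : (Mr M).mulVec (Torus_ext n b u) i =
      ∑ l : Fin b, ((M : Matrix (Fin n) (Fin n) ℤ) i (Fin.castLE hb l) : ℝ) * u l := by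
  have h1 : (Mr M).mulVec (Torus_ext n b u) i =
      ∑ l, ((M : Matrix (Fin n) (Fin n) ℤ) i l : ℝ) * Torus_ext n b u l := rfl
  rw [h1, Torus_sum n b hb]
  · refine Finset.sum_congr rfl fun l _ => ?_
    rw [Torus_ext_low]
  · intro l hl
    rw [Torus_ext_high _ _ _ _ hl, mul_zero]

theorem Torus_eig (n b : ℕ) (hb : b ≤ n) (g : Matrix.GeneralLinearGroup (Fin b) ℤ)
    (M : Matrix.GeneralLinearGroup (Fin n) ℤ) (h1 : Rid b M)
    (h3 : ∀ i l : Fin b, (M : Matrix (Fin n) (Fin n) ℤ) (Fin.castLE hb i) (Fin.castLE hb l) =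
      (g : Matrix (Fin b) (Fin b) ℤ) i l) (u : Fin b → ℝ) :
    (Mr M).mulVec (Torus_ext n b u) = Torus_ext n b ((Mr g).mulVec u) := by
  funext i
  rw [Torus_mulVec n b hb]
  rcases Torus_cases n b hb i with hi | ⟨i', rfl⟩
  · rw [Torus_ext_high _ _ _ _ hi]
    refine Finset.sum_eq_zero fun l _ => ?_
    rw [h1 i _ hi, if_neg, Int.cast_zero, zero_mul]
    rintro rfl
    have h2 : (Fin.castLE hb l).val = l.val := rfl
    have := l.2
    omega
  · rw [Torus_ext_low]
    have h2 : (Mr g).mulVec u i' = ∑ l, ((g : Matrix (Fin b) (Fin b) ℤ) i' l : ℝ) * u l := rfl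
    rw [h2]
    refine Finset.sum_congr rfl fun l _ => ?_
    rw [h3]

theorem Torus_fix (n b : ℕ) (hb : b ≤ n) (M : Matrix.GeneralLinearGroup (Fin n) ℤ) (h : Fb b M)
    (u : Fin b → ℝ) : (Mr M).mulVec (Torus_ext n b u) = Torus_ext n b u := by
  funext i
  rw [Torus_mulVec n b hb]
  rcases Torus_cases n b hb i with hi | ⟨i', rfl⟩
  · rw [Torus_ext_high _ _ _ _ hi]
    refine Finset.sum_eq_zero fun l _ => ?_
    rw [h i (Fin.castLE hb l) l.2, if_neg, Int.cast_zero, zero_mul]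
    rintro rfl
    have h2 : (Fin.castLE hb l).val = l.val := rfl
    have := l.2
    omega
  · rw [Torus_ext_low, Finset.sum_eq_single i']
    · rw [h _ (Fin.castLE hb i') i'.2, if_pos rfl, Int.cast_one, one_mul]
    · intro l _ hl
      rw [h _ (Fin.castLE hb l) l.2, if_neg, Int.cast_zero, zero_mul]
      intro h2
      exact hl (Fin.castLE_injective _ h2).symm
    · intro h2
      exact absurd (Finset.mem_univ i') h2

theorem Torus_nq_smul {n : ℕ} (X : Matrix (Fin n) (Fin n) ℝ) (c : ℝ) (w : Fin n → ℝ) :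
    nq X (c • w) = c ^ 2 * nq X w := by
  unfold nq
  rw [Matrix.mulVec_smul, smul_dotProduct, dotProduct_smul, smul_eq_mul, smul_eq_mul]
  ring

theorem Torus_nq_mul {n : ℕ} (h x : Matrix.GeneralLinearGroup (Fin n) ℤ) (w : Fin n → ℝ) :
    nq (Xr (h * x)) w = nq (Xr x) ((Mr h⁻¹).mulVec w) := by
  unfold nq
  rw [Xr_mul, ← Matrix.mulVec_mulVec]
  rfl

/-- the logarithm of the length -/
noncomputable def Torus_f {n : ℕ} (w : Fin n → ℝ) (x : Matrix.GeneralLinearGroup (Fin n) ℤ) : ℝ :=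
  - Real.log (nq (Xr x) w) / 2

theorem Torus_f_mul {n : ℕ} (w : Fin n → ℝ) (hw : w ≠ 0) (t x : Matrix.GeneralLinearGroup (Fin n) ℤ)
    (a : ℝ) (ha : 0 < a) (h : (Mr t).mulVec w = a • w) :
    Torus_f w (t * x) = Torus_f w x + Real.log a := by
  have h1 : (Mr t⁻¹).mulVec w = a⁻¹ • w := by
    have h2 : (Mr t⁻¹).mulVec ((Mr t).mulVec w) = w := by
      rw [Matrix.mulVec_mulVec, ← Mr_mul, inv_mul_cancel, Mr_one, Matrix.one_mulVec]
    rw [h, Matrix.mulVec_smul] at h2
    rw [← h2, smul_smul, inv_mul_cancel₀ ha.ne', one_smul, h2]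
  have h3 := nq_pos x w hw
  unfold Torus_f
  rw [Torus_nq_mul, h1, Torus_nq_smul, Real.log_mul (by positivity) h3.ne', Real.log_pow,
    Real.log_inv]
  push_cast
  ring

theorem Torus_f_bdd {n : ℕ} (s : Matrix.GeneralLinearGroup (Fin n) ℤ) : ∃ C : ℝ, 0 ≤ C ∧
    ∀ (w : Fin n → ℝ), w ≠ 0 → ∀ x, |Torus_f w (x * s) - Torus_f w x| ≤ C := by
  obtain ⟨C1, hC1, h1⟩ := nq_mul s
  obtain ⟨C2, hC2, h2⟩ := nq_mul s⁻¹
  refine ⟨|Real.log C1| + |Real.log C2|, by positivity, ?_⟩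
  intro w hw x
  have p1 := nq_pos x w hw
  have p2 := nq_pos (x * s) w hw
  have e1 := Real.log_le_log p2 (h1 x w)
  rw [Real.log_mul hC1.ne' p1.ne'] at e1
  have e2 := Real.log_le_log (nq_pos (x * s * s⁻¹) w hw) (h2 (x * s) w)
  rw [Real.log_mul hC2.ne' p2.ne', mul_inv_cancel_right] at e2
  have a1 := le_abs_self (Real.log C1)
  have a2 := le_abs_self (Real.log C2)
  have a3 := abs_nonneg (Real.log C1)
  have a4 := abs_nonneg (Real.log C2)
  unfold Torus_f
  rw [abs_le]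
  constructor <;> linarith

/-- The torus block.

Proof.  If `r = 0` take `τ = 1`, `Ψ = 0`.  Otherwise `2 ≤ b`; take `U`, `v`, `lam` from `units b`,
`φ` from `exists_emb`, `τ m = φ (U m)` for `m < b` (else `1`), `w l : Fin n → ℝ` the extension of `v l`
by zero.  Then `Mr (τ m) (w l) = lam m l • w l`.  Let `f l x = - Real.log (nq (Xr x) (w l)) / 2`.  Since
`Xr (τ m * x) (w l) = Xr x (Mr (τ m)⁻¹ (w l)) = (lam m l)⁻¹ • Xr x (w l)`, we have
`f l (τ m * x) = f l x + log (lam m l)`.  Let `L` be the matrix of `log_det` (entries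
`log (lam m l)`, `m, l < r`), `B` the inverse of its transpose, and
`Ψ x i = Σ_{l<r} B i l * f l x` for `i < r`, `Ψ x i = 0` for `i ≥ r`.  So
`Ψ (τ m * x) i = Ψ x i + Σ_l B i l * L m l = Ψ x i + (B Lᵀ) i m`.
If `h` and `h⁻¹` have the first `b` columns of the identity then `Xr (h * x) (w l) = Xr x (w l)`.
By `nq_mul` for `s` and for `s⁻¹`, `|f l (x * s) - f l x|` is bounded. -/
theorem exists_torus (n b r : ℕ) (hb : b ≤ n) (hr : r = 0 ∨ r + 1 ≤ b) :
    ∃ (τ : ℕ → Matrix.GeneralLinearGroup (Fin n) ℤ)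
      (Ψ : Matrix.GeneralLinearGroup (Fin n) ℤ → ℕ → ℝ),
      (∀ l < r, Rid b (τ l)) ∧ (∀ l < r, Hv b (τ l)) ∧ (∀ l m, τ l * τ m = τ m * τ l) ∧
      (∀ l < r, ∀ x m, Ψ (τ l * x) m = Ψ x m + if m = l then 1 else 0) ∧
      (∀ h, Fb b h → Fb b h⁻¹ → ∀ x, Ψ (h * x) = Ψ x) ∧
      (∀ s, ∃ C : ℝ, ∀ x m, |Ψ (x * s) m - Ψ x m| ≤ C) := by
  rcases Nat.eq_zero_or_pos r with rfl | hr0
  · refine ⟨fun _ => 1, fun _ _ => 0, ?_, ?_, ?_, ?_, ?_, ?_⟩
    · intro l hl
      exact absurd hl (Nat.not_lt_zero l)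
    · intro l hl
      exact absurd hl (Nat.not_lt_zero l)
    · intro l m
      rfl
    · intro l hl
      exact absurd hl (Nat.not_lt_zero l)
    · intro h _ _ x
      rfl
    · intro s
      refine ⟨0, fun x m => ?_⟩
      rw [sub_self, abs_zero]
  have hrb : r < b := by omega
  obtain ⟨U, v, lam, hU, hdet, hv, heig, hpos, hgt, hprod⟩ := units b (by omega)
  obtain ⟨φ, h1, -, h3, h4⟩ := exists_emb n b hb
  have hL := log_det b r hrb lam hpos hgt hprod
  obtain ⟨L, hLdef⟩ : ∃ L : Matrix (Fin r) (Fin r) ℝ, L = Matrix.of fun i l : Fin r =>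
      Real.log (lam (Fin.castLE hrb.le i) (Fin.castLE hrb.le l)) := ⟨_, rfl⟩
  rw [← hLdef] at hL
  obtain ⟨B, hB⟩ : ∃ B : Matrix (Fin r) (Fin r) ℝ, B * L.transpose = 1 := by
    refine ⟨(L.transpose)⁻¹, Matrix.nonsing_inv_mul _ ?_⟩
    rw [Matrix.det_transpose]
    exact isUnit_iff_ne_zero.2 hL
  obtain ⟨w, hwdef⟩ : ∃ w : Fin r → Fin n → ℝ, ∀ l, w l = Torus_ext n b (v (Fin.castLE hrb.le l)) :=
    ⟨_, fun _ => rfl⟩
  have hw0 : ∀ l, w l ≠ 0 := by
    intro l h
    refine hv (Fin.castLE hrb.le l) ?_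
    funext i
    have h5 := congrFun h (Fin.castLE hb i)
    rw [hwdef, Torus_ext_low] at h5
    exact h5
  obtain ⟨τ, hτ⟩ : ∃ τ : ℕ → Matrix.GeneralLinearGroup (Fin n) ℤ, ∀ m,
      τ m = if h : m < b then φ (U ⟨m, h⟩) else 1 := ⟨_, fun _ => rfl⟩
  obtain ⟨Ψ, hΨ⟩ : ∃ Ψ : Matrix.GeneralLinearGroup (Fin n) ℤ → ℕ → ℝ, ∀ x i,
      Ψ x i = if h : i < r then ∑ l : Fin r, B ⟨i, h⟩ l * Torus_f (w l) x else 0 :=
    ⟨_, fun _ _ => rfl⟩
  refine ⟨τ, Ψ, ?_, ?_, ?_, ?_, ?_, ?_⟩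
  · intro l hl
    rw [hτ, dif_pos (hl.trans hrb)]
    exact h1 _
  · intro l hl
    rw [hτ, dif_pos (hl.trans hrb)]
    exact h4 _ (hdet _)
  · intro l m
    rw [hτ, hτ]
    split_ifs with hl hm hm
    · rw [← map_mul, ← map_mul, hU]
    · rw [mul_one, one_mul]
    · rw [mul_one, one_mul]
    · rfl
  · intro m hm x i
    rw [hτ, dif_pos (hm.trans hrb), hΨ, hΨ]
    by_cases hi : i < r
    · rw [dif_pos hi, dif_pos hi]
      have e1 : ∀ l : Fin r, Torus_f (w l) (φ (U ⟨m, hm.trans hrb⟩) * x) =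
          Torus_f (w l) x + L ⟨m, hm⟩ l := by
        intro l
        rw [hLdef, Matrix.of_apply]
        refine Torus_f_mul (w l) (hw0 l) _ _ _ (hpos _ _) ?_
        rw [hwdef, Torus_eig n b hb (U ⟨m, hm.trans hrb⟩) _ (h1 _) (h3 _), heig]
        funext a
        unfold Torus_ext
        rw [Pi.smul_apply, smul_eq_mul]
        split_ifs with ha
        · rfl
        · rw [mul_zero]
      have e2 : ∑ l : Fin r, B ⟨i, hi⟩ l * L ⟨m, hm⟩ l = if i = m then 1 else 0 := by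
        have e3 := congrFun (congrFun hB ⟨i, hi⟩) ⟨m, hm⟩
        rw [Matrix.mul_apply, Matrix.one_apply] at e3
        simp only [Matrix.transpose_apply] at e3
        rw [e3]
        simp only [Fin.mk.injEq]
      rw [← e2, ← Finset.sum_add_distrib]
      refine Finset.sum_congr rfl fun l _ => ?_
      rw [e1, mul_add]
    · rw [dif_neg hi, dif_neg hi, if_neg (by omega), add_zero]
  · intro h _ hh x
    funext i
    rw [hΨ, hΨ]
    split_ifs with hi
    · refine Finset.sum_congr rfl fun l _ => ?_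
      unfold Torus_f
      rw [Torus_nq_mul, hwdef, Torus_fix n b hb _ hh]
    · rfl
  · intro s
    obtain ⟨C, hC, hb2⟩ := Torus_f_bdd s
    refine ⟨∑ i, ∑ l, |B i l| * C, fun x i => ?_⟩
    rw [hΨ, hΨ]
    split_ifs with hi
    · rw [← Finset.sum_sub_distrib]
      refine (Finset.abs_sum_le_sum_abs _ _).trans ?_
      have e1 : ∀ l : Fin r, |B ⟨i, hi⟩ l * Torus_f (w l) (x * s) -
          B ⟨i, hi⟩ l * Torus_f (w l) x| ≤ |B ⟨i, hi⟩ l| * C := by
        intro l
        rw [← mul_sub, abs_mul]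
        exact mul_le_mul_of_nonneg_left (hb2 (w l) (hw0 l) x) (abs_nonneg _)
      refine (Finset.sum_le_sum fun l _ => e1 l).trans ?_
      exact Finset.single_le_sum (f := fun i => ∑ l, |B i l| * C)
        (fun i _ => Finset.sum_nonneg fun l _ => mul_nonneg (abs_nonneg _) hC)
        (Finset.mem_univ (⟨i, hi⟩ : Fin r))
    · rw [sub_self, abs_zero]
      exact Finset.sum_nonneg fun i _ => Finset.sum_nonneg fun l _ =>
        mul_nonneg (abs_nonneg _) hC

end Pool.Agent.H.MP_e5d137_al.SL
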