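import Mathlib
import Pool.Agent.H.MP_e5d137_al.SL.Bdd
import Pool.Agent.H.MP_e5d137_al.SL.Torus
import Pool.Agent.H.MP_e5d137_al.SL.Abs

/-!
# The isoperimetric functions of `GL(n,ℤ)` are not linear below the virtual cohomological dimension
-/

namespace Pool.Agent.H.MP_e5d137_al.SL

open scoped ENNReal

/-- `dg n n = n (n-1) / 2`; the degrees are increasing and `dg n (k+1) = dg n k + (n - 1 - k)`. -/
theorem dg_full (n : ℕ) : dg n n = n * (n - 1) / 2 := by
  have key : ∀ k ≤ n, 2 * dg n k + k * k + k = 2 * k * n := by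
    intro k
    induction k with
    | zero => intro _; simp [dg]
    | succ k ih =>
      intro hk
      have h1 := ih (by omega)
      obtain ⟨d, hd⟩ : ∃ d, n = k + 1 + d := ⟨n - (k + 1), by omega⟩
      have h2 : dg n (k + 1) = dg n k + (n - 1 - k) := rfl
      have h3 : n - 1 - k = d := by omega
      rw [h2, h3]
      have h4 : 2 * (k + 1) * n = 2 * k * n + 2 * n := by ring
      rw [h4, ← h1]
      have h5 : (k + 1) * (k + 1) = k * k + 2 * k + 1 := by ring
      rw [h5]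
      omega
  have h := key n le_rfl
  rcases n with _ | n
  · simp [dg]
  · have h1 : 2 * dg (n + 1) (n + 1) = (n + 1) * n := by
      have h2 : 2 * (n + 1) * (n + 1) = (n + 1) * (n + 1) + ((n + 1) * n + (n + 1)) := by ring
      omega
    rw [Nat.add_sub_cancel, ← h1]
    omega

/-- Choice of the blocks: `b = n - k`.

Proof.  Let `k` be maximal with `k + 1 ≤ n` and `dg n k ≤ p` (`k = 0` is possible).  If `k + 1 = n`
then `dg n k = dg n n = n(n-1)/2 ≥ p`, so `p = dg n k`, `r = 0`.  Otherwise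
`p < dg n (k+1) = dg n k + (n - 1 - k)`, so `r = p - dg n k ≤ n - k - 2`. -/
theorem exists_k (n p : ℕ) (hn : 1 ≤ n) (hp : p ≤ n * (n - 1) / 2) :
    ∃ k r : ℕ, k + 1 ≤ n ∧ dg n k + r = p ∧ (r = 0 ∨ r + 1 ≤ n - k) := by
  have h0 : dg n 0 ≤ p := Nat.zero_le _
  have h1 := Nat.findGreatest_spec (P := fun k => dg n k ≤ p) (Nat.zero_le (n - 1)) h0
  have h2 := Nat.findGreatest_le (P := fun k => dg n k ≤ p) (n - 1)
  obtain ⟨k, hk⟩ : ∃ k, k = Nat.findGreatest (fun k => dg n k ≤ p) (n - 1) := ⟨_, rfl⟩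
  rw [← hk] at h1 h2
  refine ⟨k, p - dg n k, by omega, by omega, ?_⟩
  rcases Nat.lt_or_ge k (n - 1) with h3 | h3
  · right
    have h4 : ¬ dg n (k + 1) ≤ p :=
      Nat.findGreatest_is_greatest (P := fun k => dg n k ≤ p) (n := n - 1)
        (by rw [← hk]; exact Nat.lt_succ_self k) (by omega)
    have h5 : dg n (k + 1) = dg n k + (n - 1 - k) := rfl
    omega
  · left
    have h4 : k = n - 1 := by omega
    have h5 : dg n (n - 1 + 1) = dg n (n - 1) + (n - 1 - (n - 1)) := rfl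
    have h6 : n - 1 + 1 = n := by omega
    rw [h6, dg_full] at h5
    rw [h4]
    omega

/-- if `Ψ (s x) i = Ψ x i + 1` then `s` has infinite order -/
theorem inf_order {Γ : Type} [Group Γ] (s : Γ) (Ψ : Γ → ℕ → ℝ) (i : ℕ)
    (h : ∀ x, Ψ (s * x) i = Ψ x i + 1) : ∀ j : ℕ, 0 < j → s ^ j ≠ 1 := by
  have key : ∀ j : ℕ, ∀ x, Ψ (s ^ j * x) i = Ψ x i + j := by
    intro j
    induction j with
    | zero => intro x; simp
    | succ j ih =>
      intro x
      rw [pow_succ, mul_assoc, ih, h]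
      push_cast
      ring
  intro j hj hs
  have h1 := key j 1
  rw [hs, one_mul] at h1
  have h2 : (j : ℝ) = 0 := by linarith
  have h3 : j = 0 := by exact_mod_cast h2
  omega

/-- The final theorem of the folder.

Proof.  Take `k`, `r` from `exists_k` for `p = m + 1`, `b = n - k`, `τ`, `Ψ` from `exists_torus n b r`.
`H = UN b ⊔ closure (τ '' {l | l < r})`, `ω = blk (dg n k) (Ac n k) Ψ r`.  `PD.block` (with `tower`) gives
`PD H (dg n k + r) ω`: `hAt`: third part of `tower` and `Hv b (τ l)`; `hΨN`: `Fb_of_mem` for `h` and `h⁻¹`;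
`hnorm`: `nrm_UN`; `hcomm`: the commutator is `1`.  Apply `not_linear`: `hcoc` is `dc_blk`.
`hbd`: for a finite set `𝒯` let `T` be the finite set of all elements of the lists of `𝒯`.  For
`σ = τ.map (g * ·)`, `ω σ = Ac n k (σ.take _) * vc Ψ r (σ.drop _)`; the first factor is bounded by
`Ac_bdd` with `x = g`, the second by `vol_bound`, because for `t, t' ∈ T`
`|Ψ (g t) m - Ψ (g t') m| ≤ C (t'⁻¹ t)`, and there are finitely many such elements.
Element of infinite order: if `1 ≤ k` then `b ≤ n - 1` and `tE ⟨n-1, _⟩ 0 ∈ UN b` (`2 ≤ n` as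
`m + 1 ≤ n(n-1)/2`), with `Psi_tE` and `inf_order`; if `k = 0` then `r = m + 1 > 0` and `τ 0`. -/
theorem not_linear_GL (n m : ℕ) (hm : 1 ≤ m) (hmn : m < n * (n - 1) / 2)
    (K : GComplex (Matrix.GeneralLinearGroup (Fin n) ℤ)) (hK : K.FiniteTo (m + 1)) :
    ¬ Dominated (fun L => (K.iso m L : ℝ≥0∞)) (fun L => (L : ℝ≥0∞)) := by
  classical
  have hn2 : 2 ≤ n := by
    by_contra hc
    have h1 : n = 0 ∨ n = 1 := by omega
    rcases h1 with rfl | rfl <;> simp at hmn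
  obtain ⟨k, r, hk, hkr, hr⟩ := exists_k n (m + 1) (by omega) hmn
  obtain ⟨b, hb⟩ : ∃ b, b = n - k := ⟨_, rfl⟩
  rw [← hb] at hr
  obtain ⟨τ, Ψ, hRid, hHv, hcm, hΨτ, hΨh, hΨC⟩ := exists_torus n b r (by omega) hr
  obtain ⟨hT1, hT2, hT3⟩ := tower n k (by omega)
  rw [← hb] at hT1 hT3
  have hPD := PD.block (UN b) (dg n k) (Ac n k) r τ Ψ hT1 hT2
    (fun l hl => hT3 (τ l) (hHv l hl))
    (fun h hh x => hΨh h (Fb_of_mem b h hh) (Fb_of_mem b h⁻¹ (inv_mem hh)) x) hΨτ
    (fun l hl => nrm_UN b (τ l) (hRid l hl))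
    (fun l _ m _ => by
      have h1 : τ l * τ m * (τ l)⁻¹ * (τ m)⁻¹ = 1 := by
        rw [hcm l m]
        group
      rw [h1]
      exact Subgroup.one_mem _)
  rw [hkr] at hPD
  -- the cochain is bounded
  have hbd : ∀ 𝒯 : Set (List (Matrix.GeneralLinearGroup (Fin n) ℤ)), 𝒯.Finite → ∃ B : ℝ,
      ∀ g, ∀ σ ∈ 𝒯, σ.length = m + 2 →
      |blk (dg n k) (Ac n k) Ψ r (σ.map (fun x => g * x))| ≤ B := by
    intro 𝒯 h𝒯
    obtain ⟨T, hT⟩ : ∃ T : Finset (Matrix.GeneralLinearGroup (Fin n) ℤ),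
        T = h𝒯.toFinset.biUnion fun σ => σ.toFinset := ⟨_, rfl⟩
    have hTm : ∀ σ ∈ 𝒯, ∀ y ∈ σ, y ∈ T := by
      intro σ hσ y hy
      rw [hT, Finset.mem_biUnion]
      exact ⟨σ, h𝒯.mem_toFinset.2 hσ, List.mem_toFinset.2 hy⟩
    obtain ⟨C, hC⟩ := Ac_bdd n k (by omega) T
    choose C' hC' using hΨC
    obtain ⟨B, hB⟩ : ∃ B : ℝ, B = ∑ q ∈ T ×ˢ T, |C' (q.2⁻¹ * q.1)| := ⟨_, rfl⟩
    have hBm : ∀ t ∈ T, ∀ t' ∈ T, C' (t'⁻¹ * t) ≤ B := by
      intro t ht t' ht'
      rw [hB]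
      refine (le_abs_self _).trans ?_
      exact Finset.single_le_sum (f := fun q : _ × _ => |C' (q.2⁻¹ * q.1)|)
        (fun _ _ => abs_nonneg _) (Finset.mem_product.2 ⟨ht, ht'⟩ : (t, t') ∈ T ×ˢ T)
    obtain ⟨C'', hC''⟩ := vol_bound r B
    refine ⟨C * C'', fun g σ hσ hl => ?_⟩
    unfold blk cupr
    rw [abs_mul]
    have e1 : |Ac n k ((σ.map (fun x => g * x)).take (dg n k + 1))| ≤ C := by
      refine hC g _ ?_ ?_
      · rw [List.length_take, List.length_map, hl]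
        omega
      · intro y hy
        obtain ⟨x, hx, rfl⟩ := List.mem_map.1 (List.mem_of_mem_take hy)
        exact ⟨x, hTm σ hσ x hx, rfl⟩
    have e2 : |vc Ψ r ((σ.map (fun x => g * x)).drop (dg n k))| ≤ C'' := by
      unfold vc
      refine hC'' _ ?_ ?_
      · rw [List.length_map, List.length_drop, List.length_map, hl]
        omega
      · intro p hp p' hp' l _
        obtain ⟨y, hy, rfl⟩ := List.mem_map.1 hp
        obtain ⟨y', hy', rfl⟩ := List.mem_map.1 hp'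
        obtain ⟨t, ht, rfl⟩ := List.mem_map.1 (List.mem_of_mem_drop hy)
        obtain ⟨t', ht', rfl⟩ := List.mem_map.1 (List.mem_of_mem_drop hy')
        have h1 := hC' (t'⁻¹ * t) (g * t') l
        have h2 : g * t' * (t'⁻¹ * t) = g * t := by group
        rw [h2] at h1
        exact h1.trans (hBm t (hTm σ hσ t ht) t' (hTm σ hσ t' ht'))
    exact mul_le_mul e1 e2 (abs_nonneg _) ((abs_nonneg _).trans e1)
  have hcoc : ∀ σ : List (Matrix.GeneralLinearGroup (Fin n) ℤ), σ.length = m + 3 →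
      dc (blk (dg n k) (Ac n k) Ψ r) σ = 0 := fun σ hσ =>
    dc_blk (dg n k) r (Ac n k) Ψ hT2 σ (by omega)
  -- an element of infinite order
  rcases Nat.eq_zero_or_pos k with hk0 | hk0
  · have hr0 : 0 < r := by
      rw [hk0] at hkr
      have : dg n 0 = 0 := rfl
      omega
    refine not_linear m hm _ _ hPD hcoc hbd (τ 0) ?_ ?_ K hK
    · exact (le_sup_right : Subgroup.closure (τ '' {l | l < r}) ≤ _)
        (Subgroup.subset_closure ⟨0, hr0, rfl⟩)
    · refine inf_order (τ 0) Ψ 0 fun x => ?_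
      rw [hΨτ 0 hr0, if_pos rfl]
  · have hl : 0 < (⟨n - 1, by omega⟩ : Fin n).val := by
      show 0 < n - 1
      omega
    refine not_linear m hm _ _ hPD hcoc hbd (tE ⟨n - 1, by omega⟩ 0) ?_ ?_ K hK
    · refine (le_sup_left : UN b ≤ _) (Subgroup.subset_closure ⟨⟨n - 1, by omega⟩, 0, ?_, hl, rfl⟩)
      show b ≤ n - 1
      omega
    · refine inf_order _ (Psi ⟨n - 1, by omega⟩) 0 fun x => ?_
      rw [Psi_tE _ 0 hl, if_pos rfl]

end Pool.Agent.H.MP_e5d137_al.SL
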