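import Mathlib
import Pool.Agent.H.MP_e5d137_al.SL.Folner

/-!
# Quantitative Følner sets

`sz` is a size function on the group (for `GL(n,ℤ)`: the largest absolute value of an entry of the
matrix and of its inverse).
-/

namespace Pool.Agent.H.MP_e5d137_al.SL

variable {Γ : Type} [Group Γ]

/-- a size function -/
structure SizeFn (sz : Γ → ℕ) (κ : ℕ) : Prop where
  pos : ∀ g, 1 ≤ sz g
  kpos : 1 ≤ κ
  mul : ∀ g h, sz (g * h) ≤ κ * (sz g * sz h)
  inv : ∀ g, sz g⁻¹ = sz g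

/-- polynomial Følner sets -/
def PF (sz : Γ → ℕ) (N : Subgroup Γ) : Prop :=
  ∃ C : ℕ, ∀ X : ℕ, 1 ≤ X → ∃ F : Finset Γ, F.Nonempty ∧ (∀ g ∈ F, g ∈ N) ∧
    F.card ≤ C * X ^ C ∧ ∀ s ∈ N, sz s ≤ X → X * Set.ncard {g : Γ | g ∈ F ∧ g * s ∉ F} ≤ F.card

/-- The counting in `Fol.step`.

Proof.  `F = ⋃_{0 ≤ j < J} F₀ t^j` has `J |F₀|` elements (`hfree`).  Let `g = f t^j ∈ F`.
`g s = f (t^j n t^(-j)) t^(j+a)`.  If `f (t^j n t^(-j)) ∈ F₀` and `0 ≤ j + a < J` then `g s ∈ F`.  For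
each `j` at most `|F₀| / (2R)` elements `f` violate the first condition (`hF`), and at most `A`
numbers `j` violate the second.  `R * (J |F₀| / (2R) + A |F₀|) ≤ J |F₀|` since `2 R A ≤ J`.
(Multiply everything by `2` to avoid divisions.) -/
theorem count_step (N : Subgroup Γ) (t : Γ) (hfree : ∀ j : ℕ, 0 < j → t ^ j ∉ N)
    (F₀ : Finset Γ) (hF₀ : F₀.Nonempty) (hN : ∀ g ∈ F₀, g ∈ N) (J R A : ℕ) (hJ : 2 * R * A < J) :
    ∃ F : Finset Γ, F.Nonempty ∧ (∀ g ∈ F, g ∈ N ⊔ Subgroup.zpowers t) ∧ F.card = J * F₀.card ∧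
      ∀ (n : Γ) (a : ℤ), |a| ≤ A →
        (∀ j : ℕ, j < J → 2 * R * Set.ncard {g : Γ | g ∈ F₀ ∧ g * (t ^ j * n * (t ^ j)⁻¹) ∉ F₀} ≤
          F₀.card) →
        R * Set.ncard {g : Γ | g ∈ F ∧ g * (n * t ^ a) ∉ F} ≤ F.card := by
  classical
  have hinj : Set.InjOn (fun p : Γ × ℕ => p.1 * t ^ p.2) (F₀ ×ˢ Finset.range J : Finset (Γ × ℕ)) := by
    rintro ⟨f, i⟩ hp ⟨f', j⟩ hq hpq
    rw [Finset.mem_coe, Finset.mem_product] at hp hq
    obtain ⟨h1, h2⟩ := Folner_inj N t hfree f f' (hN f hp.1) (hN f' hq.1) i j hpq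
    rw [h1, h2]
  have hcard : ((F₀ ×ˢ Finset.range J).image fun p : Γ × ℕ => p.1 * t ^ p.2).card =
      J * F₀.card := by
    rw [Finset.card_image_of_injOn hinj, Finset.card_product, Finset.card_range, mul_comm]
  refine ⟨(F₀ ×ˢ Finset.range J).image fun p : Γ × ℕ => p.1 * t ^ p.2, ?_, ?_, hcard, ?_⟩
  · obtain ⟨f, hf⟩ := hF₀
    exact ⟨f * t ^ 0, Finset.mem_image.2 ⟨(f, 0), Finset.mem_product.2
      ⟨hf, Finset.mem_range.2 (by omega)⟩, rfl⟩⟩
  · intro g hg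
    rw [Finset.mem_image] at hg
    obtain ⟨⟨f, i⟩, hp, rfl⟩ := hg
    rw [Finset.mem_product] at hp
    exact Subgroup.mul_mem _ (Subgroup.mem_sup_left (hN f hp.1))
      (Subgroup.mem_sup_right (Subgroup.pow_mem _ (Subgroup.mem_zpowers t) i))
  · intro n a ha hF
    rw [hcard]
    rw [abs_le] at ha
    -- the bad pairs
    have hsub : {g : Γ | g ∈ (F₀ ×ˢ Finset.range J).image (fun p : Γ × ℕ => p.1 * t ^ p.2) ∧
        g * (n * t ^ a) ∉ (F₀ ×ˢ Finset.range J).image (fun p : Γ × ℕ => p.1 * t ^ p.2)} ⊆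
        ((((F₀ ×ˢ Finset.range J).filter fun p : Γ × ℕ =>
            p.1 * (t ^ p.2 * n * (t ^ p.2)⁻¹) ∉ F₀) ∪
          (F₀ ×ˢ ((Finset.range J).filter fun j : ℕ =>
            ¬ (0 ≤ (j : ℤ) + a ∧ (j : ℤ) + a < J)))).image
          (fun p : Γ × ℕ => p.1 * t ^ p.2) : Finset Γ) := by
      rintro g ⟨hg1, hg2⟩
      rw [Finset.mem_image] at hg1
      obtain ⟨⟨f, i⟩, hp, rfl⟩ := hg1
      have hp' := Finset.mem_product.1 hp
      rw [Finset.mem_coe, Finset.mem_image]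
      refine ⟨(f, i), ?_, rfl⟩
      rw [Finset.mem_union, Finset.mem_filter, Finset.mem_product (s := F₀)
        (t := (Finset.range J).filter fun j : ℕ => ¬ (0 ≤ (j : ℤ) + a ∧ (j : ℤ) + a < J)),
        Finset.mem_filter]
      by_contra hcon
      rw [not_or] at hcon
      obtain ⟨hc1, hc2⟩ := hcon
      have hc3 : f * (t ^ i * n * (t ^ i)⁻¹) ∈ F₀ := by
        by_contra h5
        exact hc1 ⟨hp, h5⟩
      have hc4 : 0 ≤ (i : ℤ) + a ∧ (i : ℤ) + a < J := by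
        by_contra h5
        exact hc2 ⟨hp'.1, hp'.2, h5⟩
      obtain ⟨k, hk⟩ := Int.eq_ofNat_of_zero_le hc4.1
      apply hg2
      rw [Finset.mem_image]
      refine ⟨(f * (t ^ i * n * (t ^ i)⁻¹), k), ?_, ?_⟩
      · rw [Finset.mem_product, Finset.mem_range]
        refine ⟨hc3, ?_⟩
        show k < J
        omega
      · show f * (t ^ i * n * (t ^ i)⁻¹) * t ^ k = f * t ^ i * (n * t ^ a)
        rw [← zpow_natCast t k, ← hk, zpow_add, zpow_natCast]
        group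
    have hle := Set.ncard_le_ncard hsub (Finset.finite_toSet _)
    rw [Set.ncard_coe_finset] at hle
    have hle2 := hle.trans (Finset.card_image_le.trans (Finset.card_union_le _ _))
    -- first kind
    have hB1 : 2 * R * ((F₀ ×ˢ Finset.range J).filter fun p : Γ × ℕ =>
            p.1 * (t ^ p.2 * n * (t ^ p.2)⁻¹) ∉ F₀).card ≤ J * F₀.card := by
      have h1 : ((F₀ ×ˢ Finset.range J).filter fun p : Γ × ℕ =>
            p.1 * (t ^ p.2 * n * (t ^ p.2)⁻¹) ∉ F₀).card =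
          ∑ j ∈ Finset.range J, (F₀.filter fun f =>
            f * (t ^ j * n * (t ^ j)⁻¹) ∉ F₀).card := by
        simp only [Finset.card_filter]
        rw [Finset.sum_product_right]
      rw [h1, Finset.mul_sum]
      calc ∑ j ∈ Finset.range J, 2 * R * (F₀.filter fun f =>
            f * (t ^ j * n * (t ^ j)⁻¹) ∉ F₀).card
          ≤ ∑ _j ∈ Finset.range J, F₀.card := by
            refine Finset.sum_le_sum fun j hj => ?_
            have h2 := hF j (Finset.mem_range.1 hj)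
            have h3 : {g : Γ | g ∈ F₀ ∧ g * (t ^ j * n * (t ^ j)⁻¹) ∉ F₀} =
                ((F₀.filter fun f =>
                  f * (t ^ j * n * (t ^ j)⁻¹) ∉ F₀ : Finset Γ) : Set Γ) := by
              ext g
              simp
            rw [h3, Set.ncard_coe_finset] at h2
            exact h2
        _ = J * F₀.card := by rw [Finset.sum_const, Finset.card_range, smul_eq_mul]
    have hB2 : (F₀ ×ˢ ((Finset.range J).filter fun j : ℕ =>
            ¬ (0 ≤ (j : ℤ) + a ∧ (j : ℤ) + a < J))).card ≤ F₀.card * A := by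
      rw [Finset.card_product]
      exact Nat.mul_le_mul_left _ (Folner_count J A a (by omega) (by omega))
    have hfin : 2 * (R * Set.ncard {g : Γ | g ∈ (F₀ ×ˢ Finset.range J).image
        (fun p : Γ × ℕ => p.1 * t ^ p.2) ∧
        g * (n * t ^ a) ∉ (F₀ ×ˢ Finset.range J).image (fun p : Γ × ℕ => p.1 * t ^ p.2)}) ≤
        2 * (J * F₀.card) := by
      calc _ = 2 * R * Set.ncard {g : Γ | g ∈ (F₀ ×ˢ Finset.range J).image
            (fun p : Γ × ℕ => p.1 * t ^ p.2) ∧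
            g * (n * t ^ a) ∉ (F₀ ×ˢ Finset.range J).image
              (fun p : Γ × ℕ => p.1 * t ^ p.2)} := by ring
        _ ≤ 2 * R * (((F₀ ×ˢ Finset.range J).filter fun p : Γ × ℕ =>
            p.1 * (t ^ p.2 * n * (t ^ p.2)⁻¹) ∉ F₀).card +
            (F₀ ×ˢ ((Finset.range J).filter fun j : ℕ =>
            ¬ (0 ≤ (j : ℤ) + a ∧ (j : ℤ) + a < J))).card) := Nat.mul_le_mul_left _ hle2
        _ ≤ J * F₀.card + 2 * R * (F₀.card * A) := by
            rw [Nat.mul_add]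
            exact Nat.add_le_add hB1 (Nat.mul_le_mul_left _ hB2)
        _ = (J + 2 * R * A) * F₀.card := by ring
        _ ≤ (J + J) * F₀.card := Nat.mul_le_mul_right _ (by omega)
        _ = 2 * (J * F₀.card) := by ring
    exact Nat.le_of_mul_le_mul_left hfin (by norm_num)

theorem PF.bot (sz : Γ → ℕ) : PF sz (⊥ : Subgroup Γ) := by
  refine ⟨1, fun X hX => ⟨{1}, Finset.singleton_nonempty _, ?_, ?_, ?_⟩⟩
  · intro g hg
    rw [Finset.mem_singleton] at hg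
    rw [hg]
    exact Subgroup.one_mem _
  · rw [Finset.card_singleton]
    simpa using hX
  · intro s hs _
    have h1 : s = 1 := Subgroup.mem_bot.1 hs
    have h2 : {g : Γ | g ∈ ({1} : Finset Γ) ∧ g * s ∉ ({1} : Finset Γ)} = ∅ := by
      ext g
      simp only [Finset.mem_singleton, Set.mem_ofPred_eq, Set.mem_empty_iff_false, iff_false,
        not_and, not_not]
      intro hg
      rw [hg, h1, mul_one]
    rw [h2, Set.ncard_empty, mul_zero]
    exact Nat.zero_le _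

/-- Exponential Følner sets of `H`, also almost invariant under the elements of `N` of exponential
size. -/
def EF (sz : Γ → ℕ) (N H : Subgroup Γ) : Prop :=
  ∀ (D : ℕ) (S : Finset Γ), (∀ s ∈ S, s ∈ H) → ∃ C : ℕ, ∀ R : ℕ, 1 ≤ R → ∃ F : Finset Γ,
    F.Nonempty ∧ (∀ g ∈ F, g ∈ H) ∧ F.card ≤ C ^ R ∧
    ∀ s ∈ S, ∀ n ∈ N, sz n ≤ D ^ R → R * Set.ncard {g : Γ | g ∈ F ∧ g * (n * s) ∉ F} ≤ F.card

theorem SizeFn.pow (sz : Γ → ℕ) (κ : ℕ) (hs : SizeFn sz κ) (t : Γ) :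
    ∃ c : ℕ, ∀ j : ℕ, sz (t ^ j) ≤ c ^ (j + 1) := by
  refine ⟨κ * sz t + sz 1, fun j => ?_⟩
  have h1 : 1 ≤ κ * sz t + sz 1 := le_trans (hs.pos 1) (Nat.le_add_left _ _)
  induction j with
  | zero =>
    rw [pow_zero, zero_add, pow_one]
    exact Nat.le_add_left _ _
  | succ j ih =>
    calc sz (t ^ (j + 1)) = sz (t ^ j * t) := by rw [pow_succ]
      _ ≤ κ * (sz (t ^ j) * sz t) := hs.mul _ _
      _ = sz (t ^ j) * (κ * sz t) := by ring
      _ ≤ (κ * sz t + sz 1) ^ (j + 1) * (κ * sz t + sz 1) :=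
        Nat.mul_le_mul ih (Nat.le_add_right _ _)
      _ = (κ * sz t + sz 1) ^ (j + 1 + 1) := (pow_succ _ _).symm

/-- Proof.  Given `D`, `S`: let `B` bound the sizes of the elements of `S`, `X = (κ (D+1) (B+1) + 1) ^ R`;
for `n ∈ N`, `sz n ≤ D ^ R`: `sz (n * s) ≤ κ D^R B ≤ X`, and `R ≤ X`.  Take the set of `PF` for `X`. -/
theorem EF.base (sz : Γ → ℕ) (κ : ℕ) (hs : SizeFn sz κ) (N : Subgroup Γ) (h : PF sz N) :
    EF sz N N := by
  obtain ⟨C, hC⟩ := h
  intro D S hS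
  obtain ⟨B, hB⟩ : ∃ B : ℕ, ∀ s ∈ S, sz s ≤ B := ⟨S.sup sz, fun s hs => Finset.le_sup hs⟩
  obtain ⟨Y, hY⟩ : ∃ Y : ℕ, Y = κ * (D + 1) * (B + 1) + 1 := ⟨_, rfl⟩
  have hY1 : 1 ≤ Y := by omega
  have hk := hs.kpos
  have hY2 : 2 ≤ Y := by
    have : 0 < κ * (D + 1) * (B + 1) := by positivity
    omega
  refine ⟨(C + 1) * Y ^ C, fun R hR => ?_⟩
  have hX1 : 1 ≤ Y ^ R := Nat.one_le_pow _ _ hY1
  obtain ⟨F, hne, hFN, hcard, hF⟩ := hC (Y ^ R) hX1
  refine ⟨F, hne, hFN, ?_, ?_⟩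
  · calc F.card ≤ C * (Y ^ R) ^ C := hcard
      _ ≤ (C + 1) ^ R * (Y ^ R) ^ C := by
        refine Nat.mul_le_mul_right _ ?_
        calc C ≤ (C + 1) ^ 1 := by rw [pow_one]; exact Nat.le_succ _
          _ ≤ (C + 1) ^ R := Nat.pow_le_pow_right (Nat.succ_pos _) hR
      _ = ((C + 1) * Y ^ C) ^ R := by
        rw [mul_pow, ← pow_mul, ← pow_mul, mul_comm R C]
  · intro s hsS n hn hsz
    have h1 : sz (n * s) ≤ Y ^ R := by
      calc sz (n * s) ≤ κ * (sz n * sz s) := hs.mul _ _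
        _ ≤ κ * (D ^ R * B) := Nat.mul_le_mul_left _ (Nat.mul_le_mul hsz (hB s hsS))
        _ ≤ κ ^ R * ((D + 1) ^ R * (B + 1) ^ R) := by
          refine Nat.mul_le_mul ?_ (Nat.mul_le_mul ?_ ?_)
          · calc κ = κ ^ 1 := (pow_one _).symm
              _ ≤ κ ^ R := Nat.pow_le_pow_right hk hR
          · exact Nat.pow_le_pow_left (Nat.le_succ _) _
          · calc B ≤ (B + 1) ^ 1 := by rw [pow_one]; exact Nat.le_succ _
              _ ≤ (B + 1) ^ R := Nat.pow_le_pow_right (Nat.succ_pos _) hR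
        _ = (κ * (D + 1) * (B + 1)) ^ R := by
          rw [mul_pow, mul_pow, mul_assoc]
        _ ≤ Y ^ R := Nat.pow_le_pow_left (by omega) _
    have h2 := hF (n * s) (N.mul_mem hn (hS s hsS)) h1
    have h3 : R ≤ Y ^ R := by
      calc R ≤ 2 ^ R := Nat.lt_two_pow_self.le
        _ ≤ Y ^ R := Nat.pow_le_pow_left hY2 _
    exact (Nat.mul_le_mul_right _ h3).trans h2

end Pool.Agent.H.MP_e5d137_al.SL
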