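import Mathlib
import Pool.Agent.H.MP_e5d137_al.SL.Size

namespace Pool.Agent.H.MP_e5d137_al.SL

variable {Γ : Type} [Group Γ]

/-- size of a conjugate times a commutator -/
lemma SizeE_aux (sz : Γ → ℕ) (κ : ℕ) (hs : SizeFn sz κ) (u n h : Γ) :
    sz (u * n * u⁻¹ * (u * h * u⁻¹ * h⁻¹)) ≤ κ ^ 6 * sz u ^ 4 * sz h ^ 2 * sz n := by
  have hconj : ∀ x : Γ, sz (u * x * u⁻¹) ≤ κ ^ 2 * sz u ^ 2 * sz x := by
    intro x
    calc sz (u * x * u⁻¹) ≤ κ * (sz (u * x) * sz u⁻¹) := hs.mul _ _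
      _ ≤ κ * ((κ * (sz u * sz x)) * sz u) := by
          rw [hs.inv]
          exact Nat.mul_le_mul_left _ (Nat.mul_le_mul_right _ (hs.mul _ _))
      _ = κ ^ 2 * sz u ^ 2 * sz x := by ring
  calc sz (u * n * u⁻¹ * (u * h * u⁻¹ * h⁻¹))
      ≤ κ * (sz (u * n * u⁻¹) * sz (u * h * u⁻¹ * h⁻¹)) := hs.mul _ _
    _ ≤ κ * ((κ ^ 2 * sz u ^ 2 * sz n) * (κ * ((κ ^ 2 * sz u ^ 2 * sz h) * sz h))) := by
        refine Nat.mul_le_mul_left _ (Nat.mul_le_mul (hconj n) ?_)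
        refine (hs.mul _ _).trans (Nat.mul_le_mul_left _ ?_)
        rw [hs.inv]
        exact Nat.mul_le_mul_right _ (hconj h)
    _ = κ ^ 6 * sz u ^ 4 * sz h ^ 2 * sz n := by ring

/-- Exponential step.

Proof.  Let `c` be as in `SizeFn.pow` for `t`.  Let `D`, `S ⊆ H ⊔ ⟨t⟩` be given.  Write `s = h_s t ^ (a_s)` (`mem_sup_form` for `H`), let
`S₀ = {h_s}`, `A ≥ |a_s|`, and for `R` let `J = 2 R A + 1`.  For `j < J` and `n ∈ N` with `sz n ≤ D ^ R`,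
`t^j (n h_s) t^(-j) = (t^j n t^(-j)) (t^j h_s t^(-j) h_s⁻¹) h_s = n' h_s` with `n' ∈ N`
(`Nrm N t` gives `t^j n t^(-j) ∈ N`, `hcomm` the second factor) and
`sz n' ≤ κ^6 c^(4J+4) (D^R) (sz h_s)^2 ≤ D'^R ≤ D' ^ (2R)` with `D'` independent of `R`.  Take `F₀` from
`EF sz N H` for `D'`, `S₀` and `2 R`, so that `2 R #{g ∈ F₀ : g n' h_s ∉ F₀} ≤ |F₀|`, and `F` from
`count_step` (for the group `H`).  `|F| = J |F₀| ≤ (2 R A + 1) C₀ ^ (2R) ≤ C ^ R`. -/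
theorem EF.step (sz : Γ → ℕ) (κ : ℕ) (hs : SizeFn sz κ) (N H : Subgroup Γ) (t : Γ)
    (h : EF sz N H) (hn : Nrm N t) (hH : Nrm H t) (hfree : ∀ j : ℕ, 0 < j → t ^ j ∉ H)
    (hcomm : ∀ g ∈ H, ∀ j : ℕ, t ^ j * g * (t ^ j)⁻¹ * g⁻¹ ∈ N) :
    EF sz N (H ⊔ Subgroup.zpowers t) := by
  classical
  intro D S hS
  obtain ⟨c, hc⟩ := SizeFn.pow sz κ hs t
  have hc1 : 1 ≤ c := by
    have h1 := (hs.pos _).trans (hc 0)
    rw [zero_add, pow_one] at h1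
    exact h1
  have hform : ∀ s : Γ, ∃ n : Γ, ∃ a : ℤ, s ∈ S → n ∈ H ∧ s = n * t ^ a := by
    intro s
    by_cases hs : s ∈ S
    · obtain ⟨n, h1, a, h2⟩ := mem_sup_form H t hH s (hS s hs)
      exact ⟨n, a, fun _ => ⟨h1, h2⟩⟩
    · exact ⟨1, 0, fun h => absurd h hs⟩
  choose hh a hha using hform
  obtain ⟨A, hA⟩ : ∃ A : ℕ, ∀ s ∈ S, (a s).natAbs ≤ A :=
    ⟨S.sup fun s => (a s).natAbs, fun s hs => Finset.le_sup (f := fun s => (a s).natAbs) hs⟩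
  obtain ⟨B, hB⟩ : ∃ B : ℕ, ∀ s ∈ S, sz (hh s) ≤ B :=
    ⟨S.sup fun s => sz (hh s), fun s hs => Finset.le_sup (f := fun s => sz (hh s)) hs⟩
  obtain ⟨D', hD'⟩ : ∃ D' : ℕ, D' = κ ^ 6 * c ^ (4 * (2 * A + 1)) * (B + 1) ^ 2 * (D + 1) :=
    ⟨_, rfl⟩
  have hκ1 : 1 ≤ κ ^ 6 * (B + 1) ^ 2 := Nat.one_le_iff_ne_zero.2 (by
    have := hs.kpos
    positivity)
  have hD'1 : 1 ≤ D' := by
    rw [hD']
    have := hs.kpos
    exact Nat.one_le_iff_ne_zero.2 (by positivity)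
  obtain ⟨C₀, hC₀⟩ := h D' (S.image hh) (by
    intro x hx
    obtain ⟨s, hsS, rfl⟩ := Finset.mem_image.1 hx
    exact (hha s hsS).1)
  refine ⟨2 * (2 * A + 1) * C₀ ^ 2, fun R hR => ?_⟩
  obtain ⟨F₀, hne, hF₀H, hF₀c, hF₀⟩ := hC₀ (2 * R) (by omega)
  obtain ⟨J, hJ⟩ : ∃ J : ℕ, J = 2 * R * A + 1 := ⟨_, rfl⟩
  have hJR : J ≤ R * (2 * A + 1) := by
    rw [hJ]
    nlinarith
  obtain ⟨F, hF1, hF2, hF3, hF4⟩ := count_step H t hfree F₀ hne hF₀H J R A (by omega)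
  refine ⟨F, hF1, hF2, ?_, ?_⟩
  · rw [hF3]
    calc J * F₀.card ≤ (R * (2 * A + 1)) * C₀ ^ (2 * R) := Nat.mul_le_mul hJR hF₀c
      _ ≤ (2 ^ R * (2 * A + 1) ^ R) * C₀ ^ (2 * R) := by
          refine Nat.mul_le_mul_right _ (Nat.mul_le_mul (Nat.lt_two_pow_self).le ?_)
          exact Nat.le_self_pow (by omega) _
      _ = (2 * (2 * A + 1) * C₀ ^ 2) ^ R := by
          rw [mul_pow, mul_pow, ← pow_mul]
  · intro s hsS n hnN hnD
    obtain ⟨h1, h2⟩ := hha s hsS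
    have h3 : n * s = n * hh s * t ^ a s := by
      rw [mul_assoc, ← h2]
    rw [h3]
    have ha := hA s hsS
    refine hF4 (n * hh s) (a s) ?_ ?_
    · rw [Int.abs_eq_natAbs]
      exact_mod_cast ha
    · intro j hj
      have hid : t ^ j * (n * hh s) * (t ^ j)⁻¹ =
          (t ^ j * n * (t ^ j)⁻¹ * (t ^ j * hh s * (t ^ j)⁻¹ * (hh s)⁻¹)) * hh s := by
        group
      have hmem : t ^ j * n * (t ^ j)⁻¹ * (t ^ j * hh s * (t ^ j)⁻¹ * (hh s)⁻¹) ∈ N := by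
        refine N.mul_mem ?_ (hcomm _ h1 j)
        have h4 := Folner_conj N t hn (j : ℤ) n hnN
        rwa [zpow_neg, zpow_natCast] at h4
      have hsz : sz (t ^ j * n * (t ^ j)⁻¹ * (t ^ j * hh s * (t ^ j)⁻¹ * (hh s)⁻¹)) ≤
          D' ^ (2 * R) := by
        refine (SizeE_aux sz κ hs (t ^ j) n (hh s)).trans ?_
        have e1 : sz (t ^ j) ≤ c ^ (R * (2 * A + 1)) :=
          (hc j).trans (Nat.pow_le_pow_right hc1 (by omega))
        have e2 : sz (t ^ j) ^ 4 ≤ (c ^ (4 * (2 * A + 1))) ^ R := by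
          refine (Nat.pow_le_pow_left e1 4).trans (le_of_eq ?_)
          rw [← pow_mul, ← pow_mul]
          congr 1
          ring
        have e3 : sz (hh s) ^ 2 ≤ (B + 1) ^ 2 :=
          Nat.pow_le_pow_left ((hB s hsS).trans (Nat.le_succ _)) 2
        have e4 : sz n ≤ (D + 1) ^ R := hnD.trans (Nat.pow_le_pow_left (Nat.le_succ _) R)
        calc κ ^ 6 * sz (t ^ j) ^ 4 * sz (hh s) ^ 2 * sz n
            ≤ κ ^ 6 * (c ^ (4 * (2 * A + 1))) ^ R * (B + 1) ^ 2 * (D + 1) ^ R :=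
              Nat.mul_le_mul (Nat.mul_le_mul (Nat.mul_le_mul_left _ e2) e3) e4
          _ = (κ ^ 6 * (B + 1) ^ 2) * ((c ^ (4 * (2 * A + 1))) ^ R * (D + 1) ^ R) := by ring
          _ ≤ (κ ^ 6 * (B + 1) ^ 2) ^ R * ((c ^ (4 * (2 * A + 1))) ^ R * (D + 1) ^ R) :=
              Nat.mul_le_mul_right _ (Nat.le_self_pow (by omega) _)
          _ = D' ^ R := by
              rw [hD', ← mul_pow, ← mul_pow]
              congr 1
              ring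
          _ ≤ D' ^ (2 * R) := Nat.pow_le_pow_right hD'1 (by omega)
      have h5 := hF₀ (hh s) (Finset.mem_image_of_mem hh hsS) _ hmem hsz
      rw [hid]
      exact h5

end Pool.Agent.H.MP_e5d137_al.SL
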