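import Mathlib
import Pool.Agent.H.MP_e5d137_al.SL.Size
import Pool.Agent.H.MP_e5d137_al.SL.ColM

/-!
# The size function of `GL(n,ℤ)`
-/

namespace Pool.Agent.H.MP_e5d137_al.SL

variable {n : ℕ}

/-- the size of a matrix: `1` plus the sum of the absolute values of the entries of `g` and `g⁻¹` -/
def sz (g : Matrix.GeneralLinearGroup (Fin n) ℤ) : ℕ :=
  1 + (∑ i, ∑ j, ((g : Matrix (Fin n) (Fin n) ℤ) i j).natAbs +
    ∑ i, ∑ j, (((g⁻¹ : Matrix.GeneralLinearGroup (Fin n) ℤ) : Matrix (Fin n) (Fin n) ℤ) i j).natAbs)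

/-- the sum of the absolute values of the entries -/
private def SizeG_nm (A : Matrix (Fin n) (Fin n) ℤ) : ℕ := ∑ i, ∑ j, (A i j).natAbs

private theorem SizeG_sz (g : Matrix.GeneralLinearGroup (Fin n) ℤ) :
    sz g = 1 + (SizeG_nm (g : Matrix (Fin n) (Fin n) ℤ) +
      SizeG_nm ((g⁻¹ : Matrix.GeneralLinearGroup (Fin n) ℤ) : Matrix (Fin n) (Fin n) ℤ)) := rfl

private theorem SizeG_nm_mul (A B : Matrix (Fin n) (Fin n) ℤ) :
    SizeG_nm (A * B) ≤ SizeG_nm A * SizeG_nm B := by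
  unfold SizeG_nm
  calc ∑ i, ∑ l, ((A * B) i l).natAbs
      ≤ ∑ i, ∑ l, ∑ k, (A i k).natAbs * (B k l).natAbs := by
        refine Finset.sum_le_sum fun i _ => Finset.sum_le_sum fun l _ => ?_
        rw [Matrix.mul_apply]
        refine (Int.natAbs_sum_le _ _).trans (le_of_eq ?_)
        exact Finset.sum_congr rfl fun k _ => Int.natAbs_mul _ _
    _ = ∑ i, ∑ k, (A i k).natAbs * ∑ l, (B k l).natAbs := by
        refine Finset.sum_congr rfl fun i _ => ?_
        rw [Finset.sum_comm]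
        exact Finset.sum_congr rfl fun k _ => (Finset.mul_sum _ _ _).symm
    _ ≤ ∑ i, ∑ k, (A i k).natAbs * ∑ m, ∑ l, (B m l).natAbs := by
        refine Finset.sum_le_sum fun i _ => Finset.sum_le_sum fun k _ => ?_
        refine Nat.mul_le_mul le_rfl ?_
        exact Finset.single_le_sum (f := fun m => ∑ l, (B m l).natAbs) (fun _ _ => Nat.zero_le _)
          (Finset.mem_univ k)
    _ = (∑ i, ∑ k, (A i k).natAbs) * ∑ m, ∑ l, (B m l).natAbs := by
        rw [Finset.sum_mul]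
        exact Finset.sum_congr rfl fun i _ => (Finset.sum_mul _ _ _).symm

/-- `‖g h‖ ≤ ‖g‖ ‖h‖` for the sum of the absolute values of the entries. -/
theorem sz_fn : SizeFn (sz (n := n)) 1 := by
  refine ⟨fun g => Nat.le_add_right _ _, le_rfl, fun g h => ?_, fun g => ?_⟩
  · rw [SizeG_sz, SizeG_sz g, SizeG_sz h, mul_inv_rev, Units.val_mul, Units.val_mul, one_mul]
    have h1 := SizeG_nm_mul (g : Matrix (Fin n) (Fin n) ℤ) (h : Matrix (Fin n) (Fin n) ℤ)
    have h2 := SizeG_nm_mul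
      ((h⁻¹ : Matrix.GeneralLinearGroup (Fin n) ℤ) : Matrix (Fin n) (Fin n) ℤ)
      ((g⁻¹ : Matrix.GeneralLinearGroup (Fin n) ℤ) : Matrix (Fin n) (Fin n) ℤ)
    nlinarith [Nat.zero_le (SizeG_nm (g : Matrix (Fin n) (Fin n) ℤ) *
      SizeG_nm ((h⁻¹ : Matrix.GeneralLinearGroup (Fin n) ℤ) : Matrix (Fin n) (Fin n) ℤ)),
      Nat.zero_le (SizeG_nm ((g⁻¹ : Matrix.GeneralLinearGroup (Fin n) ℤ) :
        Matrix (Fin n) (Fin n) ℤ) * SizeG_nm (h : Matrix (Fin n) (Fin n) ℤ))]
  · rw [SizeG_sz, SizeG_sz g, inv_inv, add_comm (SizeG_nm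
      ((g⁻¹ : Matrix.GeneralLinearGroup (Fin n) ℤ) : Matrix (Fin n) (Fin n) ℤ))]

theorem sz_entry (g : Matrix.GeneralLinearGroup (Fin n) ℤ) (i j : Fin n) :
    ((g : Matrix (Fin n) (Fin n) ℤ) i j).natAbs ≤ sz g := by
  have h1 : ((g : Matrix (Fin n) (Fin n) ℤ) i j).natAbs ≤
      ∑ l, ((g : Matrix (Fin n) (Fin n) ℤ) i l).natAbs :=
    Finset.single_le_sum (f := fun l => ((g : Matrix (Fin n) (Fin n) ℤ) i l).natAbs)
      (fun _ _ => Nat.zero_le _) (Finset.mem_univ j)
  have h2 : ∑ l, ((g : Matrix (Fin n) (Fin n) ℤ) i l).natAbs ≤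
      SizeG_nm (g : Matrix (Fin n) (Fin n) ℤ) :=
    Finset.single_le_sum (f := fun m => ∑ l, ((g : Matrix (Fin n) (Fin n) ℤ) m l).natAbs)
      (fun _ _ => Nat.zero_le _) (Finset.mem_univ i)
  rw [SizeG_sz]
  omega

private theorem SizeG_app (j : Fin n) (c : Fin n → ℤ) (i l : Fin n) :
    ((col j c : Matrix.GeneralLinearGroup (Fin n) ℤ) : Matrix (Fin n) (Fin n) ℤ) i l =
      (if i = l then 1 else 0) + if l = j ∧ i ≠ j then c i else 0 := by
  rw [col_val, colM, Matrix.add_apply, Matrix.one_apply, Matrix.of_apply]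

private theorem SizeG_tE (j : Fin n) (l : ℕ) (h : l < j.val) :
    tE j l = col j (Pi.single ⟨l, h.trans j.2⟩ 1) := dif_pos h

/-- the homomorphism `c ↦ col j c` -/
private def SizeG_hom (j : Fin n) :
    Multiplicative (Fin n → ℤ) →* Matrix.GeneralLinearGroup (Fin n) ℤ where
  toFun c := col j c.toAdd
  map_one' := col_zero j
  map_mul' c c' := (col_mul j c.toAdd c'.toAdd).symm

private theorem SizeG_zpow (j : Fin n) (c : Fin n → ℤ) (a : ℤ) :
    (col j c) ^ a = col j (a • c) := by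
  have h := map_zpow (SizeG_hom j) (Multiplicative.ofAdd c) a
  rw [← ofAdd_zsmul] at h
  exact h.symm

private theorem SizeG_nm_col (j : Fin n) (c : Fin n → ℤ) :
    SizeG_nm ((col j c : Matrix.GeneralLinearGroup (Fin n) ℤ) : Matrix (Fin n) (Fin n) ℤ) ≤
      n + ∑ i, (c i).natAbs := by
  have h1 : ∀ i l : Fin n,
      (((col j c : Matrix.GeneralLinearGroup (Fin n) ℤ) : Matrix (Fin n) (Fin n) ℤ) i l).natAbs ≤
        (if i = l then 1 else 0) + if l = j then (c i).natAbs else 0 := by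
    intro i l
    rw [SizeG_app]
    refine (Int.natAbs_add_le _ _).trans (Nat.add_le_add ?_ ?_)
    · split_ifs <;> simp
    · by_cases h2 : l = j
      · rw [if_pos h2]
        split_ifs
        · exact le_rfl
        · exact Nat.zero_le _
      · rw [if_neg (fun h => h2 h.1)]
        exact Nat.zero_le _
  calc SizeG_nm ((col j c : Matrix.GeneralLinearGroup (Fin n) ℤ) : Matrix (Fin n) (Fin n) ℤ)
      ≤ ∑ i : Fin n, ∑ l : Fin n,
          ((if i = l then 1 else 0) + if l = j then (c i).natAbs else 0) :=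
        Finset.sum_le_sum fun i _ => Finset.sum_le_sum fun l _ => h1 i l
    _ = n + ∑ i, (c i).natAbs := by
        simp only [Finset.sum_add_distrib, Finset.sum_ite_eq, Finset.sum_ite_eq',
          Finset.mem_univ, if_true, Finset.sum_const, Finset.card_univ, Fintype.card_fin,
          smul_eq_mul, mul_one]

private theorem SizeG_nm_zpow (j : Fin n) (l : ℕ) (hl : l < j.val) (a : ℤ) :
    SizeG_nm ((tE j l ^ a : Matrix.GeneralLinearGroup (Fin n) ℤ) : Matrix (Fin n) (Fin n) ℤ) ≤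
      n + a.natAbs := by
  rw [SizeG_tE j l hl, SizeG_zpow]
  refine (SizeG_nm_col j _).trans (Nat.add_le_add_left (le_of_eq ?_) n)
  rw [Finset.sum_eq_single (⟨l, hl.trans j.2⟩ : Fin n)]
  · rw [Pi.smul_apply, Pi.single_eq_same, smul_eq_mul, mul_one]
  · intro i _ hi
    rw [Pi.smul_apply, Pi.single_eq_of_ne hi, smul_zero, Int.natAbs_zero]
  · intro h
    exact absurd (Finset.mem_univ _) h

/-- `(tE j l) ^ k = col j (k e_l)` (`col_mul`), and the inverse is `col j (-k e_l)`; the sum of the absolute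
values of the entries is `n + k`. -/
theorem sz_tE_pow (j : Fin n) (l : ℕ) (hl : l < j.val) (k : ℕ) :
    sz (tE j l ^ k) ≤ (2 * n + 2) * (k + 1) := by
  have h1 := SizeG_nm_zpow j l hl (k : ℤ)
  have h2 := SizeG_nm_zpow j l hl (-(k : ℤ))
  rw [zpow_natCast, Int.natAbs_natCast] at h1
  rw [zpow_neg, zpow_natCast, Int.natAbs_neg, Int.natAbs_natCast] at h2
  rw [SizeG_sz]
  nlinarith [Nat.zero_le (n * k)]

/-- the column `j` of a product -/
private theorem SizeG_prod (j : Fin n) (g h : Matrix.GeneralLinearGroup (Fin n) ℤ)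
    (hg : Fb j.val g) (hh : (∀ i, j < i → (h : Matrix (Fin n) (Fin n) ℤ) i j = 0) ∧
      (h : Matrix (Fin n) (Fin n) ℤ) j j = 1) (i : Fin n) :
    ((g * h : Matrix.GeneralLinearGroup (Fin n) ℤ) : Matrix (Fin n) (Fin n) ℤ) i j =
      (g : Matrix (Fin n) (Fin n) ℤ) i j +
        if i < j then (h : Matrix (Fin n) (Fin n) ℤ) i j else 0 := by
  have h1 : ∀ m : Fin n, (g : Matrix (Fin n) (Fin n) ℤ) i m * (h : Matrix (Fin n) (Fin n) ℤ) m j =
      (if m = j then (g : Matrix (Fin n) (Fin n) ℤ) i j else 0) +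
        if m = i then (if i < j then (h : Matrix (Fin n) (Fin n) ℤ) i j else 0) else 0 := by
    intro m
    rcases lt_trichotomy m j with h2 | h2 | h2
    · rw [hg i m h2, if_neg h2.ne, zero_add]
      by_cases h3 : i = m
      · rw [if_pos h3, if_pos h3.symm, if_pos (h3 ▸ h2), one_mul, h3]
      · rw [if_neg h3, if_neg (fun h => h3 h.symm), zero_mul]
    · subst h2
      rw [hh.2, mul_one, if_pos rfl]
      by_cases h3 : m = i
      · rw [if_pos h3, if_neg (by rw [h3]; exact lt_irrefl _), add_zero]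
      · rw [if_neg h3, add_zero]
    · rw [hh.1 m h2, mul_zero, if_neg h2.ne', zero_add]
      by_cases h3 : m = i
      · rw [if_pos h3, if_neg (by rw [← h3]; exact h2.not_gt)]
      · rw [if_neg h3]
  rw [Units.val_mul, Matrix.mul_apply, Finset.sum_congr rfl fun m _ => h1 m,
    Finset.sum_add_distrib, Finset.sum_ite_eq', Finset.sum_ite_eq', if_pos (Finset.mem_univ _),
    if_pos (Finset.mem_univ _)]

/-- The column `j` of an element of `UN j` is `e_j + Σ_{i<j} c_i e_i`. -/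
theorem UN_col (j : Fin n) (h : Matrix.GeneralLinearGroup (Fin n) ℤ) (hh : h ∈ UN (n := n) j.val) :
    (∀ i, j < i → (h : Matrix (Fin n) (Fin n) ℤ) i j = 0) ∧
      (h : Matrix (Fin n) (Fin n) ℤ) j j = 1 := by
  have hh' := hh
  unfold UN at hh'
  induction hh' using Subgroup.closure_induction with
  | mem g hg =>
    obtain ⟨j', l, h1, h2, rfl⟩ := hg
    rw [SizeG_tE j' l h2]
    have h3 : ∀ i, j ≤ i → (if j = j' ∧ i ≠ j' then
        (Pi.single ⟨l, h2.trans j'.2⟩ 1 : Fin n → ℤ) i else 0) = 0 := by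
      intro i hi
      split_ifs with h4
      · refine Pi.single_eq_of_ne ?_ _
        intro h5
        rw [h5, Fin.le_def, h4.1] at hi
        exact absurd h2 (not_lt.2 hi)
      · rfl
    refine ⟨fun i hi => ?_, ?_⟩
    · rw [SizeG_app, h3 i hi.le, if_neg hi.ne', add_zero]
    · rw [SizeG_app, h3 j le_rfl, if_pos rfl, add_zero]
  | one =>
    refine ⟨fun i hi => ?_, ?_⟩
    · rw [Units.val_one, Matrix.one_apply, if_neg hi.ne']
    · rw [Units.val_one, Matrix.one_apply, if_pos rfl]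
  | mul x y hx hy hx' hy' =>
    have h1 := SizeG_prod j x y (Fb_of_mem _ _ hx) (hy' hy)
    refine ⟨fun i hi => ?_, ?_⟩
    · rw [h1, (hx' hx).1 i hi, if_neg hi.not_gt, add_zero]
    · rw [h1, (hx' hx).2, if_neg (lt_irrefl _), add_zero]
  | inv x hx hx' =>
    have h1 := SizeG_prod j x⁻¹ x (Fb_of_mem _ _ (inv_mem hx)) (hx' hx)
    rw [inv_mul_cancel, Units.val_one] at h1
    refine ⟨fun i hi => ?_, ?_⟩
    · have h2 := h1 i
      rw [Matrix.one_apply, if_neg hi.ne', if_neg hi.not_gt, add_zero] at h2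
      exact h2.symm
    · have h2 := h1 j
      rw [Matrix.one_apply, if_pos rfl, if_neg (lt_irrefl _), add_zero] at h2
      exact h2.symm

/-- The entries `(i, j)`, `i < j`, are additive on `UN j` (`Fb_of_mem` for `g`, `UN_col` for `h`). -/
theorem UN_add (j i : Fin n) (hi : i < j) (g h : Matrix.GeneralLinearGroup (Fin n) ℤ)
    (hg : g ∈ UN (n := n) j.val) (hh : h ∈ UN (n := n) j.val) :
    ((g * h : Matrix.GeneralLinearGroup (Fin n) ℤ) : Matrix (Fin n) (Fin n) ℤ) i j =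
      (g : Matrix (Fin n) (Fin n) ℤ) i j + (h : Matrix (Fin n) (Fin n) ℤ) i j := by
  rw [SizeG_prod j g h (Fb_of_mem _ _ hg) (UN_col j h hh), if_pos hi]

/-- `(tE j l) ^ a = col j (a e_l)` for an integer `a`. -/
theorem tE_zpow (j : Fin n) (l : ℕ) (hl : l < j.val) (a : ℤ) (i : Fin n) (hi : i < j) :
    ((tE j l ^ a : Matrix.GeneralLinearGroup (Fin n) ℤ) : Matrix (Fin n) (Fin n) ℤ) i j =
      if i.val = l then a else 0 := by
  rw [SizeG_tE j l hl, SizeG_zpow, SizeG_app, if_neg hi.ne, if_pos ⟨rfl, hi.ne⟩, zero_add,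
    Pi.smul_apply]
  by_cases h : i.val = l
  · have h1 : i = ⟨l, hl.trans j.2⟩ := Fin.ext h
    rw [if_pos h, h1, Pi.single_eq_same, smul_eq_mul, mul_one]
  · have h1 : i ≠ ⟨l, hl.trans j.2⟩ := fun h2 => h (congrArg Fin.val h2)
    rw [if_neg h, Pi.single_eq_of_ne h1, smul_zero]

/-- the group of `UN_mid` -/
private def SizeG_K (j : Fin n) (l : ℕ) : Subgroup (Matrix.GeneralLinearGroup (Fin n) ℤ) where
  carrier := {h | h ∈ UN (n := n) j.val ∧
    ∀ i : Fin n, l ≤ i.val → i < j → (h : Matrix (Fin n) (Fin n) ℤ) i j = 0}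
  mul_mem' := by
    rintro x y ⟨hx, hx'⟩ ⟨hy, hy'⟩
    refine ⟨mul_mem hx hy, fun i hi hij => ?_⟩
    rw [UN_add j i hij x y hx hy, hx' i hi hij, hy' i hi hij, add_zero]
  one_mem' := by
    refine ⟨one_mem _, fun i _ hij => ?_⟩
    rw [Units.val_one, Matrix.one_apply, if_neg hij.ne]
  inv_mem' := by
    rintro x ⟨hx, hx'⟩
    refine ⟨inv_mem hx, fun i hi hij => ?_⟩
    have h1 := UN_add j i hij x⁻¹ x (inv_mem hx) hx
    rw [inv_mul_cancel, Units.val_one, Matrix.one_apply, if_neg hij.ne, hx' i hi hij,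
      add_zero] at h1
    exact h1.symm

/-- The groups between `UN (j+1)` and `UN j`: the entries `(i, j)` with `l ≤ i < j` vanish.

Proof.  `UN_add`: the elements of `UN j` with this property form a subgroup; it contains `UN (j+1)`
(`Fb_of_mem`) and `tE j m` for `m < l` (`tE_zpow` with `a = 1`). -/
theorem UN_mid (j : Fin n) (l : ℕ) (hl : l ≤ j.val) (h : Matrix.GeneralLinearGroup (Fin n) ℤ)
    (hh : h ∈ UN (n := n) (j.val + 1) ⊔ Subgroup.closure (tE j '' {m | m < l})) :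
    h ∈ UN (n := n) j.val ∧
      ∀ i : Fin n, l ≤ i.val → i < j → (h : Matrix (Fin n) (Fin n) ℤ) i j = 0 := by
  have h1 : UN (n := n) (j.val + 1) ⊔ Subgroup.closure (tE j '' {m | m < l}) ≤ SizeG_K j l := by
    refine sup_le ?_ ?_
    · intro g hg
      refine ⟨?_, fun i _ hij => ?_⟩
      · rw [UN_succ j]
        exact Subgroup.mem_sup_left hg
      · rw [Fb_of_mem _ _ hg i j (Nat.lt_succ_self _), if_neg hij.ne]
    · rw [Subgroup.closure_le]
      rintro _ ⟨m, hm, rfl⟩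
      have hm' : m < l := hm
      refine ⟨Subgroup.subset_closure ⟨j, m, le_rfl, hm'.trans_le hl, rfl⟩, fun i hi hij => ?_⟩
      have h2 := tE_zpow j m (hm'.trans_le hl) 1 i hij
      rw [zpow_one, if_neg (by omega)] at h2
      exact h2
  exact h1 hh

end Pool.Agent.H.MP_e5d137_al.SL
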