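import Mathlib
import Pool.Agent.H.MP_e5d137_al.SL.Size

namespace Pool.Agent.H.MP_e5d137_al.SL

variable {Γ : Type} [Group Γ]

/-- polynomially bounded functions -/
def SizeP_PB (f : ℕ → ℕ) : Prop := ∃ C : ℕ, ∀ X : ℕ, 1 ≤ X → f X ≤ C * X ^ C

theorem SizeP_const (k : ℕ) : SizeP_PB (fun _ => k) := by
  refine ⟨k, fun X hX => ?_⟩
  exact Nat.le_mul_of_pos_right k (Nat.pos_of_ne_zero (by positivity))

theorem SizeP_id : SizeP_PB (fun X => X) := by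
  refine ⟨1, fun X hX => ?_⟩
  simp

theorem SizeP_add {f g : ℕ → ℕ} (hf : SizeP_PB f) (hg : SizeP_PB g) :
    SizeP_PB (fun X => f X + g X) := by
  obtain ⟨C, hC⟩ := hf
  obtain ⟨D, hD⟩ := hg
  refine ⟨C + D, fun X hX => ?_⟩
  have h1 : X ^ C ≤ X ^ (C + D) := Nat.pow_le_pow_right hX (Nat.le_add_right _ _)
  have h2 : X ^ D ≤ X ^ (C + D) := Nat.pow_le_pow_right hX (Nat.le_add_left _ _)
  calc f X + g X ≤ C * X ^ C + D * X ^ D := add_le_add (hC X hX) (hD X hX)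
    _ ≤ C * X ^ (C + D) + D * X ^ (C + D) :=
        add_le_add (Nat.mul_le_mul_left _ h1) (Nat.mul_le_mul_left _ h2)
    _ = (C + D) * X ^ (C + D) := by ring

theorem SizeP_mul {f g : ℕ → ℕ} (hf : SizeP_PB f) (hg : SizeP_PB g) :
    SizeP_PB (fun X => f X * g X) := by
  obtain ⟨C, hC⟩ := hf
  obtain ⟨D, hD⟩ := hg
  refine ⟨C * D + (C + D), fun X hX => ?_⟩
  have h1 : X ^ (C + D) ≤ X ^ (C * D + (C + D)) :=
    Nat.pow_le_pow_right hX (Nat.le_add_left _ _)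
  calc f X * g X ≤ (C * X ^ C) * (D * X ^ D) := Nat.mul_le_mul (hC X hX) (hD X hX)
    _ = (C * D) * X ^ (C + D) := by ring
    _ ≤ (C * D + (C + D)) * X ^ (C * D + (C + D)) :=
        Nat.mul_le_mul (Nat.le_add_right _ _) h1

theorem SizeP_pow {f : ℕ → ℕ} (hf : SizeP_PB f) (n : ℕ) :
    SizeP_PB (fun X => f X ^ n) := by
  induction n with
  | zero => simpa using SizeP_const 1
  | succ n ih => simpa [pow_succ] using SizeP_mul ih hf

theorem SizeP_zpow (sz : Γ → ℕ) (κ : ℕ) (hs : SizeFn sz κ) (t : Γ) (c : ℕ)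
    (hpow : ∀ j : ℕ, sz (t ^ j) ≤ c * (j + 1) ^ c) (a : ℤ) (A : ℕ) (ha : a.natAbs ≤ A) :
    sz (t ^ a) ≤ c * (A + 1) ^ c := by
  have h1 : sz (t ^ a) = sz (t ^ a.natAbs) := by
    rcases Int.natAbs_eq a with h | h
    · conv_lhs => rw [h]
      rw [zpow_natCast]
    · conv_lhs => rw [h]
      rw [zpow_neg, zpow_natCast, hs.inv]
  rw [h1]
  exact (hpow _).trans (Nat.mul_le_mul_left _ (Nat.pow_le_pow_left (by omega) _))

/-- Polynomial step.

Proof.  Let `C₀` be the constant of `PF sz N`.  Given `X`: let `A = c * X ^ c`, `J = 2 * X * A + 1`.  For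
`s ∈ N ⊔ ⟨t⟩` with `sz s ≤ X` take `s = n * t ^ a` with `|a| ≤ A` (`hform`), so
`n = s * (t ^ a)⁻¹` and `sz n ≤ κ X c (A+1)^c` (`hpow` for `a.natAbs`, `SizeFn.inv`), and
`sz (t^j n t^(-j)) ≤ κ^2 (c (J+1)^c)^2 sz n` for `j < J`.  All this is at most `X' := C' X ^ C'`, which we
also take `≥ 2 X`.  Take `F₀` from `PF sz N` for `X'`, and `F` from `count_step` with `R = X`.  Its
cardinality `J * |F₀| ≤ J * C₀ X' ^ C₀` is at most `C X ^ C`. -/
theorem PF.step (sz : Γ → ℕ) (κ : ℕ) (hs : SizeFn sz κ) (N : Subgroup Γ) (t : Γ) (h : PF sz N)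
    (hn : Nrm N t) (hfree : ∀ j : ℕ, 0 < j → t ^ j ∉ N) (c : ℕ)
    (hpow : ∀ j : ℕ, sz (t ^ j) ≤ c * (j + 1) ^ c)
    (hform : ∀ s ∈ N ⊔ Subgroup.zpowers t, ∃ n ∈ N, ∃ a : ℤ, s = n * t ^ a ∧
      a.natAbs ≤ c * sz s ^ c) :
    PF sz (N ⊔ Subgroup.zpowers t) := by
  obtain ⟨C₀, hC₀⟩ := h
  have hA : SizeP_PB (fun X => c * X ^ c) := SizeP_mul (SizeP_const c) (SizeP_pow SizeP_id c)
  have hJ : SizeP_PB (fun X => 2 * X * (c * X ^ c) + 1) :=
    SizeP_add (SizeP_mul (SizeP_mul (SizeP_const 2) SizeP_id) hA) (SizeP_const 1)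
  have hT : SizeP_PB (fun X => c * (2 * X * (c * X ^ c) + 1 + 1) ^ c) :=
    SizeP_mul (SizeP_const c) (SizeP_pow (SizeP_add hJ (SizeP_const 1)) c)
  have hB : SizeP_PB (fun X => κ * (X * (c * (c * X ^ c + 1) ^ c))) :=
    SizeP_mul (SizeP_const κ) (SizeP_mul SizeP_id
      (SizeP_mul (SizeP_const c) (SizeP_pow (SizeP_add hA (SizeP_const 1)) c)))
  have hX' : SizeP_PB (fun X => κ * ((κ * ((c * (2 * X * (c * X ^ c) + 1 + 1) ^ c) *
      (κ * (X * (c * (c * X ^ c + 1) ^ c))))) * (c * (2 * X * (c * X ^ c) + 1 + 1) ^ c)) +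
      2 * X) :=
    SizeP_add (SizeP_mul (SizeP_const κ) (SizeP_mul (SizeP_mul (SizeP_const κ)
      (SizeP_mul hT hB)) hT)) (SizeP_mul (SizeP_const 2) SizeP_id)
  obtain ⟨C, hC⟩ := SizeP_mul hJ (SizeP_mul (SizeP_const C₀) (SizeP_pow hX' C₀))
  refine ⟨C, fun X hX => ?_⟩
  have hC1 := hC X hX
  simp only at hC1
  generalize hA' : c * X ^ c = A at hC1
  generalize hJ' : 2 * X * A + 1 = J at hC1
  generalize hX1 : κ * ((κ * ((c * (J + 1) ^ c) *
      (κ * (X * (c * (A + 1) ^ c))))) * (c * (J + 1) ^ c)) = X₁ at hC1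
  obtain ⟨F₀, hF₀, hF₀N, hcard, hinv⟩ := hC₀ (X₁ + 2 * X) (by omega)
  obtain ⟨F, hF, hFN, hFc, hFi⟩ := count_step N t hfree F₀ hF₀ hF₀N J X A (by omega)
  refine ⟨F, hF, hFN, ?_, ?_⟩
  · rw [hFc]
    exact (Nat.mul_le_mul_left _ hcard).trans hC1
  · intro s hs' hsX
    obtain ⟨n, hnN, a, hsn, ha⟩ := hform s hs'
    have haA : a.natAbs ≤ A := by
      rw [← hA']
      exact ha.trans (Nat.mul_le_mul_left _ (Nat.pow_le_pow_left hsX _))
    have hsa := SizeP_zpow sz κ hs t c hpow a A haA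
    have hn1 : n = s * (t ^ a)⁻¹ := by rw [hsn]; group
    have hszn : sz n ≤ κ * (X * (c * (A + 1) ^ c)) := by
      calc sz n = sz (s * (t ^ a)⁻¹) := by rw [← hn1]
        _ ≤ κ * (sz s * sz (t ^ a)⁻¹) := hs.mul _ _
        _ = κ * (sz s * sz (t ^ a)) := by rw [hs.inv]
        _ ≤ κ * (X * (c * (A + 1) ^ c)) := Nat.mul_le_mul_left _ (Nat.mul_le_mul hsX hsa)
    rw [hsn]
    refine hFi n a ?_ ?_
    · rw [← Int.natCast_natAbs]
      exact_mod_cast haA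
    · intro j hj
      have htj : sz (t ^ j) ≤ c * (J + 1) ^ c :=
        (hpow j).trans (Nat.mul_le_mul_left _ (Nat.pow_le_pow_left (by omega) _))
      have hsz : sz (t ^ j * n * (t ^ j)⁻¹) ≤ X₁ := by
        calc sz (t ^ j * n * (t ^ j)⁻¹) ≤ κ * (sz (t ^ j * n) * sz (t ^ j)⁻¹) := hs.mul _ _
          _ = κ * (sz (t ^ j * n) * sz (t ^ j)) := by rw [hs.inv]
          _ ≤ κ * ((κ * (sz (t ^ j) * sz n)) * sz (t ^ j)) :=
              Nat.mul_le_mul_left _ (Nat.mul_le_mul_right _ (hs.mul _ _))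
          _ ≤ κ * ((κ * ((c * (J + 1) ^ c) *
                (κ * (X * (c * (A + 1) ^ c))))) * (c * (J + 1) ^ c)) :=
              Nat.mul_le_mul_left _ (Nat.mul_le_mul
                (Nat.mul_le_mul_left _ (Nat.mul_le_mul htj hszn)) htj)
          _ = X₁ := hX1
      have hmem : t ^ j * n * (t ^ j)⁻¹ ∈ N := by
        have := Folner_conj N t hn (j : ℤ) n hnN
        simpa using this
      have h2 := hinv _ hmem (hsz.trans (Nat.le_add_right _ _))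
      exact (Nat.mul_le_mul_right _ (Nat.le_add_left _ _)).trans h2

end Pool.Agent.H.MP_e5d137_al.SL
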