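import Mathlib
import Pool.Agent.H.MP_e5d137_al.SL.SizeP
import Pool.Agent.H.MP_e5d137_al.SL.SizeE
import Pool.Agent.H.MP_e5d137_al.SL.SizeG
import Pool.Agent.H.MP_e5d137_al.SL.Block

/-!
# Følner sets of the groups in `GL(n,ℤ)`
-/

namespace Pool.Agent.H.MP_e5d137_al.SL

variable {n : ℕ}

theorem SizeU_tE_mem (j : Fin n) (l : ℕ) (hl : l < j.val) :
    tE j l ∈ UN (n := n) j.val := by
  unfold UN
  exact Subgroup.subset_closure ⟨j, l, le_rfl, hl, rfl⟩

theorem SizeU_nrm (j : Fin n) (l : ℕ) (hl : l < j.val) :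
    Nrm (UN (n := n) (j.val + 1) ⊔ Subgroup.closure (tE j '' {m | m < l})) (tE j l) := by
  refine Block_nrm (UN (n := n) (j.val + 1)) j.val (tE j) ?_ ?_ l hl
  · intro m hm
    exact nrm_UN (j.val + 1) _ (Rid_tE j m hm)
  · intro m _ k _
    rw [comm_tE]
    exact one_mem _

theorem SizeU_free (j : Fin n) (l : ℕ) (hl : l < j.val) (k : ℕ) (hk : 0 < k) :
    tE j l ^ k ∉ UN (n := n) (j.val + 1) ⊔ Subgroup.closure (tE j '' {m | m < l}) := by
  intro hmem
  have hi : (⟨l, hl.trans j.2⟩ : Fin n) < j := hl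
  have h1 := (UN_mid j l hl.le _ hmem).2 ⟨l, hl.trans j.2⟩ le_rfl hi
  have h2 := tE_zpow j l hl (k : ℤ) ⟨l, hl.trans j.2⟩ hi
  rw [zpow_natCast, h1, if_pos rfl] at h2
  have h3 : k = 0 := by exact_mod_cast h2.symm
  omega

theorem SizeU_form (j : Fin n) (l : ℕ) (hl : l < j.val)
    (s : Matrix.GeneralLinearGroup (Fin n) ℤ)
    (hs : s ∈ (UN (n := n) (j.val + 1) ⊔ Subgroup.closure (tE j '' {m | m < l})) ⊔
      Subgroup.zpowers (tE j l)) :
    ∃ h ∈ UN (n := n) (j.val + 1) ⊔ Subgroup.closure (tE j '' {m | m < l}), ∃ a : ℤ,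
      s = h * tE j l ^ a ∧ a.natAbs ≤ sz s := by
  obtain ⟨h, hh, a, ha⟩ := mem_sup_form _ _ (SizeU_nrm j l hl) s hs
  refine ⟨h, hh, a, ha, ?_⟩
  have hi : (⟨l, hl.trans j.2⟩ : Fin n) < j := hl
  have h1 := UN_mid j l hl.le h hh
  have h2 := UN_add j ⟨l, hl.trans j.2⟩ hi h (tE j l ^ a) h1.1
    (Subgroup.zpow_mem _ (SizeU_tE_mem j l hl) a)
  rw [h1.2 ⟨l, hl.trans j.2⟩ le_rfl hi, tE_zpow j l hl a ⟨l, hl.trans j.2⟩ hi, if_pos rfl,
    zero_add, ← ha] at h2
  have h3 := sz_entry s ⟨l, hl.trans j.2⟩ j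
  rw [h2] at h3
  exact h3

/-- Polynomial Følner sets of the unipotent groups.

Proof.  Downward induction on `b`: `UN n = ⊥` (`UN_top`, `PF.bot`).  For `j < n`, from `UN (j+1)` to `UN j`
(`UN_succ`): induction on `l ≤ j` for `N_l = UN (j+1) ⊔ closure (tE j '' {m | m < l})`,
`N_(l+1) = N_l ⊔ zpowers (tE j l)` (`Block_succ`), with `PF.step` (`κ = 1`, `c = 2 * n + 2`).  `hn` is `Block_nrm` (with `N = UN (j+1)`,
`q = j`, `t = tE j`, `nrm_UN`, `Rid_tE`, `comm_tE`); `hfree`: `UN_mid` and `tE_zpow`;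
`hpow`: `sz_tE_pow`; `hform`: `s = h * (tE j l)^a` by `mem_sup_form`, and `a` is the entry `(l, j)` of `s` by `UN_add`, `UN_mid`, `tE_zpow`;
`sz_entry`. -/
theorem PF_UN (b : ℕ) (hb : b ≤ n) : PF (sz (n := n)) (UN (n := n) b) := by
  induction hb using Nat.decreasingInduction with
  | self =>
    rw [UN_top]
    exact PF.bot _
  | of_succ b hb ih =>
    have key : ∀ l : ℕ, l ≤ b → PF (sz (n := n))
        (UN (n := n) (b + 1) ⊔ Subgroup.closure (tE (⟨b, hb⟩ : Fin n) '' {m | m < l})) := by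
      intro l
      induction l with
      | zero =>
        intro _
        have e1 : tE (⟨b, hb⟩ : Fin n) '' {m | m < 0} = ∅ := by
          simp
        rw [e1, Subgroup.closure_empty, sup_bot_eq]
        exact ih
      | succ l ihl =>
        intro hl
        have hl' : l < (⟨b, hb⟩ : Fin n).val := hl
        have h0 := ihl (by omega)
        rw [Block_succ]
        refine PF.step (sz (n := n)) 1 sz_fn _ (tE (⟨b, hb⟩ : Fin n) l) h0
          (SizeU_nrm ⟨b, hb⟩ l hl') (SizeU_free ⟨b, hb⟩ l hl') (2 * n + 2) ?_ ?_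
        · intro k
          refine (sz_tE_pow ⟨b, hb⟩ l hl' k).trans (Nat.mul_le_mul_left _ ?_)
          exact Nat.le_self_pow (by omega) _
        · intro s hs
          obtain ⟨h, hh, a, ha, h2⟩ := SizeU_form ⟨b, hb⟩ l hl' s hs
          refine ⟨h, hh, a, ha, h2.trans ?_⟩
          have h3 : sz s ≤ sz s ^ (2 * n + 2) := Nat.le_self_pow (by omega) _
          exact h3.trans (Nat.le_mul_of_pos_left _ (by omega))
    have h1 := key b le_rfl
    have h2 := UN_succ (n := n) ⟨b, hb⟩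
    rw [show UN (n := n) b = UN (n := n) (⟨b, hb⟩ : Fin n).val from rfl, h2]
    exact h1

end Pool.Agent.H.MP_e5d137_al.SL
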