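import Mathlib
import Pool.Agent.H.MP_e5d137_al.SL.SizeU

/-!
# Følner sets of the extensions by commuting matrices
-/

namespace Pool.Agent.H.MP_e5d137_al.SL

variable {n : ℕ}

/-- The elements which normalize `N` and whose commutator with `w` is in `N`. -/
def SizeV_K {Γ : Type} [Group Γ] (N : Subgroup Γ) (w : Γ) : Subgroup Γ where
  carrier := {g | Nrm N g ∧ w * g * w⁻¹ * g⁻¹ ∈ N}
  mul_mem' := by
    rintro g h ⟨hg, hg'⟩ ⟨hh, hh'⟩
    refine ⟨fun x => ?_, ?_⟩
    · rw [hh x, hg (h * x * h⁻¹)]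
      have e : g * (h * x * h⁻¹) * g⁻¹ = g * h * x * (g * h)⁻¹ := by group
      rw [e]
    · have e : w * (g * h) * w⁻¹ * (g * h)⁻¹ =
          (w * g * w⁻¹ * g⁻¹) * (g * (w * h * w⁻¹ * h⁻¹) * g⁻¹) := by group
      rw [e]
      exact Subgroup.mul_mem _ hg' ((hg _).1 hh')
  one_mem' := by
    refine ⟨fun x => ?_, ?_⟩
    · rw [one_mul, inv_one, mul_one]
    · have e : w * 1 * w⁻¹ * 1⁻¹ = (1 : Γ) := by group
      rw [e]
      exact N.one_mem
  inv_mem' := by
    rintro g ⟨hg, hg'⟩
    refine ⟨hg.inv, ?_⟩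
    have e : w * g⁻¹ * w⁻¹ * g⁻¹⁻¹ = g⁻¹ * (w * g * w⁻¹ * g⁻¹)⁻¹ * g⁻¹⁻¹ := by group
    rw [e]
    exact (hg.inv _).1 (N.inv_mem hg')

theorem SizeV_pow {Γ : Type} [Group Γ] {N : Subgroup Γ} {t : Γ} (h : Nrm N t) (j : ℕ) :
    Nrm N (t ^ j) := by
  induction j with
  | zero =>
    intro x
    rw [pow_zero, one_mul, inv_one, mul_one]
  | succ j ih =>
    intro x
    rw [ih x, h (t ^ j * x * (t ^ j)⁻¹)]
    have e : t * (t ^ j * x * (t ^ j)⁻¹) * t⁻¹ = t ^ (j + 1) * x * (t ^ (j + 1))⁻¹ := by
      rw [pow_succ']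
      group
    rw [e]

/-- The elements which do not change the coordinate `i` of `Ψ`. -/
def SizeV_B {Γ : Type} [Group Γ] (Ψ : Γ → ℕ → ℝ) (i : ℕ) : Subgroup Γ where
  carrier := {h | ∀ x, Ψ (h * x) i = Ψ x i}
  mul_mem' := by
    intro g h hg hh x
    rw [mul_assoc, hg, hh]
  one_mem' := fun x => by rw [one_mul]
  inv_mem' := by
    intro h hh x
    have h1 := hh (h⁻¹ * x)
    rw [mul_inv_cancel_left] at h1
    exact h1.symm

/-- Proof.  `H_i = UN b ⊔ closure (τ '' {l | l < i})`, `H_0 = UN b`: `EF.base` with `PF_UN`.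
`H_(i+1) = H_i ⊔ zpowers (τ i)` (`Block_succ`): `EF.step` with `κ = 1`.  `hn` is `nrm_UN`, `hH` is `Block_nrm`.  `hfree`: the
elements `h` with `Ψ (h * x) i = Ψ x i` for all `x` form a subgroup containing `H_i`, and
`Ψ (τ i ^ j * x) i = Ψ x i + j`.  `hcomm`: prove by induction on `i ≤ r` that `w * g * w⁻¹ * g⁻¹ ∈ UN b`
for all `g ∈ H_i` and all `w` which normalize `UN b` (`Nrm (UN b) w`) and commute with all `τ l`: for `g = h * τ i ^ a` (`mem_sup_form`)
the commutator is that of `h`. -/
theorem EF_H (b : ℕ) (hb : b ≤ n) (r : ℕ) (τ : ℕ → Matrix.GeneralLinearGroup (Fin n) ℤ)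
    (Ψ : Matrix.GeneralLinearGroup (Fin n) ℤ → ℕ → ℝ)
    (h1 : ∀ l < r, Rid b (τ l)) (h2 : ∀ l m, τ l * τ m = τ m * τ l)
    (h3 : ∀ l < r, ∀ x m, Ψ (τ l * x) m = Ψ x m + if m = l then 1 else 0)
    (h4 : ∀ h ∈ UN (n := n) b, ∀ x, Ψ (h * x) = Ψ x) :
    EF (sz (n := n)) (UN (n := n) b)
      (UN (n := n) b ⊔ Subgroup.closure (τ '' {l | l < r})) := by
  have key : ∀ i ≤ r, EF (sz (n := n)) (UN (n := n) b)
      (UN (n := n) b ⊔ Subgroup.closure (τ '' {l | l < i})) := by
    intro i
    induction i with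
    | zero =>
      intro _
      have e : UN (n := n) b ⊔ Subgroup.closure (τ '' {l | l < 0}) = UN (n := n) b := by
        have e1 : τ '' {l | l < 0} = ∅ := by
          simp
        rw [e1, Subgroup.closure_empty, sup_bot_eq]
      rw [e]
      exact EF.base _ 1 sz_fn _ (PF_UN b hb)
    | succ i ih =>
      intro hi
      have hi' : i < r := hi
      rw [Block_succ]
      have hnorm : ∀ l < r, Nrm (UN (n := n) b) (τ l) := fun l hl => nrm_UN b (τ l) (h1 l hl)
      refine EF.step _ 1 sz_fn _ _ (τ i) (ih (by omega)) (hnorm i hi')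
        (Block_nrm _ r τ hnorm ?_ i hi') ?_ ?_
      · intro l _ m _
        rw [h2 l m]
        have e : τ m * τ l * (τ l)⁻¹ * (τ m)⁻¹ = 1 := by group
        rw [e]
        exact Subgroup.one_mem _
      · -- hfree
        intro j hj hmem
        have hB : UN (n := n) b ⊔ Subgroup.closure (τ '' {l | l < i}) ≤ SizeV_B Ψ i := by
          refine sup_le ?_ ?_
          · intro g hg x
            rw [h4 g hg]
          · rw [Subgroup.closure_le]
            rintro _ ⟨l, hl, rfl⟩ x
            have hl' : l < i := hl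
            rw [h3 l (hl'.trans hi'), if_neg (by omega), add_zero]
        have h5 : ∀ j : ℕ, ∀ x, Ψ (τ i ^ j * x) i = Ψ x i + j := by
          intro j
          induction j with
          | zero => intro x; simp
          | succ j ihj =>
            intro x
            rw [pow_succ, mul_assoc, ihj, h3 i hi', if_pos rfl]
            push_cast
            ring
        have h6 : Ψ (τ i ^ j * 1) i = Ψ 1 i := hB hmem 1
        rw [h5] at h6
        have h7 : (j : ℝ) = 0 := by linarith
        have h8 : j = 0 := by exact_mod_cast h7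
        omega
      · -- hcomm
        intro g hg j
        have hK : UN (n := n) b ⊔ Subgroup.closure (τ '' {l | l < i}) ≤
            SizeV_K (UN (n := n) b) (τ i ^ j) := by
          refine sup_le ?_ ?_
          · intro g hg
            refine ⟨fun x => ?_, ?_⟩
            · constructor
              · intro hx
                exact Subgroup.mul_mem _ (Subgroup.mul_mem _ hg hx) (Subgroup.inv_mem _ hg)
              · intro hx
                have h5 := Subgroup.mul_mem _ (Subgroup.mul_mem _ (Subgroup.inv_mem _ hg) hx) hg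
                have e : g⁻¹ * (g * x * g⁻¹) * g = x := by group
                rwa [e] at h5
            · exact Subgroup.mul_mem _ ((SizeV_pow (hnorm i hi') j g).1 hg)
                (Subgroup.inv_mem _ hg)
          · rw [Subgroup.closure_le]
            rintro _ ⟨l, hl, rfl⟩
            have hl' : l < i := hl
            refine ⟨hnorm l (hl'.trans hi'), ?_⟩
            have hc : Commute (τ i ^ j) (τ l) := Commute.pow_left (h2 i l) j
            have e : τ i ^ j * τ l * (τ i ^ j)⁻¹ * (τ l)⁻¹ = 1 := by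
              rw [hc.eq]
              group
            rw [e]
            exact Subgroup.one_mem _
        exact (hK hg).2
  exact key r le_rfl

end Pool.Agent.H.MP_e5d137_al.SL
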