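import Mathlib
import Pool.Agent.H.MP_e5d137_al.SL.Final
import Pool.Agent.H.MP_e5d137_al.SL.AbsLog
import Pool.Agent.H.MP_e5d137_al.SL.SizeV

/-!
# The isoperimetric functions of `GL(n,ℤ)` are at least `L log L` below the virtual cohomological
# dimension
-/

namespace Pool.Agent.H.MP_e5d137_al.SL

open scoped ENNReal

/-- The amenable subgroups, their cocycles and their Følner sets. -/
theorem GL_data (n k r : ℕ) (hk : k ≤ n) (hr : r = 0 ∨ r + 1 ≤ n - k) :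
    ∃ (H : Subgroup (Matrix.GeneralLinearGroup (Fin n) ℤ))
      (ω : List (Matrix.GeneralLinearGroup (Fin n) ℤ) → ℝ),
      PD H (dg n k + r) ω ∧
      (∀ σ : List (Matrix.GeneralLinearGroup (Fin n) ℤ), σ.length = dg n k + r + 2 →
        dc ω σ = 0) ∧
      (∀ 𝒯 : Set (List (Matrix.GeneralLinearGroup (Fin n) ℤ)), 𝒯.Finite → ∃ B : ℝ,
        ∀ g, ∀ σ ∈ 𝒯, σ.length = dg n k + r + 1 → |ω (σ.map (fun x => g * x))| ≤ B) ∧
      EF (sz (n := n)) (UN (n := n) (n - k)) H := by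
  classical
  obtain ⟨b, hb⟩ : ∃ b, b = n - k := ⟨_, rfl⟩
  rw [← hb] at hr
  obtain ⟨τ, Ψ, hRid, hHv, hcm, hΨτ, hΨh, hΨC⟩ := exists_torus n b r (by omega) hr
  obtain ⟨hT1, hT2, hT3⟩ := tower n k (by omega)
  rw [← hb] at hT1 hT3
  have hΨN : ∀ h ∈ UN (n := n) b, ∀ x, Ψ (h * x) = Ψ x := fun h hh x =>
    hΨh h (Fb_of_mem b h hh) (Fb_of_mem b h⁻¹ (inv_mem hh)) x
  have hPD := PD.block (UN b) (dg n k) (Ac n k) r τ Ψ hT1 hT2
    (fun l hl => hT3 (τ l) (hHv l hl)) hΨN hΨτ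
    (fun l hl => nrm_UN b (τ l) (hRid l hl))
    (fun l _ m _ => by
      have h1 : τ l * τ m * (τ l)⁻¹ * (τ m)⁻¹ = 1 := by
        rw [hcm l m]
        group
      rw [h1]
      exact Subgroup.one_mem _)
  refine ⟨_, _, hPD, fun σ hσ => dc_blk (dg n k) r (Ac n k) Ψ hT2 σ (by omega), ?_, ?_⟩
  · -- the cochain is bounded
    intro 𝒯 h𝒯
    obtain ⟨T, hT⟩ : ∃ T : Finset (Matrix.GeneralLinearGroup (Fin n) ℤ),
        T = h𝒯.toFinset.biUnion fun σ => σ.toFinset := ⟨_, rfl⟩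
    have hTm : ∀ σ ∈ 𝒯, ∀ y ∈ σ, y ∈ T := by
      intro σ hσ y hy
      rw [hT, Finset.mem_biUnion]
      exact ⟨σ, h𝒯.mem_toFinset.2 hσ, List.mem_toFinset.2 hy⟩
    obtain ⟨C, hC⟩ := Ac_bdd n k (by omega) T
    choose C' hC' using hΨC
    obtain ⟨B, hB⟩ : ∃ B : ℝ, B = ∑ q ∈ T ×ˢ T, |C' (q.2⁻¹ * q.1)| := ⟨_, rfl⟩
    have hBm : ∀ t ∈ T, ∀ t' ∈ T, C' (t'⁻¹ * t) ≤ B := by
      intro t ht t' ht'
      rw [hB]
      refine (le_abs_self _).trans ?_
      exact Finset.single_le_sum (f := fun q : _ × _ => |C' (q.2⁻¹ * q.1)|)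
        (fun _ _ => abs_nonneg _) (Finset.mem_product.2 ⟨ht, ht'⟩ : (t, t') ∈ T ×ˢ T)
    obtain ⟨C'', hC''⟩ := vol_bound r B
    refine ⟨C * C'', fun g σ hσ hl => ?_⟩
    unfold blk cupr
    rw [abs_mul]
    have e1 : |Ac n k ((σ.map (fun x => g * x)).take (dg n k + 1))| ≤ C := by
      refine hC g _ ?_ ?_
      · rw [List.length_take, List.length_map, hl]
        omega
      · intro y hy
        obtain ⟨x, hx, rfl⟩ := List.mem_map.1 (List.mem_of_mem_take hy)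
        exact ⟨x, hTm σ hσ x hx, rfl⟩
    have e2 : |vc Ψ r ((σ.map (fun x => g * x)).drop (dg n k))| ≤ C'' := by
      unfold vc
      refine hC'' _ ?_ ?_
      · rw [List.length_map, List.length_drop, List.length_map, hl]
        omega
      · intro p hp p' hp' l _
        obtain ⟨y, hy, rfl⟩ := List.mem_map.1 hp
        obtain ⟨y', hy', rfl⟩ := List.mem_map.1 hp'
        obtain ⟨t, ht, rfl⟩ := List.mem_map.1 (List.mem_of_mem_drop hy)
        obtain ⟨t', ht', rfl⟩ := List.mem_map.1 (List.mem_of_mem_drop hy')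
        have h1 := hC' (t'⁻¹ * t) (g * t') l
        have h2 : g * t' * (t'⁻¹ * t) = g * t := by group
        rw [h2] at h1
        exact h1.trans (hBm t (hTm σ hσ t ht) t' (hTm σ hσ t' ht'))
    exact mul_le_mul e1 e2 (abs_nonneg _) ((abs_nonneg _).trans e1)
  · rw [← hb]
    exact EF_H b (by omega) r τ Ψ hRid hcm hΨτ hΨN

/-- As `not_linear_GL`, with `log_bound` instead of `not_linear`; `hF` follows from `EF_H` for
`D = sz 1` and the element `n = 1` of `UN b`. -/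
theorem log_GL (n m : ℕ) (hm : 1 ≤ m) (hmn : m < n * (n - 1) / 2)
    (K : GComplex (Matrix.GeneralLinearGroup (Fin n) ℤ)) (hK : K.FiniteTo (m + 1)) :
    Dominated LlogL (fun L => (K.iso m L : ℝ≥0∞)) := by
  have hn2 : 2 ≤ n := by
    by_contra hc
    have h1 : n = 0 ∨ n = 1 := by omega
    rcases h1 with rfl | rfl <;> simp at hmn
  obtain ⟨k, r, hk, hkr, hr⟩ := exists_k n (m + 1) (by omega) hmn
  obtain ⟨H, ω, hPD, hcoc, hbd, hEF⟩ := GL_data n k r (by omega) hr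
  rw [hkr] at hPD
  refine log_bound m hm H ω hPD (fun σ hσ => hcoc σ (by omega)) ?_ ?_ K hK
  · intro 𝒯 h𝒯
    obtain ⟨B, hB⟩ := hbd 𝒯 h𝒯
    exact ⟨B, fun g σ hσ hl => hB g σ hσ (by omega)⟩
  · intro S hS
    obtain ⟨C, hC⟩ := hEF (sz (1 : Matrix.GeneralLinearGroup (Fin n) ℤ)) S hS
    refine ⟨C, fun R hR => ?_⟩
    obtain ⟨F, h1, h2, h3, h4⟩ := hC R hR
    refine ⟨F, h1, h2, h3, fun s hs => ?_⟩
    have h5 := h4 s hs 1 (one_mem _) (Nat.le_self_pow (by omega) _)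
    simp only [one_mul] at h5
    exact h5

end Pool.Agent.H.MP_e5d137_al.SL
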