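import Mathlib
import Pool.Agent.H.MP_e5d137_al.SL.ColM

/-!
# Vectors orthogonal to the first `b` basis vectors

`V_b` is the space of the vectors `w` with `w l = 0` for `l ≥ b`.
-/

namespace Pool.Agent.H.MP_e5d137_al.SL

open Matrix

variable {n : ℕ}

/-- the `j`-th basis vector (zero if `n ≤ j`) -/
def ei (j : ℕ) : Fin n → ℝ := fun l => if l.val = j then 1 else 0

/-- the `i`-th coordinate (zero if `n ≤ i`) -/
def co (v : Fin n → ℝ) (i : ℕ) : ℝ := if h : i < n then v ⟨i, h⟩ else 0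

/-- `v` agrees with `c` in the coordinates `≥ b`, and `X v` is orthogonal to `X V_b` -/
structure IsPv (X : Matrix (Fin n) (Fin n) ℝ) (b : ℕ) (c v : Fin n → ℝ) : Prop where
  eq : ∀ l : Fin n, b ≤ l.val → v l = c l
  orth : ∀ w : Fin n → ℝ, (∀ l : Fin n, b ≤ l.val → w l = 0) → X.mulVec v ⬝ᵥ X.mulVec w = 0

theorem POrth_nonneg (u : Fin n → ℝ) : 0 ≤ u ⬝ᵥ u :=
  Finset.sum_nonneg fun i _ => mul_self_nonneg (u i)

theorem POrth_zero {u : Fin n → ℝ} (h : u ⬝ᵥ u = 0) : u = 0 := by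
  funext i
  have h1 := (Finset.sum_eq_zero_iff_of_nonneg fun i _ => mul_self_nonneg (u i)).1 h i
    (Finset.mem_univ i)
  exact mul_self_eq_zero.1 h1

theorem POrth_inv (x : Matrix.GeneralLinearGroup (Fin n) ℤ) : Xr x * Mr x = 1 := by
  unfold Xr
  rw [← Mr_mul, inv_mul_cancel, Mr_one]

/-- As `exists_ov` in `Orth.lean` (orthogonal projection of `X c` to the orthogonal complement of `X V_b`). -/
theorem exists_pv (X : Matrix (Fin n) (Fin n) ℝ) (b : ℕ) (c : Fin n → ℝ) : ∃ v, IsPv X b c v := by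
  obtain ⟨V, hV⟩ : ∃ V : Submodule ℝ (Fin n → ℝ), ∀ w, w ∈ V ↔ ∀ l : Fin n, b ≤ l.val → w l = 0 :=
    ⟨{ carrier := {w | ∀ l : Fin n, b ≤ l.val → w l = 0}
       add_mem' := fun {a b} ha hb l hl => by rw [Pi.add_apply, ha l hl, hb l hl, add_zero]
       zero_mem' := fun _ _ => rfl
       smul_mem' := fun c a ha l hl => by rw [Pi.smul_apply, ha l hl, smul_zero] },
      fun _ => Iff.rfl⟩
  obtain ⟨T, hT⟩ : ∃ T : (Fin n → ℝ) →ₗ[ℝ] EuclideanSpace ℝ (Fin n),
      ∀ w, T w = WithLp.toLp 2 (X.mulVec w) :=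
    ⟨(WithLp.linearEquiv 2 ℝ (Fin n → ℝ)).symm.toLinearMap ∘ₗ X.mulVecLin, fun _ => rfl⟩
  have hin : ∀ v w, inner ℝ (T v) (T w) = X.mulVec v ⬝ᵥ X.mulVec w := by
    intro v w
    rw [hT, hT, PiLp.inner_apply]
    refine Finset.sum_congr rfl fun i _ => ?_
    rw [RCLike.inner_apply', conj_trivial]
  obtain ⟨y, hy, z, hz, he⟩ := (V.map T).exists_add_mem_mem_orthogonal (T c)
  obtain ⟨w₀, hw₀, rfl⟩ := (Submodule.mem_map).1 hy
  rw [hV] at hw₀
  refine ⟨c - w₀, ?_, ?_⟩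
  · intro l hl
    rw [Pi.sub_apply, hw₀ l hl, sub_zero]
  · intro w hw
    rw [← hin, map_sub, he, add_sub_cancel_left]
    exact (Submodule.mem_orthogonal' _ _).1 hz _
      (Submodule.mem_map_of_mem ((hV w).2 hw))

/-- As `IsOv.unique`. -/
theorem IsPv.unique {x : Matrix.GeneralLinearGroup (Fin n) ℤ} {b : ℕ} {c v v' : Fin n → ℝ}
    (h : IsPv (Xr x) b c v) (h' : IsPv (Xr x) b c v') : v = v' := by
  have hw : ∀ l : Fin n, b ≤ l.val → (v - v') l = 0 := by
    intro l hl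
    rw [Pi.sub_apply, h.eq l hl, h'.eq l hl, sub_self]
  have h1 : (Xr x).mulVec (v - v') ⬝ᵥ (Xr x).mulVec (v - v') = 0 := by
    have h2 : (Xr x).mulVec (v - v') ⬝ᵥ (Xr x).mulVec (v - v') =
        (Xr x).mulVec v ⬝ᵥ (Xr x).mulVec (v - v') -
          (Xr x).mulVec v' ⬝ᵥ (Xr x).mulVec (v - v') := by
      rw [← sub_dotProduct, ← Matrix.mulVec_sub]
    rw [h2, h.orth _ hw, h'.orth _ hw, sub_self]
  exact sub_eq_zero.1 (Xr_inj x _ (POrth_zero h1))

/-- the vector orthogonal to `V_b` -/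
noncomputable def pv (x : Matrix.GeneralLinearGroup (Fin n) ℤ) (b : ℕ) (c : Fin n → ℝ) :
    Fin n → ℝ := (exists_pv (Xr x) b c).choose

theorem pv_spec (x : Matrix.GeneralLinearGroup (Fin n) ℤ) (b : ℕ) (c : Fin n → ℝ) :
    IsPv (Xr x) b c (pv x b c) := (exists_pv (Xr x) b c).choose_spec

theorem pv_add (x : Matrix.GeneralLinearGroup (Fin n) ℤ) (b : ℕ) (c c' : Fin n → ℝ) :
    pv x b (c + c') = pv x b c + pv x b c' := by
  refine IsPv.unique (pv_spec x b (c + c')) ⟨?_, ?_⟩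
  · intro l hl
    rw [Pi.add_apply, Pi.add_apply, (pv_spec x b c).eq l hl, (pv_spec x b c').eq l hl]
  · intro w hw
    rw [Matrix.mulVec_add, add_dotProduct, (pv_spec x b c).orth w hw, (pv_spec x b c').orth w hw,
      add_zero]

theorem pv_smul (x : Matrix.GeneralLinearGroup (Fin n) ℤ) (b : ℕ) (a : ℝ) (c : Fin n → ℝ) :
    pv x b (a • c) = a • pv x b c := by
  refine IsPv.unique (pv_spec x b (a • c)) ⟨?_, ?_⟩
  · intro l hl
    rw [Pi.smul_apply, Pi.smul_apply, (pv_spec x b c).eq l hl]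
  · intro w hw
    rw [Matrix.mulVec_smul, smul_dotProduct, (pv_spec x b c).orth w hw, smul_zero]

/-- Pythagoras -/
theorem pv_pyth (x : Matrix.GeneralLinearGroup (Fin n) ℤ) (b : ℕ) (c w : Fin n → ℝ)
    (hw : ∀ l : Fin n, b ≤ l.val → w l = 0) :
    nq (Xr x) (pv x b c + w) = nq (Xr x) (pv x b c) + nq (Xr x) w := by
  have h := (pv_spec x b c).orth w hw
  unfold nq
  rw [Matrix.mulVec_add, add_dotProduct, dotProduct_add, dotProduct_add,
    dotProduct_comm ((Xr x).mulVec w) ((Xr x).mulVec (pv x b c)), h]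
  ring

/-- Let `y = x * s`.  `w = pv y b c - pv x b c` is in `V_b`.  By `nq_mul` for `s⁻¹`, minimality of
`pv y b c` (`pv_pyth` for `y`) and `nq_mul` for `s`:
`nq (Xr x) (pv y b c) ≤ C₁ nq (Xr y) (pv y b c) ≤ C₁ nq (Xr y) (pv x b c) ≤ C₁ C₂ nq (Xr x) (pv x b c)`, and
`nq (Xr x) (pv y b c) = nq (Xr x) (pv x b c) + nq (Xr x) w` by `pv_pyth`. -/
theorem pv_near (s : Matrix.GeneralLinearGroup (Fin n) ℤ) : ∃ C : ℝ, 0 < C ∧
    ∀ (x : Matrix.GeneralLinearGroup (Fin n) ℤ) (b : ℕ) (c : Fin n → ℝ),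
      nq (Xr x) (pv (x * s) b c - pv x b c) ≤ C * nq (Xr x) (pv x b c) := by
  obtain ⟨C₁, hC₁, h1⟩ := nq_mul (s⁻¹)
  obtain ⟨C₂, hC₂, h2⟩ := nq_mul s
  refine ⟨C₁ * C₂, mul_pos hC₁ hC₂, fun x b c => ?_⟩
  have hw : ∀ l : Fin n, b ≤ l.val → (pv (x * s) b c - pv x b c) l = 0 := by
    intro l hl
    rw [Pi.sub_apply, (pv_spec (x * s) b c).eq l hl, (pv_spec x b c).eq l hl, sub_self]
  have hw' : ∀ l : Fin n, b ≤ l.val → (pv x b c - pv (x * s) b c) l = 0 := by
    intro l hl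
    rw [Pi.sub_apply, (pv_spec (x * s) b c).eq l hl, (pv_spec x b c).eq l hl, sub_self]
  have e1 : nq (Xr x) (pv (x * s) b c) =
      nq (Xr x) (pv x b c) + nq (Xr x) (pv (x * s) b c - pv x b c) := by
    rw [← pv_pyth x b c _ hw, add_sub_cancel]
  have e2 : nq (Xr (x * s)) (pv x b c) = nq (Xr (x * s)) (pv (x * s) b c) +
      nq (Xr (x * s)) (pv x b c - pv (x * s) b c) := by
    rw [← pv_pyth (x * s) b c _ hw', add_sub_cancel]
  have e3 : nq (Xr x) (pv (x * s) b c) ≤ C₁ * nq (Xr (x * s)) (pv (x * s) b c) := by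
    have h3 := h1 (x * s) (pv (x * s) b c)
    rwa [mul_inv_cancel_right] at h3
  have e4 := h2 x (pv x b c)
  have n1 : 0 ≤ nq (Xr x) (pv x b c) := POrth_nonneg _
  have n2 : 0 ≤ nq (Xr (x * s)) (pv x b c - pv (x * s) b c) := POrth_nonneg _
  have e5 : C₁ * nq (Xr (x * s)) (pv (x * s) b c) ≤ C₁ * (C₂ * nq (Xr x) (pv x b c)) :=
    mul_le_mul_of_nonneg_left (by linarith) hC₁.le
  rw [mul_assoc]
  linarith

/-- `h` and `h⁻¹` fix `V_e`, and `pv x b c ∈ V_e`: uniqueness; `Xr (h * x) w = Xr x (Xr h w) = Xr x w` for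
`w ∈ V_e`. -/
theorem pv_fix (b e : ℕ) (hbe : b ≤ e) (h x : Matrix.GeneralLinearGroup (Fin n) ℤ)
    (h1 : Fb e h) (h2 : Fb e h⁻¹) (c : Fin n → ℝ) (hc : ∀ l : Fin n, e ≤ l.val → c l = 0) :
    pv (h * x) b c = pv x b c := by
  have key : ∀ v : Fin n → ℝ, (∀ l : Fin n, e ≤ l.val → v l = 0) →
      (Xr (h * x)).mulVec v = (Xr x).mulVec v := by
    intro v hv
    rw [Xr_mul, ← Matrix.mulVec_mulVec]
    congr 1
    funext i
    show ∑ l, Mr h⁻¹ i l * v l = v i
    rw [Finset.sum_eq_single i]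
    · by_cases h3 : i.val < e
      · have h4 : Mr h⁻¹ i i = 1 := by
          show (((h⁻¹ : Matrix.GeneralLinearGroup (Fin n) ℤ) : Matrix (Fin n) (Fin n) ℤ) i i : ℝ) = 1
          rw [h2 i i h3, if_pos rfl, Int.cast_one]
        rw [h4, one_mul]
      · rw [hv i (not_lt.1 h3), mul_zero]
    · intro l _ hl
      by_cases h3 : l.val < e
      · have h4 : Mr h⁻¹ i l = 0 := by
          show (((h⁻¹ : Matrix.GeneralLinearGroup (Fin n) ℤ) : Matrix (Fin n) (Fin n) ℤ) i l : ℝ) = 0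
          rw [h2 i l h3, if_neg hl.symm, Int.cast_zero]
        rw [h4, zero_mul]
      · rw [hv l (not_lt.1 h3), mul_zero]
    · intro h3
      exact absurd (Finset.mem_univ i) h3
  have hs := pv_spec x b c
  refine IsPv.unique (pv_spec (h * x) b c) ⟨hs.eq, ?_⟩
  intro w hw
  rw [key _ (fun l hl => (hs.eq l (hbe.trans hl)).trans (hc l hl)),
    key w (fun l hl => hw l (hbe.trans hl))]
  exact hs.orth w hw

/-- `h` is `[[A, B], [0, 1]]` with blocks of size `b`, `n - b` -/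
structure Bl (b : ℕ) (h : Matrix.GeneralLinearGroup (Fin n) ℤ) : Prop where
  low : ∀ i l : Fin n, l.val < b → b ≤ i.val → (h : Matrix (Fin n) (Fin n) ℤ) i l = 0
  high : ∀ i l : Fin n, b ≤ l.val → b ≤ i.val →
    (h : Matrix (Fin n) (Fin n) ℤ) i l = if i = l then 1 else 0

theorem POrth_rid {b : ℕ} {h : Matrix.GeneralLinearGroup (Fin n) ℤ} (hb : Bl b h) : Rid b h := by
  intro i l hi
  by_cases hl : b ≤ l.val
  · exact hb.high i l hl hi
  · rw [not_le] at hl
    rw [hb.low i l hl hi, if_neg]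
    rintro rfl
    omega

theorem POrth_bl {b : ℕ} {h : Matrix.GeneralLinearGroup (Fin n) ℤ} (hb : Rid b h) : Bl b h := by
  refine ⟨fun i l hl hi => ?_, fun i l _ hi => hb i l hi⟩
  rw [hb i l hi, if_neg]
  rintro rfl
  omega

/-- The rows `i ≥ b` of `h` are those of the identity (`Rid b h`), `Rid.inv`. -/
theorem Bl.inv {b : ℕ} {h : Matrix.GeneralLinearGroup (Fin n) ℤ} (hb : Bl b h) : Bl b h⁻¹ := by
  exact POrth_bl (POrth_rid hb).inv

theorem POrth_row {b : ℕ} {h : Matrix.GeneralLinearGroup (Fin n) ℤ} (hb : Rid b h)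
    (v : Fin n → ℝ) (i : Fin n) (hi : b ≤ i.val) : (Mr h).mulVec v i = v i := by
  show ∑ l, Mr h i l * v l = v i
  rw [Finset.sum_eq_single i]
  · have h4 : Mr h i i = 1 := by
      show (((h : Matrix (Fin n) (Fin n) ℤ) i i : ℤ) : ℝ) = 1
      rw [hb i i hi, if_pos rfl, Int.cast_one]
    rw [h4, one_mul]
  · intro l _ hl
    have h4 : Mr h i l = 0 := by
      show (((h : Matrix (Fin n) (Fin n) ℤ) i l : ℤ) : ℝ) = 0
      rw [hb i l hi, if_neg hl.symm, Int.cast_zero]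
    rw [h4, zero_mul]
  · intro h3
    exact absurd (Finset.mem_univ i) h3

/-- `v = Mr h (pv x b c)` satisfies `IsPv (Xr (h * x)) b c v`: `Xr (h * x) (Mr h w) = Xr x w`, and
for `w ∈ V_b` the vector `Mr h⁻¹ w` is in `V_b`. -/
theorem pv_left (b : ℕ) (h x : Matrix.GeneralLinearGroup (Fin n) ℤ) (hb : Bl b h)
    (c : Fin n → ℝ) : pv (h * x) b c = (Mr h).mulVec (pv x b c) := by
  have hs := pv_spec x b c
  refine IsPv.unique (pv_spec (h * x) b c) ⟨?_, ?_⟩
  · intro l hl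
    rw [POrth_row (POrth_rid hb) _ l hl, hs.eq l hl]
  · intro w hw
    have e1 : (Xr (h * x)).mulVec ((Mr h).mulVec (pv x b c)) = (Xr x).mulVec (pv x b c) := by
      rw [Xr_mul, Matrix.mulVec_mulVec, Matrix.mul_assoc, POrth_inv, Matrix.mul_one]
    have e2 : (Xr (h * x)).mulVec w = (Xr x).mulVec ((Mr h⁻¹).mulVec w) := by
      rw [Xr_mul, ← Matrix.mulVec_mulVec]
      rfl
    rw [e1, e2]
    refine hs.orth _ fun i hi => ?_
    rw [POrth_row (POrth_rid hb).inv w i hi, hw i hi]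

/-- the coordinates of the vectors `pv x b e_j`, `b ≤ j < e` -/
noncomputable def PsB (b e : ℕ) (x : Matrix.GeneralLinearGroup (Fin n) ℤ) (a : ℕ) : ℝ :=
  if b + a / b < e then co (pv x b (ei (b + a / b))) (a % b) else 0

/-- the elementary matrix with the entry `(a % b, b + a / b)` -/
def tB (b a : ℕ) : Matrix.GeneralLinearGroup (Fin n) ℤ :=
  if h : b + a / b < n then tE ⟨b + a / b, h⟩ (a % b) else 1

/-- `Bl b (tB b a)`; `pv_left`; `Mr (tB b a) v = v + v_j e_l` with `j = b + a / b`, `l = a % b` and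
`v_j = ei (b + m / b) j` for `v = pv x b (ei (b + m / b))`. -/
theorem PsB_tB (b e a : ℕ) (hb : 0 < b) (he : e ≤ n) (ha : b + a / b < e)
    (x : Matrix.GeneralLinearGroup (Fin n) ℤ) (m : ℕ) :
    PsB b e (tB b a * x) m = PsB b e x m + if m = a then 1 else 0 := by
  have hj : b + a / b < n := ha.trans_le he
  have hbn : b < n := lt_of_le_of_lt (Nat.le_add_right _ _) hj
  have hab : a % b < b := Nat.mod_lt _ hb
  have hmb : m % b < b := Nat.mod_lt _ hb
  have haj : a % b < b + a / b := lt_of_lt_of_le hab (Nat.le_add_right _ _)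
  have hmn : m % b < n := hmb.trans hbn
  have htB : tB b a = col (⟨b + a / b, hj⟩ : Fin n) (Pi.single ⟨a % b, haj.trans hj⟩ 1) := by
    unfold tB
    rw [dif_pos hj]
    unfold tE
    rw [dif_pos haj]
  have happ : ∀ i l : Fin n, ((tB b a : Matrix.GeneralLinearGroup (Fin n) ℤ) :
      Matrix (Fin n) (Fin n) ℤ) i l =
      (if i = l then 1 else 0) + if l.val = b + a / b ∧ i.val = a % b then 1 else 0 := by
    intro i l
    rw [htB, col_val, colM, Matrix.add_apply, Matrix.one_apply, Matrix.of_apply]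
    congr 1
    by_cases h1 : l.val = b + a / b
    · have h2 : l = (⟨b + a / b, hj⟩ : Fin n) := Fin.ext h1
      by_cases h3 : i.val = a % b
      · have h4 : i = (⟨a % b, haj.trans hj⟩ : Fin n) := Fin.ext h3
        have h5 : i ≠ (⟨b + a / b, hj⟩ : Fin n) := by
          intro h6
          have h7 := congrArg Fin.val h6
          simp only at h7
          omega
        rw [if_pos ⟨h2, h5⟩, if_pos ⟨h1, h3⟩, h4, Pi.single_eq_same]
      · have h4 : i ≠ (⟨a % b, haj.trans hj⟩ : Fin n) := fun h => h3 (congrArg Fin.val h)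
        rw [Pi.single_eq_of_ne h4, ite_self, if_neg (fun h => h3 h.2)]
    · have h2 : ¬ (l = (⟨b + a / b, hj⟩ : Fin n) ∧ i ≠ (⟨b + a / b, hj⟩ : Fin n)) :=
        fun h => h1 (congrArg Fin.val h.1)
      have h3 : ¬ (l.val = b + a / b ∧ i.val = a % b) := fun h => h1 h.1
      rw [if_neg h2, if_neg h3]
  have hrid : Rid b (tB b a : Matrix.GeneralLinearGroup (Fin n) ℤ) := by
    intro i l hi
    have h1 : ¬ (l.val = b + a / b ∧ i.val = a % b) := by
      rintro ⟨-, h2⟩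
      omega
    rw [happ, if_neg h1, add_zero]
  unfold PsB
  by_cases hm : b + m / b < e
  · rw [if_pos hm, if_pos hm, pv_left b _ x (POrth_bl hrid)]
    unfold co
    rw [dif_pos hmn, dif_pos hmn]
    obtain ⟨v, hv⟩ : ∃ v, v = pv x b (ei (b + m / b)) := ⟨_, rfl⟩
    have hvj : v (⟨b + a / b, hj⟩ : Fin n) = if b + a / b = b + m / b then 1 else 0 := by
      rw [hv, (pv_spec x b _).eq _ (Nat.le_add_right b (a / b))]
      rfl
    rw [← hv]
    show ∑ l, Mr (tB b a) (⟨m % b, hmn⟩ : Fin n) l * v l = _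
    have h3 : ∀ l : Fin n, Mr (tB b a) (⟨m % b, hmn⟩ : Fin n) l * v l =
        (if (⟨m % b, hmn⟩ : Fin n) = l then v l else 0) +
          if l = (⟨b + a / b, hj⟩ : Fin n) then (if m % b = a % b then v l else 0) else 0 := by
      intro l
      show ((((tB b a : Matrix.GeneralLinearGroup (Fin n) ℤ) : Matrix (Fin n) (Fin n) ℤ)
        ⟨m % b, hmn⟩ l : ℤ) : ℝ) * v l = _
      rw [happ]
      by_cases h4 : l = (⟨b + a / b, hj⟩ : Fin n)
      · have h5 : l.val = b + a / b := congrArg Fin.val h4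
        rw [if_pos h4]
        by_cases h6 : m % b = a % b
        · rw [if_pos (⟨h5, h6⟩ : l.val = b + a / b ∧ (⟨m % b, hmn⟩ : Fin n).val = a % b), if_pos h6]
          split_ifs <;> push_cast <;> ring
        · rw [if_neg (fun h : l.val = b + a / b ∧ (⟨m % b, hmn⟩ : Fin n).val = a % b => h6 h.2),
            if_neg h6]
          split_ifs <;> push_cast <;> ring
      · rw [if_neg h4, if_neg (fun h : l.val = b + a / b ∧ (⟨m % b, hmn⟩ : Fin n).val = a % b =>
          h4 (Fin.ext h.1))]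
        split_ifs <;> push_cast <;> ring
    simp only [h3]
    rw [Finset.sum_add_distrib, Finset.sum_ite_eq, Finset.sum_ite_eq', if_pos (Finset.mem_univ _),
      if_pos (Finset.mem_univ _), hvj]
    congr 1
    by_cases hma : m = a
    · subst hma
      rw [if_pos rfl, if_pos rfl, if_pos rfl]
    · rw [if_neg hma]
      by_cases h6 : m % b = a % b
      · rw [if_pos h6, if_neg]
        intro h7
        apply hma
        have h8 : m / b = a / b := by omega
        rw [← Nat.div_add_mod m b, ← Nat.div_add_mod a b, h6, h8]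
      · rw [if_neg h6]
  · rw [if_neg hm, if_neg hm, if_neg, add_zero]
    rintro rfl
    exact hm ha

/-- `pv_fix`. -/
theorem PsB_fix (b e : ℕ) (hbe : b ≤ e) (h x : Matrix.GeneralLinearGroup (Fin n) ℤ)
    (h1 : Fb e h) (h2 : Fb e h⁻¹) : PsB b e (h * x) = PsB b e x := by
  funext a
  unfold PsB
  by_cases ha : b + a / b < e
  · rw [if_pos ha, if_pos ha, pv_fix b e hbe h x h1 h2]
    intro l hl
    show (if l.val = b + a / b then (1 : ℝ) else 0) = 0
    rw [if_neg]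
    omega
  · rw [if_neg ha, if_neg ha]

end Pool.Agent.H.MP_e5d137_al.SL
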