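import Mathlib
import Pool.Agent.H.MP_e5d137_al.SL.POrth
import Pool.Agent.H.MP_e5d137_al.SL.Gram

/-!
# The Gram matrix of the quotient lattice
-/

namespace Pool.Agent.H.MP_e5d137_al.SL

open Matrix

variable {n : ℕ}

/-- the Gram matrix of the vectors `X (pv x b e_(b + j))`, `j < f` -/
noncomputable def Hm (b f : ℕ) (x : Matrix.GeneralLinearGroup (Fin n) ℤ) :
    Matrix (Fin f) (Fin f) ℝ :=
  Matrix.of fun i j => (Xr x).mulVec (pv x b (ei (b + i.val))) ⬝ᵥ
    (Xr x).mulVec (pv x b (ei (b + j.val)))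

theorem PGram_quad {k : ℕ} (A : Matrix (Fin n) (Fin k) ℝ) (c : Fin k → ℝ) :
    c ⬝ᵥ (Aᵀ * A).mulVec c = A.mulVec c ⬝ᵥ A.mulVec c := by
  rw [← Matrix.mulVec_mulVec, Matrix.dotProduct_mulVec, Matrix.vecMul_transpose]

theorem PGram_Gm (j : ℕ) (hj : j ≤ n) (x : Matrix.GeneralLinearGroup (Fin n) ℤ) :
    Gm j hj x = ((Xr x).submatrix id (Fin.castLE hj))ᵀ * (Xr x).submatrix id (Fin.castLE hj) := by
  unfold Gm
  ext a b
  simp only [Matrix.submatrix_apply, Matrix.mul_apply, Matrix.transpose_apply, id]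

/-- the vectors `e_l`, `l < b`, and `pv x b e_l`, `b ≤ l` -/
noncomputable def PGram_w (b : ℕ) (x : Matrix.GeneralLinearGroup (Fin n) ℤ) (l : ℕ) : Fin n → ℝ :=
  if l < b then ei l else pv x b (ei l)

theorem PGram_w_zero (b : ℕ) (x : Matrix.GeneralLinearGroup (Fin n) ℤ) (l : ℕ) (a : Fin n)
    (h : l < a.val) : PGram_w b x l a = 0 := by
  unfold PGram_w
  split_ifs with hl
  · unfold ei
    rw [if_neg (by omega)]
  · rw [(pv_spec x b (ei l)).eq a (by omega)]
    unfold ei
    rw [if_neg (by omega)]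

theorem PGram_w_one (b : ℕ) (x : Matrix.GeneralLinearGroup (Fin n) ℤ) (l : ℕ) (a : Fin n)
    (h : a.val = l) : PGram_w b x l a = 1 := by
  unfold PGram_w
  split_ifs with hl
  · unfold ei
    rw [if_pos h]
  · rw [(pv_spec x b (ei l)).eq a (by omega)]
    unfold ei
    rw [if_pos h]

/-- Proof.  Let `e = b + f` and let `U` be the `e × e` matrix with the columns `e_l`, `l < b`, and
`pv x b e_j`, `b ≤ j < e`, restricted to the coordinates `< e` (the other coordinates vanish).  It is
upper triangular with diagonal `1`, so `det U = 1`.  `Uᵀ (Gm e) U` is the block diagonal matrix of `Gm b` and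
`Hm b f` (`IsPv.orth`); take determinants (`Matrix.det_fromBlocks_zero₂₁`, `finSumFinEquiv`,
`Matrix.det_reindex_self` or `Matrix.det_submatrix_equiv_self`), `Dn_eq_det`. -/
theorem Dn_add (b f : ℕ) (hn : b + f ≤ n) (x : Matrix.GeneralLinearGroup (Fin n) ℤ) :
    Dn (b + f) x = Dn b x * (Hm b f x).det := by
  obtain ⟨U, hU⟩ : ∃ U : Matrix (Fin (b + f)) (Fin (b + f)) ℝ,
      U = Matrix.of fun a l => PGram_w b x l.val (Fin.castLE hn a) := ⟨_, rfl⟩
  have hdet : U.det = 1 := by
    have h : U.BlockTriangular id := by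
      intro a l hal
      rw [hU]
      exact PGram_w_zero b x l.val (Fin.castLE hn a) hal
    rw [Matrix.det_of_isUpperTriangular h]
    refine Finset.prod_eq_one fun l _ => ?_
    rw [hU]
    exact PGram_w_one b x l.val (Fin.castLE hn l) rfl
  have hAU : ∀ k l, ((Xr x).submatrix id (Fin.castLE hn) * U) k l =
      (Xr x).mulVec (PGram_w b x l.val) k := by
    intro k l
    rw [Matrix.mul_apply, hU]
    unfold Matrix.mulVec dotProduct
    refine Gram_sum (b + f) hn (fun a => Xr x k a * PGram_w b x l.val a) ?_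
    intro a ha
    show Xr x k a * PGram_w b x l.val a = 0
    rw [PGram_w_zero b x l.val a (lt_of_lt_of_le l.2 ha), mul_zero]
  have h4 : Uᵀ * Gm (b + f) hn x * U = ((Xr x).submatrix id (Fin.castLE hn) * U)ᵀ *
        ((Xr x).submatrix id (Fin.castLE hn) * U) := by
    rw [PGram_Gm, Matrix.transpose_mul, Matrix.mul_assoc, Matrix.mul_assoc, Matrix.mul_assoc]
  have h5 : ∀ l m, (Uᵀ * Gm (b + f) hn x * U) l m =
      (Xr x).mulVec (PGram_w b x l.val) ⬝ᵥ (Xr x).mulVec (PGram_w b x m.val) := by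
    intro l m
    rw [h4, Matrix.mul_apply]
    refine Finset.sum_congr rfl fun k _ => ?_
    rw [Matrix.transpose_apply, hAU, hAU]
  have h6 : (Uᵀ * Gm (b + f) hn x * U).submatrix finSumFinEquiv finSumFinEquiv =
      Matrix.fromBlocks (Gm b (by omega) x) 0 0 (Hm b f x) := by
    have hl : ∀ i : Fin b, PGram_w b x i.val = ei i.val := fun i => if_pos i.2
    have hr : ∀ i : Fin f, PGram_w b x (b + i.val) = pv x b (ei (b + i.val)) :=
      fun i => if_neg (by omega)
    have hei : ∀ i : Fin b, ∀ l : Fin n, b ≤ l.val → ei i.val l = 0 := by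
      intro i l hl
      unfold ei
      rw [if_neg (by omega)]
    ext i j
    rw [Matrix.submatrix_apply, h5]
    rcases i with i | i <;> rcases j with j | j
    · rw [Matrix.fromBlocks_apply₁₁, finSumFinEquiv_apply_left, finSumFinEquiv_apply_left,
        Fin.val_castAdd, Fin.val_castAdd, hl, hl]
      have hX : ∀ l : Fin b, (Xr x).mulVec (ei l.val) =
          fun k => Xr x k (Fin.castLE (by omega) l) := by
        intro l
        funext k
        unfold Matrix.mulVec dotProduct ei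
        rw [Finset.sum_eq_single (Fin.castLE (by omega) l)]
        · rw [if_pos (by simp), mul_one]
        · intro a _ ha
          rw [if_neg, mul_zero]
          intro h
          exact ha (Fin.ext h)
        · intro h
          exact absurd (Finset.mem_univ _) h
      rw [hX, hX]
      unfold Gm dotProduct
      rw [Matrix.submatrix_apply, Matrix.mul_apply]
      rfl
    · rw [Matrix.fromBlocks_apply₁₂, finSumFinEquiv_apply_left, finSumFinEquiv_apply_right,
        Fin.val_castAdd, Fin.val_natAdd, hl, hr, dotProduct_comm]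
      exact (pv_spec x b _).orth _ (hei i)
    · rw [Matrix.fromBlocks_apply₂₁, finSumFinEquiv_apply_left, finSumFinEquiv_apply_right,
        Fin.val_castAdd, Fin.val_natAdd, hl, hr]
      exact (pv_spec x b _).orth _ (hei j)
    · rw [Matrix.fromBlocks_apply₂₂, finSumFinEquiv_apply_right, finSumFinEquiv_apply_right,
        Fin.val_natAdd, Fin.val_natAdd, hr, hr]
      rfl
  have h7 := Matrix.det_submatrix_equiv_self finSumFinEquiv (Uᵀ * Gm (b + f) hn x * U)
  rw [h6, Matrix.det_fromBlocks_zero₂₁, Matrix.det_mul, Matrix.det_mul, Matrix.det_transpose, hdet,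
    one_mul, mul_one] at h7
  rw [Dn_eq_det (b + f) hn x, Dn_eq_det b (by omega) x, h7]

/-- `cᵀ (Gm b) c = nq X ĉ`, `ĉ = Σ c_l e_l`.  -/
theorem Gm_quad (b : ℕ) (hb : b ≤ n) (x : Matrix.GeneralLinearGroup (Fin n) ℤ) (c : Fin b → ℝ) :
    c ⬝ᵥ (Gm b hb x).mulVec c = nq (Xr x) (∑ l : Fin b, c l • ei l.val) := by
  rw [PGram_Gm, PGram_quad]
  have h : ((Xr x).submatrix id (Fin.castLE hb)).mulVec c =
      (Xr x).mulVec (∑ l : Fin b, c l • ei l.val) := by
    funext k
    have h1 : ∀ a : Fin n, b ≤ a.val → (∑ l : Fin b, c l • ei l.val : Fin n → ℝ) a = 0 := by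
      intro a ha
      rw [Finset.sum_apply]
      refine Finset.sum_eq_zero fun l _ => ?_
      rw [Pi.smul_apply]
      unfold ei
      rw [if_neg (by omega), smul_zero]
    have h2 : ∀ l : Fin b, (∑ l : Fin b, c l • ei l.val : Fin n → ℝ) (Fin.castLE hb l) = c l := by
      intro l
      rw [Finset.sum_apply, Finset.sum_eq_single l]
      · rw [Pi.smul_apply]
        unfold ei
        rw [if_pos (by simp), smul_eq_mul, mul_one]
      · intro m _ hm
        rw [Pi.smul_apply]
        unfold ei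
        rw [if_neg, smul_zero]
        intro h
        exact hm (Fin.ext (by simpa using h.symm))
      · intro h
        exact absurd (Finset.mem_univ _) h
    unfold Matrix.mulVec dotProduct
    rw [← Gram_sum b hb (fun a => Xr x k a * (∑ l : Fin b, c l • ei l.val : Fin n → ℝ) a)
      (fun a ha => by rw [h1 a ha, mul_zero])]
    refine Finset.sum_congr rfl fun l _ => ?_
    show Xr x k (Fin.castLE hb l) * c l = _
    rw [h2 l]
  rw [h]
  rfl

theorem PGram_pv_sum (b : ℕ) (x : Matrix.GeneralLinearGroup (Fin n) ℤ) {ι : Type*} (s : Finset ι)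
    (c : ι → ℝ) (v : ι → Fin n → ℝ) :
    pv x b (∑ j ∈ s, c j • v j) = ∑ j ∈ s, c j • pv x b (v j) := by
  classical
  have h0 : pv x b (0 : Fin n → ℝ) = 0 := by
    have h := pv_smul x b 0 (0 : Fin n → ℝ)
    rwa [smul_zero, zero_smul] at h
  induction s using Finset.induction_on with
  | empty => rw [Finset.sum_empty, Finset.sum_empty, h0]
  | insert a s ha ih => rw [Finset.sum_insert ha, Finset.sum_insert ha, pv_add, pv_smul, ih]

/-- `cᵀ (Hm b f) c = nq X (pv x b ĉ)`, `ĉ = Σ c_j e_(b + j)` (`pv_add`, `pv_smul`). -/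
theorem Hm_quad (b f : ℕ) (x : Matrix.GeneralLinearGroup (Fin n) ℤ) (c : Fin f → ℝ) :
    c ⬝ᵥ (Hm b f x).mulVec c = nq (Xr x) (pv x b (∑ j : Fin f, c j • ei (b + j.val))) := by
  obtain ⟨B, hB⟩ : ∃ B : Matrix (Fin n) (Fin f) ℝ,
      B = Matrix.of fun k j => (Xr x).mulVec (pv x b (ei (b + j.val))) k := ⟨_, rfl⟩
  have h1 : Hm b f x = Bᵀ * B := by
    rw [hB]
    ext i j
    rw [Matrix.mul_apply]
    rfl
  have h2 : B.mulVec c = (Xr x).mulVec (pv x b (∑ j : Fin f, c j • ei (b + j.val))) := by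
    rw [PGram_pv_sum, hB]
    funext k
    rw [Matrix.mulVec_sum, Finset.sum_apply]
    unfold Matrix.mulVec dotProduct
    refine Finset.sum_congr rfl fun j _ => ?_
    show (∑ a, Xr x k a * pv x b (ei (b + j.val)) a) * c j =
      ∑ a, Xr x k a * (c j • pv x b (ei (b + j.val))) a
    rw [Finset.sum_mul]
    refine Finset.sum_congr rfl fun a _ => ?_
    rw [Pi.smul_apply, smul_eq_mul]
    ring
  rw [h1, PGram_quad, h2]
  rfl

/-- A real symmetric positive semidefinite matrix is `Pᵀ P` with a square matrix `P`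
(`Matrix.PosSemidef`, square root: e.g. `Matrix.posSemidef_iff_eq_conjTranspose_mul_self`, `CFC.sqrt`). -/
theorem exists_root (k : ℕ) (A : Matrix (Fin k) (Fin k) ℝ) (h1 : Aᵀ = A)
    (h2 : ∀ c : Fin k → ℝ, 0 ≤ c ⬝ᵥ A.mulVec c) : ∃ P : Matrix (Fin k) (Fin k) ℝ, Pᵀ * P = A := by
  have hA : A.PosSemidef := by
    refine Matrix.PosSemidef.of_dotProduct_mulVec_nonneg ?_ ?_
    · rw [Matrix.IsHermitian, Matrix.conjTranspose_eq_transpose_of_trivial]
      exact h1
    · intro c
      rw [star_trivial]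
      exact h2 c
  open scoped MatrixOrder in
  obtain ⟨X, hX, -, h⟩ := sub_zero A ▸ CFC.exists_sqrt_of_isSelfAdjoint_of_quasispectrumRestricts
    hA.isHermitian (QuasispectrumRestricts.nnreal_of_nonneg hA.nonneg)
  refine ⟨X, ?_⟩
  have h3 : Xᵀ = X := by
    have h4 := hX.star_eq
    rwa [Matrix.star_eq_conjTranspose, Matrix.conjTranspose_eq_transpose_of_trivial] at h4
  rw [sub_zero] at h
  rw [h3]
  exact h

/-- Roots of `Gm b` and `Hm b f`. -/
theorem exists_PR (b f : ℕ) (hn : b + f ≤ n) (x : Matrix.GeneralLinearGroup (Fin n) ℤ) :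
    ∃ (P : Matrix (Fin b) (Fin b) ℝ) (R : Matrix (Fin f) (Fin f) ℝ),
      (∀ c : Fin b → ℝ, P.mulVec c ⬝ᵥ P.mulVec c = nq (Xr x) (∑ l : Fin b, c l • ei l.val)) ∧
      (∀ c : Fin f → ℝ, R.mulVec c ⬝ᵥ R.mulVec c =
        nq (Xr x) (pv x b (∑ j : Fin f, c j • ei (b + j.val)))) ∧
      P.det ^ 2 = Dn b x ∧ Dn b x * R.det ^ 2 = Dn (b + f) x := by
  have hnn : ∀ w : Fin n → ℝ, 0 ≤ nq (Xr x) w := by
    intro w
    unfold nq dotProduct
    exact Finset.sum_nonneg fun i _ => mul_self_nonneg _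
  have hb : b ≤ n := by omega
  obtain ⟨P, hP⟩ := exists_root b (Gm b hb x)
    (by rw [PGram_Gm, Matrix.transpose_mul, Matrix.transpose_transpose])
    (fun c => by rw [Gm_quad]; exact hnn _)
  obtain ⟨R, hR⟩ := exists_root f (Hm b f x)
    (by
      ext i j
      exact dotProduct_comm ((Xr x).mulVec (pv x b (ei (b + j.val))))
        ((Xr x).mulVec (pv x b (ei (b + i.val)))))
    (fun c => by rw [Hm_quad]; exact hnn _)
  refine ⟨P, R, fun c => ?_, fun c => ?_, ?_, ?_⟩
  · rw [← Gm_quad b hb x c, ← hP, PGram_quad]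
  · rw [← Hm_quad b f x c, ← hR, PGram_quad]
  · rw [Dn_eq_det b hb x, ← hP, Matrix.det_mul, Matrix.det_transpose, pow_two]
  · rw [Dn_add b f hn x, ← hR, Matrix.det_mul, Matrix.det_transpose, pow_two]

end Pool.Agent.H.MP_e5d137_al.SL
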