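import Mathlib
import Pool.Agent.H.MP_e5d137_al.SL.PGram
import Pool.Agent.H.MP_e5d137_al.SL.Cupp

/-!
# The volume cochains of the blocks
-/

namespace Pool.Agent.H.MP_e5d137_al.SL

open Matrix
open scoped Kronecker

variable {n : ℕ}

/-- the bijection of the pairs with the numbers less than `b * f` -/
private def PVol_e (b f : ℕ) : Fin f × Fin b ≃ Fin (b * f) :=
  finProdFinEquiv.trans (finCongr (Nat.mul_comm f b))

private theorem PVol_e_val (b f : ℕ) (p : Fin f × Fin b) :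
    (PVol_e b f p).val = b * p.1.val + p.2.val := by
  show p.2.val + b * p.1.val = _
  ring

private theorem PVol_bord (q : ℕ) (N : Matrix (Fin (q + 1)) (Fin (q + 1)) ℝ) (h0 : N 0 0 = 1)
    (h1 : ∀ c : Fin q, N c.succ 0 = 0) : N.det = (N.submatrix Fin.succ Fin.succ).det := by
  rw [Matrix.det_succ_column_zero, Fin.sum_univ_succ, h0, Finset.sum_eq_zero]
  · rw [Fin.val_zero, pow_zero, one_mul, one_mul, add_zero]
    rfl
  · intro c _
    rw [h1 c, mul_zero, zero_mul]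

/-- Change of coordinates by a Kronecker product.

Proof.  `vol_mul` with the matrix `N` with `N 0 0 = 1`, `N 0 (c+1) = N (c+1) 0 = 0` and
`N (c+1) (a+1) = P (a % b) (c % b) * S (c / b) (a / b)` for `c, a < b * f`; with `finProdFinEquiv` the
lower block is (up to reindexing) the Kronecker product of `S` and `Pᵀ`, `Matrix.det_kronecker`. -/
theorem vol_kron (b f : ℕ) (P : Matrix (Fin b) (Fin b) ℝ) (S : Matrix (Fin f) (Fin f) ℝ)
    (L L' : List (ℕ → ℝ))
    (h : ∀ k < b * f + 1, ∀ (l : Fin b) (j : Fin f), (L'.getD k 0) (b * j.val + l.val) =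
      ∑ l' : Fin b, ∑ j' : Fin f, P l l' * (L.getD k 0) (b * j'.val + l'.val) * S j' j) :
    vol (b * f) L' = vol (b * f) L * (P.det ^ f * S.det ^ b) := by
  obtain ⟨K, hK⟩ : ∃ K : Matrix (Fin (b * f)) (Fin (b * f)) ℝ, K =
    (S ⊗ₖ Pᵀ).submatrix (PVol_e b f).symm (PVol_e b f).symm := ⟨_, rfl⟩
  have hKd : K.det = P.det ^ f * S.det ^ b := by
    rw [hK, Matrix.det_submatrix_equiv_self, Matrix.det_kronecker, Matrix.det_transpose,
      Fintype.card_fin, Fintype.card_fin, mul_comm]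
  obtain ⟨N, hN⟩ : ∃ N : Matrix (Fin (b * f + 1)) (Fin (b * f + 1)) ℝ, N = Matrix.of
    fun c a => Fin.cases (Fin.cases (1 : ℝ) (fun _ => 0) a)
      (fun c' => Fin.cases (0 : ℝ) (fun a' => K c' a') a) c := ⟨_, rfl⟩
  have h00 : N 0 0 = 1 := by rw [hN]; rfl
  have h0s : ∀ a : Fin (b * f), N 0 a.succ = 0 := fun a => by rw [hN]; rfl
  have hs0 : ∀ c : Fin (b * f), N c.succ 0 = 0 := fun c => by rw [hN]; rfl
  have hss : ∀ c a : Fin (b * f), N c.succ a.succ = K c a := fun c a => by rw [hN]; rfl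
  have hNd : N.det = P.det ^ f * S.det ^ b := by
    rw [PVol_bord _ N h00 hs0, ← hKd]
    congr 1
    ext c a
    exact hss c a
  rw [← hNd]
  refine vol_mul (b * f) L L' N fun k t => ?_
  rw [Fin.sum_univ_succ]
  refine Fin.cases ?_ (fun a => ?_) t
  · rw [h00, Finset.sum_eq_zero fun c _ => by rw [hs0 c, mul_zero]]
    simp [row]
  · rw [h0s, mul_zero, zero_add]
    obtain ⟨p, rfl⟩ := (PVol_e b f).surjective a
    have h2 : ∀ (x : ℕ → ℝ) (c : Fin (b * f)), row x c.succ.val = x c.val := by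
      intro x c
      rw [row, if_neg (by rw [Fin.val_succ]; omega), Fin.val_succ, Nat.add_sub_cancel]
    rw [h2, PVol_e_val, h k.val k.2 p.2 p.1]
    rw [← (PVol_e b f).sum_comp, Fintype.sum_prod_type, Finset.sum_comm]
    refine Finset.sum_congr rfl fun j' _ => Finset.sum_congr rfl fun l' _ => ?_
    rw [h2, hss, PVol_e_val, hK, Matrix.submatrix_apply, Equiv.symm_apply_apply,
      Equiv.symm_apply_apply, Matrix.kroneckerMap_apply, Matrix.transpose_apply]
    ring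

/-- the weight of a block -/
noncomputable def WB (b e : ℕ) (x : Matrix.GeneralLinearGroup (Fin n) ℤ) : ℝ :=
  Dn e x ^ b / Dn b x ^ e

private theorem PVol_psB (b e : ℕ) (hbe : b ≤ e) (hen : e ≤ n)
    (y : Matrix.GeneralLinearGroup (Fin n) ℤ) (l : Fin b) (j : Fin (e - b)) :
    PsB b e y (b * j.val + l.val) = pv y b (ei (b + j.val)) (Fin.castLE (hbe.trans hen) l) := by
  have hl := l.2
  have hj := j.2
  have hb : 0 < b := by omega
  have h1 : (b * j.val + l.val) / b = j.val := by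
    rw [Nat.mul_add_div hb, Nat.div_eq_of_lt hl, add_zero]
  have h2 : (b * j.val + l.val) % b = l.val := by
    rw [Nat.mul_add_mod, Nat.mod_eq_of_lt hl]
  unfold PsB
  rw [h1, h2, if_pos (by omega)]
  unfold co
  rw [dif_pos (by omega)]
  rfl

/-- the linear map `c ↦ pv x b c` -/
private noncomputable def PVol_lin (x : Matrix.GeneralLinearGroup (Fin n) ℤ) (b : ℕ) :
    (Fin n → ℝ) →ₗ[ℝ] (Fin n → ℝ) where
  toFun := pv x b
  map_add' := pv_add x b
  map_smul' := pv_smul x b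

private theorem PVol_pv_sum (x : Matrix.GeneralLinearGroup (Fin n) ℤ) (b : ℕ) {f : ℕ}
    (c : Fin f → ℝ) (u : Fin f → Fin n → ℝ) :
    pv x b (∑ m, c m • u m) = ∑ m, c m • pv x b (u m) := by
  have h1 : pv x b (∑ m, c m • u m) = PVol_lin x b (∑ m, c m • u m) := rfl
  rw [h1, map_sum]
  refine Finset.sum_congr rfl fun m _ => ?_
  rw [map_smul]
  rfl

private theorem PVol_recon (b : ℕ) (hb : b ≤ n) (w : Fin n → ℝ)
    (hw : ∀ l : Fin n, b ≤ l.val → w l = 0) :
    ∑ l : Fin b, w (Fin.castLE hb l) • (ei l.val : Fin n → ℝ) = w := by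
  funext i
  rw [Finset.sum_apply]
  by_cases hi : i.val < b
  · rw [Finset.sum_eq_single ⟨i.val, hi⟩]
    · rw [Pi.smul_apply, smul_eq_mul, ei, if_pos rfl, mul_one]
      rfl
    · intro l _ hl
      rw [Pi.smul_apply, smul_eq_mul, ei, if_neg, mul_zero]
      intro h
      exact hl (Fin.ext h.symm)
    · intro h
      exact absurd (Finset.mem_univ _) h
  · rw [hw i (by omega)]
    refine Finset.sum_eq_zero fun l _ => ?_
    rw [Pi.smul_apply, smul_eq_mul, ei, if_neg, mul_zero]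
    intro h
    have := l.2
    omega

private theorem PVol_sq_le {f : ℕ} (v : Fin f → ℝ) (l : Fin f) {B : ℝ} (h : v ⬝ᵥ v ≤ B) :
    |v l| ≤ √B := by
  refine Real.abs_le_sqrt ?_
  refine le_trans ?_ h
  rw [sq]
  exact Finset.single_le_sum (f := fun i => v i * v i) (fun i _ => mul_self_nonneg (v i))
    (Finset.mem_univ l)

/-- the entries of `P (PsB y) S` -/
private noncomputable def PVol_G (b e : ℕ) (P : Matrix (Fin b) (Fin b) ℝ)
    (S : Matrix (Fin (e - b)) (Fin (e - b)) ℝ) (y : Matrix.GeneralLinearGroup (Fin n) ℤ)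
    (l : Fin b) (j : Fin (e - b)) : ℝ :=
  ∑ l' : Fin b, ∑ j' : Fin (e - b), P l l' * PsB b e y (b * j'.val + l'.val) * S j' j

/-- One vertex. -/
private theorem PVol_one (b e : ℕ) (hbe : b ≤ e) (hen : e ≤ n)
    {x y : Matrix.GeneralLinearGroup (Fin n) ℤ} {P : Matrix (Fin b) (Fin b) ℝ}
    {R S : Matrix (Fin (e - b)) (Fin (e - b)) ℝ}
    (hP : ∀ c : Fin b → ℝ, P.mulVec c ⬝ᵥ P.mulVec c = nq (Xr x) (∑ l : Fin b, c l • ei l.val))
    (hR : ∀ c : Fin (e - b) → ℝ, R.mulVec c ⬝ᵥ R.mulVec c =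
        nq (Xr x) (pv x b (∑ j : Fin (e - b), c j • ei (b + j.val))))
    (hRS : R * S = 1) {B : ℝ}
    (hB : ∀ c : Fin n → ℝ, nq (Xr x) (pv y b c - pv x b c) ≤ B * nq (Xr x) (pv x b c))
    (l : Fin b) (j : Fin (e - b)) : |PVol_G b e P S y l j - PVol_G b e P S x l j| ≤ √B := by
  obtain ⟨c, hc⟩ : ∃ c : Fin n → ℝ, c = ∑ m : Fin (e - b), S m j • ei (b + m.val) := ⟨_, rfl⟩
  obtain ⟨w, hw⟩ : ∃ w : Fin n → ℝ, w = pv y b c - pv x b c := ⟨_, rfl⟩
  have hw0 : ∀ l : Fin n, b ≤ l.val → w l = 0 := by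
    intro l hl
    rw [hw, Pi.sub_apply, (pv_spec y b c).eq l hl, (pv_spec x b c).eq l hl, sub_self]
  have h1 : nq (Xr x) w ≤ B := by
    have h2 := hB c
    rw [← hw] at h2
    have h3 := hR fun m => S m j
    rw [← hc] at h3
    have h4 : R.mulVec (fun m => S m j) = Pi.single j 1 := by
      funext i
      have h5 : (R * S) i j = (1 : Matrix _ _ ℝ) i j := by rw [hRS]
      rw [Matrix.mul_apply, Matrix.one_apply] at h5
      rw [Pi.single_apply]
      exact h5
    rw [h4] at h3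
    rw [← h3, single_dotProduct, one_mul, Pi.single_eq_same, mul_one] at h2
    exact h2
  have h2 := hP fun l => w (Fin.castLE (hbe.trans hen) l)
  rw [PVol_recon b (hbe.trans hen) w hw0] at h2
  have h3 := PVol_sq_le (P.mulVec fun l => w (Fin.castLE (hbe.trans hen) l)) l
    (h2.le.trans h1)
  have h4 : P.mulVec (fun l => w (Fin.castLE (hbe.trans hen) l)) l =
      PVol_G b e P S y l j - PVol_G b e P S x l j := by
    unfold PVol_G
    rw [← Finset.sum_sub_distrib]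
    unfold Matrix.mulVec dotProduct
    refine Finset.sum_congr rfl fun l' _ => ?_
    show P l l' * w (Fin.castLE (hbe.trans hen) l') = _
    rw [← Finset.sum_sub_distrib, hw, hc, PVol_pv_sum, PVol_pv_sum, Pi.sub_apply,
      Finset.sum_apply, Finset.sum_apply, ← Finset.sum_sub_distrib, Finset.mul_sum]
    refine Finset.sum_congr rfl fun m _ => ?_
    rw [PVol_psB b e hbe hen, PVol_psB b e hbe hen, Pi.smul_apply, Pi.smul_apply, smul_eq_mul,
      smul_eq_mul]
    ring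
  rw [← h4]
  exact h3

private theorem PVol_getD {α β : Type} (F : α → β) (σ : List α) (d : β) {k : ℕ}
    (hk : k < σ.length) : (σ.map F).getD k d = F σ[k] := by
  rw [List.getD_eq_getElem _ d (by rw [List.length_map]; exact hk), List.getElem_map]

/-- The volume of small simplices is bounded by the weight.

Proof.  Let `f = e - b`, `q = b * f`, `P`, `R` from `exists_PR`, `S = R⁻¹` (`det R ≠ 0` since `Dn (b+f) x > 0`).
For `y = x s`, `s ∈ T`, let `D_y` be the `b × f` matrix with the columns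
`pv y b e_(b+j) - pv x b e_(b+j)` (in `V_b`).  The entries of `P D_y S` are bounded by a constant `C₁` depending only
on `T`: for a column `c = S e_j` (so `R c = e_j`) and `ĉ = Σ c_j e_(b+j)`,
`|P D_y c|² = nq X (pv y b ĉ - pv x b ĉ) ≤ C nq X (pv x b ĉ) = C |R c|² = C` (`pv_near`, linearity).
Let `L = σ.map (PsB b e)` and let `L'` be the list of the `ℕ → ℝ` with the values
`(P (PsB y) S)` at `b * j + l`.  By `vol_kron` `vol q L' = vol q L * (det P ^ f * det S ^ b)`, and by `vol_bound`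
(differences of two points of `L'` are at most `2 C₁`) `|vol q L'| ≤ C₂`.  So
`vol q L ^ 2 ≤ C₂ ^ 2 * (det R ^ 2) ^ b / (det P ^ 2) ^ f = C₂ ^ 2 * (Dn e / Dn b) ^ b / Dn b ^ f = C₂ ^ 2 * WB b e x`. -/
theorem volB_le (T : Finset (Matrix.GeneralLinearGroup (Fin n) ℤ)) (b e : ℕ) (hb : 0 < b)
    (hbe : b ≤ e) (hen : e ≤ n) :
    ∃ C : ℝ, 0 ≤ C ∧ ∀ (x : Matrix.GeneralLinearGroup (Fin n) ℤ)
      (σ : List (Matrix.GeneralLinearGroup (Fin n) ℤ)), σ.length = b * (e - b) + 1 →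
      (∀ y ∈ σ, ∃ s ∈ T, y = x * s) → vc (PsB b e) (b * (e - b)) σ ^ 2 ≤ C * WB b e x := by
  choose Cs hCs0 hCs using fun s : Matrix.GeneralLinearGroup (Fin n) ℤ => pv_near s
  obtain ⟨B, hB⟩ : ∃ B : ℝ, B = ∑ s ∈ T, Cs s := ⟨_, rfl⟩
  have hBs : ∀ s ∈ T, Cs s ≤ B := by
    intro s hs
    rw [hB]
    exact Finset.single_le_sum (f := Cs) (fun i _ => (hCs0 i).le) hs
  obtain ⟨C₂, hC₂⟩ := vol_bound (b * (e - b)) (2 * √B)
  refine ⟨C₂ ^ 2, sq_nonneg _, fun x σ hσ hT => ?_⟩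
  obtain ⟨P, R, hP, hR, hPd, hRd⟩ := exists_PR b (e - b) (by omega) x
  rw [Nat.add_sub_cancel' hbe] at hRd
  have hD1 := Gram_pos b x
  have hD2 := Gram_pos e x
  have hRd0 : R.det ≠ 0 := by
    intro h0
    rw [h0] at hRd
    norm_num at hRd
    exact hD2.ne hRd
  have hPd0 : P.det ≠ 0 := by
    intro h0
    rw [h0] at hPd
    norm_num at hPd
    exact hD1.ne hPd
  have hRS : R * R⁻¹ = 1 := Matrix.mul_nonsing_inv R (isUnit_iff_ne_zero.2 hRd0)
  obtain ⟨S, hS⟩ : ∃ S, S = R⁻¹ := ⟨_, rfl⟩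
  rw [← hS] at hRS
  have hdet : R.det * S.det = 1 := by rw [← Matrix.det_mul, hRS, Matrix.det_one]
  have hG : ∀ y ∈ σ, ∀ l j, |PVol_G b e P S y l j - PVol_G b e P S x l j| ≤ √B := by
    intro y hy l j
    obtain ⟨s, hs, rfl⟩ := hT y hy
    refine PVol_one b e hbe hen hP hR hRS (fun c => ?_) l j
    refine (hCs s x b c).trans (mul_le_mul_of_nonneg_right (hBs s hs) ?_)
    show (0 : ℝ) ≤ (Xr x).mulVec (pv x b c) ⬝ᵥ (Xr x).mulVec (pv x b c)
    exact Finset.sum_nonneg fun i _ => mul_self_nonneg _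
  obtain ⟨F, hF⟩ : ∃ F : Matrix.GeneralLinearGroup (Fin n) ℤ → ℕ → ℝ, F = fun y a =>
    if h : a / b < e - b then PVol_G b e P S y ⟨a % b, Nat.mod_lt _ hb⟩ ⟨a / b, h⟩ else 0 :=
    ⟨_, rfl⟩
  have hFv : ∀ y (l : Fin b) (j : Fin (e - b)), F y (b * j.val + l.val) =
      PVol_G b e P S y l j := by
    intro y l j
    have h1 : (b * j.val + l.val) / b = j.val := by
      rw [Nat.mul_add_div hb, Nat.div_eq_of_lt l.2, add_zero]
    have h2 : (b * j.val + l.val) % b = l.val := by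
      rw [Nat.mul_add_mod, Nat.mod_eq_of_lt l.2]
    rw [hF]
    simp only [h1, h2]
    rw [dif_pos j.2]
  have h1 := vol_kron b (e - b) P S (σ.map (PsB b e)) (σ.map F) (by
    intro k hk l j
    rw [← hσ] at hk
    rw [PVol_getD _ _ _ hk, PVol_getD _ _ _ hk, hFv]
    rfl)
  have h2 : |vol (b * (e - b)) (σ.map F)| ≤ C₂ := by
    refine hC₂ _ (by rw [List.length_map, hσ]) ?_
    intro p hp p' hp' a ha
    rw [List.mem_map] at hp hp'
    obtain ⟨y, hy, rfl⟩ := hp
    obtain ⟨y', hy', rfl⟩ := hp'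
    have h3 : a / b < e - b := Nat.div_lt_of_lt_mul ha
    rw [hF]
    simp only [dif_pos h3]
    have h4 := hG y hy ⟨a % b, Nat.mod_lt _ hb⟩ ⟨a / b, h3⟩
    have h5 := hG y' hy' ⟨a % b, Nat.mod_lt _ hb⟩ ⟨a / b, h3⟩
    rw [abs_le] at h4 h5 ⊢
    constructor
    · linarith [h4.1, h5.2]
    · linarith [h4.2, h5.1]
  unfold vc
  obtain ⟨V, hV⟩ : ∃ V, V = vol (b * (e - b)) (σ.map (PsB b e)) := ⟨_, rfl⟩
  obtain ⟨V', hV'⟩ : ∃ V', V' = vol (b * (e - b)) (σ.map F) := ⟨_, rfl⟩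
  rw [← hV, ← hV'] at h1
  rw [← hV'] at h2
  rw [← hV]
  have h3 : V' ^ 2 ≤ C₂ ^ 2 := by
    rw [← sq_abs V']
    exact pow_le_pow_left₀ (abs_nonneg _) h2 2
  have h4 : V' ^ 2 * (R.det ^ 2) ^ b = V ^ 2 * (P.det ^ 2) ^ (e - b) := by
    rw [h1]
    have h5 : (P.det ^ 2) ^ (e - b) = (P.det ^ (e - b)) ^ 2 := by
      rw [← pow_mul, ← pow_mul, mul_comm]
    have h6 : (R.det ^ 2) ^ b = (R.det ^ b) ^ 2 := by
      rw [← pow_mul, ← pow_mul, mul_comm]
    have h7 : R.det ^ b * S.det ^ b = 1 := by rw [← mul_pow, hdet, one_pow]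
    rw [h5, h6]
    calc (V * (P.det ^ (e - b) * S.det ^ b)) ^ 2 * (R.det ^ b) ^ 2 =
        V ^ 2 * (P.det ^ (e - b)) ^ 2 * (R.det ^ b * S.det ^ b) ^ 2 := by ring
      _ = V ^ 2 * (P.det ^ (e - b)) ^ 2 := by rw [h7, one_pow, mul_one]
  rw [hPd] at h4
  have h8 : R.det ^ 2 = Dn e x / Dn b x := by
    rw [eq_div_iff hD1.ne', mul_comm]
    exact hRd
  rw [h8, div_pow] at h4
  unfold WB
  have h9 : Dn b x ^ e = Dn b x ^ b * Dn b x ^ (e - b) := by
    rw [← pow_add, Nat.add_sub_cancel' hbe]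
  have p1 : 0 < Dn b x ^ b := pow_pos hD1 _
  have p2 : 0 < Dn b x ^ (e - b) := pow_pos hD1 _
  have p3 : 0 < Dn e x ^ b := pow_pos hD2 _
  have h10 : V ^ 2 = V' ^ 2 * (Dn e x ^ b / Dn b x ^ e) := by
    rw [h9]
    field_simp
    field_simp at h4
    linarith
  rw [h10]
  exact mul_le_mul_of_nonneg_right h3 (div_nonneg p3.le (pow_pos hD1 _).le)

/-- `h` is `[[A, 0], [0, 1]]` with blocks of size `e`, `n - e`, and `det h = 1` -/
structure Lv (e : ℕ) (h : Matrix.GeneralLinearGroup (Fin n) ℤ) : Prop where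
  row : ∀ i l : Fin n, e ≤ i.val → (h : Matrix (Fin n) (Fin n) ℤ) i l = if i = l then 1 else 0
  col : ∀ i l : Fin n, e ≤ l.val → (h : Matrix (Fin n) (Fin n) ℤ) i l = if i = l then 1 else 0
  det : (h : Matrix (Fin n) (Fin n) ℤ).det = 1

theorem Lv.mono {e e' : ℕ} (hee : e ≤ e') {h : Matrix.GeneralLinearGroup (Fin n) ℤ}
    (hl : Lv e h) : Lv e' h :=
  ⟨fun i l hi => hl.row i l (hee.trans hi), fun i l hi => hl.col i l (hee.trans hi), hl.det⟩

private theorem Lv.PVol_bl {b : ℕ} {h : Matrix.GeneralLinearGroup (Fin n) ℤ} (hl : Lv b h) :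
    Bl b h := by
  refine ⟨fun i l h1 h2 => ?_, fun i l _ h2 => hl.row i l h2⟩
  rw [hl.row i l h2, if_neg]
  intro h3
  rw [h3] at h2
  omega

/-- the leading block -/
private noncomputable def PVol_P (b : ℕ) (hb : b ≤ n)
    (h : Matrix.GeneralLinearGroup (Fin n) ℤ) : Matrix (Fin b) (Fin b) ℝ :=
  (Mr h).submatrix (Fin.castLE hb) (Fin.castLE hb)

private theorem PVol_P_det (b : ℕ) (hb : b ≤ n) (h : Matrix.GeneralLinearGroup (Fin n) ℤ)
    (hl : Lv b h) : (PVol_P b hb h).det = 1 := by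
  have h1 : (Mr h).det = 1 := by
    have h2 := Int.cast_det (R := ℝ) (h : Matrix (Fin n) (Fin n) ℤ)
    rw [hl.det, Int.cast_one] at h2
    exact h2.symm
  have hrow : ∀ i l : Fin n, b ≤ i.val → Mr h i l = if i = l then 1 else 0 := by
    intro i l hi
    show (((h : Matrix (Fin n) (Fin n) ℤ) i l : ℤ) : ℝ) = _
    rw [hl.row i l hi]
    split_ifs <;> simp
  rw [Matrix.twoBlockTriangular_det (Mr h) (fun i : Fin n => i.val < b)] at h1
  · have h3 : (Matrix.toSquareBlockProp (Mr h) fun i : Fin n => ¬ i.val < b) = 1 := by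
      ext i l
      rw [Matrix.toSquareBlockProp_def, Matrix.of_apply, hrow _ _ (not_lt.1 i.2),
        Matrix.one_apply]
      exact if_congr Subtype.ext_iff.symm rfl rfl
    rw [h3, Matrix.det_one, mul_one] at h1
    let φ : Fin b ≃ {i : Fin n // i.val < b} :=
      ⟨fun l => ⟨Fin.castLE hb l, l.2⟩, fun i => ⟨i.1.val, i.2⟩, fun l => rfl, fun i => rfl⟩
    have h4 := Matrix.det_submatrix_equiv_self φ
      (Matrix.toSquareBlockProp (Mr h) fun i : Fin n => i.val < b)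
    rw [h1] at h4
    exact h4
  · intro i hi l hl'
    rw [hrow i l (not_lt.1 hi), if_neg]
    intro h2
    rw [h2] at hi
    exact hi hl'

private theorem PVol_left (b e : ℕ) (hbe : b ≤ e) (hen : e ≤ n)
    (h : Matrix.GeneralLinearGroup (Fin n) ℤ) (hl : Lv b h)
    (x : Matrix.GeneralLinearGroup (Fin n) ℤ) (l : Fin b) (j : Fin (e - b)) :
    PsB b e (h * x) (b * j.val + l.val) =
      ∑ l' : Fin b, PVol_P b (hbe.trans hen) h l l' * PsB b e x (b * j.val + l'.val) := by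
  rw [PVol_psB b e hbe hen, pv_left b h x hl.PVol_bl]
  have h1 := Gram_sum b (hbe.trans hen)
    (fun m => Mr h (Fin.castLE (hbe.trans hen) l) m * pv x b (ei (b + j.val)) m) (by
      intro a ha
      have h2 : Mr h (Fin.castLE (hbe.trans hen) l) a = 0 := by
        show (((h : Matrix (Fin n) (Fin n) ℤ) _ a : ℤ) : ℝ) = 0
        rw [hl.col _ a ha, if_neg, Int.cast_zero]
        intro h3
        have h4 := congrArg Fin.val h3
        have h5 := l.2
        rw [Fin.val_castLE] at h4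
        omega
      show Mr h (Fin.castLE (hbe.trans hen) l) a * _ = 0
      rw [h2, zero_mul])
  refine h1.symm.trans (Finset.sum_congr rfl fun l' _ => ?_)
  rw [PVol_psB b e hbe hen]
  rfl

/-- Invariance of the volume.

Proof.  `Bl b h`, so `PsB b e (h * x) (b * j + l) = Σ_{l' < b} h l l' * PsB b e x (b * j + l')` for
`l < b`, `j < e - b` (`pv_left`; `h l l' = 0` for `l < b ≤ l'`).  `vol_kron` with `P` the leading block of `h`
(its determinant is `det h = 1`) and `S = 1`. -/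
theorem volB_inv (b e : ℕ) (hb : 0 < b) (hbe : b ≤ e) (hen : e ≤ n)
    (h : Matrix.GeneralLinearGroup (Fin n) ℤ) (hl : Lv b h)
    (σ : List (Matrix.GeneralLinearGroup (Fin n) ℤ)) (hσ : σ.length = b * (e - b) + 1) :
    vc (PsB b e) (b * (e - b)) (σ.map (fun x => h * x)) = vc (PsB b e) (b * (e - b)) σ := by
  unfold vc
  rw [vol_kron b (e - b) (PVol_P b (hbe.trans hen) h) 1 (σ.map (PsB b e))
    ((σ.map (fun x => h * x)).map (PsB b e)), PVol_P_det b (hbe.trans hen) h hl,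
    Matrix.det_one, one_pow, one_pow, mul_one, mul_one]
  intro k hk l j
  rw [← hσ] at hk
  rw [List.map_map, PVol_getD _ _ _ hk, PVol_getD _ _ _ hk, Function.comp_apply,
    PVol_left b e hbe hen h hl]
  refine Finset.sum_congr rfl fun l' _ => ?_
  rw [Finset.sum_eq_single j]
  · rw [Matrix.one_apply_eq, mul_one]
  · intro j' _ hj'
    rw [Matrix.one_apply_ne hj', mul_zero]
  · intro h0
    exact absurd (Finset.mem_univ _) h0

end Pool.Agent.H.MP_e5d137_al.SL
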