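import Mathlib
import Pool.Agent.H.MP_e5d137_al.SL.PVol

/-!
# The unipotent radicals

`s 0 = n ≥ s 1 ≥ s 2 ≥ ...` is a flag; the block `r` consists of the columns `j`, `s (r+1) ≤ j < s r`, and
of the rows `l < s (r+1)`.
-/

namespace Pool.Agent.H.MP_e5d137_al.SL

variable {n : ℕ}

/-- the group generated by the elementary matrices of the blocks `r < i` -/
def NF (s : ℕ → ℕ) (i : ℕ) : Subgroup (Matrix.GeneralLinearGroup (Fin n) ℤ) :=
  Subgroup.closure {g | ∃ r : ℕ, ∃ j : Fin n, ∃ l : ℕ, r < i ∧ s (r + 1) ≤ j.val ∧ j.val < s r ∧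
    l < s (r + 1) ∧ g = tE j l}

theorem NF_zero (s : ℕ → ℕ) : NF s 0 = (⊥ : Subgroup (Matrix.GeneralLinearGroup (Fin n) ℤ)) := by
  unfold NF
  rw [Subgroup.closure_eq_bot_iff]
  rintro g ⟨r, j, l, h1, -⟩
  exact absurd h1 (Nat.not_lt_zero r)

private theorem PGrp_tB (b a : ℕ) (h : b + a / b < n) :
    tB b a = tE (⟨b + a / b, h⟩ : Fin n) (a % b) := dif_pos h

private theorem PGrp_tE (j : Fin n) (l : ℕ) (h : l < j.val) :
    tE j l = col j (Pi.single ⟨l, h.trans j.2⟩ 1) := dif_pos h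

private theorem PGrp_supp (j : Fin n) (l : ℕ) (h : l < j.val) (b : ℕ) (hb : l < b) (i : Fin n)
    (hi : b ≤ i.val) : (Pi.single ⟨l, h.trans j.2⟩ 1 : Fin n → ℤ) i = 0 := by
  rw [Pi.single_apply, if_neg]
  intro h1
  rw [h1] at hi
  exact absurd hb (not_lt.2 hi)

private theorem PGrp_app (j : Fin n) (c : Fin n → ℤ) (i l : Fin n) :
    ((col j c : Matrix.GeneralLinearGroup (Fin n) ℤ) : Matrix (Fin n) (Fin n) ℤ) i l =
      (if i = l then 1 else 0) + if l = j ∧ i ≠ j then c i else 0 := by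
  rw [col_val, colM, Matrix.add_apply, Matrix.one_apply, Matrix.of_apply]

private theorem PGrp_vec (j : Fin n) (c : Fin n → ℤ) (hc : c j = 0) :
    ((col j c : Matrix.GeneralLinearGroup (Fin n) ℤ) : Matrix (Fin n) (Fin n) ℤ) =
      1 + Matrix.vecMulVec c (Pi.single j 1) := by
  ext i l
  rw [PGrp_app, Matrix.add_apply, Matrix.one_apply, Matrix.vecMulVec_apply, Pi.single_apply]
  congr 1
  by_cases h1 : l = j
  · by_cases h2 : i = j
    · rw [if_neg (fun h => h.2 h2), h2, hc, zero_mul]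
    · rw [if_pos ⟨h1, h2⟩, if_pos h1, mul_one]
  · rw [if_neg (fun h => h1 h.1), if_neg h1, mul_zero]

/-- The generators of the block `i` are the `tB (s (i+1)) a`, `a < s (i+1) * (s i - s (i+1))`
(`a = b * (j - b) + l`, `b = s (i+1)`).  `Subgroup.closure_union`. -/
theorem NF_succ (s : ℕ → ℕ) (hs : Antitone s) (h0 : s 0 = n) (i : ℕ) :
    NF s (i + 1) = (NF s i ⊔ Subgroup.closure
      (tB (s (i + 1)) '' {a | a < s (i + 1) * (s i - s (i + 1))}) :
      Subgroup (Matrix.GeneralLinearGroup (Fin n) ℤ)) := by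
  unfold NF
  rw [← Subgroup.closure_union]
  congr 1
  ext g
  obtain ⟨b, hb⟩ : ∃ b, b = s (i + 1) := ⟨_, rfl⟩
  obtain ⟨e, he⟩ : ∃ e, e = s i := ⟨_, rfl⟩
  have hen : e ≤ n := by
    rw [he, ← h0]
    exact hs (Nat.zero_le i)
  constructor
  · rintro ⟨r, j, l, h1, h2, h3, h4, h5⟩
    rcases Nat.lt_succ_iff_lt_or_eq.1 h1 with h6 | h6
    · left
      exact ⟨r, j, l, h6, h2, h3, h4, h5⟩
    · right
      subst h6
      rw [← hb] at h2 h4 ⊢
      rw [← he] at h3 ⊢
      have hb0 : 0 < b := lt_of_le_of_lt (Nat.zero_le l) h4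
      have e1 : (b * (j.val - b) + l) / b = j.val - b := by
        rw [Nat.mul_add_div hb0, Nat.div_eq_of_lt h4, add_zero]
      have e2 : (b * (j.val - b) + l) % b = l := by
        rw [Nat.mul_add_mod, Nat.mod_eq_of_lt h4]
      have e3 : b + (b * (j.val - b) + l) / b = j.val := by
        rw [e1]
        omega
      refine ⟨b * (j.val - b) + l, ?_, ?_⟩
      · have h7 : b * (j.val - b) + l < b * (j.val - b + 1) := by
          rw [Nat.mul_add, Nat.mul_one]
          omega
        exact lt_of_lt_of_le h7 (Nat.mul_le_mul_left b (by omega))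
      · have h8 : b + (b * (j.val - b) + l) / b < n := by
          rw [e3]
          exact j.2
        rw [h5, PGrp_tB b _ h8, e2]
        congr 1
        exact Fin.ext e3
  · rintro (⟨r, j, l, h1, h2, h3, h4, h5⟩ | ⟨a, h1, h2⟩)
    · exact ⟨r, j, l, Nat.lt_succ_of_lt h1, h2, h3, h4, h5⟩
    · rw [← hb] at h1 h2
      rw [← he] at h1
      have h1' : a < b * (e - b) := h1
      have hb0 : 0 < b := by
        rcases Nat.eq_zero_or_pos b with h3 | h3
        · rw [h3, Nat.zero_mul] at h1'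
          exact absurd h1' (Nat.not_lt_zero a)
        · exact h3
      have h3 : a / b < e - b := Nat.div_lt_of_lt_mul h1'
      have h4' : b + a / b < e := Nat.add_lt_of_lt_sub' h3
      have h4 : b + a / b < n := lt_of_lt_of_le h4' hen
      refine ⟨i, ⟨b + a / b, h4⟩, a % b, Nat.lt_succ_self i, ?_, ?_, ?_, ?_⟩
      · rw [← hb]
        exact Nat.le_add_right _ _
      · rw [← he]
        exact h4'
      · rw [← hb]
        exact Nat.mod_lt _ hb0
      · rw [← h2, PGrp_tB b a h4]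

private theorem PGrp_mono {s : ℕ → ℕ} (hs : Antitone s) {r i : ℕ} (hr : r < i) :
    s i ≤ s (r + 1) := hs hr

/-- As `Fb_of_mem` (`ColM.lean`). -/
theorem NF_Fb (s : ℕ → ℕ) (hs : Antitone s) (i : ℕ)
    (h : Matrix.GeneralLinearGroup (Fin n) ℤ) (hh : h ∈ NF s i) : Fb (s i) h := by
  unfold NF at hh
  induction hh using Subgroup.closure_induction with
  | mem g hg =>
    obtain ⟨r, j, l, h1, h2, h3, h4, rfl⟩ := hg
    intro k m hm
    have h5 : ¬ (m = j ∧ k ≠ j) := by
      rintro ⟨h6, -⟩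
      rw [h6] at hm
      exact absurd hm (not_lt.2 ((PGrp_mono hs h1).trans h2))
    rw [PGrp_tE j l (lt_of_lt_of_le h4 h2), PGrp_app, if_neg h5, add_zero]
  | one =>
    intro k m _
    rw [Units.val_one, Matrix.one_apply]
  | mul x y _ _ hx hy =>
    intro k m hm
    rw [Units.val_mul, Matrix.mul_apply, Finset.sum_eq_single m]
    · rw [hy m m hm, if_pos rfl, mul_one, hx k m hm]
    · intro t _ ht
      rw [hy t m hm, if_neg ht, mul_zero]
    · intro h2
      exact absurd (Finset.mem_univ _) h2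
  | inv x _ hx =>
    intro k m hm
    have h1 : ((x⁻¹ * x : Matrix.GeneralLinearGroup (Fin n) ℤ) : Matrix (Fin n) (Fin n) ℤ) k m =
        ((x⁻¹ : Matrix.GeneralLinearGroup (Fin n) ℤ) : Matrix (Fin n) (Fin n) ℤ) k m := by
      rw [Units.val_mul, Matrix.mul_apply, Finset.sum_eq_single m]
      · rw [hx m m hm, if_pos rfl, mul_one]
      · intro t _ ht
        rw [hx t m hm, if_neg ht, mul_zero]
      · intro h2
        exact absurd (Finset.mem_univ _) h2
    rw [← h1, inv_mul_cancel, Units.val_one, Matrix.one_apply]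

/-- the vectors `c` with `col j c` in `NF s i` -/
private def PGrp_S (s : ℕ → ℕ) (i : ℕ) (j : Fin n) : AddSubgroup (Fin n → ℤ) where
  carrier := {c | col j c ∈ NF (n := n) s i}
  zero_mem' := by
    show col j 0 ∈ NF (n := n) s i
    rw [col_zero]
    exact one_mem _
  add_mem' := by
    intro c c' hc hc'
    show col j (c + c') ∈ NF (n := n) s i
    rw [← col_mul]
    exact mul_mem hc hc'
  neg_mem' := by
    intro c hc
    show col j (-c) ∈ NF (n := n) s i
    rw [← col_inv]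
    exact inv_mem hc

/-- For `c` supported on `l < s (r+1)` and a column `j` of the block `r < i`, `col j c ∈ NF s i`
(as `col_mem_UN`). -/
theorem NF_col (s : ℕ → ℕ) (hs : Antitone s) (i r : ℕ) (hr : r < i) (j : Fin n)
    (h1 : s (r + 1) ≤ j.val) (h2 : j.val < s r) (c : Fin n → ℤ)
    (hc : ∀ l : Fin n, s (r + 1) ≤ l.val → c l = 0) :
    col j c ∈ NF (n := n) s i := by
  show c ∈ PGrp_S s i j
  rw [← Finset.univ_sum_single c]
  refine sum_mem fun l _ => ?_
  rcases le_or_gt (s (r + 1)) l.val with h | h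
  · rw [hc l h, Pi.single_zero]
    exact zero_mem _
  · have h3 : (Pi.single l (c l) : Fin n → ℤ) = c l • (Pi.single l 1 : Fin n → ℤ) := by
      rw [← Pi.single_smul, smul_eq_mul, mul_one]
    rw [h3]
    refine zsmul_mem ?_ _
    show col j (Pi.single l 1) ∈ NF (n := n) s i
    have h4 : l.val < j.val := lt_of_lt_of_le h h1
    have h5 := PGrp_tE j l.val h4
    rw [← show (⟨l.val, h4.trans j.2⟩ : Fin n) = l from rfl, ← h5]
    exact Subgroup.subset_closure ⟨r, j, l.val, hr, h1, h2, h, rfl⟩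

private theorem PGrp_conj (s : ℕ → ℕ) (hs : Antitone s) (i r : ℕ) (hr : r < i) (j : Fin n)
    (h1 : s (r + 1) ≤ j.val) (h2 : j.val < s r)
    (h : Matrix.GeneralLinearGroup (Fin n) ℤ) (hl : Rid (s i) h) (c : Fin n → ℤ)
    (hc : ∀ l : Fin n, s (r + 1) ≤ l.val → c l = 0) : h * col j c * h⁻¹ ∈ NF (n := n) s i := by
  have hm := PGrp_mono hs hr
  have h0 : ∀ l : Fin n, s (r + 1) ≤ l.val →
      ((h : Matrix (Fin n) (Fin n) ℤ).mulVec c) l = 0 := by
    intro k hk
    have hbk : s i ≤ k.val := hm.trans hk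
    show ∑ l, (h : Matrix (Fin n) (Fin n) ℤ) k l * c l = 0
    refine Finset.sum_eq_zero fun l _ => ?_
    rw [hl k l hbk]
    split_ifs with h3
    · rw [← h3, hc k hk, mul_zero]
    · rw [zero_mul]
  have h3 : h * col j c * h⁻¹ = col j ((h : Matrix (Fin n) (Fin n) ℤ).mulVec c) := by
    refine Units.ext ?_
    rw [Units.val_mul, Units.val_mul, PGrp_vec j c (hc j h1), PGrp_vec j _ (h0 j h1),
      mul_add, mul_one, add_mul, Matrix.mul_vecMulVec, Matrix.vecMulVec_mul]
    congr 1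
    · rw [← Units.val_mul, mul_inv_cancel, Units.val_one]
    · congr 1
      rw [Matrix.single_one_vecMul]
      ext l
      show ((h⁻¹ : Matrix.GeneralLinearGroup (Fin n) ℤ) : Matrix (Fin n) (Fin n) ℤ) j l = _
      rw [hl.inv j l (hm.trans h1), Pi.single_apply]
      by_cases h4 : j = l
      · rw [if_pos h4, if_pos h4.symm]
      · rw [if_neg h4, if_neg (fun h => h4 h.symm)]
  rw [h3]
  exact NF_col s hs i r hr j h1 h2 _ h0

private theorem PGrp_conj_mem (s : ℕ → ℕ) (hs : Antitone s) (i : ℕ)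
    (h : Matrix.GeneralLinearGroup (Fin n) ℤ) (hl : Rid (s i) h)
    (g : Matrix.GeneralLinearGroup (Fin n) ℤ) (hg : g ∈ NF (n := n) s i) :
    h * g * h⁻¹ ∈ NF (n := n) s i := by
  unfold NF at hg
  induction hg using Subgroup.closure_induction with
  | mem g hg =>
    obtain ⟨r, j, l, h1, h2, h3, h4, rfl⟩ := hg
    have h5 : l < j.val := lt_of_lt_of_le h4 h2
    rw [PGrp_tE j l h5]
    exact PGrp_conj s hs i r h1 j h2 h3 h hl _ (PGrp_supp j l h5 _ h4)
  | one =>
    rw [mul_one, mul_inv_cancel]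
    exact one_mem _
  | mul x y _ _ hx hy =>
    have h1 : h * (x * y) * h⁻¹ = h * x * h⁻¹ * (h * y * h⁻¹) := by group
    rw [h1]
    exact mul_mem hx hy
  | inv x _ hx =>
    have h1 : h * x⁻¹ * h⁻¹ = (h * x * h⁻¹)⁻¹ := by group
    rw [h1]
    exact inv_mem hx

/-- As `nrm_UN`: for a column `j` of the block `r < i`, `h * col j c * h⁻¹ = col j (h c)` since the row `j` of
`h⁻¹` is that of the identity (`s i ≤ j`), and `h c` is supported on `l < s (r+1)` since the rows
`l ≥ s (r+1) ≥ s i` of `h` are those of the identity. -/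
theorem NF_nrm (s : ℕ → ℕ) (hs : Antitone s) (i : ℕ) (h : Matrix.GeneralLinearGroup (Fin n) ℤ)
    (hl : Rid (s i) h) : Nrm (NF s i) h := by
  intro g
  constructor
  · exact PGrp_conj_mem s hs i h hl g
  · intro hg
    have h1 := PGrp_conj_mem s hs i h⁻¹ hl.inv _ hg
    have h2 : h⁻¹ * (h * g * h⁻¹) * h⁻¹⁻¹ = g := by group
    rw [h2] at h1
    exact h1

/-- `det (tE j l) = 1`: upper triangular with diagonal `1`. -/
theorem Lv_tB (b e a : ℕ) (hb : 0 < b) (ha : b + a / b < e) : Lv (n := n) e (tB b a) := by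
  by_cases h : b + a / b < n
  · have hm : a % b < b := Nat.mod_lt _ hb
    have hj : a % b < (⟨b + a / b, h⟩ : Fin n).val := lt_of_lt_of_le hm (Nat.le_add_right _ _)
    rw [PGrp_tB b a h, PGrp_tE _ _ hj]
    obtain ⟨j, hj'⟩ : ∃ j : Fin n, j = ⟨b + a / b, h⟩ := ⟨_, rfl⟩
    have hjv : j.val = b + a / b := by rw [hj']
    have hbj : b ≤ j.val := by
      rw [hjv]
      exact Nat.le_add_right _ _
    have hje : j.val < e := by
      rw [hjv]
      exact ha
    obtain ⟨c, hc⟩ : ∃ c : Fin n → ℤ, c = Pi.single ⟨a % b, hj.trans (⟨b + a / b, h⟩ : Fin n).2⟩ 1 :=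
      ⟨_, rfl⟩
    have hs : ∀ i : Fin n, b ≤ i.val → c i = 0 := by
      intro i hi
      rw [hc]
      exact PGrp_supp _ _ hj b hm i hi
    rw [← hc, ← hj']
    refine ⟨?_, ?_, ?_⟩
    · intro i l hi
      rw [PGrp_app, hs i (hbj.trans (hje.le.trans hi)), ite_self, add_zero]
    · intro i l hl
      have h1 : ¬ (l = j ∧ i ≠ j) := by
        rintro ⟨h2, -⟩
        rw [h2] at hl
        exact absurd hje (not_lt.2 hl)
      rw [PGrp_app, if_neg h1, add_zero]
    · rw [Matrix.det_of_isUpperTriangular]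
      · refine Finset.prod_eq_one fun i _ => ?_
        rw [PGrp_app, if_pos rfl, if_neg (fun h => h.2 h.1), add_zero]
      · intro i m him
        have h1 : m < i := him
        rw [PGrp_app, if_neg h1.ne', zero_add]
        split_ifs with h2
        · refine hs _ ?_
          have h3 : m.val < i.val := h1
          have h4 : m = j := h2.1
          rw [h4] at h3
          exact hbj.trans h3.le
        · rfl
  · have h1 : tB b a = (1 : Matrix.GeneralLinearGroup (Fin n) ℤ) := dif_neg h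
    rw [h1]
    refine ⟨?_, ?_, ?_⟩
    · intro i l _
      rw [Units.val_one, Matrix.one_apply]
    · intro i l _
      rw [Units.val_one, Matrix.one_apply]
    · rw [Units.val_one, Matrix.det_one]

private theorem PGrp_comm (b : ℕ) (j j' : Fin n) (hj : b ≤ j.val) (hj' : b ≤ j'.val)
    (c c' : Fin n → ℤ) (hc : ∀ i : Fin n, b ≤ i.val → c i = 0)
    (hc' : ∀ i : Fin n, b ≤ i.val → c' i = 0) :
    col j c * col j' c' = col j' c' * col j c := by
  refine Units.ext ?_
  rw [Units.val_mul, Units.val_mul, PGrp_vec j c (hc j hj), PGrp_vec j' c' (hc' j' hj'),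
    add_mul, mul_add, mul_add, add_mul, mul_add, mul_add, Matrix.vecMulVec_mul_vecMulVec,
    Matrix.vecMulVec_mul_vecMulVec, single_dotProduct, single_dotProduct, hc' j hj, hc j' hj']
  simp only [mul_one, one_mul, mul_zero, zero_smul, Matrix.vecMulVec_zero, add_zero]
  abel

private theorem PGrp_form (b a : ℕ) (hb : 0 < b) :
    tB b a = (1 : Matrix.GeneralLinearGroup (Fin n) ℤ) ∨ ∃ (j : Fin n) (c : Fin n → ℤ),
      b ≤ j.val ∧ (∀ i : Fin n, b ≤ i.val → c i = 0) ∧ tB b a = col j c := by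
  by_cases h : b + a / b < n
  · right
    have hm : a % b < b := Nat.mod_lt _ hb
    have hj : a % b < (⟨b + a / b, h⟩ : Fin n).val := lt_of_lt_of_le hm (Nat.le_add_right _ _)
    refine ⟨⟨b + a / b, h⟩, Pi.single ⟨a % b, hj.trans (⟨b + a / b, h⟩ : Fin n).2⟩ 1,
      Nat.le_add_right _ _, fun i hi => PGrp_supp _ _ hj b hm i hi, ?_⟩
    rw [PGrp_tB b a h, PGrp_tE _ _ hj]
  · left
    exact dif_neg h

/-- both are `col j c`, `col j' c'` with `c`, `c'` supported on `l < b ≤ j, j'` -/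
theorem tB_comm (b a a' : ℕ) (hb : 0 < b) :
    tB (n := n) b a * tB b a' * (tB b a)⁻¹ * (tB b a')⁻¹ = 1 := by
  have h : tB (n := n) b a * tB b a' = tB b a' * tB b a := by
    rcases PGrp_form (n := n) b a hb with h1 | ⟨j, c, h1, h2, h3⟩
    · rw [h1, one_mul, mul_one]
    · rcases PGrp_form (n := n) b a' hb with h4 | ⟨j', c', h4, h5, h6⟩
      · rw [h4, one_mul, mul_one]
      · rw [h3, h6]
        exact PGrp_comm b j j' h1 h4 c c' h2 h5
  rw [h, mul_inv_cancel_right, mul_inv_cancel]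

/-- the dimension of `NF s i` -/
def dF (s : ℕ → ℕ) : ℕ → ℕ
  | 0 => 0
  | i + 1 => dF s i + s (i + 1) * (s i - s (i + 1))

/-- the cochain -/
noncomputable def AF (s : ℕ → ℕ) : ℕ → List (Matrix.GeneralLinearGroup (Fin n) ℤ) → ℝ
  | 0 => fun _ => 1
  | i + 1 => blk (dF s i) (AF s i) (PsB (s (i + 1)) (s i)) (s (i + 1) * (s i - s (i + 1)))

end Pool.Agent.H.MP_e5d137_al.SL
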