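import Mathlib
import Pool.Agent.H.MP_e5d137_al.SL.PGrp

/-!
# Weighted sizes of unipotent matrices
-/

namespace Pool.Agent.H.MP_e5d137_al.SL

variable {n : ℕ}

/-- unipotent with respect to the weights `β`: the entry `(l, j)` is that of the identity unless `β j < β l` -/
def Ut (β : Fin n → ℕ) (g : Matrix.GeneralLinearGroup (Fin n) ℤ) : Prop :=
  ∀ l j : Fin n, ¬ β j < β l → (g : Matrix (Fin n) (Fin n) ℤ) l j = if l = j then 1 else 0

/-- small elements of scale `X` -/
def Sm (β : Fin n → ℕ) (D X : ℕ) (g : Matrix.GeneralLinearGroup (Fin n) ℤ) : Prop :=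
  Ut β g ∧ ∀ l j : Fin n, β j < β l →
    ((g : Matrix (Fin n) (Fin n) ℤ) l j).natAbs ≤ D * X ^ (β l - β j - 1)

/-- elements of the box of scale `X` -/
def Bx (β : Fin n → ℕ) (D X : ℕ) (g : Matrix.GeneralLinearGroup (Fin n) ℤ) : Prop :=
  Ut β g ∧ ∀ l j : Fin n, β j < β l →
    ((g : Matrix (Fin n) (Fin n) ℤ) l j).natAbs ≤ D * X ^ (β l - β j)

theorem Sm.mono {β : Fin n → ℕ} {D D' X X' : ℕ} (hD : D ≤ D') (hX : X ≤ X')
    {g : Matrix.GeneralLinearGroup (Fin n) ℤ} (h : Sm β D X g) : Sm β D' X' g :=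
  ⟨h.1, fun l j hlj => (h.2 l j hlj).trans (Nat.mul_le_mul hD (Nat.pow_le_pow_left hX _))⟩

theorem PFolA_mul_ut {β : Fin n → ℕ} {g h : Matrix.GeneralLinearGroup (Fin n) ℤ} (hg : Ut β g)
    (hh : Ut β h) : Ut β (g * h) := by
  intro l j hlj
  rw [Units.val_mul, Matrix.mul_apply, Finset.sum_eq_single l]
  · rw [hg l l (lt_irrefl _), if_pos rfl, one_mul, hh l j hlj]
  · intro k _ hk
    by_cases h1 : β k < β l
    · rw [hh k j (by omega), if_neg, mul_zero]
      rintro rfl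
      exact hlj h1
    · rw [hg l k h1, if_neg (fun e => hk e.symm), zero_mul]
  · intro h0
    exact absurd (Finset.mem_univ l) h0

/-- `(g h) l j = g l j + h l j + Σ_k g l k * h k j` over the `k` with `β j < β k < β l`. -/
theorem Sm.mul {β : Fin n → ℕ} {D D' X : ℕ} (hX : 1 ≤ X)
    {g h : Matrix.GeneralLinearGroup (Fin n) ℤ} (hg : Sm β D X g) (hh : Sm β D' X h) :
    Sm β (D + D' + n * (D * D')) X (g * h) := by
  refine ⟨PFolA_mul_ut hg.1 hh.1, fun l j hlj => ?_⟩
  have hlj' : l ≠ j := by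
    rintro rfl
    exact lt_irrefl _ hlj
  rw [Units.val_mul, Matrix.mul_apply]
  set M : ℕ := X ^ (β l - β j - 1) with hM
  have key : ∀ k ∈ (Finset.univ : Finset (Fin n)),
      ((g : Matrix (Fin n) (Fin n) ℤ) l k * (h : Matrix (Fin n) (Fin n) ℤ) k j).natAbs ≤
        (if k = l then D' * M else 0) + (if k = j then D * M else 0) + D * D' * M := by
    intro k _
    by_cases h1 : k = l
    · have e1 : ((h : Matrix (Fin n) (Fin n) ℤ) l j).natAbs ≤ D' * M := hh.2 l j hlj
      rw [h1, hg.1 l l (lt_irrefl _)]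
      simp only [↓reduceIte, one_mul]
      omega
    · by_cases h2 : k = j
      · have e1 : ((g : Matrix (Fin n) (Fin n) ℤ) l j).natAbs ≤ D * M := hg.2 l j hlj
        rw [h2, hh.1 j j (lt_irrefl _)]
        simp only [↓reduceIte, mul_one]
        omega
      · rw [if_neg h1, if_neg h2, zero_add, zero_add]
        by_cases h3 : β k < β l
        · by_cases h4 : β j < β k
          · have e1 := hg.2 l k h3
            have e2 := hh.2 k j h4
            rw [Int.natAbs_mul]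
            calc ((g : Matrix (Fin n) (Fin n) ℤ) l k).natAbs *
                  ((h : Matrix (Fin n) (Fin n) ℤ) k j).natAbs
                ≤ (D * X ^ (β l - β k - 1)) * (D' * X ^ (β k - β j - 1)) := Nat.mul_le_mul e1 e2
              _ = D * D' * X ^ ((β l - β k - 1) + (β k - β j - 1)) := by
                  rw [pow_add]
                  ring
              _ ≤ D * D' * M := Nat.mul_le_mul_left _ (Nat.pow_le_pow_right hX (by omega))
          · rw [hh.1 k j h4, if_neg h2, mul_zero]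
            simp
        · rw [hg.1 l k h3, if_neg (fun e => h1 e.symm), zero_mul]
          simp
  refine (Int.natAbs_sum_le _ _).trans ((Finset.sum_le_sum key).trans (le_of_eq ?_))
  rw [Finset.sum_add_distrib, Finset.sum_add_distrib, Finset.sum_ite_eq', Finset.sum_ite_eq',
    if_pos (Finset.mem_univ _), if_pos (Finset.mem_univ _), Finset.sum_const, Finset.card_univ,
    Fintype.card_fin, smul_eq_mul]
  ring

theorem PFolA_bx {β : Fin n → ℕ} {E X : ℕ} (hE : 1 ≤ E)
    {h : Matrix.GeneralLinearGroup (Fin n) ℤ} (hh : Bx β E X h) (l k : Fin n) :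
    (h : Matrix (Fin n) (Fin n) ℤ) l k = 0 ∨
      (β k ≤ β l ∧ ((h : Matrix (Fin n) (Fin n) ℤ) l k).natAbs ≤ E * X ^ (β l - β k)) := by
  by_cases h1 : β k < β l
  · exact Or.inr ⟨h1.le, hh.2 l k h1⟩
  · by_cases h2 : l = k
    · subst h2
      right
      refine ⟨le_rfl, ?_⟩
      rw [hh.1 l l h1, if_pos rfl, Nat.sub_self, pow_zero, mul_one]
      exact hE
    · left
      rw [hh.1 l k h1, if_neg h2]

theorem PFolA_sm {β : Fin n → ℕ} {D X : ℕ}
    {g : Matrix.GeneralLinearGroup (Fin n) ℤ} (hg : Sm β D X g) (k k' : Fin n) :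
    ((g : Matrix (Fin n) (Fin n) ℤ) - 1) k k' = 0 ∨
      (β k' < β k ∧
        (((g : Matrix (Fin n) (Fin n) ℤ) - 1) k k').natAbs ≤ D * X ^ (β k - β k' - 1)) := by
  by_cases h1 : β k' < β k
  · right
    refine ⟨h1, ?_⟩
    have h2 : k ≠ k' := by
      rintro rfl
      exact lt_irrefl _ h1
    rw [Matrix.sub_apply, Matrix.one_apply_ne h2, sub_zero]
    exact hg.2 k k' h1
  · left
    rw [Matrix.sub_apply, hg.1 k k' h1, Matrix.one_apply, sub_self]

theorem PFolA_term {β : Fin n → ℕ} {D E X : ℕ} (hE : 1 ≤ E)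
    {g h : Matrix.GeneralLinearGroup (Fin n) ℤ} (hg : Sm β D X g) (hh : Bx β E X h)
    (hi : Bx β E X h⁻¹) (l j k k' : Fin n) :
    (h : Matrix (Fin n) (Fin n) ℤ) l k * ((g : Matrix (Fin n) (Fin n) ℤ) - 1) k k' *
        ((h⁻¹ : Matrix.GeneralLinearGroup (Fin n) ℤ) : Matrix (Fin n) (Fin n) ℤ) k' j = 0 ∨
      (β j < β l ∧ ((h : Matrix (Fin n) (Fin n) ℤ) l k *
        ((g : Matrix (Fin n) (Fin n) ℤ) - 1) k k' *
        ((h⁻¹ : Matrix.GeneralLinearGroup (Fin n) ℤ) : Matrix (Fin n) (Fin n) ℤ) k' j).natAbs ≤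
          E * D * E * X ^ (β l - β j - 1)) := by
  rcases PFolA_bx hE hh l k with h1 | ⟨h1, h1'⟩
  · left
    rw [h1]
    ring
  rcases PFolA_sm hg k k' with h2 | ⟨h2, h2'⟩
  · left
    rw [h2]
    ring
  rcases PFolA_bx hE hi k' j with h3 | ⟨h3, h3'⟩
  · left
    rw [h3]
    ring
  right
  refine ⟨by omega, ?_⟩
  rw [Int.natAbs_mul, Int.natAbs_mul]
  refine (Nat.mul_le_mul (Nat.mul_le_mul h1' h2') h3').trans (le_of_eq ?_)
  have e : β l - β j - 1 = (β l - β k) + (β k - β k' - 1) + (β k' - β j) := by omega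
  rw [e, pow_add, pow_add]
  ring

/-- `h g h⁻¹ = 1 + h (g - 1) h⁻¹`, and the entry `(l, j)` of `h (g - 1) h⁻¹` is a sum of `n ^ 2` products
`h l k * (g - 1) k k' * h⁻¹ k' j`, nonzero only if `β j ≤ β k' < β k ≤ β l`, each at most
`(E X ^ (β l - β k)) (D X ^ (β k - β k' - 1)) (E X ^ (β k' - β j))` (also for `k = l`, `k' = j` since `1 ≤ E`). -/
theorem Sm.conj {β : Fin n → ℕ} {D E X : ℕ} (hE : 1 ≤ E)
    {g h : Matrix.GeneralLinearGroup (Fin n) ℤ} (hg : Sm β D X g) (hh : Bx β E X h)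
    (hi : Bx β E X h⁻¹) : Sm β (n ^ 2 * (E * D * E)) X (h * g * h⁻¹) := by
  set A : Matrix (Fin n) (Fin n) ℤ := (h : Matrix (Fin n) (Fin n) ℤ) with hA
  set B : Matrix (Fin n) (Fin n) ℤ :=
    ((h⁻¹ : Matrix.GeneralLinearGroup (Fin n) ℤ) : Matrix (Fin n) (Fin n) ℤ) with hB
  set C : Matrix (Fin n) (Fin n) ℤ := (g : Matrix (Fin n) (Fin n) ℤ) - 1 with hC
  have hAB : A * B = 1 := by
    rw [hA, hB, ← Units.val_mul, mul_inv_cancel, Units.val_one]
  have e1 : ((h * g * h⁻¹ : Matrix.GeneralLinearGroup (Fin n) ℤ) : Matrix (Fin n) (Fin n) ℤ) =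
      1 + A * C * B := by
    rw [Units.val_mul, Units.val_mul, ← hA, ← hB, hC, mul_sub, sub_mul, mul_one, hAB]
    abel
  have e2 : ∀ l j : Fin n, (A * C * B) l j = ∑ k' : Fin n, ∑ k : Fin n, A l k * C k k' * B k' j := by
    intro l j
    rw [Matrix.mul_apply]
    refine Finset.sum_congr rfl fun k' _ => ?_
    rw [Matrix.mul_apply, Finset.sum_mul]
  have key := PFolA_term hE hg hh hi
  refine ⟨fun l j hlj => ?_, fun l j hlj => ?_⟩
  · rw [e1, Matrix.add_apply, e2, Finset.sum_eq_zero, add_zero, Matrix.one_apply]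
    intro k' _
    refine Finset.sum_eq_zero fun k _ => ?_
    rcases key l j k k' with h1 | ⟨h1, -⟩
    · exact h1
    · exact absurd h1 hlj
  · have hlj' : l ≠ j := by
      rintro rfl
      exact lt_irrefl _ hlj
    rw [e1, Matrix.add_apply, e2, Matrix.one_apply_ne hlj', zero_add]
    have hb : ∀ k k' : Fin n, (A l k * C k k' * B k' j).natAbs ≤
        E * D * E * X ^ (β l - β j - 1) := by
      intro k k'
      rcases key l j k k' with h1 | ⟨-, h1⟩
      · rw [show A l k * C k k' * B k' j = 0 from h1]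
        simp
      · exact h1
    refine (Int.natAbs_sum_le _ _).trans ?_
    have h2 : ∀ k' ∈ (Finset.univ : Finset (Fin n)),
        (∑ k : Fin n, A l k * C k k' * B k' j).natAbs ≤
          n * (E * D * E * X ^ (β l - β j - 1)) := by
      intro k' _
      refine (Int.natAbs_sum_le _ _).trans
        ((Finset.sum_le_card_nsmul _ _ _ fun k _ => hb k k').trans (le_of_eq ?_))
      rw [Finset.card_univ, Fintype.card_fin, smul_eq_mul]
    refine (Finset.sum_le_card_nsmul _ _ _ h2).trans (le_of_eq ?_)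
    rw [Finset.card_univ, Fintype.card_fin, smul_eq_mul]
    ring

theorem PFolA_col_apply (l j : Fin n) (h : l ≠ j) (a : ℤ) (l' j' : Fin n) :
    ((col j (Pi.single l a) : Matrix.GeneralLinearGroup (Fin n) ℤ) :
      Matrix (Fin n) (Fin n) ℤ) l' j' =
      (if l' = j' then 1 else 0) + if l' = l ∧ j' = j then a else 0 := by
  rw [col_val, colM, Matrix.add_apply, Matrix.one_apply, Matrix.of_apply]
  congr 1
  by_cases h1 : l' = l
  · subst h1
    rw [Pi.single_eq_same]
    by_cases h2 : j' = j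
    · rw [if_pos ⟨h2, h⟩, if_pos ⟨rfl, h2⟩]
    · rw [if_neg (fun e => h2 e.1), if_neg (fun e => h2 e.2)]
  · rw [Pi.single_eq_of_ne h1, if_neg (c := l' = l ∧ j' = j) (fun e => h1 e.1), ite_self]

theorem PFolA_col {β : Fin n → ℕ} (l j : Fin n) (h : β j < β l) (a : ℤ) (b : Fin n → Fin n → ℕ)
    (ha : a.natAbs ≤ b l j) :
    Ut β (col j (Pi.single l a)) ∧ ∀ l' j' : Fin n, β j' < β l' →
      (((col j (Pi.single l a) : Matrix.GeneralLinearGroup (Fin n) ℤ) :
        Matrix (Fin n) (Fin n) ℤ) l' j').natAbs ≤ b l' j' := by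
  have hlj : l ≠ j := by
    rintro rfl
    exact lt_irrefl _ h
  refine ⟨fun l' j' h' => ?_, fun l' j' h' => ?_⟩
  · rw [PFolA_col_apply l j hlj, if_neg (c := l' = l ∧ j' = j), add_zero]
    rintro ⟨rfl, rfl⟩
    exact h' h
  · have h2 : l' ≠ j' := by
      rintro rfl
      exact lt_irrefl _ h'
    rw [PFolA_col_apply l j hlj, if_neg h2, zero_add]
    split_ifs with h3
    · rw [h3.1, h3.2]
      exact ha
    · simp

/-- `col j c` with `c = a e_l` -/
theorem Sm_col {β : Fin n → ℕ} {D X : ℕ} (l j : Fin n) (h : β j < β l) (a : ℤ)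
    (ha : a.natAbs ≤ D * X ^ (β l - β j - 1)) : Sm β D X (col j (Pi.single l a)) :=
  PFolA_col l j h a (fun l' j' => D * X ^ (β l' - β j' - 1)) ha

/-- `col j c` with `c = a e_l` -/
theorem Bx_col {β : Fin n → ℕ} {D X : ℕ} (l j : Fin n) (h : β j < β l) (a : ℤ)
    (ha : a.natAbs ≤ D * X ^ (β l - β j)) : Bx β D X (col j (Pi.single l a)) :=
  PFolA_col l j h a (fun l' j' => D * X ^ (β l' - β j')) ha

end Pool.Agent.H.MP_e5d137_al.SL
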