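import Mathlib
import Pool.Agent.H.MP_e5d137_al.SL.PFolA
import Pool.Agent.H.MP_e5d137_al.SL.Size

/-!
# Følner sets of exact polynomial size
-/

namespace Pool.Agent.H.MP_e5d137_al.SL

variable {n : ℕ}

/-- Følner sets of size `O(X ^ Q)`, almost invariant under the small elements of scale `X` -/
def PW (β : Fin n → ℕ) (N : Subgroup (Matrix.GeneralLinearGroup (Fin n) ℤ)) (Q : ℕ) : Prop :=
  ∀ D : ℕ, ∃ C : ℕ, ∀ X : ℕ, 1 ≤ X → ∃ F : Finset (Matrix.GeneralLinearGroup (Fin n) ℤ),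
    F.Nonempty ∧ (∀ g ∈ F, g ∈ N) ∧ F.card ≤ C * X ^ Q ∧
    ∀ s ∈ N, Sm β D X s → X * Set.ncard {g | g ∈ F ∧ g * s ∉ F} ≤ F.card

/-- `F = {1}` -/
theorem PW.bot (β : Fin n → ℕ) : PW β (⊥ : Subgroup (Matrix.GeneralLinearGroup (Fin n) ℤ)) 0 := by
  intro D
  refine ⟨1, fun X hX => ⟨{1}, Finset.singleton_nonempty _, ?_, ?_, ?_⟩⟩
  · intro g hg
    rw [Finset.mem_singleton] at hg
    rw [hg]
    exact Subgroup.one_mem _
  · rw [Finset.card_singleton, pow_zero, mul_one]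
  · intro s hs _
    have h1 : s = 1 := Subgroup.mem_bot.1 hs
    have h2 : {g | g ∈ ({1} : Finset (Matrix.GeneralLinearGroup (Fin n) ℤ)) ∧
        g * s ∉ ({1} : Finset (Matrix.GeneralLinearGroup (Fin n) ℤ))} = ∅ := by
      ext g
      simp only [Finset.mem_singleton, Set.mem_ofPred_eq, Set.mem_empty_iff_false, iff_false,
        not_and, not_not]
      intro hg
      rw [hg, h1, mul_one]
    rw [h2, Set.ncard_empty, mul_zero]
    exact Nat.zero_le _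

private theorem PFolB_pow (l j : Fin n) (i : ℕ) :
    (col j (Pi.single l (1 : ℤ))) ^ i = col j (Pi.single l (i : ℤ)) := by
  induction i with
  | zero => rw [pow_zero, Nat.cast_zero, Pi.single_zero, col_zero]
  | succ i ih => rw [pow_succ, ih, col_mul, ← Pi.single_add, Nat.cast_succ]

private theorem PFolB_zpow (l j : Fin n) (a : ℤ) :
    (col j (Pi.single l (1 : ℤ))) ^ a = col j (Pi.single l a) := by
  obtain ⟨i, rfl | rfl⟩ := Int.eq_nat_or_neg a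
  · rw [zpow_natCast, PFolB_pow]
  · rw [zpow_neg, zpow_natCast, PFolB_pow, col_inv, ← Pi.single_neg]

/-- Step.

Proof.  `t ^ a = col j (a e_l)` for all integers `a` (`col_mul`, `col_inv`, `col_zero`).  Let `D` be given, `w = β l - β j`.  For `X ≥ 1`
let `A = D * X ^ (w - 1)`, `J = 2 * X * A + 1 ≤ (2 * D + 1) * X ^ w`.  For `s ∈ N ⊔ ⟨t⟩` with `Sm β D X s` let `a` be the entry
`(l, j)` of `s`, `|a| ≤ A`, `s = g * t ^ a`, `g ∈ N` (`hent`).  `g = s * t ^ (-a)` is `Sm β D₁ X` with `D₁ = 2 D + n D²` (`Sm_col`,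
`Sm.mul`), and for `i < J` the elements `t ^ i`, `t ^ (-i)` are `Bx β (2 D + 1) X` (`Bx_col`), so `t ^ i * g * (t ^ i)⁻¹` is `Sm β D₂ X`,
hence `Sm β D₂ (2 X)`, with `D₂ = n² (2D+1) D₁ (2D+1)` (`Sm.conj`, `Sm.mono`); it is in `N` (`Folner_conj`).
Take `F₀` from `PW β N Q` for `D₂` and `2 X`, and `F` from `count_step` with `J`, `R = X`, `A`;
`|F| = J |F₀| ≤ (2 D + 1) X ^ w C (2 X) ^ Q`. -/
theorem PW.step (β : Fin n → ℕ) (N : Subgroup (Matrix.GeneralLinearGroup (Fin n) ℤ)) (Q : ℕ)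
    (h : PW β N Q) (l j : Fin n) (hw : β j < β l)
    (hn : Nrm N (col j (Pi.single l 1)))
    (hfree : ∀ i : ℕ, 0 < i → (col j (Pi.single l 1)) ^ i ∉ N)
    (hent : ∀ s ∈ N ⊔ Subgroup.zpowers (col j (Pi.single l 1)), ∃ g ∈ N,
      s = g * (col j (Pi.single l 1)) ^ ((s : Matrix (Fin n) (Fin n) ℤ) l j)) :
    PW β (N ⊔ Subgroup.zpowers (col j (Pi.single l 1))) (Q + (β l - β j)) := by
  have hpow : ∀ i : ℕ, (col j (Pi.single l (1 : ℤ))) ^ i =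
      col j (Pi.single l (i : ℤ)) := PFolB_pow l j
  have hzpow : ∀ a : ℤ, (col j (Pi.single l (1 : ℤ))) ^ a = col j (Pi.single l a) := PFolB_zpow l j
  obtain ⟨t, ht⟩ : ∃ t, t = col j (Pi.single l (1 : ℤ)) := ⟨_, rfl⟩
  rw [← ht] at hn hfree hent hpow hzpow ⊢
  obtain ⟨w, hwd⟩ : ∃ w, w = β l - β j := ⟨_, rfl⟩
  have hw1 : 1 ≤ w := by omega
  intro D
  obtain ⟨D₁, hD₁⟩ : ∃ D₁, D₁ = D + D + n * (D * D) := ⟨_, rfl⟩
  obtain ⟨D₂, hD₂⟩ : ∃ D₂, D₂ = n ^ 2 * ((2 * D + 1) * D₁ * (2 * D + 1)) := ⟨_, rfl⟩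
  obtain ⟨C, hC⟩ := h D₂
  refine ⟨(2 * D + 1) * C * 2 ^ Q, fun X hX => ?_⟩
  obtain ⟨F₀, hne₀, hN₀, hcard₀, hF₀⟩ := hC (2 * X) (by omega)
  obtain ⟨A, hA⟩ : ∃ A, A = D * X ^ (w - 1) := ⟨_, rfl⟩
  have hXA : 2 * X * A = 2 * D * X ^ w := by
    obtain ⟨u, rfl⟩ : ∃ u, w = u + 1 := ⟨w - 1, by omega⟩
    rw [hA, Nat.add_sub_cancel, pow_succ]
    ring
  obtain ⟨F, hne, hN, hcard, hF⟩ := count_step N t hfree F₀ hne₀ hN₀ (2 * X * A + 1) X A
    (by omega)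
  refine ⟨F, hne, hN, ?_, ?_⟩
  · have hXw : 1 ≤ X ^ w := Nat.one_le_pow _ _ hX
    calc F.card = (2 * X * A + 1) * F₀.card := hcard
      _ ≤ ((2 * D + 1) * X ^ w) * (C * (2 * X) ^ Q) := by
          refine Nat.mul_le_mul ?_ hcard₀
          rw [hXA]
          calc 2 * D * X ^ w + 1 ≤ 2 * D * X ^ w + X ^ w := Nat.add_le_add_left hXw _
            _ = (2 * D + 1) * X ^ w := by ring
      _ = (2 * D + 1) * C * 2 ^ Q * X ^ (Q + w) := by
          rw [mul_pow, pow_add]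
          ring
      _ = (2 * D + 1) * C * 2 ^ Q * X ^ (Q + (β l - β j)) := by rw [hwd]
  · intro s hs hsm
    obtain ⟨g, hgN, hg⟩ := hent s hs
    obtain ⟨a, ha⟩ : ∃ a : ℤ, a = (s : Matrix (Fin n) (Fin n) ℤ) l j := ⟨_, rfl⟩
    rw [← ha] at hg
    have haA : a.natAbs ≤ D * X ^ (β l - β j - 1) := by
      rw [ha]
      exact hsm.2 l j hw
    have haA' : |a| ≤ (A : ℤ) := by
      rw [← Int.natCast_natAbs, hA, hwd]
      exact_mod_cast haA
    have hg' : g = s * t ^ (-a) := by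
      rw [hg, mul_assoc, ← zpow_add, add_neg_cancel, zpow_zero, mul_one]
    have hgsm : Sm β D₁ X g := by
      rw [hg', hD₁]
      refine Sm.mul hX hsm ?_
      rw [hzpow]
      exact Sm_col l j hw (-a) (by rw [Int.natAbs_neg]; exact haA)
    rw [hg]
    refine hF g a haA' fun i hi => ?_
    apply hF₀
    · have h1 := Folner_conj N t hn (i : ℤ) g hgN
      rwa [zpow_neg, zpow_natCast] at h1
    · have hi' : ((i : ℤ)).natAbs ≤ (2 * D + 1) * X ^ (β l - β j) := by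
        rw [Int.natAbs_natCast, ← hwd]
        calc i ≤ 2 * X * A := by omega
          _ = 2 * D * X ^ w := hXA
          _ ≤ (2 * D + 1) * X ^ w := Nat.mul_le_mul_right _ (by omega)
      have hb1 : Bx β (2 * D + 1) X (t ^ i) := by
        rw [hpow]
        exact Bx_col l j hw _ hi'
      have hb2 : Bx β (2 * D + 1) X (t ^ i)⁻¹ := by
        rw [← zpow_natCast, ← zpow_neg, hzpow]
        exact Bx_col l j hw _ (by rw [Int.natAbs_neg]; exact hi')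
      have h2 := Sm.conj (by omega : 1 ≤ 2 * D + 1) hgsm hb1 hb2
      rw [← hD₂] at h2
      exact Sm.mono le_rfl (by omega) h2

/-- For a finite subset `S` of `N` there is `D` with `Sm β D R s` for all `s ∈ S`, `R ≥ 1`. -/
theorem PW.fol (β : Fin n → ℕ) (N : Subgroup (Matrix.GeneralLinearGroup (Fin n) ℤ)) (Q : ℕ)
    (h : PW β N Q) (hN : ∀ g ∈ N, Ut β g)
    (S : Finset (Matrix.GeneralLinearGroup (Fin n) ℤ)) (hS : ∀ s ∈ S, s ∈ N) :
    ∃ C : ℕ, ∀ R : ℕ, 1 ≤ R → ∃ F : Finset (Matrix.GeneralLinearGroup (Fin n) ℤ),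
      F.Nonempty ∧ (∀ g ∈ F, g ∈ N) ∧ F.card ≤ C * R ^ Q ∧
      ∀ s ∈ S, R * Set.ncard {g | g ∈ F ∧ g * s ∉ F} ≤ F.card := by
  classical
  obtain ⟨D, hD⟩ : ∃ D : ℕ, ∀ s ∈ S, ∀ l j : Fin n,
      ((s : Matrix (Fin n) (Fin n) ℤ) l j).natAbs ≤ D := by
    refine ⟨S.sup fun s => ∑ l, ∑ j, ((s : Matrix (Fin n) (Fin n) ℤ) l j).natAbs, ?_⟩
    intro s hs l j
    calc ((s : Matrix (Fin n) (Fin n) ℤ) l j).natAbs
        ≤ ∑ j, ((s : Matrix (Fin n) (Fin n) ℤ) l j).natAbs :=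
          Finset.single_le_sum (f := fun j => ((s : Matrix (Fin n) (Fin n) ℤ) l j).natAbs)
            (fun _ _ => Nat.zero_le _) (Finset.mem_univ j)
      _ ≤ ∑ l, ∑ j, ((s : Matrix (Fin n) (Fin n) ℤ) l j).natAbs :=
          Finset.single_le_sum (f := fun l => ∑ j, ((s : Matrix (Fin n) (Fin n) ℤ) l j).natAbs)
            (fun _ _ => Nat.zero_le _) (Finset.mem_univ l)
      _ ≤ S.sup fun s => ∑ l, ∑ j, ((s : Matrix (Fin n) (Fin n) ℤ) l j).natAbs :=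
          Finset.le_sup (f := fun s : Matrix.GeneralLinearGroup (Fin n) ℤ =>
            ∑ l, ∑ j, ((s : Matrix (Fin n) (Fin n) ℤ) l j).natAbs) hs
  obtain ⟨C, hC⟩ := h D
  refine ⟨C, fun R hR => ?_⟩
  obtain ⟨F, hne, hFN, hcard, hF⟩ := hC R hR
  refine ⟨F, hne, hFN, hcard, fun s hs => hF s (hS s hs) ⟨hN s (hS s hs), ?_⟩⟩
  intro l j _
  exact (hD s hs l j).trans (Nat.le_mul_of_pos_right _ (Nat.pow_pos hR))

end Pool.Agent.H.MP_e5d137_al.SL
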