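import Mathlib
import Pool.Agent.H.MP_e5d137_al.SL.PFolB
import Pool.Agent.H.MP_e5d137_al.SL.Block

/-!
# Følner sets of the unipotent radicals
-/

namespace Pool.Agent.H.MP_e5d137_al.SL

variable {n : ℕ}

/-- the weight of the row `l`: the number of the `r < k` with `l < s (r+1)` -/
def be (s : ℕ → ℕ) (k : ℕ) (l : ℕ) : ℕ := ((Finset.range k).filter fun r => l < s (r + 1)).card

/-- for `s (i+1) ≤ j < s i` and `i ≤ k` -/
theorem be_col (s : ℕ → ℕ) (hs : Antitone s) (k i j : ℕ) (hi : i ≤ k) (h1 : s (i + 1) ≤ j)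
    (h2 : j < s i) : be s k j = i := by
  have h : ((Finset.range k).filter fun r => j < s (r + 1)) = Finset.range i := by
    ext r
    rw [Finset.mem_filter, Finset.mem_range, Finset.mem_range]
    constructor
    · rintro ⟨-, h3⟩
      by_contra h4
      have h5 : s (r + 1) ≤ s (i + 1) := hs (by omega)
      omega
    · intro h3
      have h5 : s i ≤ s (r + 1) := hs (by omega)
      exact ⟨by omega, by omega⟩
  rw [be, h, Finset.card_range]

/-- `be s k l = #{r < i} + #{i ≤ p < k, l < s (p+1)}` for `l < s (i+1)`, `i < k`; exchange the sums. -/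
theorem be_sum (s : ℕ → ℕ) (hs : Antitone s) (k i : ℕ) (hi : i < k) :
    ∑ l ∈ Finset.range (s (i + 1)), (be s k l - i) = ∑ p ∈ Finset.Ico i k, s (p + 1) := by
  have h1 : ∀ l ∈ Finset.range (s (i + 1)), be s k l - i =
      ∑ p ∈ Finset.Ico i k, if l < s (p + 1) then 1 else 0 := by
    intro l hl
    rw [Finset.mem_range] at hl
    have h2 : be s k l = (∑ r ∈ Finset.range i, if l < s (r + 1) then 1 else 0) +
        ∑ p ∈ Finset.Ico i k, if l < s (p + 1) then 1 else 0 := by
      rw [Finset.sum_range_add_sum_Ico _ hi.le, be, Finset.card_filter]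
    have h3 : (∑ r ∈ Finset.range i, if l < s (r + 1) then 1 else 0) = i := by
      rw [Finset.sum_congr rfl (fun r hr => if_pos (by
        rw [Finset.mem_range] at hr
        have h5 : s (i + 1) ≤ s (r + 1) := hs (by omega)
        omega))]
      simp
    rw [h2, h3, Nat.add_sub_cancel_left]
  rw [Finset.sum_congr rfl h1, Finset.sum_comm]
  refine Finset.sum_congr rfl fun p hp => ?_
  rw [Finset.mem_Ico] at hp
  rw [← Finset.card_filter]
  have h2 : ((Finset.range (s (i + 1))).filter fun l => l < s (p + 1)) =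
      Finset.range (s (p + 1)) := by
    ext l
    rw [Finset.mem_filter, Finset.mem_range, Finset.mem_range]
    have h5 : s (p + 1) ≤ s (i + 1) := hs (by omega)
    omega
  rw [h2, Finset.card_range]

/-- the homogeneous dimension of the blocks `r < i` -/
def QB (s : ℕ → ℕ) (k i : ℕ) : ℕ :=
  ∑ r ∈ Finset.range i, (s r - s (r + 1)) * ∑ p ∈ Finset.Ico r k, s (p + 1)

/-- Exchange the sums; `Σ_{r ≤ p} (s r - s (r+1)) = s 0 - s (p+1)`. -/
theorem QB_eq (s : ℕ → ℕ) (hs : Antitone s) (k : ℕ) :
    QB s k k = ∑ p ∈ Finset.range k, s (p + 1) * (s 0 - s (p + 1)) := by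
  have htel : ∀ m, ∑ r ∈ Finset.range m, (s r - s (r + 1)) = s 0 - s m := by
    intro m
    induction m with
    | zero => simp
    | succ m ih =>
      rw [Finset.sum_range_succ, ih]
      have h1 : s (m + 1) ≤ s m := hs (by omega)
      have h2 : s m ≤ s 0 := hs (by omega)
      omega
  induction k with
  | zero => simp [QB]
  | succ k ih =>
    rw [Finset.sum_range_succ, ← ih, QB, QB, Finset.sum_range_succ]
    have h1 : ∀ r ∈ Finset.range k, (s r - s (r + 1)) * ∑ p ∈ Finset.Ico r (k + 1), s (p + 1) =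
        (s r - s (r + 1)) * ∑ p ∈ Finset.Ico r k, s (p + 1) +
          (s r - s (r + 1)) * s (k + 1) := by
      intro r hr
      rw [Finset.mem_range] at hr
      rw [Finset.sum_Ico_succ_top hr.le, mul_add]
    rw [Finset.sum_congr rfl h1, Finset.sum_add_distrib, ← Finset.sum_mul, htel]
    have h2 : ∑ p ∈ Finset.Ico k (k + 1), s (p + 1) = s (k + 1) := by
      rw [Finset.sum_Ico_succ_top le_rfl]
      simp
    rw [h2]
    have h3 : s (k + 1) ≤ s k := hs (by omega)
    have h4 : s k ≤ s 0 := hs (by omega)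
    obtain ⟨u, hu⟩ := Nat.exists_eq_add_of_le h3
    obtain ⟨v, hv⟩ := Nat.exists_eq_add_of_le h4
    have e1 : s k - s (k + 1) = u := by omega
    have e2 : s 0 - s k = v := by omega
    have e3 : s 0 - s (k + 1) = u + v := by omega
    rw [e1, e2, e3]
    ring

private theorem PFolC_le (s : ℕ → ℕ) (k m : ℕ) : be s k m ≤ k := by
  have h := Finset.card_filter_le (Finset.range k) (fun r => m < s (r + 1))
  rw [Finset.card_range] at h
  exact h

private theorem PFolC_lt (s : ℕ → ℕ) (hs : Antitone s) (k r l : ℕ) (hr : r < k)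
    (h3 : l < s (r + 1)) : r < be s k l := by
  have h : Finset.range (r + 1) ⊆ (Finset.range k).filter fun r => l < s (r + 1) := by
    intro x hx
    rw [Finset.mem_range] at hx
    rw [Finset.mem_filter, Finset.mem_range]
    have h5 : s (r + 1) ≤ s (x + 1) := hs (by omega)
    exact ⟨by omega, by omega⟩
  have h1 := Finset.card_le_card h
  rw [Finset.card_range] at h1
  exact h1

private theorem PFolC_mul (β : Fin n → ℕ) {g h : Matrix.GeneralLinearGroup (Fin n) ℤ}
    (hg : Ut β g) (hh : Ut β h) : Ut β (g * h) := by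
  intro l j hlj
  rw [Units.val_mul, Matrix.mul_apply, Finset.sum_eq_single l]
  · rw [hg l l (lt_irrefl _), if_pos rfl, one_mul, hh l j hlj]
  · intro m _ hm
    by_cases h1 : β m < β l
    · have h2 : ¬ β j < β m := fun h => hlj (h.trans h1)
      have h3 : m ≠ j := by
        rintro rfl
        exact hlj h1
      rw [hh m j h2, if_neg h3, mul_zero]
    · rw [hg l m h1, if_neg (Ne.symm hm), zero_mul]
  · intro h2
    exact absurd (Finset.mem_univ _) h2

private theorem PFolC_one (β : Fin n → ℕ) : Ut β (1 : Matrix.GeneralLinearGroup (Fin n) ℤ) := by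
  intro l j _
  rw [Units.val_one, Matrix.one_apply]

/-- the elements which are unipotent together with their inverses -/
private def PFolC_sub (β : Fin n → ℕ) : Subgroup (Matrix.GeneralLinearGroup (Fin n) ℤ) where
  carrier := {g | Ut β g ∧ Ut β g⁻¹}
  mul_mem' := by
    rintro g h ⟨hg, hg'⟩ ⟨hh, hh'⟩
    refine ⟨PFolC_mul β hg hh, ?_⟩
    rw [mul_inv_rev]
    exact PFolC_mul β hh' hg'
  one_mem' := by
    refine ⟨PFolC_one β, ?_⟩
    rw [inv_one]
    exact PFolC_one β
  inv_mem' := by
    rintro g ⟨hg, hg'⟩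
    refine ⟨hg', ?_⟩
    rw [inv_inv]
    exact hg

private theorem PFolC_app (j l : Fin n) (a : ℤ) (i m : Fin n) :
    ((col j (Pi.single l a) : Matrix.GeneralLinearGroup (Fin n) ℤ) : Matrix (Fin n) (Fin n) ℤ) i m =
      (if i = m then 1 else 0) + if m = j ∧ i ≠ j ∧ i = l then a else 0 := by
  rw [col_val, colM, Matrix.add_apply, Matrix.one_apply, Matrix.of_apply, Pi.single_apply]
  congr 1
  by_cases h1 : m = j
  · by_cases h2 : i = j
    · rw [if_neg (fun h => h.2 h2), if_neg (fun h => h.2.1 h2)]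
    · by_cases h3 : i = l
      · rw [if_pos ⟨h1, h2⟩, if_pos h3, if_pos ⟨h1, h2, h3⟩]
      · rw [if_pos ⟨h1, h2⟩, if_neg h3, if_neg (fun h => h3 h.2.2)]
  · rw [if_neg (fun h => h1 h.1), if_neg (fun h => h1 h.1)]

private theorem PFolC_entry (j l : Fin n) (hlj : l ≠ j) (a : ℤ) :
    ((col j (Pi.single l a) : Matrix.GeneralLinearGroup (Fin n) ℤ) : Matrix (Fin n) (Fin n) ℤ) l j =
      a := by
  rw [PFolC_app, if_neg hlj, if_pos ⟨rfl, hlj, rfl⟩, zero_add]

private theorem PFolC_col (β : Fin n → ℕ) (j l : Fin n) (hw : β j < β l) (a : ℤ) :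
    Ut β (col j (Pi.single l a)) := by
  intro i m him
  rw [PFolC_app, if_neg (c := m = j ∧ i ≠ j ∧ i = l), add_zero]
  rintro ⟨h1, -, h2⟩
  rw [h1, h2] at him
  exact him hw

private theorem PFolC_pow (j l : Fin n) (c : ℕ) :
    (col j (Pi.single l 1) : Matrix.GeneralLinearGroup (Fin n) ℤ) ^ c =
      col j (Pi.single l (c : ℤ)) := by
  induction c with
  | zero => rw [pow_zero, Nat.cast_zero, Pi.single_zero, col_zero]
  | succ c ih => rw [pow_succ, ih, col_mul, ← Pi.single_add, Nat.cast_succ]

private theorem PFolC_zpow (j l : Fin n) (c : ℤ) :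
    (col j (Pi.single l 1) : Matrix.GeneralLinearGroup (Fin n) ℤ) ^ c =
      col j (Pi.single l c) := by
  rcases Int.eq_nat_or_neg c with ⟨m, rfl | rfl⟩
  · rw [zpow_natCast, PFolC_pow]
  · rw [zpow_neg, zpow_natCast, PFolC_pow, col_inv, ← Pi.single_neg]

/-- The matrices `g` with `Ut β g` and `Ut β g⁻¹` form a subgroup which contains the generators (`be_col`:
the column `j` of the block `r` has weight `r`, a row `l < s (r+1)` has weight at least `r + 1`). -/
theorem NF_Ut (s : ℕ → ℕ) (hs : Antitone s) (k : ℕ)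
    (g : Matrix.GeneralLinearGroup (Fin n) ℤ) (hg : g ∈ NF s k) :
    Ut (fun l : Fin n => be s k l.val) g := by
  have h1 : NF (n := n) s k ≤ PFolC_sub (fun l : Fin n => be s k l.val) := by
    unfold NF
    rw [Subgroup.closure_le]
    rintro _ ⟨r, j, l, hr, h1, h2, h3, rfl⟩
    have hlj : l < j.val := lt_of_lt_of_le h3 h1
    have hw : be s k j.val < be s k l := by
      rw [be_col s hs k r j.val hr.le h1 h2]
      exact PFolC_lt s hs k r l hr h3
    have e : tE j l = col j (Pi.single ⟨l, hlj.trans j.2⟩ 1) := dif_pos hlj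
    rw [e]
    refine ⟨PFolC_col _ _ _ hw 1, ?_⟩
    rw [col_inv, ← Pi.single_neg]
    exact PFolC_col _ _ _ hw (-1)
  exact (h1 hg).1

/-- The entries of the block `i` are additive on `NF s (i+1)`: `Fb (s (i+1)) g` by `NF_Fb`, and the column `j` of `h` is
`e_j + Σ_{l < s (i+1)} c_l e_l` (`NF_Ut` for `k = i + 1`, or directly). -/
theorem NF_add (s : ℕ → ℕ) (hs : Antitone s) (i : ℕ) (l j : Fin n) (hl : l.val < s (i + 1))
    (h1 : s (i + 1) ≤ j.val) (h2 : j.val < s i) (g h : Matrix.GeneralLinearGroup (Fin n) ℤ)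
    (hg : g ∈ NF s (i + 1)) (hh : h ∈ NF s (i + 1)) :
    ((g * h : Matrix.GeneralLinearGroup (Fin n) ℤ) : Matrix (Fin n) (Fin n) ℤ) l j =
      (g : Matrix (Fin n) (Fin n) ℤ) l j + (h : Matrix (Fin n) (Fin n) ℤ) l j := by
  have hg' := NF_Ut s hs (i + 1) g hg
  have hh' := NF_Ut s hs (i + 1) h hh
  have hbj : be s (i + 1) j.val = i := be_col s hs (i + 1) i j.val (by omega) h1 h2
  have hble : ∀ m, be s (i + 1) m ≤ i + 1 := PFolC_le s (i + 1)
  have hbl : i < be s (i + 1) l.val := PFolC_lt s hs (i + 1) i l.val (by omega) hl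
  have hlj : l ≠ j := by
    intro h3
    rw [h3] at hl
    omega
  rw [Units.val_mul, Matrix.mul_apply, ← Finset.add_sum_erase _ _ (Finset.mem_univ l),
    ← Finset.add_sum_erase _ _ (Finset.mem_erase.2 ⟨hlj.symm, Finset.mem_univ j⟩),
    Finset.sum_eq_zero]
  · rw [hg' l l (lt_irrefl _), if_pos rfl, hh' j j (lt_irrefl _), if_pos rfl]
    ring
  · intro m hm
    rw [Finset.mem_erase, Finset.mem_erase] at hm
    by_cases h3 : be s (i + 1) m.val < be s (i + 1) l.val
    · have h4 : ¬ be s (i + 1) j.val < be s (i + 1) m.val := by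
        have := hble l.val
        omega
      rw [hh' m j h4, if_neg hm.1, mul_zero]
    · rw [hg' l m h3, if_neg (Ne.symm hm.2.1), zero_mul]

/-- the elements of the group with vanishing entries -/
private def PFolC_mid (s : ℕ → ℕ) (hs : Antitone s) (i a : ℕ) :
    Subgroup (Matrix.GeneralLinearGroup (Fin n) ℤ) where
  carrier := {h | h ∈ NF (n := n) s (i + 1) ∧ ∀ l j : Fin n, l.val < s (i + 1) →
    s (i + 1) ≤ j.val → j.val < s i → a ≤ s (i + 1) * (j.val - s (i + 1)) + l.val →
      (h : Matrix (Fin n) (Fin n) ℤ) l j = 0}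
  mul_mem' := by
    rintro g h ⟨hg, hg'⟩ ⟨hh, hh'⟩
    refine ⟨mul_mem hg hh, fun l j h1 h2 h3 h4 => ?_⟩
    rw [NF_add s hs i l j h1 h2 h3 g h hg hh, hg' l j h1 h2 h3 h4, hh' l j h1 h2 h3 h4, add_zero]
  one_mem' := by
    refine ⟨one_mem _, fun l j h1 h2 _ _ => ?_⟩
    rw [Units.val_one, Matrix.one_apply, if_neg]
    intro h
    rw [h] at h1
    omega
  inv_mem' := by
    rintro g ⟨hg, hg'⟩
    refine ⟨inv_mem hg, fun l j h1 h2 h3 h4 => ?_⟩
    have h5 := NF_add s hs i l j h1 h2 h3 g g⁻¹ hg (inv_mem hg)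
    rw [mul_inv_cancel, Units.val_one, Matrix.one_apply, if_neg, hg' l j h1 h2 h3 h4,
      zero_add] at h5
    · exact h5.symm
    · intro h
      rw [h] at h1
      omega

private theorem PFolC_tB (s : ℕ → ℕ) (hs : Antitone s) (h0 : s 0 = n) (i m : ℕ)
    (hb : 0 < s (i + 1)) (hm : m < s (i + 1) * (s i - s (i + 1))) :
    ∃ hlt : s (i + 1) + m / s (i + 1) < s i ∧ s (i + 1) + m / s (i + 1) < n,
      tB (n := n) (s (i + 1)) m = col ⟨s (i + 1) + m / s (i + 1), hlt.2⟩
        (Pi.single ⟨m % s (i + 1),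
          (Nat.mod_lt m hb).trans_le ((Nat.le_add_right _ _).trans hlt.2.le)⟩ 1) := by
  have h1 : m / s (i + 1) < s i - s (i + 1) := Nat.div_lt_of_lt_mul hm
  have h1' := Nat.zero_le (m / s (i + 1))
  have h2 : s i ≤ n := h0 ▸ hs (Nat.zero_le i)
  have hlt : s (i + 1) + m / s (i + 1) < s i := by omega
  refine ⟨⟨hlt, by omega⟩, ?_⟩
  have h3 := Nat.mod_lt m hb
  unfold tB tE
  rw [dif_pos (by omega : s (i + 1) + m / s (i + 1) < n), dif_pos]
  show m % s (i + 1) < s (i + 1) + m / s (i + 1)
  omega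

/-- The intermediate groups: the entries of the block `i` with index `≥ a` vanish. -/
theorem NF_mid (s : ℕ → ℕ) (hs : Antitone s) (h0 : s 0 = n) (i a : ℕ)
    (ha : a ≤ s (i + 1) * (s i - s (i + 1)))
    (h : Matrix.GeneralLinearGroup (Fin n) ℤ)
    (hh : h ∈ NF (n := n) s i ⊔ Subgroup.closure (tB (s (i + 1)) '' {m | m < a})) :
    h ∈ NF (n := n) s (i + 1) ∧ ∀ l j : Fin n, l.val < s (i + 1) → s (i + 1) ≤ j.val →
      j.val < s i → a ≤ s (i + 1) * (j.val - s (i + 1)) + l.val →
      (h : Matrix (Fin n) (Fin n) ℤ) l j = 0 := by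
  have hle : NF (n := n) s i ⊔ Subgroup.closure (tB (s (i + 1)) '' {m | m < a}) ≤
      PFolC_mid (n := n) s hs i a := by
    refine sup_le ?_ ?_
    · intro g hg
      refine ⟨?_, ?_⟩
      · rw [NF_succ s hs h0 i]
        exact (le_sup_left : NF (n := n) s i ≤ _) hg
      · intro l j hl h1 h2 _
        rw [NF_Fb s hs i g hg l j h2, if_neg]
        intro h3
        rw [h3] at hl
        omega
    · rw [Subgroup.closure_le]
      rintro _ ⟨m, hm, rfl⟩
      have hma : m < a := hm
      refine ⟨?_, ?_⟩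
      · rw [NF_succ s hs h0 i]
        exact (le_sup_right : Subgroup.closure _ ≤ _)
          (Subgroup.subset_closure ⟨m, lt_of_lt_of_le hma ha, rfl⟩)
      · intro l j hl h1 h2 h3
        have hb : 0 < s (i + 1) := by omega
        obtain ⟨hlt, e⟩ := PFolC_tB s hs h0 i m hb (lt_of_lt_of_le hma ha)
        rw [e, PFolC_app, if_neg, if_neg, add_zero]
        · rintro ⟨h4, -, h5⟩
          have h6 : j.val = s (i + 1) + m / s (i + 1) := congrArg Fin.val h4
          have h7 : l.val = m % s (i + 1) := congrArg Fin.val h5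
          rw [h6, h7, Nat.add_sub_cancel_left, Nat.div_add_mod] at h3
          omega
        · intro h4
          rw [h4] at hl
          omega
  exact hle hh

private theorem PFolC_sum (b f : ℕ) (g : ℕ → ℕ) :
    ∑ m ∈ Finset.range (b * f), g (m % b) = f * ∑ l ∈ Finset.range b, g l := by
  induction f with
  | zero => simp
  | succ f ih =>
    rw [Nat.mul_succ, Finset.sum_range_add, ih]
    have h1 : ∀ x ∈ Finset.range b, g ((b * f + x) % b) = g x := by
      intro x hx
      rw [Finset.mem_range] at hx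
      rw [Nat.mul_add_mod, Nat.mod_eq_of_lt hx]
    rw [Finset.sum_congr rfl h1]
    ring

/-- Proof.  Induction on `i`: `NF s 0 = ⊥`, `PW.bot`.  From `i` to `i + 1`: `NF_succ`, induction on `a ≤ q = s (i+1) * (s i - s (i+1))` for
`N_a = NF s i ⊔ closure (tB b '' {m | m < a})`, `b = s (i+1)`, `N_(a+1) = N_a ⊔ zpowers (tB b a)` (`Block_succ`), with `PW.step` for
`l = a % b`, `j = b + a / b`, `tB b a = col j (Pi.single l 1)`.  `hn`: `Block_nrm` (`NF_nrm`, `Lv_tB`, `tB_comm`).
`hfree`, `hent`: `NF_mid`, `NF_add`, `mem_sup_form`, `(col j (Pi.single l 1)) ^ c = col j (Pi.single l c)`.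
The exponents add up to `Σ_{a < q} (be s k (a % b) - i) = (s i - b) * Σ_{l < b} (be s k l - i)`, `be_sum`. -/
theorem PW_NF (s : ℕ → ℕ) (hs : Antitone s) (h0 : s 0 = n) (k : ℕ) (hk : 0 < s k) (i : ℕ)
    (hi : i ≤ k) : PW (fun l : Fin n => be s k l.val) (NF (n := n) s i) (QB s k i) := by
  induction i with
  | zero =>
    rw [NF_zero]
    exact PW.bot _
  | succ i ih =>
    have hik : i < k := hi
    have hb : 0 < s (i + 1) := lt_of_lt_of_le hk (hs (by omega))
    have key : ∀ a, a ≤ s (i + 1) * (s i - s (i + 1)) →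
        PW (fun l : Fin n => be s k l.val)
          (NF (n := n) s i ⊔ Subgroup.closure (tB (s (i + 1)) '' {m | m < a}))
          (QB s k i + ∑ m ∈ Finset.range a, (be s k (m % s (i + 1)) - i)) := by
      intro a
      induction a with
      | zero =>
        intro _
        have e1 : tB (n := n) (s (i + 1)) '' {m | m < 0} = ∅ := by
          rw [Set.image_eq_empty]
          ext x
          simp
        rw [e1, Subgroup.closure_empty, sup_bot_eq, Finset.sum_range_zero, add_zero]
        exact ih hik.le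
      | succ a iha =>
        intro ha
        have ha' : a < s (i + 1) * (s i - s (i + 1)) := ha
        obtain ⟨hlt, e⟩ := PFolC_tB (n := n) s hs h0 i a hb ha'
        have hln : a % s (i + 1) < n := by
          have h1 := Nat.mod_lt a hb
          have h2 : s (i + 1) ≤ s 0 := hs (by omega)
          omega
        have hwj : be s k (s (i + 1) + a / s (i + 1)) = i :=
          be_col s hs k i _ hik.le (Nat.le_add_right _ _) hlt.1
        have hwl : i < be s k (a % s (i + 1)) :=
          PFolC_lt s hs k i _ hik (Nat.mod_lt a hb)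
        have hnrm : Nrm (NF (n := n) s i ⊔ Subgroup.closure (tB (s (i + 1)) '' {m | m < a}))
            (tB (s (i + 1)) a) := by
          refine Block_nrm (NF (n := n) s i) (s (i + 1) * (s i - s (i + 1))) (tB (s (i + 1)))
            ?_ ?_ a ha'
          · intro m hm
            refine NF_nrm s hs i _ (Lv_tB (s (i + 1)) (s i) m hb ?_).row
            exact (PFolC_tB (n := n) s hs h0 i m hb hm).1.1
          · intro m _ m' _
            rw [tB_comm _ _ _ hb]
            exact one_mem _
        have hix : a ≤ s (i + 1) * (s (i + 1) + a / s (i + 1) - s (i + 1)) +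
            a % s (i + 1) := by
          rw [Nat.add_sub_cancel_left, Nat.div_add_mod]
        have hmid : ∀ g ∈ NF (n := n) s i ⊔ Subgroup.closure (tB (s (i + 1)) '' {m | m < a}),
            g ∈ NF (n := n) s (i + 1) ∧ (g : Matrix (Fin n) (Fin n) ℤ)
              ⟨a % s (i + 1), hln⟩ ⟨s (i + 1) + a / s (i + 1), hlt.2⟩ = 0 := by
          intro g hg
          obtain ⟨h1, h2⟩ := NF_mid s hs h0 i a ha'.le g hg
          exact ⟨h1, h2 _ _ (Nat.mod_lt a hb) (Nat.le_add_right _ _) hlt.1 hix⟩
        have htm : tB (n := n) (s (i + 1)) a ∈ NF (n := n) s (i + 1) := by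
          rw [NF_succ s hs h0 i]
          exact (le_sup_right : Subgroup.closure _ ≤ _)
            (Subgroup.subset_closure ⟨a, ha', rfl⟩)
        rw [Block_succ]
        rw [e] at hnrm htm ⊢
        have hst := PW.step (fun l : Fin n => be s k l.val) _ _ (iha ha'.le)
          (⟨a % s (i + 1), hln⟩ : Fin n) (⟨s (i + 1) + a / s (i + 1), hlt.2⟩ : Fin n)
          (by rw [hwj]; exact hwl) hnrm ?_ ?_
        · have e2 : QB s k i + ∑ m ∈ Finset.range (a + 1), (be s k (m % s (i + 1)) - i) =
              QB s k i + ∑ m ∈ Finset.range a, (be s k (m % s (i + 1)) - i) +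
                (be s k (a % s (i + 1)) - be s k (s (i + 1) + a / s (i + 1))) := by
            rw [Finset.sum_range_succ, hwj, add_assoc]
          rw [e2]
          exact hst
        · intro c hc hmem
          have h1 := (hmid _ hmem).2
          rw [PFolC_pow, PFolC_entry] at h1
          · omega
          · intro h3
            have h4 := congrArg Fin.val h3
            have h5 := Nat.mod_lt a hb
            have h6 := Nat.zero_le (a / s (i + 1))
            simp only at h4
            omega
        · intro g hg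
          obtain ⟨x, hx, c, rfl⟩ := mem_sup_form _ _ hnrm g hg
          refine ⟨x, hx, ?_⟩
          have h1 := NF_add s hs i (⟨a % s (i + 1), hln⟩ : Fin n)
            (⟨s (i + 1) + a / s (i + 1), hlt.2⟩ : Fin n) (Nat.mod_lt a hb)
            (Nat.le_add_right _ _) hlt.1 x
            ((col ⟨s (i + 1) + a / s (i + 1), hlt.2⟩
              (Pi.single ⟨a % s (i + 1), hln⟩ 1)) ^ c) (hmid x hx).1 (zpow_mem htm c)
          rw [h1, (hmid x hx).2, zero_add, PFolC_zpow, PFolC_entry, ← PFolC_zpow]
          intro h3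
          have h4 := congrArg Fin.val h3
          have h5 := Nat.mod_lt a hb
          have h6 := Nat.zero_le (a / s (i + 1))
          simp only at h4
          omega
    have h1 := key _ le_rfl
    rw [← NF_succ s hs h0 i, PFolC_sum (s (i + 1)) (s i - s (i + 1)) (fun x => be s k x - i),
      be_sum s hs k i hik] at h1
    have e3 : QB s k (i + 1) = QB s k i +
        (s i - s (i + 1)) * ∑ p ∈ Finset.Ico i k, s (p + 1) := Finset.sum_range_succ _ _
    rw [e3]
    exact h1

end Pool.Agent.H.MP_e5d137_al.SL
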