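import Mathlib
import Pool.Agent.H.MP_e5d137_al.SL.AbsLog

/-!
# The abstract lower bound `L^{Q/(Q-1)}`
-/

namespace Pool.Agent.H.MP_e5d137_al.SL

open Finsupp
open scoped ENNReal

variable {Γ : Type} [Group Γ]

/-- the function `L^{Q/(Q-1)}` -/
noncomputable def powQ (Q : ℕ) (L : ℕ) : ℝ≥0∞ :=
  ENNReal.ofReal ((L : ℝ) ^ ((Q : ℝ) / ((Q : ℝ) - 1)))

/-- the numerical part: `R` is about `(L / D)^(1/(Q-1))`.

Proof.  `L ≤ D (R+1)^(Q-1)`, so `L^{1/(Q-1)} ≤ D^{1/(Q-1)} (R + 1) ≤ D (R + 1)`, and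
`L^{Q/(Q-1)} = L * L^{1/(Q-1)} ≤ D (L R + L) ≤ 2 D (q f + L)` (for `L = 0` the left hand side is `0`).
Then as in `AbsLog_num`. -/
lemma PPow_num {Q D L R J μ q f C₁ S₀ : ℕ} {B M e : ℝ} (hQ : 2 ≤ Q) (hD : 1 ≤ D) (he : 0 < e)
    (hB : 0 ≤ B) (hM : 0 ≤ M) (hR : L < D * (R + 1) ^ (Q - 1))
    (hq : L * R ≤ 2 * (q * f) + L) (hμ : μ ≤ C₁ * S₀ * L)
    (hval : (q : ℝ) * f * e ≤ B * (M * (J + μ))) :
    (L : ℝ) ^ ((Q : ℝ) / ((Q : ℝ) - 1)) ≤ 2 * D * (B * M / e) * J +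
      2 * D * (B * M * (C₁ * S₀) / e + 2) * L := by
  have hL0 : (0 : ℝ) ≤ L := Nat.cast_nonneg _
  have hD0 : (0 : ℝ) ≤ D := Nat.cast_nonneg _
  have h1 : (L : ℝ) ^ ((Q : ℝ) / ((Q : ℝ) - 1)) ≤ D * ((L : ℝ) * R + L) := by
    obtain ⟨p, hp⟩ : ∃ p, Q = p + 1 := ⟨Q - 1, by omega⟩
    have hp0 : p ≠ 0 := by omega
    have hp1 : (p : ℝ) ≠ 0 := Nat.cast_ne_zero.2 hp0
    rcases Nat.eq_zero_or_pos L with h | h
    · subst h
      have hne : (Q : ℝ) / ((Q : ℝ) - 1) ≠ 0 := by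
        rw [hp]
        push_cast
        rw [add_sub_cancel_right]
        exact div_ne_zero (by positivity) hp1
      rw [Nat.cast_zero, Real.zero_rpow hne]
      simp
    · have hLp : (0 : ℝ) < L := Nat.cast_pos.2 h
      have hexp : (Q : ℝ) / ((Q : ℝ) - 1) = 1 + (p : ℝ)⁻¹ := by
        rw [hp]
        push_cast
        rw [add_sub_cancel_right]
        field_simp
      have hX : (0 : ℝ) ≤ D * (R + 1) := by positivity
      have h2 : (L : ℝ) ≤ ((D : ℝ) * (R + 1)) ^ p := by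
        have h3 : L ≤ (D * (R + 1)) ^ p := by
          have h4 : Q - 1 = p := by omega
          rw [h4] at hR
          rw [mul_pow]
          refine hR.le.trans (Nat.mul_le_mul_right _ ?_)
          exact Nat.le_self_pow hp0 D
        exact_mod_cast h3
      have h5 : (L : ℝ) ^ ((p : ℝ)⁻¹) ≤ D * (R + 1) := by
        have h6 := Real.rpow_le_rpow hLp.le h2 (by positivity : (0 : ℝ) ≤ (p : ℝ)⁻¹)
        rwa [Real.pow_rpow_inv_natCast hX hp0] at h6
      rw [hexp, Real.rpow_add hLp, Real.rpow_one]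
      calc (L : ℝ) * (L : ℝ) ^ ((p : ℝ)⁻¹) ≤ L * (D * (R + 1)) :=
            mul_le_mul_of_nonneg_left h5 hL0
        _ = D * ((L : ℝ) * R + L) := by ring
  have h2 : (L : ℝ) * R ≤ 2 * (q * f) + L := by exact_mod_cast hq
  have h3 : (μ : ℝ) ≤ C₁ * S₀ * L := by exact_mod_cast hμ
  have h4 : (q : ℝ) * f ≤ B * M / e * J + B * M * (C₁ * S₀) / e * L := by
    have h5 : (q : ℝ) * f ≤ B * (M * (J + μ)) / e := by
      rw [le_div_iff₀ he]
      exact hval
    refine h5.trans ?_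
    have h6 : B * (M * (J + μ)) ≤ B * (M * (J + C₁ * S₀ * L)) := by
      refine mul_le_mul_of_nonneg_left (mul_le_mul_of_nonneg_left ?_ hM) hB
      linarith
    calc B * (M * (J + μ)) / e ≤ B * (M * (J + C₁ * S₀ * L)) / e :=
          div_le_div_of_nonneg_right h6 he.le
      _ = B * M / e * J + B * M * (C₁ * S₀) / e * L := by ring
  have h7 : (0 : ℝ) ≤ D * L := mul_nonneg hD0 hL0
  calc (L : ℝ) ^ ((Q : ℝ) / ((Q : ℝ) - 1)) ≤ D * ((L : ℝ) * R + L) := h1
    _ ≤ D * ((2 * (B * M / e * J + B * M * (C₁ * S₀) / e * L) + L) + L) := by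
        refine mul_le_mul_of_nonneg_left ?_ hD0
        linarith
    _ = 2 * D * (B * M / e) * J + 2 * D * (B * M * (C₁ * S₀) / e + 1) * L := by ring
    _ ≤ 2 * D * (B * M / e) * J + 2 * D * (B * M * (C₁ * S₀) / e + 2) * L := by linarith

/-- As `log_bound` (copy its proof), with polynomial Følner sets.

Changes: `C₀` from `hF S`, `D = C₀ + 1`; for `L` let `R` be the greatest number with `D * R ^ (Q-1) ≤ L`
(`Nat.findGreatest`, bounded by `L`; so `L < D * (R+1) ^ (Q-1)`).  If `R = 0` use `PPow_num` with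
`q = f = μ = 0`.  If `R ≥ 1` take `F` from `hF` for `R`; `|F| ≤ C₀ * R ^ Q ≤ L * R` and `q = ⌊L R / |F|⌋`,
`q |F| ≤ L R ≤ (q + 1) |F| ≤ 2 q |F|` since `q ≥ 1`. -/
theorem pow_bound (m : ℕ) (hm : 1 ≤ m) (H : Subgroup Γ) (ω : List Γ → ℝ) (Q : ℕ) (hQ : 2 ≤ Q)
    (hPD : PD H (m + 1) ω) (hcoc : ∀ σ : List Γ, σ.length = m + 3 → dc ω σ = 0)
    (hbd : ∀ 𝒯 : Set (List Γ), 𝒯.Finite → ∃ B : ℝ, ∀ g : Γ, ∀ τ ∈ 𝒯, τ.length = m + 2 →
      |ω (τ.map (fun x => g * x))| ≤ B)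
    (hF : ∀ S : Finset Γ, (∀ s ∈ S, s ∈ H) → ∃ C : ℕ, ∀ R : ℕ, 1 ≤ R → ∃ F : Finset Γ,
      F.Nonempty ∧ (∀ g ∈ F, g ∈ H) ∧ F.card ≤ C * R ^ Q ∧
      ∀ s ∈ S, R * Set.ncard {g : Γ | g ∈ F ∧ g * s ∉ F} ≤ F.card)
    (K : GComplex Γ) (hK : K.FiniteTo (m + 1)) :
    Dominated (powQ Q) (fun L => (K.iso m L : ℝ≥0∞)) := by
  classical
  obtain ⟨z, hz, hzI, hze⟩ := hPD.det
  rw [bd0_of_gr hz] at hzI
  obtain ⟨S, hS, C₁, hC₁⟩ := avg_small H (m + 1) (bdL z) hzI
  obtain ⟨C₀, hC₀⟩ := hF S hS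
  obtain ⟨sK, hsK⟩ := hK (m + 1) le_rfl
  have h𝒯 : ({σ | σ ∈ (bdL z).support} : Set (List Γ)).Finite := (bdL z).support.finite_toSet
  obtain ⟨𝒯', hfin', M, hM⟩ := fill_bar K m hm sK hsK {σ | σ ∈ (bdL z).support} h𝒯
  obtain ⟨B₀, hB₀⟩ := hbd 𝒯' hfin'
  set B : ℝ := max B₀ 0 with hB
  have hB0 : 0 ≤ B := le_max_right _ _
  have he : 0 < |ev ω z| := abs_pos.2 hze
  set D : ℕ := C₀ + 1 with hD
  set a : ℝ := 2 * D * (B * M / |ev ω z|) with ha
  set b : ℝ := 2 * D * (B * M * (C₁ * S.card) / |ev ω z| + 2) with hb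
  obtain ⟨C₃, hC₃⟩ := exists_nat_gt (max a b)
  have hCa : a ≤ C₃ := (le_max_left _ _).trans hC₃.le
  have hCb : b ≤ C₃ := (le_max_right _ _).trans hC₃.le
  refine ⟨C₃ + M * (C₁ * S.card) + 1, Nat.succ_pos _, fun L => ?_⟩
  set C : ℕ := C₃ + M * (C₁ * S.card) + 1 with hC
  beta_reduce
  by_cases htop : K.iso m (C * L + C) = ⊤
  · rw [htop, ENat.toENNReal_top, ENNReal.mul_top (by rw [Ne, Nat.cast_eq_zero]; omega)]
    simp
  obtain ⟨J, hJ⟩ := ENat.ne_top_iff_exists.1 htop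
  rw [← hJ, ENat.toENNReal_coe]
  have hgoal : (L : ℝ) ^ ((Q : ℝ) / ((Q : ℝ) - 1)) ≤ a * J + b * L := by
    obtain ⟨R, hRdef⟩ : ∃ R : ℕ, R = Nat.findGreatest (fun R => D * R ^ (Q - 1) ≤ L) L :=
      ⟨_, rfl⟩
    have hR : L < D * (R + 1) ^ (Q - 1) := by
      rcases Nat.lt_or_ge L (R + 1) with h | h
      · have h1 : R + 1 ≤ (R + 1) ^ (Q - 1) := Nat.le_self_pow (by omega) _
        have h2 : (R + 1) ^ (Q - 1) ≤ D * (R + 1) ^ (Q - 1) :=
          Nat.le_mul_of_pos_left _ (by omega)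
        omega
      · exact not_le.1 (Nat.findGreatest_is_greatest (P := fun R => D * R ^ (Q - 1) ≤ L)
          (by rw [← hRdef]; exact Nat.lt_succ_self R) h)
    rcases Nat.eq_zero_or_pos R with hR0 | hR0
    · refine PPow_num (μ := 0) (q := 0) (f := 0) (C₁ := C₁) (S₀ := S.card) hQ (by omega) he hB0
        (Nat.cast_nonneg M) hR ?_ (Nat.zero_le _) ?_
      · rw [hR0]
        omega
      · simp only [Nat.cast_zero, zero_mul]
        positivity
    · have hRL : D * R ^ (Q - 1) ≤ L :=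
        Nat.findGreatest_of_ne_zero (P := fun R => D * R ^ (Q - 1) ≤ L) hRdef.symm (by omega)
      obtain ⟨F, hFne, hFH, hFcard, hFS⟩ := hC₀ R hR0
      have hFL : F.card ≤ L * R := by
        have h1 : C₀ * R ^ Q ≤ D * R ^ (Q - 1) * R := by
          have h2 : R ^ Q = R ^ (Q - 1) * R := by
            rw [← pow_succ]
            congr 1
            omega
          rw [h2, mul_assoc]
          exact Nat.mul_le_mul_right _ (by omega)
        exact (hFcard.trans h1).trans (Nat.mul_le_mul_right _ hRL)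
      have hF0 : 0 < F.card := Finset.card_pos.2 hFne
      obtain ⟨q, hqdef⟩ : ∃ q : ℕ, q = L * R / F.card := ⟨_, rfl⟩
      have hq0 : 1 ≤ q := by
        rw [hqdef]
        exact Nat.div_pos hFL hF0
      have hq1 : q * F.card ≤ L * R := by
        rw [hqdef]
        exact Nat.div_mul_le_self _ _
      have hq2 : L * R ≤ 2 * (q * F.card) + L := by
        have h1 := Nat.lt_div_mul_add (a := L * R) hF0
        rw [← hqdef] at h1
        have h2 : F.card ≤ q * F.card := Nat.le_mul_of_pos_left _ hq0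
        omega
      -- the cycle
      set E : LC Γ := bdL ((q : ℤ) • avg F z) with hE
      have hEz : E = (q : ℤ) • avg F (bdL z) := by rw [hE, map_smul, Abs_avg_bdL]
      have hgr : (q : ℤ) • avg F z ∈ gr (Γ := Γ) (m + 2) :=
        Submodule.smul_mem _ _ (Abs_avg_gr F hz)
      have hE1 : E ∈ gr (Γ := Γ) (m + 1) := bdL_mem_gr hgr
      have hE2 : bdL E = 0 := bdL_bdL _
      have hE3 : OfType {σ | σ ∈ (bdL z).support} E := by
        rw [hEz]
        exact AbsLog_ofType_smul _ (Abs_ofType_sum F _ fun g _ => (ofType_self (bdL z)).mapL g)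
      -- its mass
      have hmass : mass E ≤ C₁ * S.card * L := by
        have h1 : mass E ≤ q * (C₁ * ∑ s ∈ S, Set.ncard {g : Γ | g ∈ F ∧ g * s ∉ F}) := by
          rw [hEz, mass_smul, Int.natAbs_natCast]
          exact Nat.mul_le_mul_left _ (hC₁ F)
        have h2 : R * ∑ s ∈ S, Set.ncard {g : Γ | g ∈ F ∧ g * s ∉ F} ≤ S.card * F.card := by
          rw [Finset.mul_sum]
          refine (Finset.sum_le_sum hFS).trans ?_
          simp
        have h3 : R * mass E ≤ R * (C₁ * S.card * L) := by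
          calc R * mass E ≤ R * (q * (C₁ * ∑ s ∈ S, Set.ncard {g : Γ | g ∈ F ∧ g * s ∉ F})) :=
                Nat.mul_le_mul_left _ h1
            _ = q * C₁ * (R * ∑ s ∈ S, Set.ncard {g : Γ | g ∈ F ∧ g * s ∉ F}) := by ring
            _ ≤ q * C₁ * (S.card * F.card) := Nat.mul_le_mul_left _ h2
            _ = C₁ * S.card * (q * F.card) := by ring
            _ ≤ C₁ * S.card * (L * R) := Nat.mul_le_mul_left _ hq1
            _ = R * (C₁ * S.card * L) := by ring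
        exact Nat.le_of_mul_le_mul_left h3 hR0
      obtain ⟨w₀, hw₀, hw₁, hw₂⟩ := hM E hE1 hE2 hE3
      have hw3 : mass w₀ ≤ C * L + C := by
        refine hw₁.trans ((Nat.mul_le_mul_left M hmass).trans ?_)
        have h1 : M * (C₁ * S.card * L) = M * (C₁ * S.card) * L := by ring
        rw [h1]
        refine le_trans (Nat.mul_le_mul_right L ?_) (Nat.le_add_right _ _)
        omega
      obtain ⟨c, hc, hcm⟩ := AbsLog_fill m K hJ.symm w₀ hw₀ hw3
      obtain ⟨c', hc1, hc2, hc3⟩ := hw₂ c hc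
      -- the value of the cocycle
      have hval : ev (Abs_cut (m + 2) ω) c' = q * (F.card * ev ω z) := by
        rw [Abs_ev_eq (m + 2) ω hcoc c' ((q : ℤ) • avg F z) hc1, Abs_ev_cut ω _ hgr, map_smul,
          Abs_avg_ev F H hFH ω (m + 2) hPD.inv z hz, zsmul_eq_mul, Int.cast_natCast]
      have hbound : |ev (Abs_cut (m + 2) ω) c'| ≤ B * mass c' := by
        apply Abs_ev_le
        intro σ hσ
        obtain ⟨g, τ, hτ, rfl⟩ := hc2 σ hσ
        unfold Abs_cut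
        split_ifs with hl
        · exact (hB₀ g τ hτ (by simpa using hl)).trans (le_max_left _ _)
        · simpa using hB0
      rw [hval, abs_mul, abs_mul, Nat.abs_cast, Nat.abs_cast] at hbound
      refine PPow_num (μ := mass E) (q := q) (f := F.card) (C₁ := C₁) (S₀ := S.card) hQ (by omega)
        he hB0 (Nat.cast_nonneg M) hR hq2 hmass ?_
      rw [mul_assoc]
      refine hbound.trans (mul_le_mul_of_nonneg_left ?_ hB0)
      have h4 : (mass c' : ℝ) ≤ M * (mass c + mass E) := by exact_mod_cast hc3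
      have h5 : (mass c : ℝ) ≤ J := by exact_mod_cast hcm
      refine h4.trans (mul_le_mul_of_nonneg_left ?_ (Nat.cast_nonneg M))
      linarith
  have hfin : (L : ℝ) ^ ((Q : ℝ) / ((Q : ℝ) - 1)) ≤ ((C * J + C * L + C : ℕ) : ℝ) := by
    refine hgoal.trans ?_
    push_cast
    have hJ0 : (0 : ℝ) ≤ J := Nat.cast_nonneg _
    have hL0 : (0 : ℝ) ≤ L := Nat.cast_nonneg _
    have hCC : (C₃ : ℝ) ≤ C := by
      have : C₃ ≤ C := by omega
      exact_mod_cast this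
    have hC0 : (0 : ℝ) ≤ C := Nat.cast_nonneg _
    have e1 : a * J ≤ C * J := mul_le_mul_of_nonneg_right (hCa.trans hCC) hJ0
    have e2 : b * L ≤ C * L := mul_le_mul_of_nonneg_right (hCb.trans hCC) hL0
    linarith
  have h9 : powQ Q L ≤ ((C * J + C * L + C : ℕ) : ℝ≥0∞) := by
    unfold powQ
    exact ENNReal.ofReal_le_natCast.2 hfin
  refine h9.trans (le_of_eq ?_)
  push_cast
  ring


end Pool.Agent.H.MP_e5d137_al.SL
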