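import Mathlib
import Pool.Agent.H.MP_e5d137_al.SL.PGrp
import Pool.Agent.H.MP_e5d137_al.SL.Block

/-!
# The tower of blocks
-/

namespace Pool.Agent.H.MP_e5d137_al.SL

variable {n : ℕ}

/-- As `tower` in `Tower.lean`.  Step from `i` to `i + 1 ≤ k`: `b = s (i+1) > 0`, `e = s i`, `NF_succ`, `PD.block` with
`N = NF s i`, `P = dF s i`, `A = AF s i`, `q = b * (e - b)`, `t = tB b`, `Ψ = PsB b e`: `hAt` is the third statement
and `Lv_tB`; `hΨN` is `PsB_fix` with `NF_Fb` for `h` and `h⁻¹`; `hΨt` is `PsB_tB` (`a < b * (e - b)` implies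
`b + a / b < e`); `hnorm` is `NF_nrm` with `Lv_tB`; `hcomm` is `tB_comm`.  Second statement: `dc_blk`.  Third statement: `Lv (s (i+1)) h`
implies `Lv (s i) h` (`Lv.mono`), and `volB_inv`. -/
theorem towerF (s : ℕ → ℕ) (hs : Antitone s) (h0 : s 0 = n) (k : ℕ) (hk : 0 < s k) (i : ℕ)
    (hi : i ≤ k) :
    PD (NF (n := n) s i) (dF s i) (AF s i) ∧
    (∀ σ : List (Matrix.GeneralLinearGroup (Fin n) ℤ), σ.length = dF s i + 2 →
      dc (AF s i) σ = 0) ∧
    (∀ h : Matrix.GeneralLinearGroup (Fin n) ℤ, Lv (s i) h →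
      ∀ σ : List (Matrix.GeneralLinearGroup (Fin n) ℤ), σ.length = dF s i + 1 →
      AF s i (σ.map (fun x => h * x)) = AF s i σ) := by
  induction i with
  | zero =>
    refine ⟨?_, ?_, fun _ _ _ _ => rfl⟩
    · rw [NF_zero]
      exact PD.bot
    · intro σ hσ
      rw [dc_eq, hσ]
      show ∑ i ∈ Finset.range 2, (-1 : ℝ) ^ i * 1 = 0
      rw [Finset.sum_range_succ, Finset.sum_range_one]
      norm_num
  | succ i ih =>
    obtain ⟨ih1, ih2, ih3⟩ := ih (by omega)
    have hb : 0 < s (i + 1) := lt_of_lt_of_le hk (hs hi)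
    have hbe : s (i + 1) ≤ s i := hs (Nat.le_succ i)
    have hen : s i ≤ n := by
      rw [← h0]
      exact hs (Nat.zero_le i)
    have hlt : ∀ a, a < s (i + 1) * (s i - s (i + 1)) → s (i + 1) + a / s (i + 1) < s i := by
      intro a ha
      have h1 : a / s (i + 1) < s i - s (i + 1) :=
        (Nat.div_lt_iff_lt_mul hb).2 (by rw [mul_comm]; exact ha)
      omega
    rw [NF_succ s hs h0 i]
    refine ⟨PD.block (NF s i) (dF s i) (AF s i) (s (i + 1) * (s i - s (i + 1)))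
      (tB (s (i + 1))) (PsB (s (i + 1)) (s i)) ih1 ih2 ?_ ?_ ?_ ?_ ?_, ?_, ?_⟩
    · intro l hl σ hσ
      exact ih3 _ (Lv_tB _ _ l hb (hlt l hl)) σ hσ
    · intro h hh x
      exact PsB_fix _ _ hbe h x (NF_Fb s hs i h hh) (NF_Fb s hs i h⁻¹ (inv_mem hh))
    · intro l hl x m
      exact PsB_tB _ _ l hb hen (hlt l hl) x m
    · intro l hl
      exact NF_nrm s hs i _ (fun a c hac => (Lv_tB (n := n) _ _ l hb (hlt l hl)).row a c hac)
    · intro l _ m _
      rw [tB_comm _ _ _ hb]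
      exact one_mem _
    · intro σ hσ
      exact dc_blk (dF s i) _ (AF s i) _ ih2 σ hσ
    · intro h hh σ hσ
      have hσ' : σ.length = dF s i + s (i + 1) * (s i - s (i + 1)) + 1 := hσ
      show blk (dF s i) (AF s i) (PsB (s (i + 1)) (s i)) (s (i + 1) * (s i - s (i + 1))) _ =
        blk (dF s i) (AF s i) (PsB (s (i + 1)) (s i)) (s (i + 1) * (s i - s (i + 1))) _
      unfold blk cupr
      rw [← List.map_take, ← List.map_drop, ih3 h (hh.mono hbe) _
          (by rw [List.length_take, hσ']; omega),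
        volB_inv _ _ hb hbe hen h hh _ (by rw [List.length_drop, hσ']; omega)]

/-- The product of the weights.  By induction on `i`: `(∏ r < i, WB (s (r+1)) (s r) x) * Dn (s i) x ^ (s i) ≤ 1`; for `i = 0`
this is `Dn_full`; step: `WB (s (i+1)) (s i) x * Dn (s (i+1)) x ^ (s (i+1)) = Dn (s i) x ^ (s (i+1)) / Dn (s (i+1)) x ^ (s i - s (i+1))
≤ Dn (s i) x ^ (s i)` since all `Dn` are at least `1`. -/
theorem prod_WB_le (s : ℕ → ℕ) (hs : Antitone s) (h0 : s 0 = n) (i : ℕ)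
    (x : Matrix.GeneralLinearGroup (Fin n) ℤ) :
    ∏ r ∈ Finset.range i, WB (s (r + 1)) (s r) x ≤ 1 := by
  have hle : ∀ i, s i ≤ n := by
    intro i
    rw [← h0]
    exact hs (Nat.zero_le i)
  have hpos : ∀ i, (1 : ℝ) ≤ Dn (s i) x := fun i => one_le_Dn (s i) (hle i) x
  have hnn : ∀ i, 0 ≤ ∏ r ∈ Finset.range i, WB (s (r + 1)) (s r) x := by
    intro i
    refine Finset.prod_nonneg fun r _ => ?_
    exact div_nonneg (pow_nonneg (zero_le_one.trans (hpos _)) _)
      (pow_nonneg (zero_le_one.trans (hpos _)) _)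
  have key : ∀ i, (∏ r ∈ Finset.range i, WB (s (r + 1)) (s r) x) * Dn (s i) x ^ (s i) ≤ 1 := by
    intro i
    induction i with
    | zero =>
      rw [Finset.range_zero, Finset.prod_empty, one_mul, h0, Dn_full, one_pow]
    | succ i ih =>
      have hbe : s (i + 1) ≤ s i := hs (Nat.le_succ i)
      rw [Finset.prod_range_succ, mul_assoc]
      refine le_trans (mul_le_mul_of_nonneg_left ?_ (hnn i)) ih
      have h1 : 0 < Dn (s (i + 1)) x := lt_of_lt_of_le one_pos (hpos _)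
      have h2 : WB (s (i + 1)) (s i) x * Dn (s (i + 1)) x ^ (s (i + 1)) =
          Dn (s i) x ^ (s (i + 1)) / Dn (s (i + 1)) x ^ (s i - s (i + 1)) := by
        unfold WB
        rw [div_mul_eq_mul_div, div_eq_div_iff (pow_pos h1 _).ne' (pow_pos h1 _).ne', mul_assoc,
          ← pow_add, Nat.add_sub_cancel' hbe]
      rw [h2]
      calc Dn (s i) x ^ (s (i + 1)) / Dn (s (i + 1)) x ^ (s i - s (i + 1))
          ≤ Dn (s i) x ^ (s (i + 1)) :=
            div_le_self (pow_nonneg (zero_le_one.trans (hpos _)) _) (one_le_pow₀ (hpos _))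
        _ ≤ Dn (s i) x ^ (s i) := pow_le_pow_right₀ (hpos _) hbe
  refine le_trans ?_ (key i)
  exact le_mul_of_one_le_right (hnn i) (one_le_pow₀ (hpos _))

private theorem PTow_le (s : ℕ → ℕ) (hs : Antitone s) (h0 : s 0 = n) (k : ℕ) (hk : 0 < s k) (i : ℕ)
    (hi : i ≤ k) (T : Finset (Matrix.GeneralLinearGroup (Fin n) ℤ)) :
    ∃ C : ℝ, 0 ≤ C ∧ ∀ (x : Matrix.GeneralLinearGroup (Fin n) ℤ)
      (σ : List (Matrix.GeneralLinearGroup (Fin n) ℤ)), σ.length = dF s i + 1 →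
      (∀ y ∈ σ, ∃ g ∈ T, y = x * g) →
      AF s i σ ^ 2 ≤ C * ∏ r ∈ Finset.range i, WB (s (r + 1)) (s r) x := by
  induction i with
  | zero =>
    refine ⟨1, zero_le_one, ?_⟩
    intro x σ _ _
    rw [Finset.range_zero, Finset.prod_empty]
    show (1 : ℝ) ^ 2 ≤ 1 * 1
    norm_num
  | succ i ih =>
    obtain ⟨C, hC, h⟩ := ih (by omega)
    have hb : 0 < s (i + 1) := lt_of_lt_of_le hk (hs hi)
    have hbe : s (i + 1) ≤ s i := hs (Nat.le_succ i)
    have hle : ∀ i, s i ≤ n := by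
      intro i
      rw [← h0]
      exact hs (Nat.zero_le i)
    obtain ⟨D, hD, hv⟩ := volB_le T (s (i + 1)) (s i) hb hbe (hle i)
    refine ⟨C * D, mul_nonneg hC hD, ?_⟩
    intro x σ hσ hT
    have hσ' : σ.length = dF s i + s (i + 1) * (s i - s (i + 1)) + 1 := hσ
    have hpos : ∀ i, (1 : ℝ) ≤ Dn (s i) x := fun i => one_le_Dn (s i) (hle i) x
    have hnn : ∀ r, 0 ≤ WB (s (r + 1)) (s r) x := fun r =>
      div_nonneg (pow_nonneg (zero_le_one.trans (hpos _)) _)
        (pow_nonneg (zero_le_one.trans (hpos _)) _)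
    have e1 : AF s (i + 1) σ = AF s i (σ.take (dF s i + 1)) *
        vc (PsB (s (i + 1)) (s i)) (s (i + 1) * (s i - s (i + 1))) (σ.drop (dF s i)) := rfl
    have h1 := h x (σ.take (dF s i + 1)) (by rw [List.length_take, hσ']; omega)
      (fun y hy => hT y (List.mem_of_mem_take hy))
    have h2 := hv x (σ.drop (dF s i))
      (by rw [List.length_drop, hσ']; omega)
      (fun y hy => hT y (List.mem_of_mem_drop hy))
    rw [e1, Finset.prod_range_succ, mul_pow]
    refine le_trans (mul_le_mul h1 h2 (sq_nonneg _)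
      (mul_nonneg hC (Finset.prod_nonneg fun r _ => hnn r))) (le_of_eq ?_)
    ring

/-- As `Ac_le`, `Ac_bdd` in `Bdd.lean`, with `volB_le` and `prod_WB_le`. -/
theorem AF_bdd (s : ℕ → ℕ) (hs : Antitone s) (h0 : s 0 = n) (k : ℕ) (hk : 0 < s k) (i : ℕ)
    (hi : i ≤ k) (T : Finset (Matrix.GeneralLinearGroup (Fin n) ℤ)) :
    ∃ C : ℝ, ∀ (x : Matrix.GeneralLinearGroup (Fin n) ℤ)
      (σ : List (Matrix.GeneralLinearGroup (Fin n) ℤ)), σ.length = dF s i + 1 →
      (∀ y ∈ σ, ∃ g ∈ T, y = x * g) → |AF s i σ| ≤ C := by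
  obtain ⟨C, hC, h⟩ := PTow_le s hs h0 k hk i hi T
  refine ⟨Real.sqrt C, ?_⟩
  intro x σ hσ hT
  apply Real.abs_le_sqrt
  have h1 := h x σ hσ hT
  have h2 := prod_WB_le s hs h0 i x
  have h3 := mul_le_mul_of_nonneg_left h2 hC
  linarith

end Pool.Agent.H.MP_e5d137_al.SL
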