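import Mathlib
import Pool.Agent.H.MP_e5d137_al.SL.PTow
import Pool.Agent.H.MP_e5d137_al.SL.PFolC
import Pool.Agent.H.MP_e5d137_al.SL.PPow

/-!
# Power lower bounds for the isoperimetric functions of `GL(n,ℤ)`
-/

namespace Pool.Agent.H.MP_e5d137_al.SL

open scoped ENNReal

variable {n : ℕ}

theorem dF_eq (s : ℕ → ℕ) (k : ℕ) :
    dF s k = ∑ r ∈ Finset.range k, s (r + 1) * (s r - s (r + 1)) := by
  induction k with
  | zero => rfl
  | succ k ih => rw [Finset.sum_range_succ, ← ih]; rfl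

/-- the final theorem: for a flag `n = s 0 ≥ s 1 ≥ ... ≥ s k > 0` -/
theorem pow_GL (s : ℕ → ℕ) (hs : Antitone s) (h0 : s 0 = n) (k : ℕ) (hk : 0 < s k) (m : ℕ)
    (hm : 1 ≤ m) (hd : m + 1 = ∑ r ∈ Finset.range k, s (r + 1) * (s r - s (r + 1)))
    (K : GComplex (Matrix.GeneralLinearGroup (Fin n) ℤ)) (hK : K.FiniteTo (m + 1)) :
    Dominated (powQ (∑ r ∈ Finset.range k, s (r + 1) * (n - s (r + 1))))
      (fun L => (K.iso m L : ℝ≥0∞)) := by
  classical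
  obtain ⟨hT1, hT2, -⟩ := towerF s hs h0 k hk k le_rfl
  have hd' : dF s k = m + 1 := by rw [dF_eq, hd]
  rw [hd'] at hT1
  have hQ : QB s k k = ∑ r ∈ Finset.range k, s (r + 1) * (n - s (r + 1)) := by
    rw [QB_eq s hs k, h0]
  have hQ2 : 2 ≤ ∑ r ∈ Finset.range k, s (r + 1) * (n - s (r + 1)) := by
    have h1 : ∑ r ∈ Finset.range k, s (r + 1) * (s r - s (r + 1)) ≤
        ∑ r ∈ Finset.range k, s (r + 1) * (n - s (r + 1)) := by
      refine Finset.sum_le_sum fun r _ => Nat.mul_le_mul_left _ ?_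
      have h2 : s r ≤ n := h0 ▸ hs (Nat.zero_le r)
      omega
    omega
  refine pow_bound m hm (NF s k) (AF s k) _ hQ2 hT1 (fun σ hσ => hT2 σ (by omega)) ?_ ?_ K hK
  · intro 𝒯 h𝒯
    obtain ⟨T, hT⟩ : ∃ T : Finset (Matrix.GeneralLinearGroup (Fin n) ℤ),
        T = h𝒯.toFinset.biUnion fun σ => σ.toFinset := ⟨_, rfl⟩
    obtain ⟨C, hC⟩ := AF_bdd s hs h0 k hk k le_rfl T
    refine ⟨C, fun g σ hσ hl => hC g _ (by rw [List.length_map, hl, hd']) ?_⟩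
    intro y hy
    obtain ⟨x, hx, rfl⟩ := List.mem_map.1 hy
    refine ⟨x, ?_, rfl⟩
    rw [hT, Finset.mem_biUnion]
    exact ⟨σ, h𝒯.mem_toFinset.2 hσ, List.mem_toFinset.2 hx⟩
  · intro S hS
    rw [← hQ]
    exact PW.fol _ (NF s k) _ (PW_NF s hs h0 k hk k le_rfl) (fun g hg => NF_Ut s hs k g hg) S hS

end Pool.Agent.H.MP_e5d137_al.SL
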